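import Pool.Agent.H29.Kap.Defs

/-! # Expectations of local functions and the number of clusters of the open graph -/

set_option autoImplicit false

open MeasureTheory ProbabilityTheory unitInterval

namespace Pool.Agent.H29.Kap

open Pool.Agent.H89.Perc Pool.Agent.Perc

/-- The expectation of a local function is a finite sum. -/
theorem integral_eq_Ex {s : Finset Edge} {f : Config → ℝ}
    (hf : ∀ ω ω' : Config, (∀ e ∈ s, ω e = ω' e) → f ω = f ω') (p : I) :
    ∫ ω, f ω ∂(μ p) = Ex (p : ℝ) s (fun S => f (ofS S)) := by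
  classical
  have h1 : ∀ ω : Config, f ω = ∑ S ∈ s.powerset, (cyl s S).indicator (fun _ => f (ofS S)) ω := by
    intro ω
    set S0 : Finset Edge := s.filter (fun e => ω e = true) with hS0
    have hS0s : S0 ∈ s.powerset := Finset.mem_powerset.2 (Finset.filter_subset _ _)
    have hω : ω ∈ cyl s S0 := by
      rw [mem_cyl]
      intro e he
      rw [ofS_apply, hS0]
      simp [he]
    rw [Finset.sum_eq_single_of_mem S0 hS0s]
    · rw [Set.indicator_of_mem hω]
      exact hf _ _ fun e he => mem_cyl.1 hω e he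
    · intro S hS hne
      rw [Set.indicator_of_notMem]
      intro hc
      rw [mem_cyl] at hc hω
      apply hne
      ext e
      by_cases he : e ∈ s
      · have := (hc e he).symm.trans (hω e he)
        rw [ofS_apply, ofS_apply, decide_eq_decide] at this
        exact this
      · exact ⟨fun h => absurd (Finset.mem_powerset.1 hS h) he,
          fun h => absurd (Finset.mem_powerset.1 hS0s h) he⟩
  have h2 : ∫ ω, f ω ∂(μ p) =
      ∫ ω, ∑ S ∈ s.powerset, (cyl s S).indicator (fun _ => f (ofS S)) ω ∂(μ p) :=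
    integral_congr_ae (Filter.Eventually.of_forall h1)
  rw [h2, integral_finsetSum]
  · unfold Ex
    refine Finset.sum_congr rfl fun S hS => ?_
    rw [integral_indicator_const _ (measurableSet_cyl s S), smul_eq_mul]
    have h3 : (μ p).real (cyl s S) = H89.Perc.Pr p (cyl s S) := rfl
    rw [h3, Pr_cyl p (Finset.mem_powerset.1 hS)]
  · intro S _
    exact (integrable_const _).indicator (measurableSet_cyl s S)

/-- The open subgraph of the square lattice (as in the hand-in). -/
def openGraph (ω : Edge → Bool) : SimpleGraph (ℤ × ℤ) :=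
  SimpleGraph.fromRel fun u v =>
    (ω (u.1, u.2, false) = true ∧ v = (u.1 + 1, u.2)) ∨
      (ω (u.1, u.2, true) = true ∧ v = (u.1, u.2 + 1))

/-- The box with `n × n` vertices. -/
def box (n : ℕ) : Set (ℤ × ℤ) := {v | 0 ≤ v.1 ∧ v.1 < n ∧ 0 ≤ v.2 ∧ v.2 < n}

/-- The number of clusters in the box with `n × n` vertices. -/
noncomputable def numClusters (n : ℕ) (ω : Edge → Bool) : ℕ :=
  Nat.card ((openGraph ω).induce (box n)).ConnectedComponent

theorem integral_step_iff (ω : Edge → Bool) (S : Set Vert) (u v : ℤ × ℤ) :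
    Step ω S u v ↔ u ∈ S ∧ v ∈ S ∧ (openGraph ω).Adj u v := by
  unfold Step
  refine and_congr_right fun _ => and_congr_right fun _ => ?_
  obtain ⟨a, b⟩ := u
  obtain ⟨c, d⟩ := v
  simp only [openGraph, SimpleGraph.fromRel_adj, Joins, src, tgt]
  constructor
  · rintro ⟨⟨x, y, t⟩, h, ho⟩
    cases t
    · rcases h with ⟨h1, h2⟩ | ⟨h1, h2⟩
      · simp only [Prod.mk.injEq, Bool.false_eq_true, if_false] at h1 h2
        obtain ⟨rfl, rfl⟩ := h1
        obtain ⟨rfl, rfl⟩ := h2
        exact ⟨by simp, Or.inl (Or.inl ⟨ho, rfl⟩)⟩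
      · simp only [Prod.mk.injEq, Bool.false_eq_true, if_false] at h1 h2
        obtain ⟨rfl, rfl⟩ := h1
        obtain ⟨rfl, rfl⟩ := h2
        exact ⟨by simp, Or.inr (Or.inl ⟨ho, rfl⟩)⟩
    · rcases h with ⟨h1, h2⟩ | ⟨h1, h2⟩
      · simp only [Prod.mk.injEq, if_true] at h1 h2
        obtain ⟨rfl, rfl⟩ := h1
        obtain ⟨rfl, rfl⟩ := h2
        exact ⟨by simp, Or.inl (Or.inr ⟨ho, rfl⟩)⟩
      · simp only [Prod.mk.injEq, if_true] at h1 h2
        obtain ⟨rfl, rfl⟩ := h1
        obtain ⟨rfl, rfl⟩ := h2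
        exact ⟨by simp, Or.inr (Or.inr ⟨ho, rfl⟩)⟩
  · rintro ⟨_, (⟨ho, h⟩ | ⟨ho, h⟩) | (⟨ho, h⟩ | ⟨ho, h⟩)⟩
    · exact ⟨(a, b, false), Or.inl ⟨rfl, h⟩, ho⟩
    · exact ⟨(a, b, true), Or.inl ⟨rfl, h⟩, ho⟩
    · exact ⟨(c, d, false), Or.inr ⟨h, rfl⟩, ho⟩
    · exact ⟨(c, d, true), Or.inr ⟨h, rfl⟩, ho⟩

theorem integral_reachable_iff (ω : Edge → Bool) (S : Set Vert) (u v : S) :
    ((openGraph ω).induce S).Reachable u v ↔ Conn ω S u v := by
  constructor
  · rintro ⟨w⟩
    induction w with
    | nil => exact Conn.refl (Subtype.property _)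
    | cons h _ ih =>
      refine Conn.trans (Step.conn ?_) ih
      rw [integral_step_iff]
      exact ⟨Subtype.property _, Subtype.property _, h⟩
  · intro h
    have key : ∀ x : Vert, Conn ω S u x → ∀ hx : x ∈ S,
        ((openGraph ω).induce S).Reachable u ⟨x, hx⟩ := by
      intro x hc
      refine hc.induction_right (P := fun x => ∀ hx : x ∈ S,
        ((openGraph ω).induce S).Reachable u ⟨x, hx⟩) (fun hx => SimpleGraph.Reachable.refl _) ?_
      intro a b _ hab ih hb
      rw [integral_step_iff] at hab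
      refine (ih hab.1).trans ?_
      exact SimpleGraph.Adj.reachable (u := (⟨a, hab.1⟩ : S)) (v := (⟨b, hb⟩ : S)) hab.2.2
    exact key v h v.2

theorem integral_box_eq (n : ℕ) : box n = rect 0 (n - 1) 0 (n - 1) := by
  ext v
  simp only [box, rect, Set.mem_ofPred_eq]
  omega

theorem numClusters_eq (n : ℕ) (ω : Edge → Bool) :
    numClusters n ω = K ω (rect 0 (n - 1) 0 (n - 1)) := by
  unfold numClusters K
  rw [← integral_box_eq, ← Nat.card_coe_set_eq]
  set S : Set Vert := box n with hS
  let φ : ((openGraph ω).induce S).ConnectedComponent → clusters ω S :=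
    Quot.lift (fun v : S => ⟨{w | Conn ω S v w}, v, v.2, rfl⟩) (by
      intro u v huv
      have huv' : Conn ω S u v := (integral_reachable_iff ω S u v).1 huv
      apply Subtype.ext
      ext w
      exact ⟨fun h => huv'.symm.trans h, fun h => huv'.trans h⟩)
  refine Nat.card_eq_of_bijective φ ⟨?_, ?_⟩
  · intro x y
    refine Quot.induction_on₂ x y fun u v h => ?_
    have h1 : ({w | Conn ω S u w} : Set Vert) = {w | Conn ω S v w} := congrArg Subtype.val h
    have h2 : (v : Vert) ∈ ({w | Conn ω S u w} : Set Vert) := by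
      rw [h1]; exact Conn.refl v.2
    exact Quot.sound ((integral_reachable_iff ω S u v).2 h2)
  · rintro ⟨C, v, hv, rfl⟩
    exact ⟨Quot.mk _ ⟨v, hv⟩, rfl⟩

theorem integral_K_congr {ω ω' : Config} {S : Set Vert}
    (h : ∀ e, src e ∈ S → tgt e ∈ S → ω e = ω' e) : K ω S = K ω' S := by
  have h1 : ∀ u v, Conn ω S u v ↔ Conn ω' S u v := fun u v =>
    ⟨Conn.congr h, Conn.congr fun e h1 h2 => (h e h1 h2).symm⟩
  unfold K clusters
  simp only [h1]

theorem integral_numClusters (n : ℕ) (p : I) :
    ∫ ω, (numClusters n ω : ℝ) ∂(μ p) = EK p 0 (n - 1) 0 (n - 1) := by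
  simp only [numClusters_eq]
  unfold EK
  refine integral_eq_Ex (s := redges 0 (n - 1) 0 (n - 1))
    (f := fun ω => (K ω (rect 0 (n - 1) 0 (n - 1)) : ℝ)) (fun ω ω' h => ?_) p
  have : K ω (rect 0 (n - 1) 0 (n - 1)) = K ω' (rect 0 (n - 1) 0 (n - 1)) :=
    integral_K_congr fun e h1 h2 => h e (mem_redges.2 ⟨h1, h2⟩)
  exact congrArg _ this

/-- The probability that the origin is joined to the boundary of the box `[-n, n]²`, in terms of the
open graph. -/
theorem oneArm_eq (n : ℕ) (p : I) :
    (μ p).real {ω | ∃ v : ℤ × ℤ, (v.1.natAbs = n ∨ v.2.natAbs = n) ∧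
      (openGraph ω).Reachable (0, 0) v} = arm p n := by
  unfold arm H89.Perc.Pr
  congr 1
  ext ω
  simp only [Set.mem_ofPred_eq]
  constructor
  · rintro ⟨v, hv, hr⟩
    have hc : Conn ω Set.univ (0 : Vert) v := by
      obtain ⟨w⟩ := hr
      have key : ∀ x y : ℤ × ℤ, (openGraph ω).Walk x y → Conn ω Set.univ x y := by
        intro x y w
        induction w with
        | nil => exact Conn.refl (Set.mem_univ _)
        | cons h _ ih =>
          refine Conn.trans (Step.conn ?_) ih
          rw [integral_step_iff]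
          exact ⟨Set.mem_univ _, Set.mem_univ _, h⟩
      exact key _ _ w
    refine hc.mem_arm ?_
    rw [Prod.fst_zero, Prod.snd_zero, sub_zero, sub_zero]
    rcases hv with hv | hv
    · left; rw [Int.abs_eq_natAbs, hv]
    · right; rw [Int.abs_eq_natAbs, hv]
  · rintro ⟨u, hu, hc⟩
    refine ⟨u, ?_, ?_⟩
    · obtain ⟨h1, h2⟩ := hu
      rw [Prod.fst_zero, Prod.snd_zero] at h2
      rw [mem_ball, Prod.fst_zero, Prod.snd_zero] at h1
      omega
    · refine hc.induction_right (P := fun x => (openGraph ω).Reachable (0, 0) x)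
        (SimpleGraph.Reachable.refl _) ?_
      intro a b _ hab ih
      rw [integral_step_iff] at hab
      exact ih.trans hab.2.2.reachable

end Pool.Agent.H29.Kap
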