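import Pool.Agent.H29.Kap.Rem

/-! # Consequences for the exponent `α` -/

set_option autoImplicit false

open Filter

namespace Pool.Agent.H29.Kap

/-- A power bound for the one-arm probability gives a power bound for `R`. -/
theorem holder_of_bound {κ : ℝ → ℝ} {π : ℕ → ℝ} {C : ℝ}
    (hb : ∀ p : ℝ, 0 ≤ p → p ≤ 1 → ∀ N : ℕ, 2 ≤ N →
      |p - 1 / 2| * N * π N * Real.sqrt (Real.log N) ≤ 1 →
      |Rem κ p| ≤ C * (Real.log N / (N : ℝ) ^ 2))
    {a b : ℝ} (ha : 0 < a) (ha1 : a < 1) (h : ∀ᶠ n : ℕ in atTop, π n ≤ (n : ℝ) ^ (-a))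
    (hb0 : 0 < b) (hba : b < a) :
    ∃ C' δ : ℝ, 0 < δ ∧ ∀ p : ℝ, 0 ≤ p → p ≤ 1 → |p - 1 / 2| < δ →
      |Rem κ p| ≤ C' * |p - 1 / 2| ^ (2 / (1 - b)) := by
  obtain ⟨b', hb1, hb2⟩ := exists_between hba
  have hr : 0 < 2 * (a - b') := by linarith
  have h1b' : 0 < 1 - b' := by linarith
  have h1b : 0 < 1 - b := by linarith
  have hlog : ∀ᶠ n : ℕ in atTop, Real.log n ≤ (n : ℝ) ^ (2 * (a - b')) := by
    have h1 := (isLittleO_log_rpow_atTop hr).bound (c := 1) one_pos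
    have h2 := tendsto_natCast_atTop_atTop.eventually h1
    filter_upwards [h2, eventually_ge_atTop 1] with n hn hn1
    have e1 : ‖(n : ℝ) ^ (2 * (a - b'))‖ = (n : ℝ) ^ (2 * (a - b')) := by
      rw [Real.norm_eq_abs, abs_of_nonneg (Real.rpow_nonneg (by positivity) _)]
    rw [e1, one_mul] at hn
    exact (le_abs_self _).trans hn
  obtain ⟨N0, hN0⟩ := eventually_atTop.1 ((h.and hlog).and (eventually_ge_atTop 2))
  set η : ℝ := 2 / (1 - b') - 2 / (1 - b) with hη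
  have hη0 : 0 < η := by
    rw [hη, sub_pos]
    apply div_lt_div_of_pos_left (by norm_num) (by linarith) (by linarith)
  set ε : ℝ := η * (1 - b') with hε
  have hε0 : 0 < ε := mul_pos hη0 h1b'
  refine ⟨|C| * (1 / ε * 4), ((N0 : ℝ) + 1) ^ (-(1 - b')), by positivity, ?_⟩
  intro p hp0 hp1 hpδ
  rcases eq_or_ne p (1 / 2) with rfl | hne
  · have e1 : Rem κ (1 / 2) = 0 := by unfold Rem; simp
    rw [e1]
    simp only [sub_self, abs_zero]
    rw [Real.zero_rpow (by positivity), mul_zero]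
  set t := |p - 1 / 2| with ht
  have ht0 : 0 < t := abs_pos.2 (sub_ne_zero.2 hne)
  set x : ℝ := t ^ (-(1 / (1 - b'))) with hx
  have hx0 : 0 < x := Real.rpow_pos_of_pos ht0 _
  have hxt : x ^ (-(1 - b')) = t := by
    rw [hx, ← Real.rpow_mul ht0.le]
    have : -(1 / (1 - b')) * -(1 - b') = 1 := by field_simp
    rw [this, Real.rpow_one]
  have hxN : (N0 : ℝ) + 1 < x := by
    by_contra hcon
    push Not at hcon
    have : ((N0 : ℝ) + 1) ^ (-(1 - b')) ≤ x ^ (-(1 - b')) :=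
      Real.rpow_le_rpow_of_nonpos hx0 hcon (by linarith)
    rw [hxt] at this
    linarith
  set N : ℕ := ⌊x⌋₊ with hN
  have hNx : (N : ℝ) ≤ x := Nat.floor_le hx0.le
  have hNx2 : x < (N : ℝ) + 1 := Nat.lt_floor_add_one x
  have hNN0 : N0 ≤ N := by
    have : (N0 : ℝ) < N := by linarith
    exact_mod_cast this.le
  obtain ⟨⟨hπ, hl⟩, hN2⟩ := hN0 N hNN0
  have hNpos : (0 : ℝ) < N := by
    have : 0 < N := by omega
    exact_mod_cast this
  have hN2' : (2 : ℝ) ≤ N := by exact_mod_cast hN2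
  have htN : t ≤ (N : ℝ) ^ (-(1 - b')) := by
    rw [← hxt]
    exact Real.rpow_le_rpow_of_nonpos hNpos hNx (by linarith)
  have hsq : Real.sqrt (Real.log N) ≤ (N : ℝ) ^ (a - b') := by
    rw [Real.sqrt_le_left (Real.rpow_nonneg hNpos.le _), ← Real.rpow_natCast, ← Real.rpow_mul hNpos.le]
    have : (a - b') * ((2 : ℕ) : ℝ) = 2 * (a - b') := by push_cast; ring
    rw [this]
    exact hl
  have hcond : t * N * π N * Real.sqrt (Real.log N) ≤ 1 := by
    rcases le_or_gt (π N) 0 with hneg | hposπ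
    · have : t * N * π N ≤ 0 := mul_nonpos_of_nonneg_of_nonpos (by positivity) hneg
      have h3 := mul_nonpos_of_nonpos_of_nonneg this (Real.sqrt_nonneg (Real.log N))
      linarith
    · calc t * N * π N * Real.sqrt (Real.log N)
          ≤ (N : ℝ) ^ (-(1 - b')) * N * (N : ℝ) ^ (-a) * (N : ℝ) ^ (a - b') := by
            gcongr
        _ = 1 := by
            have e1 : (N : ℝ) = (N : ℝ) ^ (1 : ℝ) := (Real.rpow_one _).symm
            calc (N : ℝ) ^ (-(1 - b')) * N * (N : ℝ) ^ (-a) * (N : ℝ) ^ (a - b')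
                = (N : ℝ) ^ (-(1 - b')) * (N : ℝ) ^ (1 : ℝ) * (N : ℝ) ^ (-a) *
                    (N : ℝ) ^ (a - b') := by rw [← e1]
              _ = (N : ℝ) ^ (-(1 - b') + 1 + -a + (a - b')) := by
                  rw [← Real.rpow_add hNpos, ← Real.rpow_add hNpos, ← Real.rpow_add hNpos]
              _ = (N : ℝ) ^ (0 : ℝ) := by congr 1; ring
              _ = 1 := Real.rpow_zero _
  have hR := hb p hp0 hp1 N hN2 hcond
  have hlogN0 : 0 ≤ Real.log N := Real.log_nonneg (by linarith)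
  have hlogN : Real.log N ≤ 1 / ε * t ^ (-η) := by
    have h1 := Real.log_le_rpow_div hNpos.le hε0
    have h2 : (N : ℝ) ^ ε ≤ x ^ ε := Real.rpow_le_rpow hNpos.le hNx hε0.le
    have h3 : x ^ ε = t ^ (-η) := by
      rw [hx, ← Real.rpow_mul ht0.le]
      congr 1
      rw [hε]
      field_simp
    rw [h3] at h2
    calc Real.log N ≤ (N : ℝ) ^ ε / ε := h1
      _ ≤ t ^ (-η) / ε := div_le_div_of_nonneg_right h2 hε0.le
      _ = 1 / ε * t ^ (-η) := by ring
  have hNinv : 1 / (N : ℝ) ^ 2 ≤ 4 * t ^ (2 / (1 - b')) := by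
    have h1 : x ≤ 2 * N := by linarith
    have h2 : x ^ 2 ≤ 4 * (N : ℝ) ^ 2 := by nlinarith
    have h3 : t ^ (2 / (1 - b')) = 1 / x ^ 2 := by
      rw [hx, ← Real.rpow_natCast, ← Real.rpow_mul ht0.le, one_div, ← Real.rpow_neg ht0.le]
      congr 1
      push_cast
      ring
    rw [h3, mul_one_div, div_le_div_iff₀ (by positivity) (by positivity)]
    linarith
  calc |Rem κ p| ≤ C * (Real.log N / (N : ℝ) ^ 2) := hR
    _ ≤ |C| * (Real.log N / (N : ℝ) ^ 2) :=
        mul_le_mul_of_nonneg_right (le_abs_self C) (by positivity)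
    _ = |C| * (Real.log N * (1 / (N : ℝ) ^ 2)) := by ring
    _ ≤ |C| * ((1 / ε * t ^ (-η)) * (4 * t ^ (2 / (1 - b')))) := by
        apply mul_le_mul_of_nonneg_left _ (abs_nonneg C)
        exact mul_le_mul hlogN hNinv (by positivity) (by positivity)
    _ = |C| * (1 / ε * 4) * (t ^ (-η) * t ^ (2 / (1 - b'))) := by ring
    _ = |C| * (1 / ε * 4) * t ^ (2 / (1 - b)) := by
        rw [← Real.rpow_add ht0]
        congr 2
        rw [hη]; ring

theorem alpha_of_bound {κ : ℝ → ℝ} {π : ℕ → ℝ} {C : ℝ}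
    (hb : ∀ p : ℝ, 0 ≤ p → p ≤ 1 → ∀ N : ℕ, 2 ≤ N →
      |p - 1 / 2| * N * π N * Real.sqrt (Real.log N) ≤ 1 →
      |Rem κ p| ≤ C * (Real.log N / (N : ℝ) ^ 2))
    {a : ℝ} (ha : 0 < a) (ha1 : a < 1) (h : ∀ᶠ n : ℕ in atTop, π n ≤ (n : ℝ) ^ (-a))
    {α₀ : ℝ} (hα : HasAlpha κ α₀) : α₀ ≤ -(2 * a / (1 - a)) := by
  by_contra hcon
  push Not at hcon
  have h1a : 0 < 1 - a := by linarith
  have e1 : 2 - α₀ < 2 / (1 - a) := by
    have : 2 / (1 - a) = 2 + 2 * a / (1 - a) := by field_simp; ring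
    rw [this]; linarith
  have hcont : Tendsto (fun b : ℝ => 2 / (1 - b)) (nhdsWithin a (Set.Iio a)) (nhds (2 / (1 - a))) := by
    have : ContinuousAt (fun b : ℝ => 2 / (1 - b)) a :=
      continuousAt_const.div (continuousAt_const.sub continuousAt_id) h1a.ne'
    exact this.tendsto.mono_left nhdsWithin_le_nhds
  have hev := (hcont.eventually (lt_mem_nhds e1)).and (Ioo_mem_nhdsLT ha)
  obtain ⟨b, hb1, hb2⟩ := hev.exists
  obtain ⟨C', δ, hδ, hC'⟩ := holder_of_bound hb ha ha1 h hb2.1 hb2.2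
  set ε : ℝ := (2 / (1 - b) - (2 - α₀)) / 2 with hε
  have hε0 : 0 < ε := by rw [hε]; linarith
  obtain ⟨δ', hδ', hα'⟩ := hα ε hε0
  set s : ℝ := 2 - α₀ + ε with hs
  set t : ℝ := 2 / (1 - b) with ht
  have hst : t - s = ε := by rw [hs, hε]; ring
  -- for small `x > 0` : `x ^ s ≤ C' x ^ t`
  have key : ∀ x : ℝ, 0 < x → x < min (min δ δ') (1 / 2) → 1 ≤ C' * x ^ ε := by
    intro x hx0 hx
    have hxδ : x < δ := hx.trans_le ((min_le_left _ _).trans (min_le_left _ _))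
    have hxδ' : x < δ' := hx.trans_le ((min_le_left _ _).trans (min_le_right _ _))
    have hx2 : x < 1 / 2 := hx.trans_le (min_le_right _ _)
    have e2 : |1 / 2 + x - 1 / 2| = x := by
      rw [add_sub_cancel_left, abs_of_pos hx0]
    have g1 := hC' (1 / 2 + x) (by linarith) (by linarith) (by rw [e2]; exact hxδ)
    have g2 := (hα' (1 / 2 + x) (by linarith) (by linarith) (by linarith)
      (by rw [e2]; exact hxδ')).1
    rw [e2] at g1 g2
    have g3 : x ^ s ≤ C' * x ^ t := g2.trans g1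
    have e3 : x ^ t = x ^ s * x ^ ε := by
      rw [← Real.rpow_add hx0]; congr 1; linarith
    rw [e3] at g3
    have hxs : 0 < x ^ s := Real.rpow_pos_of_pos hx0 s
    have g4 : x ^ s * 1 ≤ x ^ s * (C' * x ^ ε) := by linarith
    exact le_of_mul_le_mul_left g4 hxs
  have hlim : Tendsto (fun x : ℝ => C' * x ^ ε) (nhdsWithin 0 (Set.Ioi 0)) (nhds 0) := by
    have h1 : Tendsto (fun x : ℝ => x ^ ε) (nhdsWithin 0 (Set.Ioi 0)) (nhds 0) := by
      have h2 := (Real.continuousAt_rpow_const 0 ε (Or.inr hε0.le)).tendsto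
      rw [Real.zero_rpow hε0.ne'] at h2
      exact h2.mono_left nhdsWithin_le_nhds
    simpa using h1.const_mul C'
  have hm : 0 < min (min δ δ') (1 / 2) := by positivity
  have hev2 := (hlim.eventually (gt_mem_nhds (one_pos))).and (Ioo_mem_nhdsGT hm)
  obtain ⟨x, hx1, hx2⟩ := hev2.exists
  have := key x hx2.1 hx2.2
  linarith

end Pool.Agent.H29.Kap
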