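import Pool.Agent.H29.Kap.Rem

/-! # Analysis of the scale decomposition -/

set_option autoImplicit false

namespace Pool.Agent.H29.Kap

/-- the even remainder -/
noncomputable def analysis_evR (y : ℕ → ℝ) (D : ℕ) (z : ℝ) : ℝ :=
  ∑ i ∈ Finset.range D, y (4 + i) * ((z ^ (4 + i) + (-z) ^ (4 + i)) / 2)

theorem analysis_sum_ext {y : ℕ → ℝ} {D : ℕ} (hyD : ∀ j, D ≤ j → y j = 0) (n : ℕ) (f : ℕ → ℝ) :
    ∑ j ∈ Finset.range D, y j * f j
      = ∑ j ∈ Finset.range n, y j * f j + ∑ i ∈ Finset.range D, y (n + i) * f (n + i) := by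
  rw [← Finset.sum_range_add]
  apply Finset.sum_subset (Finset.range_mono (by omega))
  intro j _ hj
  rw [Finset.mem_range, not_lt] at hj
  rw [hyD j hj, zero_mul]

theorem analysis_even {y : ℕ → ℝ} {D : ℕ} (hyD : ∀ j, D ≤ j → y j = 0) (z : ℝ) :
    (∑ j ∈ Finset.range D, y j * z ^ j + ∑ j ∈ Finset.range D, y j * (-z) ^ j) / 2
      = y 0 + y 2 * z ^ 2 + analysis_evR y D z := by
  rw [analysis_sum_ext hyD 4 (fun j => z ^ j), analysis_sum_ext hyD 4 (fun j => (-z) ^ j)]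
  have h : analysis_evR y D z = (∑ i ∈ Finset.range D, y (4 + i) * z ^ (4 + i)
      + ∑ i ∈ Finset.range D, y (4 + i) * (-z) ^ (4 + i)) / 2 := by
    unfold analysis_evR
    rw [← Finset.sum_add_distrib, Finset.sum_div]
    apply Finset.sum_congr rfl
    intro i _
    ring
  rw [h]
  simp only [Finset.sum_range_succ, Finset.sum_range_zero]
  ring

theorem analysis_geom (n : ℕ) : ∑ i ∈ Finset.range n, (1 / 2 : ℝ) ^ i ≤ 2 := by
  have h : ∑ i ∈ Finset.range n, (1 / 2 : ℝ) ^ i = 2 - 2 * (1 / 2) ^ n := by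
    induction n with
    | zero => simp
    | succ n ih =>
      rw [Finset.sum_range_succ, ih]
      ring
  rw [h]
  have : (0 : ℝ) < (1 / 2) ^ n := by positivity
  linarith

theorem analysis_geom2 (n : ℕ) : ∑ i ∈ Finset.range n, ((2 : ℝ) + i) * (1 / 2 : ℝ) ^ i ≤ 6 := by
  have h : ∑ i ∈ Finset.range n, ((2 : ℝ) + i) * (1 / 2 : ℝ) ^ i = 6 - (2 * n + 6) * (1 / 2) ^ n := by
    induction n with
    | zero => simp
    | succ n ih =>
      rw [Finset.sum_range_succ, ih]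
      push_cast
      ring
  rw [h]
  have : (0 : ℝ) ≤ (2 * n + 6) * (1 / 2) ^ n := by positivity
  linarith

theorem analysis_evR_le {y : ℕ → ℝ} {D : ℕ} {C r z : ℝ} (hr : 0 < r) (hC : ∀ j, |y j| * r ^ j ≤ C)
    (hz : |z| ≤ r / 2) : |analysis_evR y D z| ≤ 2 * C * (|z| / r) ^ 4 := by
  have hC0 : 0 ≤ C := le_trans (by positivity) (hC 0)
  have hq0 : 0 ≤ |z| / r := by positivity
  have hq : |z| / r ≤ 1 / 2 := by
    rw [div_le_iff₀ hr]
    linarith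
  unfold analysis_evR
  refine (Finset.abs_sum_le_sum_abs _ _).trans ?_
  have h1 : ∀ i ∈ Finset.range D, |y (4 + i) * ((z ^ (4 + i) + (-z) ^ (4 + i)) / 2)|
      ≤ C * (|z| / r) ^ 4 * (1 / 2) ^ i := by
    intro i _
    have h2 : |(z ^ (4 + i) + (-z) ^ (4 + i)) / 2| ≤ |z| ^ (4 + i) := by
      rw [abs_div, abs_of_pos (by norm_num : (0 : ℝ) < 2), div_le_iff₀ (by norm_num)]
      refine (abs_add_le _ _).trans ?_
      rw [abs_pow, abs_pow, abs_neg]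
      linarith
    rw [abs_mul]
    have h3 : |y (4 + i)| * |(z ^ (4 + i) + (-z) ^ (4 + i)) / 2| ≤ |y (4 + i)| * |z| ^ (4 + i) :=
      mul_le_mul_of_nonneg_left h2 (abs_nonneg _)
    refine h3.trans ?_
    have h4 : |z| = r * (|z| / r) := by field_simp
    have h5 : |y (4 + i)| * |z| ^ (4 + i) = |y (4 + i)| * r ^ (4 + i) * (|z| / r) ^ (4 + i) := by
      conv_lhs => rw [h4]
      rw [mul_pow]
      ring
    rw [h5]
    have h6 : |y (4 + i)| * r ^ (4 + i) * (|z| / r) ^ (4 + i) ≤ C * (|z| / r) ^ (4 + i) :=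
      mul_le_mul_of_nonneg_right (hC _) (by positivity)
    refine h6.trans ?_
    rw [pow_add, ← mul_assoc]
    apply mul_le_mul_of_nonneg_left _ (by positivity)
    exact pow_le_pow_left₀ hq0 hq i
  refine (Finset.sum_le_sum h1).trans ?_
  rw [← Finset.mul_sum]
  have h7 := mul_le_mul_of_nonneg_left (analysis_geom D) (by positivity : 0 ≤ C * (|z| / r) ^ 4)
  linarith

/-- the derivative -/
noncomputable def analysis_d (y : ℕ → ℝ) (D : ℕ) (p : ℝ) : ℝ :=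
  ∑ j ∈ Finset.range D, y j * ((j : ℝ) * (2 * p - 1) ^ (j - 1) * 2)

theorem analysis_hasDeriv (y : ℕ → ℝ) (D : ℕ) (p : ℝ) :
    HasDerivAt (fun p => ∑ j ∈ Finset.range D, y j * (2 * p - 1) ^ j) (analysis_d y D p) p := by
  unfold analysis_d
  apply HasDerivAt.fun_sum
  intro j _
  have h1 : HasDerivAt (fun p : ℝ => 2 * p - 1) 2 p := by
    simpa using ((hasDerivAt_id p).const_mul 2).sub_const 1
  exact (h1.pow j).const_mul (y j)

theorem analysis_hasDeriv2 {y : ℕ → ℝ} {D : ℕ} (hyD : ∀ j, D ≤ j → y j = 0) :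
    HasDerivAt (analysis_d y D) (8 * y 2) (1 / 2) := by
  have h0 : HasDerivAt (analysis_d y D)
      (∑ j ∈ Finset.range D, y j * ((j : ℝ) * (((j - 1 : ℕ) : ℝ) * (2 * (1 / 2) - 1) ^ (j - 1 - 1) * 2) * 2))
      (1 / 2) := by
    unfold analysis_d
    apply HasDerivAt.fun_sum
    intro j _
    have h1 : HasDerivAt (fun p : ℝ => 2 * p - 1) 2 (1 / 2) := by
      simpa using ((hasDerivAt_id (1 / 2 : ℝ)).const_mul 2).sub_const 1
    have h2 := (((h1.pow (j - 1)).const_mul (j : ℝ)).mul_const 2).const_mul (y j)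
    exact h2
  have h3 : (∑ j ∈ Finset.range D, y j * ((j : ℝ) * (((j - 1 : ℕ) : ℝ) * (2 * (1 / 2) - 1) ^ (j - 1 - 1) * 2) * 2))
      = 8 * y 2 := by
    rw [analysis_sum_ext hyD 3
      (fun j => ((j : ℝ) * (((j - 1 : ℕ) : ℝ) * (2 * (1 / 2) - 1) ^ (j - 1 - 1) * 2) * 2))]
    have h4 : ∑ i ∈ Finset.range D, y (3 + i) * (((3 + i : ℕ) : ℝ) *
        (((3 + i - 1 : ℕ) : ℝ) * (2 * (1 / 2) - 1) ^ (3 + i - 1 - 1) * 2) * 2) = 0 := by
      apply Finset.sum_eq_zero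
      intro i _
      have h5 : 3 + i - 1 - 1 = i + 1 := by omega
      rw [h5]
      norm_num
    rw [h4]
    simp only [Finset.sum_range_succ, Finset.sum_range_zero]
    norm_num
    ring
  rw [h3] at h0
  exact h0

theorem analysis_d_diff {y : ℕ → ℝ} {D : ℕ} (hyD : ∀ j, D ≤ j → y j = 0) (p : ℝ) :
    analysis_d y D p - analysis_d y D (1 / 2)
      = ∑ i ∈ Finset.range D, y (2 + i) * (((2 : ℝ) + i) * (2 * p - 1) ^ (1 + i) * 2) := by
  unfold analysis_d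
  rw [analysis_sum_ext hyD 2 (fun j => ((j : ℝ) * (2 * p - 1) ^ (j - 1) * 2)),
    analysis_sum_ext hyD 2 (fun j => ((j : ℝ) * (2 * (1 / 2) - 1) ^ (j - 1) * 2))]
  have h4 : ∑ i ∈ Finset.range D, y (2 + i) * (((2 + i : ℕ) : ℝ) *
      (2 * (1 / 2) - 1) ^ (2 + i - 1) * 2) = 0 := by
    apply Finset.sum_eq_zero
    intro i _
    have h5 : 2 + i - 1 = i + 1 := by omega
    rw [h5]
    norm_num
  rw [h4]
  have h6 : ∑ i ∈ Finset.range D, y (2 + i) * (((2 + i : ℕ) : ℝ) * (2 * p - 1) ^ (2 + i - 1) * 2)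
      = ∑ i ∈ Finset.range D, y (2 + i) * (((2 : ℝ) + i) * (2 * p - 1) ^ (1 + i) * 2) := by
    apply Finset.sum_congr rfl
    intro i _
    have h5 : 2 + i - 1 = 1 + i := by omega
    rw [h5]
    push_cast
    ring
  rw [h6]
  simp only [Finset.sum_range_succ, Finset.sum_range_zero]
  norm_num

theorem analysis_d_le {y : ℕ → ℝ} {D : ℕ} {C r p : ℝ} (hyD : ∀ j, D ≤ j → y j = 0) (hr : 0 < r)
    (hC : ∀ j, |y j| * r ^ j ≤ C) (hz : |2 * p - 1| ≤ r / 2) :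
    |analysis_d y D p - analysis_d y D (1 / 2)| ≤ 12 * C * |2 * p - 1| / r ^ 2 := by
  have hC0 : 0 ≤ C := le_trans (by positivity) (hC 0)
  set z := 2 * p - 1 with hzdef
  have hq0 : 0 ≤ |z| / r := by positivity
  have hq : |z| / r ≤ 1 / 2 := by
    rw [div_le_iff₀ hr]
    linarith
  rw [analysis_d_diff hyD]
  refine (Finset.abs_sum_le_sum_abs _ _).trans ?_
  have h1 : ∀ i ∈ Finset.range D, |y (2 + i) * (((2 : ℝ) + i) * z ^ (1 + i) * 2)|
      ≤ 2 * C * |z| / r ^ 2 * (((2 : ℝ) + i) * (1 / 2) ^ i) := by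
    intro i _
    have hi : (0 : ℝ) ≤ 2 + i := by positivity
    rw [abs_mul, abs_mul, abs_mul, abs_pow, abs_of_nonneg hi, abs_of_pos (by norm_num : (0 : ℝ) < 2)]
    have h4 : |z| = r * (|z| / r) := by field_simp
    have h5 : |y (2 + i)| * ((2 + i) * |z| ^ (1 + i) * 2)
        = |y (2 + i)| * r ^ (2 + i) * (2 * |z| / r ^ 2 * ((2 + i) * (|z| / r) ^ i)) := by
      rw [div_pow]
      field_simp
      ring
    rw [h5]
    have h6 : |y (2 + i)| * r ^ (2 + i) * (2 * |z| / r ^ 2 * ((2 + i) * (|z| / r) ^ i))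
        ≤ C * (2 * |z| / r ^ 2 * ((2 + i) * (|z| / r) ^ i)) :=
      mul_le_mul_of_nonneg_right (hC _) (by positivity)
    refine h6.trans ?_
    have h7 : (|z| / r) ^ i ≤ (1 / 2) ^ i := pow_le_pow_left₀ hq0 hq i
    have h8 : C * (2 * |z| / r ^ 2 * ((2 + i) * (|z| / r) ^ i))
        ≤ C * (2 * |z| / r ^ 2 * ((2 + i) * (1 / 2) ^ i)) := by gcongr
    refine h8.trans (le_of_eq ?_)
    ring
  refine (Finset.sum_le_sum h1).trans ?_
  rw [← Finset.mul_sum]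
  have h7 := mul_le_mul_of_nonneg_left (analysis_geom2 D) (by positivity : 0 ≤ 2 * C * |z| / r ^ 2)
  refine h7.trans (le_of_eq ?_)
  ring

/-- the polynomial -/
noncomputable def analysis_P (y : ℕ → ℝ) (D : ℕ) (p : ℝ) : ℝ :=
  ∑ j ∈ Finset.range D, y j * (2 * p - 1) ^ j

theorem analysis_P_hasDeriv (y : ℕ → ℝ) (D : ℕ) (p : ℝ) :
    HasDerivAt (analysis_P y D) (analysis_d y D p) p := analysis_hasDeriv y D p

open Filter Topology in
theorem analysis_series_one {y : ℕ → ℕ → ℝ} {D : ℕ → ℕ} {C : ℝ}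
    (hd : ∀ (k : ℕ) (p : ℝ), 1 / 4 ≤ p → p ≤ 3 / 4 → |analysis_d (y k) (D k) p| ≤ C * 2 ^ k)
    (hs : Summable fun k => analysis_P (y k) (D k) (1 / 2) / 4 ^ (k + 1)) {p : ℝ} (hp1 : 1 / 4 < p)
    (hp2 : p < 3 / 4) :
    (Summable fun k => analysis_d (y k) (D k) p / 4 ^ (k + 1)) ∧
    HasDerivAt (fun p => ∑' k, analysis_P (y k) (D k) p / 4 ^ (k + 1))
      (∑' k, analysis_d (y k) (D k) p / 4 ^ (k + 1)) p := by
  have hu : Summable fun k : ℕ => C / 4 * (1 / 2 : ℝ) ^ k :=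
    (summable_geometric_of_lt_one (by norm_num) (by norm_num)).mul_left _
  have hb : ∀ (k : ℕ) (q : ℝ), q ∈ Set.Ioo (1 / 4 : ℝ) (3 / 4) →
      ‖analysis_d (y k) (D k) q / 4 ^ (k + 1)‖ ≤ C / 4 * (1 / 2 : ℝ) ^ k := by
    intro k q hq
    rw [Real.norm_eq_abs, abs_div, abs_of_pos (by positivity : (0 : ℝ) < 4 ^ (k + 1)),
      div_le_iff₀ (by positivity)]
    refine (hd k q hq.1.le hq.2.le).trans (le_of_eq ?_)
    have h4 : (4 : ℝ) ^ k = 2 ^ k * 2 ^ k := by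
      rw [← mul_pow]
      norm_num
    rw [pow_succ, h4, div_pow, one_pow]
    field_simp
  refine ⟨Summable.of_norm_bounded hu (fun k => hb k p ⟨hp1, hp2⟩), ?_⟩
  exact hasDerivAt_tsum_of_isPreconnected hu isOpen_Ioo isPreconnected_Ioo
    (fun k q _ => (analysis_P_hasDeriv (y k) (D k) q).div_const _) hb
    (y₀ := 1 / 2) ⟨by norm_num, by norm_num⟩ hs ⟨hp1, hp2⟩

open Filter Topology in
theorem analysis_series_two {y : ℕ → ℕ → ℝ} {D : ℕ → ℕ} (hyD : ∀ k j, D k ≤ j → y k j = 0) {C : ℝ}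
    (hd : ∀ (k : ℕ) (p : ℝ), 1 / 4 ≤ p → p ≤ 3 / 4 → |analysis_d (y k) (D k) p| ≤ C * 2 ^ k)
    {r : ℕ → ℝ} (hr : ∀ k, 0 < r k) (hC : ∀ k j, |y k j| * r k ^ j ≤ C)
    (hs : Summable fun k => analysis_P (y k) (D k) (1 / 2) / 4 ^ (k + 1))
    (hr1 : Summable fun k => 1 / r k ^ 2 / 4 ^ (k + 1))
    (hr2 : Summable fun k => 2 ^ k / r k / 4 ^ (k + 1)) :
    HasDerivAt (fun p => ∑' k, analysis_d (y k) (D k) p / 4 ^ (k + 1))
      (∑' k, 8 * y k 2 / 4 ^ (k + 1)) (1 / 2) := by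
  have hC0 : 0 ≤ C := le_trans (mul_nonneg (abs_nonneg _) (pow_nonneg (hr 0).le 0)) (hC 0 0)
  rw [hasDerivAt_iff_tendsto_slope]
  have hbsum : Summable fun k => 24 * C * (1 / r k ^ 2 / 4 ^ (k + 1))
      + 8 * C * (2 ^ k / r k / 4 ^ (k + 1)) := (hr1.mul_left _).add (hr2.mul_left _)
  have hmem : ∀ᶠ p in 𝓝[≠] (1 / 2 : ℝ), p ∈ Set.Ioo (1 / 4 : ℝ) (3 / 4) ∧ p ≠ 1 / 2 := by
    have h1 : Set.Ioo (1 / 4 : ℝ) (3 / 4) ∈ 𝓝 (1 / 2 : ℝ) :=
      Ioo_mem_nhds (by norm_num) (by norm_num)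
    filter_upwards [mem_nhdsWithin_of_mem_nhds h1, self_mem_nhdsWithin] with p hp hp2
    exact ⟨hp, hp2⟩
  have key := tendsto_tsum_of_dominated_convergence (𝓕 := 𝓝[≠] (1 / 2 : ℝ))
    (f := fun p k => slope (fun q => analysis_d (y k) (D k) q / 4 ^ (k + 1)) (1 / 2) p)
    (g := fun k => 8 * y k 2 / 4 ^ (k + 1)) hbsum
    (by
      intro k
      exact hasDerivAt_iff_tendsto_slope.1 ((analysis_hasDeriv2 (hyD k)).div_const _))
    (by
      filter_upwards [hmem] with p hp k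
      obtain ⟨⟨hp1, hp2⟩, hp3⟩ := hp
      have hne : 0 < |p - 1 / 2| := abs_pos.2 (sub_ne_zero.2 hp3)
      have h2p : |2 * p - 1| = 2 * |p - 1 / 2| := by
        rw [← abs_of_pos (by norm_num : (0 : ℝ) < 2), ← abs_mul]
        congr 1
        rw [abs_of_pos (by norm_num : (0 : ℝ) < 2)]
        ring
      have hrk := hr k
      have hdiff : |analysis_d (y k) (D k) p - analysis_d (y k) (D k) (1 / 2)|
          ≤ |p - 1 / 2| * (24 * C * (1 / r k ^ 2) + 8 * C * (2 ^ k / r k)) := by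
        rcases le_or_gt |2 * p - 1| (r k / 2) with h | h
        · have h3 := analysis_d_le (hyD k) hrk (hC k) h
          refine h3.trans ?_
          rw [h2p]
          have h4 : 0 ≤ |p - 1 / 2| * (8 * C * (2 ^ k / r k)) := by positivity
          have h5 : 12 * C * (2 * |p - 1 / 2|) / r k ^ 2 = |p - 1 / 2| * (24 * C * (1 / r k ^ 2)) := by
            ring
          rw [h5, mul_add]
          linarith
        · have h3 := hd k p hp1.le hp2.le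
          have h4 := hd k (1 / 2) (by norm_num) (by norm_num)
          have h5 : |analysis_d (y k) (D k) p - analysis_d (y k) (D k) (1 / 2)| ≤ 2 * (C * 2 ^ k) := by
            refine (abs_sub _ _).trans ?_
            linarith
          refine h5.trans ?_
          rw [h2p] at h
          have h6 : 1 ≤ 4 * |p - 1 / 2| / r k := by
            rw [le_div_iff₀ hrk]
            linarith
          have h7 : 2 * (C * 2 ^ k) * 1 ≤ 2 * (C * 2 ^ k) * (4 * |p - 1 / 2| / r k) :=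
            mul_le_mul_of_nonneg_left h6 (by positivity)
          have h8 : 0 ≤ |p - 1 / 2| * (24 * C * (1 / r k ^ 2)) := by positivity
          have h9 : 2 * (C * 2 ^ k) * (4 * |p - 1 / 2| / r k)
              = |p - 1 / 2| * (8 * C * (2 ^ k / r k)) := by ring
          rw [mul_add]
          linarith
      rw [slope_def_field, Real.norm_eq_abs, ← sub_div, div_div, abs_div, abs_mul,
        abs_of_pos (by positivity : (0 : ℝ) < 4 ^ (k + 1)), div_le_iff₀ (by positivity)]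
      refine hdiff.trans (le_of_eq ?_)
      field_simp)
  refine key.congr' ?_
  filter_upwards [hmem] with p hp
  obtain ⟨⟨hp1, hp2⟩, hp3⟩ := hp
  have s1 := (analysis_series_one hd hs hp1 hp2).1
  have s2 := (analysis_series_one hd hs (p := 1 / 2) (by norm_num) (by norm_num)).1
  rw [slope_def_field, ← s1.tsum_sub s2, ← tsum_div_const]
  apply tsum_congr
  intro k
  rw [slope_def_field]

/-- the size of the scale `k` -/
noncomputable def analysis_A (π : ℕ → ℝ) (k : ℕ) : ℝ :=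
  4 ^ k * π (2 ^ k) ^ 2 * Real.log (2 * 2 ^ k)

theorem analysis_log (k : ℕ) : Real.log (2 * 2 ^ k) = ((k : ℝ) + 1) * Real.log 2 := by
  rw [← pow_succ', Real.log_pow]
  push_cast
  ring

theorem analysis_log2_pos : 0 < Real.log 2 := Real.log_pos (by norm_num)

theorem analysis_log2_le : Real.log 2 ≤ 1 := by
  have := Real.log_two_lt_d9
  linarith

theorem analysis_A_pos {π : ℕ → ℝ} (hπ0 : ∀ n, 0 < π n) (k : ℕ) : 0 < analysis_A π k := by
  unfold analysis_A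
  rw [analysis_log]
  have := hπ0 (2 ^ k)
  have := analysis_log2_pos
  positivity

theorem analysis_sq {π : ℕ → ℝ} (hπ0 : ∀ n, 0 < π n) {C₁ : ℝ}
    (h1 : ∀ m n : ℕ, 1 ≤ m → m ≤ n → π m ≤ C₁ * Real.sqrt ((n : ℝ) / m) * π n) {m n : ℕ}
    (hm : 1 ≤ m) (hmn : m ≤ n) : π m ^ 2 ≤ C₁ ^ 2 * ((n : ℝ) / m) * π n ^ 2 := by
  have h := h1 m n hm hmn
  have h2 := pow_le_pow_left₀ (hπ0 m).le h 2
  refine h2.trans (le_of_eq ?_)
  rw [mul_pow, mul_pow, Real.sq_sqrt (by positivity)]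

theorem analysis_C1_pos {π : ℕ → ℝ} (hπ0 : ∀ n, 0 < π n) {C₁ : ℝ}
    (h1 : ∀ m n : ℕ, 1 ≤ m → m ≤ n → π m ≤ C₁ * Real.sqrt ((n : ℝ) / m) * π n) : 1 ≤ C₁ := by
  have h := h1 1 1 le_rfl le_rfl
  norm_num at h
  have h0 := hπ0 1
  by_contra hcon
  push Not at hcon
  nlinarith

theorem analysis_C2_pos {π : ℕ → ℝ} (hπ0 : ∀ n, 0 < π n) {C₂ a₀ : ℝ}
    (h2 : ∀ m n : ℕ, 1 ≤ m → m ≤ n → π n ≤ C₂ * ((m : ℝ) / n) ^ a₀ * π m) : 1 ≤ C₂ := by
  have h := h2 1 1 le_rfl le_rfl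
  norm_num at h
  have h0 := hπ0 1
  by_contra hcon
  push Not at hcon
  nlinarith

/-- `n π(n)²` is bounded below -/
theorem analysis_lower {π : ℕ → ℝ} (hπ0 : ∀ n, 0 < π n) {C₁ : ℝ}
    (h1 : ∀ m n : ℕ, 1 ≤ m → m ≤ n → π m ≤ C₁ * Real.sqrt ((n : ℝ) / m) * π n) {n : ℕ} (hn : 1 ≤ n) :
    π 1 ^ 2 / C₁ ^ 2 ≤ n * π n ^ 2 := by
  have h := analysis_sq hπ0 h1 le_rfl hn
  have hC := analysis_C1_pos hπ0 h1
  rw [div_le_iff₀ (by positivity)]
  push_cast at h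
  rw [div_one] at h
  linarith

theorem analysis_A_ge {π : ℕ → ℝ} (hπ0 : ∀ n, 0 < π n) {C₁ : ℝ}
    (h1 : ∀ m n : ℕ, 1 ≤ m → m ≤ n → π m ≤ C₁ * Real.sqrt ((n : ℝ) / m) * π n) (k : ℕ) :
    π 1 ^ 2 / C₁ ^ 2 * Real.log 2 ≤ analysis_A π k := by
  unfold analysis_A
  rw [analysis_log]
  have hl := analysis_log2_pos
  have h3 := analysis_lower hπ0 h1 (n := 2 ^ k) Nat.one_le_two_pow
  push_cast at h3
  have h2k : (1 : ℝ) ≤ 2 ^ k := one_le_pow₀ (by norm_num)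
  have h4 : (4 : ℝ) ^ k = 2 ^ k * 2 ^ k := by
    rw [← mul_pow]
    norm_num
  have hπk := hπ0 (2 ^ k)
  have h5 : 2 ^ k * π (2 ^ k) ^ 2 ≤ 4 ^ k * π (2 ^ k) ^ 2 := by
    rw [h4, mul_assoc]
    have h6 : 0 ≤ 2 ^ k * π (2 ^ k) ^ 2 := by positivity
    nlinarith
  have h7 : Real.log 2 ≤ ((k : ℝ) + 1) * Real.log 2 := by
    have : (0 : ℝ) ≤ k := Nat.cast_nonneg k
    nlinarith
  exact mul_le_mul (h3.trans h5) h7 hl.le (by positivity)

theorem analysis_r {π : ℕ → ℝ} (hπ0 : ∀ n, 0 < π n) {C₁ : ℝ}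
    (h1 : ∀ m n : ℕ, 1 ≤ m → m ≤ n → π m ≤ C₁ * Real.sqrt ((n : ℝ) / m) * π n) {c₀ : ℝ}
    (hc₀ : 0 < c₀) : ∃ (r : ℕ → ℝ) (C₃ : ℝ), 0 < C₃ ∧ ∀ k, 0 < r k ∧ r k ≤ 1 ∧
      r k ^ 2 * analysis_A π k ≤ c₀ ∧ 1 / r k ^ 2 ≤ C₃ * analysis_A π k := by
  have hC1 := analysis_C1_pos hπ0 h1
  have hl := analysis_log2_pos
  have hπ1 := hπ0 1
  set c := π 1 ^ 2 / C₁ ^ 2 * Real.log 2 with hc
  have hc0 : 0 < c := by positivity
  refine ⟨fun k => min 1 (Real.sqrt (c₀ / analysis_A π k)), 1 / c + 1 / c₀, by positivity, ?_⟩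
  intro k
  have hA := analysis_A_pos hπ0 k
  have hAc := analysis_A_ge hπ0 h1 k
  rw [← hc] at hAc
  have hs : 0 < Real.sqrt (c₀ / analysis_A π k) := Real.sqrt_pos.2 (by positivity)
  have h3 : 1 / c * analysis_A π k ≥ 1 := by
    rw [ge_iff_le, div_mul_eq_mul_div, le_div_iff₀ hc0]
    linarith
  have h4 : 0 < 1 / c₀ * analysis_A π k := by positivity
  beta_reduce
  refine ⟨lt_min one_pos hs, min_le_left _ _, ?_, ?_⟩
  · rcases le_total 1 (Real.sqrt (c₀ / analysis_A π k)) with h | h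
    · rw [min_eq_left h, one_pow, one_mul]
      have h5 : 1 ≤ c₀ / analysis_A π k := by
        have := pow_le_pow_left₀ (by norm_num : (0 : ℝ) ≤ 1) h 2
        rwa [Real.sq_sqrt (by positivity), one_pow] at this
      rwa [le_div_iff₀ hA, one_mul] at h5
    · rw [min_eq_right h, Real.sq_sqrt (by positivity), div_mul_cancel₀ _ hA.ne']
  · rcases le_total 1 (Real.sqrt (c₀ / analysis_A π k)) with h | h
    · rw [min_eq_left h, one_pow, div_one, add_mul]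
      linarith
    · rw [min_eq_right h, Real.sq_sqrt (by positivity), add_mul]
      have h6 : 1 / (c₀ / analysis_A π k) = 1 / c₀ * analysis_A π k := by
        field_simp
      rw [h6]
      linarith

theorem analysis_rho {a₀ : ℝ} (ha₀ : 0 < a₀) : 0 < (1 / 2 : ℝ) ^ a₀ ∧ (1 / 2 : ℝ) ^ a₀ < 1 :=
  ⟨by positivity, Real.rpow_lt_one (by norm_num) (by norm_num) ha₀⟩

theorem analysis_rpow_pow (a₀ : ℝ) (i : ℕ) : ((1 / 2 : ℝ) ^ i) ^ a₀ = ((1 / 2 : ℝ) ^ a₀) ^ i := by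
  rw [← Real.rpow_natCast, ← Real.rpow_natCast, ← Real.rpow_mul (by norm_num),
    ← Real.rpow_mul (by norm_num), mul_comm]

theorem analysis_A_le {π : ℕ → ℝ} (hπ0 : ∀ n, 0 < π n) (hπ1 : ∀ n, π n ≤ 1) {C₂ a₀ : ℝ}
    (h2 : ∀ m n : ℕ, 1 ≤ m → m ≤ n → π n ≤ C₂ * ((m : ℝ) / n) ^ a₀ * π m) (k : ℕ) :
    analysis_A π k ≤ 4 ^ k * (C₂ ^ 2 * (((k : ℝ) + 1) * (((1 / 2 : ℝ) ^ a₀) ^ k) ^ 2)) := by
  have hC2 := analysis_C2_pos hπ0 h2
  have h := h2 1 (2 ^ k) le_rfl Nat.one_le_two_pow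
  have h3 : (((1 : ℕ) : ℝ) / ((2 ^ k : ℕ) : ℝ)) ^ a₀ = ((1 / 2 : ℝ) ^ a₀) ^ k := by
    rw [← analysis_rpow_pow]
    congr 1
    push_cast
    rw [one_div_pow]
  rw [h3] at h
  set ρ := (1 / 2 : ℝ) ^ a₀ with hρ
  have hρ0 : 0 < ρ := by positivity
  have h4 : π (2 ^ k) ≤ C₂ * ρ ^ k := by
    refine h.trans ?_
    have : 0 ≤ C₂ * ρ ^ k := by positivity
    nlinarith [hπ1 1, hπ0 1]
  have h5 := pow_le_pow_left₀ (hπ0 (2 ^ k)).le h4 2
  unfold analysis_A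
  rw [analysis_log, mul_assoc]
  apply mul_le_mul_of_nonneg_left _ (by positivity)
  have h6 : ((k : ℝ) + 1) * Real.log 2 ≤ (k : ℝ) + 1 := by
    have := analysis_log2_le
    have : (0 : ℝ) ≤ k := Nat.cast_nonneg k
    nlinarith
  have hl := analysis_log2_pos
  calc π (2 ^ k) ^ 2 * (((k : ℝ) + 1) * Real.log 2)
      ≤ (C₂ * ρ ^ k) ^ 2 * ((k : ℝ) + 1) := mul_le_mul h5 h6 (by positivity) (by positivity)
    _ = _ := by ring

theorem analysis_summable {ρ : ℝ} (h0 : 0 < ρ) (h1 : ρ < 1) :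
    Summable fun k : ℕ => ((k : ℝ) + 1) * ρ ^ k := by
  have hn : ‖ρ‖ < 1 := by rw [Real.norm_eq_abs, abs_of_pos h0]; exact h1
  have h2 := (summable_pow_mul_geometric_of_norm_lt_one 1 hn).add
    (summable_pow_mul_geometric_of_norm_lt_one 0 hn)
  refine h2.congr ?_
  intro k
  ring

theorem analysis_summables {π : ℕ → ℝ} (hπ0 : ∀ n, 0 < π n) (hπ1 : ∀ n, π n ≤ 1) {C₂ a₀ : ℝ}
    (ha₀ : 0 < a₀)
    (h2 : ∀ m n : ℕ, 1 ≤ m → m ≤ n → π n ≤ C₂ * ((m : ℝ) / n) ^ a₀ * π m)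
    {r : ℕ → ℝ} {C₃ : ℝ} (hC₃ : 0 < C₃) (hr0 : ∀ k, 0 < r k)
    (hr : ∀ k, 1 / r k ^ 2 ≤ C₃ * analysis_A π k) :
    (Summable fun k => 1 / r k ^ 2 / 4 ^ (k + 1)) ∧
    (Summable fun k => 2 ^ k / r k / 4 ^ (k + 1)) := by
  obtain ⟨hρ0, hρ1⟩ := analysis_rho ha₀
  set ρ := (1 / 2 : ℝ) ^ a₀ with hρ
  have hC2 := analysis_C2_pos hπ0 h2
  have hk : ∀ k, 1 / r k ^ 2 ≤ 4 ^ k * (C₃ * C₂ ^ 2 * (((k : ℝ) + 1) * (ρ ^ k) ^ 2)) := by
    intro k
    refine (hr k).trans ?_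
    have h3 := mul_le_mul_of_nonneg_left (analysis_A_le hπ0 hπ1 h2 k) hC₃.le
    rw [← hρ] at h3
    refine h3.trans (le_of_eq ?_)
    ring
  constructor
  · apply Summable.of_nonneg_of_le (fun k => by have := hr0 k; positivity) _
      ((analysis_summable hρ0 hρ1).mul_left (C₃ * C₂ ^ 2))
    intro k
    rw [div_le_iff₀ (by positivity)]
    refine (hk k).trans ?_
    have h4 : (ρ ^ k) ^ 2 ≤ ρ ^ k := by
      have h5 : ρ ^ k ≤ 1 := pow_le_one₀ hρ0.le hρ1.le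
      have h6 : 0 < ρ ^ k := by positivity
      nlinarith
    have h7 : (4 : ℝ) ^ k ≤ 4 ^ (k + 1) := pow_le_pow_right₀ (by norm_num) (by omega)
    calc 4 ^ k * (C₃ * C₂ ^ 2 * (((k : ℝ) + 1) * (ρ ^ k) ^ 2))
        ≤ 4 ^ (k + 1) * (C₃ * C₂ ^ 2 * (((k : ℝ) + 1) * ρ ^ k)) := by gcongr
      _ = _ := by ring
  · apply Summable.of_nonneg_of_le (fun k => by have := hr0 k; positivity) _
      ((analysis_summable hρ0 hρ1).mul_left (1 + C₃ * C₂ ^ 2))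
    intro k
    have hrk := hr0 k
    have h4k : (4 : ℝ) ^ k = 2 ^ k * 2 ^ k := by
      rw [← mul_pow]
      norm_num
    -- `t = 1 / (r 2^k)`
    set t := 1 / (r k * 2 ^ k) with ht
    have ht0 : 0 < t := by positivity
    have e1 : 2 ^ k / r k / 4 ^ (k + 1) = t / 4 := by
      rw [pow_succ, h4k, ht]
      field_simp
    have e2 : t ^ 2 ≤ C₃ * C₂ ^ 2 * (((k : ℝ) + 1) * (ρ ^ k) ^ 2) := by
      have e3 : t ^ 2 = 1 / r k ^ 2 / 4 ^ k := by
        rw [ht, h4k]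
        field_simp
      rw [e3, div_le_iff₀ (by positivity)]
      refine (hk k).trans (le_of_eq ?_)
      ring
    have hs0 : 0 < ρ ^ k := by positivity
    have hk0 : (0 : ℝ) ≤ k := Nat.cast_nonneg k
    rw [e1]
    -- `t ≤ (s + t² / s) / 2`
    have e4 : t * ρ ^ k ≤ ((ρ ^ k) ^ 2 + t ^ 2) / 2 := by nlinarith [sq_nonneg (t - ρ ^ k)]
    have e5 : t * ρ ^ k ≤ (1 + C₃ * C₂ ^ 2) * (((k : ℝ) + 1) * ρ ^ k) * ρ ^ k := by
      refine e4.trans ?_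
      have e6 : (ρ ^ k) ^ 2 ≤ ((k : ℝ) + 1) * (ρ ^ k) ^ 2 := by nlinarith [sq_nonneg (ρ ^ k)]
      have e7 : 0 ≤ ((k : ℝ) + 1) * (ρ ^ k) ^ 2 := by positivity
      have e8 : 0 ≤ C₃ * C₂ ^ 2 * (((k : ℝ) + 1) * (ρ ^ k) ^ 2) := by positivity
      have e9 : (1 + C₃ * C₂ ^ 2) * (((k : ℝ) + 1) * ρ ^ k) * ρ ^ k
          = ((k : ℝ) + 1) * (ρ ^ k) ^ 2 + C₃ * C₂ ^ 2 * (((k : ℝ) + 1) * (ρ ^ k) ^ 2) := by ring
      rw [e9]
      linarith
    have e10 := le_of_mul_le_mul_right e5 hs0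
    linarith

/-- a scale below `N` -/
theorem analysis_small {π : ℕ → ℝ} (hπ0 : ∀ n, 0 < π n) {C₁ : ℝ}
    (h1 : ∀ m n : ℕ, 1 ≤ m → m ≤ n → π m ≤ C₁ * Real.sqrt ((n : ℝ) / m) * π n)
    {k N : ℕ} (hN : 2 ≤ N) (hk : 2 ^ k ≤ N) :
    analysis_A π k ^ 2 / 4 ^ k ≤ 4 * C₁ ^ 4 * ((N : ℝ) ^ 2 * π N ^ 4 * Real.log N ^ 2) := by
  have hsq := analysis_sq hπ0 h1 (m := 2 ^ k) (n := N) Nat.one_le_two_pow hk
  have hC1 := analysis_C1_pos hπ0 h1
  have hNr : (2 : ℝ) ≤ N := by exact_mod_cast hN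
  have hkr : (2 : ℝ) ^ k ≤ N := by exact_mod_cast hk
  have hlog : Real.log (2 * 2 ^ k) ≤ 2 * Real.log N := by
    have h3 : Real.log (2 * 2 ^ k) ≤ Real.log (N * N) :=
      Real.log_le_log (by positivity) (mul_le_mul hNr hkr (by positivity) (by positivity))
    have h4 : Real.log ((N : ℝ) * N) = 2 * Real.log N := by
      rw [Real.log_mul (by positivity) (by positivity)]
      ring
    rw [h4] at h3
    exact h3
  have hlog0 : 0 < Real.log (2 * 2 ^ k) := by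
    rw [analysis_log]
    have := analysis_log2_pos
    positivity
  have h4k : (4 : ℝ) ^ k = 2 ^ k * 2 ^ k := by
    rw [← mul_pow]
    norm_num
  have hπk := hπ0 (2 ^ k)
  have hπN := hπ0 N
  push_cast at hsq
  -- `4^k π(2^k)^4 ≤ C₁^4 N² π(N)^4`
  have h5 : 4 ^ k * π (2 ^ k) ^ 4 ≤ C₁ ^ 4 * ((N : ℝ) ^ 2 * π N ^ 4) := by
    have h6 := pow_le_pow_left₀ (by positivity) hsq 2
    have h7 : 4 ^ k * π (2 ^ k) ^ 4 = 4 ^ k * (π (2 ^ k) ^ 2) ^ 2 := by ring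
    rw [h7]
    refine (mul_le_mul_of_nonneg_left h6 (by positivity)).trans (le_of_eq ?_)
    rw [h4k]
    field_simp
  have h8 : analysis_A π k ^ 2 / 4 ^ k = 4 ^ k * π (2 ^ k) ^ 4 * Real.log (2 * 2 ^ k) ^ 2 := by
    unfold analysis_A
    field_simp
  rw [h8]
  have h9 : Real.log (2 * 2 ^ k) ^ 2 ≤ (2 * Real.log N) ^ 2 := pow_le_pow_left₀ hlog0.le hlog 2
  refine (mul_le_mul h5 h9 (by positivity) (by positivity)).trans (le_of_eq ?_)
  ring

/-- a scale above `N` -/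
theorem analysis_large {π : ℕ → ℝ} (hπ0 : ∀ n, 0 < π n) {C₂ a₀ : ℝ} (ha₀ : 0 < a₀)
    (h2 : ∀ m n : ℕ, 1 ≤ m → m ≤ n → π n ≤ C₂ * ((m : ℝ) / n) ^ a₀ * π m)
    {K N i : ℕ} (hN : 2 ≤ N) (hK : N < 2 ^ (K + 1)) :
    analysis_A π (i + (K + 1)) / 4 ^ (i + (K + 1))
      ≤ C₂ ^ 2 * (2 + 1 / (a₀ * Real.log 2)) * (π N ^ 2 * Real.log N) * ((1 / 2 : ℝ) ^ a₀) ^ i := by
  have hC2 := analysis_C2_pos hπ0 h2
  set k := i + (K + 1) with hk
  have hNr : (2 : ℝ) ≤ N := by exact_mod_cast hN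
  have hl2 := analysis_log2_pos
  have hKk : 2 ^ (K + 1) ≤ 2 ^ k := Nat.pow_le_pow_right (by norm_num) (by omega)
  have hNk : N ≤ 2 ^ k := by omega
  have h := h2 N (2 ^ k) (by omega) hNk
  push_cast at h
  have hπN := hπ0 N
  have hπk := hπ0 (2 ^ k)
  -- `t = 2^k / N ≥ 1`, `t⁻¹ ≤ 2^{-i}`
  set t : ℝ := 2 ^ k / N with ht
  have ht0 : 0 < t := by positivity
  have ht1 : 1 ≤ t := by
    rw [ht, le_div_iff₀ (by positivity), one_mul]
    exact_mod_cast hNk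
  have hti : (N : ℝ) / 2 ^ k = t⁻¹ := by rw [ht, inv_div]
  rw [hti] at h
  have hti2 : t⁻¹ ≤ (1 / 2) ^ i := by
    rw [← hti, div_le_iff₀ (by positivity), hk, pow_add, ← mul_assoc, ← mul_pow]
    norm_num
    have : (N : ℝ) < 2 ^ (K + 1) := by exact_mod_cast hK
    linarith
  have hinv : (t⁻¹) ^ a₀ ≤ ((1 / 2 : ℝ) ^ a₀) ^ i := by
    rw [← analysis_rpow_pow]
    exact Real.rpow_le_rpow (by positivity) hti2 ha₀.le
  have hinv0 : 0 < (t⁻¹) ^ a₀ := by positivity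
  have hinv1 : (t⁻¹) ^ a₀ ≤ 1 := Real.rpow_le_one (by positivity) (inv_le_one_of_one_le₀ ht1) ha₀.le
  have htinv : (t⁻¹) ^ a₀ * t ^ a₀ = 1 := by
    rw [← Real.mul_rpow (by positivity) (by positivity), inv_mul_cancel₀ ht0.ne', Real.one_rpow]
  have hlog : Real.log (2 * 2 ^ k) ≤ 2 * Real.log N + t ^ a₀ / a₀ := by
    have e1 : (2 : ℝ) * 2 ^ k = 2 * (N * t) := by
      rw [ht]
      field_simp
    rw [e1, Real.log_mul (by norm_num) (by positivity), Real.log_mul (by positivity) ht0.ne']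
    have e2 : Real.log 2 ≤ Real.log N := Real.log_le_log (by norm_num) hNr
    have e3 : Real.log t ≤ t ^ a₀ / a₀ := Real.log_le_rpow_div ht0.le ha₀
    linarith
  have hlogN : Real.log 2 ≤ Real.log N := Real.log_le_log (by norm_num) hNr
  have hlog0 : 0 < Real.log (2 * 2 ^ k) := by
    rw [analysis_log]
    positivity
  have h3 : analysis_A π k / 4 ^ k = π (2 ^ k) ^ 2 * Real.log (2 * 2 ^ k) := by
    unfold analysis_A
    field_simp
  rw [h3]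
  have h4 := pow_le_pow_left₀ hπk.le h 2
  have h5 : π (2 ^ k) ^ 2 * Real.log (2 * 2 ^ k)
      ≤ (C₂ * (t⁻¹) ^ a₀ * π N) ^ 2 * (2 * Real.log N + t ^ a₀ / a₀) :=
    mul_le_mul h4 hlog hlog0.le (by positivity)
  refine h5.trans ?_
  have h6 : (C₂ * (t⁻¹) ^ a₀ * π N) ^ 2 * (2 * Real.log N + t ^ a₀ / a₀)
      = C₂ ^ 2 * π N ^ 2 * ((t⁻¹) ^ a₀ * (2 * Real.log N * (t⁻¹) ^ a₀ + ((t⁻¹) ^ a₀ * t ^ a₀) / a₀)) := by
    ring
  rw [h6, htinv]
  have h7 : 2 * Real.log N * (t⁻¹) ^ a₀ + 1 / a₀ ≤ (2 + 1 / (a₀ * Real.log 2)) * Real.log N := by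
    have e1 : 2 * Real.log N * (t⁻¹) ^ a₀ ≤ 2 * Real.log N * 1 :=
      mul_le_mul_of_nonneg_left hinv1 (by linarith)
    have e2 : 1 / a₀ ≤ 1 / (a₀ * Real.log 2) * Real.log N := by
      rw [div_mul_eq_mul_div, one_mul, div_le_div_iff₀ ha₀ (by positivity)]
      nlinarith
    rw [add_mul]
    linarith
  have hlN0 : 0 < Real.log N := by linarith
  calc C₂ ^ 2 * π N ^ 2 * ((t⁻¹) ^ a₀ * (2 * Real.log N * (t⁻¹) ^ a₀ + 1 / a₀))
      ≤ C₂ ^ 2 * π N ^ 2 * (((1 / 2 : ℝ) ^ a₀) ^ i * ((2 + 1 / (a₀ * Real.log 2)) * Real.log N)) := by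
        gcongr
    _ = _ := by ring

theorem analysis_evR_abs (y : ℕ → ℝ) (D : ℕ) {z : ℝ} (hz : |z| ≤ 1) :
    |analysis_evR y D z| ≤ (∑ i ∈ Finset.range D, |y (4 + i)|) * z ^ 4 := by
  unfold analysis_evR
  refine (Finset.abs_sum_le_sum_abs _ _).trans ?_
  rw [Finset.sum_mul]
  apply Finset.sum_le_sum
  intro i _
  rw [abs_mul]
  apply mul_le_mul_of_nonneg_left _ (abs_nonneg _)
  have h2 : |(z ^ (4 + i) + (-z) ^ (4 + i)) / 2| ≤ |z| ^ (4 + i) := by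
    rw [abs_div, abs_of_pos (by norm_num : (0 : ℝ) < 2), div_le_iff₀ (by norm_num)]
    refine (abs_add_le _ _).trans ?_
    rw [abs_pow, abs_pow, abs_neg]
    linarith
  refine h2.trans ?_
  have h3 : |z| ^ (4 + i) ≤ |z| ^ 4 := pow_le_pow_of_le_one (abs_nonneg _) hz (by omega)
  refine h3.trans (le_of_eq ?_)
  exact Even.pow_abs (by decide) z

/-- the two bounds for the even remainder of a scale -/
theorem analysis_evR_two {y : ℕ → ℝ} {D : ℕ} {C r p : ℝ} (hyD : ∀ j, D ≤ j → y j = 0)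
    (hr : 0 < r) (hC : ∀ j, |y j| * r ^ j ≤ C)
    (hb1 : |analysis_P y D p| ≤ C) (hb2 : |analysis_P y D (1 - p)| ≤ C) :
    |analysis_evR y D (2 * p - 1)| ≤ 9 * C * ((2 * p - 1) ^ 2 * (1 / r ^ 2)) ∧
    |analysis_evR y D (2 * p - 1)| ≤ 36 * C * ((2 * p - 1) ^ 2 * (1 / r ^ 2)) ^ 2 := by
  have hC0 : 0 ≤ C := le_trans (by positivity) (hC 0)
  set z := 2 * p - 1 with hz
  set u := z ^ 2 * (1 / r ^ 2) with hu
  have hu0 : 0 ≤ u := by positivity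
  have hur : u = (|z| / r) ^ 2 := by
    rw [hu, div_pow, sq_abs]
    ring
  rcases le_or_gt |z| (r / 2) with h | h
  · have h1 := analysis_evR_le (D := D) hr hC h
    have h2 : (|z| / r) ^ 4 = u ^ 2 := by rw [hur]; ring
    rw [h2] at h1
    have hq : |z| / r ≤ 1 / 2 := by
      rw [div_le_iff₀ hr]
      linarith
    have hu1 : u ≤ 1 / 4 := by
      rw [hur]
      have := pow_le_pow_left₀ (by positivity : 0 ≤ |z| / r) hq 2
      norm_num at this ⊢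
      exact this
    constructor
    · refine h1.trans ?_
      have : 2 * C * u ^ 2 ≤ 2 * C * u := by
        apply mul_le_mul_of_nonneg_left _ (by positivity)
        nlinarith
      nlinarith [mul_nonneg hC0 hu0]
    · refine h1.trans ?_
      have : 0 ≤ C * u ^ 2 := by positivity
      linarith
  · have hq : 1 / 2 < |z| / r := by
      rw [lt_div_iff₀ hr]
      linarith
    have hu1 : 1 / 4 < u := by
      rw [hur]
      have := pow_lt_pow_left₀ hq (by norm_num) (by norm_num : 2 ≠ 0)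
      norm_num at this ⊢
      exact this
    have he := analysis_even hyD z
    have hp2 : analysis_P y D (1 - p) = ∑ j ∈ Finset.range D, y j * (-z) ^ j := by
      unfold analysis_P
      apply Finset.sum_congr rfl
      intro j _
      congr 2
      rw [hz]
      ring
    have hp1 : analysis_P y D p = ∑ j ∈ Finset.range D, y j * z ^ j := rfl
    rw [← hp1, ← hp2] at he
    have h0 : |y 0| ≤ C := by
      have := hC 0
      rwa [pow_zero, mul_one] at this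
    have h2 : |y 2 * z ^ 2| ≤ C * u := by
      have h3 := hC 2
      rw [abs_mul, abs_of_nonneg (sq_nonneg z)]
      have h4 : |y 2| * z ^ 2 = |y 2| * r ^ 2 * u := by
        rw [hu]
        field_simp
      rw [h4]
      exact mul_le_mul_of_nonneg_right h3 hu0
    have h5 : analysis_evR y D z
        = (analysis_P y D p + analysis_P y D (1 - p)) / 2 - y 0 - y 2 * z ^ 2 := by
      rw [he]
      ring
    have h6 : |analysis_evR y D z| ≤ 9 * C * u := by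
      rw [h5]
      have a1 := abs_le.1 hb1
      have a2 := abs_le.1 hb2
      have a3 := abs_le.1 h0
      have a4 := abs_le.1 h2
      have a5 : C ≤ 4 * (C * u) := by nlinarith
      rw [abs_le]
      constructor <;> linarith [a1.1, a1.2, a2.1, a2.2, a3.1, a3.2, a4.1, a4.2]
    refine ⟨h6, h6.trans ?_⟩
    have h7 : 9 * C * u ≤ 9 * C * u * (4 * u) := by
      have : 0 ≤ 9 * C * u := by positivity
      nlinarith
    refine h7.trans (le_of_eq ?_)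
    ring

theorem analysis_W {P : ℝ} (hP : 0 < P) {p : ℝ} {N : ℕ} (hN : 2 ≤ N)
    (h : |p - 1 / 2| * N * P * Real.sqrt (Real.log N) ≤ 1) :
    (2 * p - 1) ^ 2 * ((N : ℝ) ^ 2 * P ^ 2 * Real.log N) ≤ 4 := by
  have hNr : (2 : ℝ) ≤ N := by exact_mod_cast hN
  have hl : 0 < Real.log N := Real.log_pos (by linarith)
  have h0 : 0 ≤ |p - 1 / 2| * N * P * Real.sqrt (Real.log N) := by positivity
  have h1 := pow_le_pow_left₀ h0 h 2
  rw [mul_pow, mul_pow, mul_pow, Real.sq_sqrt hl.le, sq_abs, one_pow] at h1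
  have h2 : (2 * p - 1) ^ 2 * ((N : ℝ) ^ 2 * P ^ 2 * Real.log N)
      = 4 * ((p - 1 / 2) ^ 2 * N ^ 2 * P ^ 2 * Real.log N) := by ring
  rw [h2]
  linarith

/-- the sum over the scales -/
theorem analysis_T {π : ℕ → ℝ} (hπ0 : ∀ n, 0 < π n)
    {C₁ : ℝ} (h1 : ∀ m n : ℕ, 1 ≤ m → m ≤ n → π m ≤ C₁ * Real.sqrt ((n : ℝ) / m) * π n)
    {C₂ a₀ : ℝ} (ha₀ : 0 < a₀)
    (h2 : ∀ m n : ℕ, 1 ≤ m → m ≤ n → π n ≤ C₂ * ((m : ℝ) / n) ^ a₀ * π m)
    {C C₃ : ℝ} (hC : 0 ≤ C) (hC₃ : 0 < C₃) {R : ℕ → ℝ} (hR : ∀ k, 0 ≤ R k)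
    (hRA : ∀ k, R k ≤ C₃ * analysis_A π k) (hRs : Summable fun k => R k / 4 ^ (k + 1))
    {E : ℕ → ℝ} {z : ℝ} (hE1 : ∀ k, |E k| ≤ 9 * C * (z ^ 2 * R k))
    (hE2 : ∀ k, |E k| ≤ 36 * C * (z ^ 2 * R k) ^ 2) {N : ℕ} (hN : 2 ≤ N)
    (hW : z ^ 2 * ((N : ℝ) ^ 2 * π N ^ 2 * Real.log N) ≤ 4) :
    |∑' k, E k / 4 ^ (k + 1)| ≤ (1152 * C * C₃ ^ 2 * C₁ ^ 4 / Real.log 2
      + 9 * C * C₃ * (C₂ ^ 2 * (2 + 1 / (a₀ * Real.log 2))) / (1 - (1 / 2 : ℝ) ^ a₀) / Real.log 2)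
        * (Real.log N / (N : ℝ) ^ 2) := by
  have hC1 := analysis_C1_pos hπ0 h1
  have hC2 := analysis_C2_pos hπ0 h2
  obtain ⟨hρ0, hρ1⟩ := analysis_rho ha₀
  set ρ := (1 / 2 : ℝ) ^ a₀ with hρ
  have hl2 := analysis_log2_pos
  have hNr : (2 : ℝ) ≤ N := by exact_mod_cast hN
  have hlN : Real.log 2 ≤ Real.log N := Real.log_le_log (by norm_num) hNr
  have hlN0 : 0 < Real.log N := by linarith
  have hπN := hπ0 N
  have hA := analysis_A_pos hπ0
  -- absolute summability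
  have hEs : Summable fun k => |E k / 4 ^ (k + 1)| := by
    apply Summable.of_nonneg_of_le (fun k => abs_nonneg _) _ (hRs.mul_left (9 * C * z ^ 2))
    intro k
    rw [abs_div, abs_of_pos (by positivity : (0 : ℝ) < 4 ^ (k + 1)), ← mul_div_assoc]
    apply div_le_div_of_nonneg_right _ (by positivity)
    refine (hE1 k).trans (le_of_eq ?_)
    ring
  have h3 : |∑' k, E k / 4 ^ (k + 1)| ≤ ∑' k, |E k / 4 ^ (k + 1)| := by
    exact norm_tsum_le_tsum_norm (f := fun k => E k / 4 ^ (k + 1)) hEs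
  refine h3.trans ?_
  set K := Nat.log 2 N with hK
  have hK1 : 2 ^ K ≤ N := Nat.pow_log_le_self 2 (by omega)
  have hK2 : N < 2 ^ (K + 1) := Nat.lt_pow_succ_log_self (by norm_num) _
  rw [← hEs.sum_add_tsum_nat_add (K + 1), add_mul]
  apply add_le_add
  · -- small scales
    have h4 : ∀ k ∈ Finset.range (K + 1), |E k / 4 ^ (k + 1)|
        ≤ 36 * C * C₃ ^ 2 * C₁ ^ 4 * (z ^ 4 * ((N : ℝ) ^ 2 * π N ^ 4 * Real.log N ^ 2)) := by
      intro k hk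
      have hkK : k ≤ K := by
        rw [Finset.mem_range] at hk
        omega
      have hkN : 2 ^ k ≤ N := (Nat.pow_le_pow_right (by norm_num) hkK).trans hK1
      have h5 := analysis_small hπ0 h1 hN hkN
      rw [abs_div, abs_of_pos (by positivity : (0 : ℝ) < 4 ^ (k + 1))]
      have h6 : |E k| ≤ 36 * C * (z ^ 2 * (C₃ * analysis_A π k)) ^ 2 := by
        refine (hE2 k).trans ?_
        have := hRA k
        have := hR k
        gcongr
      have h7 : |E k| / 4 ^ (k + 1) ≤ 36 * C * (z ^ 2 * (C₃ * analysis_A π k)) ^ 2 / 4 ^ (k + 1) :=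
        div_le_div_of_nonneg_right h6 (by positivity)
      refine h7.trans ?_
      have h8 : 36 * C * (z ^ 2 * (C₃ * analysis_A π k)) ^ 2 / 4 ^ (k + 1)
          = 9 * C * C₃ ^ 2 * z ^ 4 * (analysis_A π k ^ 2 / 4 ^ k) := by
        rw [pow_succ (4 : ℝ) k]
        field_simp
        ring
      rw [h8]
      have h9 : 0 ≤ 9 * C * C₃ ^ 2 * z ^ 4 := by positivity
      refine (mul_le_mul_of_nonneg_left h5 h9).trans (le_of_eq ?_)
      ring
    refine (Finset.sum_le_sum h4).trans ?_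
    rw [Finset.sum_const, Finset.card_range, nsmul_eq_mul]
    have h10 : (((K + 1 : ℕ) : ℝ)) ≤ 2 * Real.log N / Real.log 2 := by
      rw [le_div_iff₀ hl2]
      have h11 : Real.log (((2 ^ K : ℕ) : ℝ)) ≤ Real.log N :=
        Real.log_le_log (by positivity) (by exact_mod_cast hK1)
      push_cast at h11 ⊢
      rw [Real.log_pow] at h11
      linarith
    have h12 : 0 ≤ 36 * C * C₃ ^ 2 * C₁ ^ 4 * (z ^ 4 * ((N : ℝ) ^ 2 * π N ^ 4 * Real.log N ^ 2)) := by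
      have : 0 ≤ z ^ 4 := by positivity
      positivity
    refine (mul_le_mul_of_nonneg_right h10 h12).trans ?_
    have hW0 : 0 ≤ z ^ 2 * ((N : ℝ) ^ 2 * π N ^ 2 * Real.log N) := by positivity
    have h13 : (z ^ 2 * ((N : ℝ) ^ 2 * π N ^ 2 * Real.log N)) ^ 2 ≤ 4 ^ 2 :=
      pow_le_pow_left₀ hW0 hW 2
    have h14 : 2 * Real.log N / Real.log 2
        * (36 * C * C₃ ^ 2 * C₁ ^ 4 * (z ^ 4 * ((N : ℝ) ^ 2 * π N ^ 4 * Real.log N ^ 2)))
        = 72 * C * C₃ ^ 2 * C₁ ^ 4 / Real.log 2 * (Real.log N / (N : ℝ) ^ 2)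
          * (z ^ 2 * ((N : ℝ) ^ 2 * π N ^ 2 * Real.log N)) ^ 2 := by
      field_simp
      ring
    rw [h14]
    have h15 : 0 ≤ 72 * C * C₃ ^ 2 * C₁ ^ 4 / Real.log 2 * (Real.log N / (N : ℝ) ^ 2) := by
      positivity
    refine (mul_le_mul_of_nonneg_left h13 h15).trans (le_of_eq ?_)
    ring
  · -- large scales
    have h4 : ∀ i, |E (i + (K + 1)) / 4 ^ (i + (K + 1) + 1)|
        ≤ 9 / 4 * C * C₃ * (C₂ ^ 2 * (2 + 1 / (a₀ * Real.log 2))) * (z ^ 2 * (π N ^ 2 * Real.log N))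
          * ρ ^ i := by
      intro i
      have h5 := analysis_large hπ0 ha₀ h2 (i := i) hN hK2
      rw [← hρ] at h5
      set k := i + (K + 1) with hk
      rw [abs_div, abs_of_pos (by positivity : (0 : ℝ) < 4 ^ (k + 1))]
      have h6 : |E k| ≤ 9 * C * (z ^ 2 * (C₃ * analysis_A π k)) := by
        refine (hE1 k).trans ?_
        have := hRA k
        have := hR k
        gcongr
      have h7 : |E k| / 4 ^ (k + 1) ≤ 9 * C * (z ^ 2 * (C₃ * analysis_A π k)) / 4 ^ (k + 1) :=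
        div_le_div_of_nonneg_right h6 (by positivity)
      refine h7.trans ?_
      have h8 : 9 * C * (z ^ 2 * (C₃ * analysis_A π k)) / 4 ^ (k + 1)
          = 9 / 4 * C * C₃ * z ^ 2 * (analysis_A π k / 4 ^ k) := by
        rw [pow_succ (4 : ℝ) k]
        field_simp
      rw [h8]
      have h9 : 0 ≤ 9 / 4 * C * C₃ * z ^ 2 := by positivity
      refine (mul_le_mul_of_nonneg_left h5 h9).trans (le_of_eq ?_)
      ring
    have hgeo : Summable fun i : ℕ => ρ ^ i := summable_geometric_of_lt_one hρ0.le hρ1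
    have h5 : ∑' i, |E (i + (K + 1)) / 4 ^ (i + (K + 1) + 1)|
        ≤ ∑' i, 9 / 4 * C * C₃ * (C₂ ^ 2 * (2 + 1 / (a₀ * Real.log 2)))
          * (z ^ 2 * (π N ^ 2 * Real.log N)) * ρ ^ i :=
      Summable.tsum_le_tsum h4 ((summable_nat_add_iff (K + 1)).2 hEs) (hgeo.mul_left _)
    refine h5.trans ?_
    rw [tsum_mul_left, tsum_geometric_of_lt_one hρ0.le hρ1]
    have hρ2 : 0 < 1 - ρ := by linarith
    have h6 : 9 / 4 * C * C₃ * (C₂ ^ 2 * (2 + 1 / (a₀ * Real.log 2)))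
          * (z ^ 2 * (π N ^ 2 * Real.log N)) * (1 - ρ)⁻¹
        = 9 / 4 * C * C₃ * (C₂ ^ 2 * (2 + 1 / (a₀ * Real.log 2))) / (1 - ρ) / (N : ℝ) ^ 2
          * (z ^ 2 * ((N : ℝ) ^ 2 * π N ^ 2 * Real.log N)) := by
      field_simp
    rw [h6]
    have h7 : 0 ≤ 9 / 4 * C * C₃ * (C₂ ^ 2 * (2 + 1 / (a₀ * Real.log 2))) / (1 - ρ) / (N : ℝ) ^ 2 := by
      positivity
    refine (mul_le_mul_of_nonneg_left hW h7).trans ?_
    have h8 : 9 / 4 * C * C₃ * (C₂ ^ 2 * (2 + 1 / (a₀ * Real.log 2))) / (1 - ρ) / (N : ℝ) ^ 2 * 4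
        = 9 * C * C₃ * (C₂ ^ 2 * (2 + 1 / (a₀ * Real.log 2))) / (1 - ρ) / Real.log 2
          * (Real.log 2 / (N : ℝ) ^ 2) := by
      field_simp
    rw [h8]
    have h9 : 0 ≤ 9 * C * C₃ * (C₂ ^ 2 * (2 + 1 / (a₀ * Real.log 2))) / (1 - ρ) / Real.log 2 := by
      positivity
    apply mul_le_mul_of_nonneg_left _ h9
    exact div_le_div_of_nonneg_right hlN (by positivity)

theorem analysis_G {π : ℕ → ℝ} (hπ0 : ∀ n, 0 < π n)
    {C₁ : ℝ} (h1 : ∀ m n : ℕ, 1 ≤ m → m ≤ n → π m ≤ C₁ * Real.sqrt ((n : ℝ) / m) * π n)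
    {z : ℝ} {N : ℕ} (hN : 2 ≤ N) (hW : z ^ 2 * ((N : ℝ) ^ 2 * π N ^ 2 * Real.log N) ≤ 4) :
    z ^ 4 ≤ 16 / ((π 1 ^ 2 / C₁ ^ 2) ^ 2 * Real.log 2 ^ 3) * (Real.log N / (N : ℝ) ^ 2) := by
  have hC1 := analysis_C1_pos hπ0 h1
  have hl2 := analysis_log2_pos
  have hNr : (2 : ℝ) ≤ N := by exact_mod_cast hN
  have hlN : Real.log 2 ≤ Real.log N := Real.log_le_log (by norm_num) hNr
  have hlN0 : 0 < Real.log N := by linarith
  have hπN := hπ0 N
  have hπ1 := hπ0 1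
  have h3 := analysis_lower hπ0 h1 (n := N) (by omega)
  set c := π 1 ^ 2 / C₁ ^ 2 with hc
  have hc0 : 0 < c := by positivity
  have h4 : z ^ 2 * (N * c * Real.log 2) ≤ 4 := by
    refine le_trans ?_ hW
    apply mul_le_mul_of_nonneg_left _ (sq_nonneg z)
    apply mul_le_mul _ hlN hl2.le (by positivity)
    have : (N : ℝ) ^ 2 * π N ^ 2 = N * (N * π N ^ 2) := by ring
    rw [this]
    exact mul_le_mul_of_nonneg_left h3 (by positivity)
  have h5 : 0 ≤ z ^ 2 * (N * c * Real.log 2) := by positivity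
  have h6 := pow_le_pow_left₀ h5 h4 2
  have h7 : z ^ 4 * (N ^ 2 * c ^ 2 * Real.log 2 ^ 2) ≤ 16 := by
    have : (z ^ 2 * (N * c * Real.log 2)) ^ 2 = z ^ 4 * (N ^ 2 * c ^ 2 * Real.log 2 ^ 2) := by ring
    rw [this] at h6
    linarith
  have h8 : z ^ 4 ≤ 16 / (N ^ 2 * c ^ 2 * Real.log 2 ^ 2) := by
    rw [le_div_iff₀ (by positivity)]
    exact h7
  refine h8.trans ?_
  have h9 : 16 / ((N : ℝ) ^ 2 * c ^ 2 * Real.log 2 ^ 2)
      = 16 / (c ^ 2 * Real.log 2 ^ 3) * (Real.log 2 / (N : ℝ) ^ 2) := by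
    field_simp
  rw [h9]
  apply mul_le_mul_of_nonneg_left _ (by positivity)
  exact div_le_div_of_nonneg_right hlN (by positivity)

theorem analysis_P_half (y : ℕ → ℝ) {D : ℕ} (hyD : ∀ j, D ≤ j → y j = 0) :
    analysis_P y D (1 / 2) = y 0 := by
  unfold analysis_P
  rw [analysis_sum_ext hyD 1 (fun j => (2 * (1 / 2 : ℝ) - 1) ^ j)]
  have h4 : ∑ i ∈ Finset.range D, y (1 + i) * (2 * (1 / 2 : ℝ) - 1) ^ (1 + i) = 0 := by
    apply Finset.sum_eq_zero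
    intro i _
    rw [add_comm 1 i]
    norm_num
  rw [h4]
  norm_num

theorem analysis_P_even {y : ℕ → ℝ} {D : ℕ} (hyD : ∀ j, D ≤ j → y j = 0) (p : ℝ) :
    (analysis_P y D p + analysis_P y D (1 - p)) / 2
      = y 0 + y 2 * (2 * p - 1) ^ 2 + analysis_evR y D (2 * p - 1) := by
  rw [← analysis_even hyD]
  have hp2 : analysis_P y D (1 - p) = ∑ j ∈ Finset.range D, y j * (-(2 * p - 1)) ^ j := by
    unfold analysis_P
    apply Finset.sum_congr rfl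
    intro j _
    congr 2
    ring
  rw [hp2]
  rfl

open Filter Topology in
theorem analysis_aux (π : ℕ → ℝ) (hπ0 : ∀ n, 0 < π n) (hπ1 : ∀ n, π n ≤ 1)
    (C₁ : ℝ) (h1 : ∀ m n : ℕ, 1 ≤ m → m ≤ n → π m ≤ C₁ * Real.sqrt ((n : ℝ) / m) * π n)
    (C₂ a₀ : ℝ) (ha₀ : 0 < a₀)
    (h2 : ∀ m n : ℕ, 1 ≤ m → m ≤ n → π n ≤ C₂ * ((m : ℝ) / n) ^ a₀ * π m)
    (Y : ℕ → ℝ → ℝ) (y : ℕ → ℕ → ℝ) (D : ℕ → ℕ)
    (hY : ∀ k p, Y k p = ∑ j ∈ Finset.range (D k), y k j * (2 * p - 1) ^ j)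
    (hyD : ∀ k j, D k ≤ j → y k j = 0)
    (C c₀ : ℝ) (hc₀ : 0 < c₀)
    (hy : ∀ (k : ℕ) (r : ℝ), 0 ≤ r → r ≤ 1 →
      r ^ 2 * (4 ^ k * π (2 ^ k) ^ 2 * Real.log (2 * 2 ^ k)) ≤ c₀ → ∀ j, |y k j| * r ^ j ≤ C)
    (hYb : ∀ (k : ℕ) (p : ℝ), 0 ≤ p → p ≤ 1 → |Y k p| ≤ C)
    (hYd : ∀ (k : ℕ) (p : ℝ), 1 / 4 ≤ p → p ≤ 3 / 4 → |deriv (Y k) p| ≤ C * 2 ^ k)
    (G : ℝ → ℝ) (g : ℕ → ℝ) (m : ℕ)
    (hG : ∀ p, G p = ∑ j ∈ Finset.range m, g j * (2 * p - 1) ^ j)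
    (κ : ℝ → ℝ)
    (hκ : ∀ p : ℝ, 0 ≤ p → p ≤ 1 → HasSum (fun k => Y k p / 4 ^ (k + 1)) (κ p - G p))
    (hdual : ∀ p : ℝ, 0 ≤ p → p ≤ 1 → κ p = κ (1 - p) + 1 - 2 * p) :
    (∀ p : ℝ, 1 / 4 < p → p < 3 / 4 → DifferentiableAt ℝ κ p) ∧
    DifferentiableAt ℝ (deriv κ) (1 / 2) ∧
    ∃ C' : ℝ, ∀ p : ℝ, 0 ≤ p → p ≤ 1 → ∀ N : ℕ, 2 ≤ N →
      |p - 1 / 2| * N * π N * Real.sqrt (Real.log N) ≤ 1 →
      |Rem κ p| ≤ C' * (Real.log N / (N : ℝ) ^ 2) := by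
  obtain ⟨r, C₃, hC₃, hr⟩ := analysis_r hπ0 h1 hc₀
  have hr0 : ∀ k, 0 < r k := fun k => (hr k).1
  have hYk : ∀ k, Y k = analysis_P (y k) (D k) := by
    intro k
    funext p
    exact hY k p
  have hC : ∀ k j, |y k j| * r k ^ j ≤ C := fun k j =>
    hy k (r k) (hr0 k).le (hr k).2.1 (hr k).2.2.1 j
  have hC0 : 0 ≤ C := le_trans (mul_nonneg (abs_nonneg _) (pow_nonneg (hr0 0).le 0)) (hC 0 0)
  have hd : ∀ (k : ℕ) (p : ℝ), 1 / 4 ≤ p → p ≤ 3 / 4 → |analysis_d (y k) (D k) p| ≤ C * 2 ^ k := by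
    intro k p hp1 hp2
    have h3 := hYd k p hp1 hp2
    rwa [hYk k, (analysis_P_hasDeriv (y k) (D k) p).deriv] at h3
  obtain ⟨hs1, hs2⟩ := analysis_summables hπ0 hπ1 ha₀ h2 hC₃ hr0 (fun k => (hr k).2.2.2)
  have hκ' : ∀ p : ℝ, 0 ≤ p → p ≤ 1 →
      HasSum (fun k => analysis_P (y k) (D k) p / 4 ^ (k + 1)) (κ p - G p) := by
    intro p hp0 hp1
    have h3 := hκ p hp0 hp1
    simp only [hYk] at h3
    exact h3
  have hs : Summable fun k => analysis_P (y k) (D k) (1 / 2) / 4 ^ (k + 1) :=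
    (hκ' (1 / 2) (by norm_num) (by norm_num)).summable
  -- the polynomial `G`
  set g' : ℕ → ℝ := fun j => if j < m then g j else 0 with hg'
  have hg'm : ∀ j, m ≤ j → g' j = 0 := by
    intro j hj
    rw [hg']
    exact if_neg (by omega)
  have hGP : G = analysis_P g' m := by
    funext p
    rw [hG p]
    unfold analysis_P
    apply Finset.sum_congr rfl
    intro j hj
    rw [Finset.mem_range] at hj
    rw [hg']
    simp only
    rw [if_pos hj]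
  -- first derivative
  have hκd : ∀ p : ℝ, 1 / 4 < p → p < 3 / 4 →
      HasDerivAt κ ((∑' k, analysis_d (y k) (D k) p / 4 ^ (k + 1)) + analysis_d g' m p) p := by
    intro p hp1 hp2
    have h3 := (analysis_series_one hd hs hp1 hp2).2.add (analysis_P_hasDeriv g' m p)
    refine h3.congr_of_eventuallyEq ?_
    filter_upwards [Ioo_mem_nhds hp1 hp2] with q hq
    have h4 := (hκ' q (by linarith [hq.1]) (by linarith [hq.2])).tsum_eq
    simp only [Pi.add_apply]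
    rw [h4, hGP]
    ring
  have hone : ∀ p : ℝ, 1 / 4 < p → p < 3 / 4 → DifferentiableAt ℝ κ p :=
    fun p hp1 hp2 => (hκd p hp1 hp2).differentiableAt
  -- second derivative
  have hsum2 : Summable fun k => y k 2 / 4 ^ (k + 1) := by
    apply Summable.of_norm_bounded (hs1.mul_left C)
    intro k
    rw [Real.norm_eq_abs, abs_div, abs_of_pos (by positivity : (0 : ℝ) < 4 ^ (k + 1)), ← mul_div_assoc]
    apply div_le_div_of_nonneg_right _ (by positivity)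
    have := hr0 k
    rw [mul_one_div, le_div_iff₀ (by positivity)]
    exact hC k 2
  set q := ∑' k, y k 2 / 4 ^ (k + 1) with hq
  have hκ2 : HasDerivAt (deriv κ) (8 * (q + g' 2)) (1 / 2) := by
    have h3 := (analysis_series_two hyD hd hr0 hC hs hs1 hs2).add (analysis_hasDeriv2 hg'm)
    have h5 : (∑' k, 8 * y k 2 / 4 ^ (k + 1)) + 8 * g' 2 = 8 * (q + g' 2) := by
      have : (∑' k, 8 * y k 2 / 4 ^ (k + 1)) = 8 * q := by
        rw [hq, ← tsum_mul_left]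
        apply tsum_congr
        intro k
        ring
      rw [this]
      ring
    rw [h5] at h3
    refine h3.congr_of_eventuallyEq ?_
    filter_upwards [Ioo_mem_nhds (by norm_num : (1 / 4 : ℝ) < 1 / 2) (by norm_num : (1 / 2 : ℝ) < 3 / 4)]
      with p hp
    exact (hκd p hp.1 hp.2).deriv
  have hd1 : deriv κ (1 / 2) = -1 := by
    have h3 := (hone (1 / 2) (by norm_num) (by norm_num)).hasDerivAt
    have h4 : HasDerivAt (fun p : ℝ => κ (1 - p) + 1 - 2 * p) (-deriv κ (1 / 2) - 2) (1 / 2) := by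
      have h5 : HasDerivAt (fun p : ℝ => 1 - p) (-1) (1 / 2) := by
        simpa using (hasDerivAt_id (1 / 2 : ℝ)).const_sub 1
      have h6 : HasDerivAt κ (deriv κ (1 / 2)) (1 - 1 / 2) := by
        have : (1 : ℝ) - 1 / 2 = 1 / 2 := by norm_num
        rw [this]
        exact h3
      have h7 := (h6.comp (1 / 2 : ℝ) h5).add_const 1
      have h8 : HasDerivAt (fun p : ℝ => 2 * p) 2 (1 / 2) := by
        simpa using (hasDerivAt_id (1 / 2 : ℝ)).const_mul 2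
      have h9 := h7.sub h8
      have h10 : deriv κ (1 / 2) * -1 - 2 = -deriv κ (1 / 2) - 2 := by ring
      rw [h10] at h9
      exact h9
    have h11 : κ =ᶠ[𝓝 (1 / 2)] fun p => κ (1 - p) + 1 - 2 * p := by
      filter_upwards [Ioo_mem_nhds (by norm_num : (1 / 4 : ℝ) < 1 / 2)
        (by norm_num : (1 / 2 : ℝ) < 3 / 4)] with p hp
      exact hdual p (by linarith [hp.1]) (by linarith [hp.2])
    have h12 := (h4.congr_of_eventuallyEq h11).unique h3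
    linarith
  refine ⟨hone, hκ2.differentiableAt, ?_⟩
  refine ⟨(1152 * C * C₃ ^ 2 * C₁ ^ 4 / Real.log 2
      + 9 * C * C₃ * (C₂ ^ 2 * (2 + 1 / (a₀ * Real.log 2))) / (1 - (1 / 2 : ℝ) ^ a₀) / Real.log 2)
      + (∑ i ∈ Finset.range m, |g' (4 + i)|) * (16 / ((π 1 ^ 2 / C₁ ^ 2) ^ 2 * Real.log 2 ^ 3)), ?_⟩
  intro p hp0 hp1 N hN hyp
  have hW := analysis_W (hπ0 N) hN hyp
  set z := 2 * p - 1 with hz
  have hT := analysis_T (z := z) hπ0 h1 ha₀ h2 hC0 hC₃ (R := fun k => 1 / r k ^ 2)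
    (fun k => by have := hr0 k; positivity) (fun k => (hr k).2.2.2) hs1
    (E := fun k => analysis_evR (y k) (D k) z)
    (fun k => (analysis_evR_two (hyD k) (hr0 k) (hC k)
      (by rw [← hYk]; exact hYb k p hp0 hp1)
      (by rw [← hYk]; exact hYb k (1 - p) (by linarith) (by linarith))).1)
    (fun k => (analysis_evR_two (hyD k) (hr0 k) (hC k)
      (by rw [← hYk]; exact hYb k p hp0 hp1)
      (by rw [← hYk]; exact hYb k (1 - p) (by linarith) (by linarith))).2)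
    hN hW
  have hsT : HasSum (fun k => analysis_evR (y k) (D k) z / 4 ^ (k + 1))
      ((κ p - G p + (κ (1 - p) - G (1 - p))) / 2 - (κ (1 / 2) - G (1 / 2)) - q * z ^ 2) := by
    have a1 := hκ' p hp0 hp1
    have a2 := hκ' (1 - p) (by linarith) (by linarith)
    have a3 := hκ' (1 / 2) (by norm_num) (by norm_num)
    have a4 := hsum2.hasSum.mul_right (z ^ 2)
    have a5 := (((a1.add a2).div_const 2).sub a3).sub a4
    refine a5.congr_fun ?_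
    intro k
    have h3 := analysis_P_even (hyD k) p
    rw [← hz] at h3
    have h4 := analysis_P_half (y k) (hyD k)
    have h5 : analysis_evR (y k) (D k) z
        = (analysis_P (y k) (D k) p + analysis_P (y k) (D k) (1 - p)) / 2 - y k 0 - y k 2 * z ^ 2 := by
      rw [h3]
      ring
    rw [h5, h4]
    ring
  have hGe := analysis_P_even hg'm p
  rw [← hz, ← hGP] at hGe
  have hGh := analysis_P_half g' hg'm
  rw [← hGP] at hGh
  have hRem : Rem κ p = (∑' k, analysis_evR (y k) (D k) z / 4 ^ (k + 1)) + analysis_evR g' m z := by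
    rw [hsT.tsum_eq]
    unfold Rem
    rw [hd1, hκ2.deriv, hGh]
    have h3 := hdual p hp0 hp1
    have h4 : analysis_evR g' m z = (G p + G (1 - p)) / 2 - g' 0 - g' 2 * z ^ 2 := by
      rw [hGe]
      ring
    rw [h4, hz]
    have h5 : κ (1 - p) = κ p - 1 + 2 * p := by linarith
    rw [h5]
    ring
  rw [hRem]
  refine (abs_add_le _ _).trans ?_
  rw [add_mul]
  apply add_le_add hT
  have hz1 : |z| ≤ 1 := by
    rw [abs_le]
    constructor <;> linarith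
  refine (analysis_evR_abs g' m hz1).trans ?_
  rw [mul_assoc]
  apply mul_le_mul_of_nonneg_left _ (Finset.sum_nonneg (fun i _ => abs_nonneg _))
  exact analysis_G hπ0 h1 hN hW

theorem analysis (π : ℕ → ℝ) (hπ0 : ∀ n, 0 < π n) (hπ1 : ∀ n, π n ≤ 1)
    (C₁ : ℝ) (h1 : ∀ m n : ℕ, 1 ≤ m → m ≤ n → π m ≤ C₁ * Real.sqrt ((n : ℝ) / m) * π n)
    (C₂ a₀ : ℝ) (ha₀ : 0 < a₀)
    (h2 : ∀ m n : ℕ, 1 ≤ m → m ≤ n → π n ≤ C₂ * ((m : ℝ) / n) ^ a₀ * π m)
    (Y : ℕ → ℝ → ℝ) (y : ℕ → ℕ → ℝ) (D : ℕ → ℕ)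
    (hY : ∀ k p, Y k p = ∑ j ∈ Finset.range (D k), y k j * (2 * p - 1) ^ j)
    (hyD : ∀ k j, D k ≤ j → y k j = 0)
    (C c₀ : ℝ) (hc₀ : 0 < c₀)
    (hy : ∀ (k : ℕ) (r : ℝ), 0 ≤ r → r ≤ 1 →
      r ^ 2 * (4 ^ k * π (2 ^ k) ^ 2 * Real.log (2 * 2 ^ k)) ≤ c₀ → ∀ j, |y k j| * r ^ j ≤ C)
    (hYb : ∀ (k : ℕ) (p : ℝ), 0 ≤ p → p ≤ 1 → |Y k p| ≤ C)
    (hYd : ∀ (k : ℕ) (p : ℝ), 1 / 4 ≤ p → p ≤ 3 / 4 → |deriv (Y k) p| ≤ C * 2 ^ k)
    (G : ℝ → ℝ) (g : ℕ → ℝ) (m : ℕ)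
    (hG : ∀ p, G p = ∑ j ∈ Finset.range m, g j * (2 * p - 1) ^ j)
    (κ : ℝ → ℝ)
    (hκ : ∀ p : ℝ, 0 ≤ p → p ≤ 1 → HasSum (fun k => Y k p / 4 ^ (k + 1)) (κ p - G p))
    (hdual : ∀ p : ℝ, 0 ≤ p → p ≤ 1 → κ p = κ (1 - p) + 1 - 2 * p) :
    (∀ p : ℝ, 1 / 4 < p → p < 3 / 4 → DifferentiableAt ℝ κ p) ∧
    DifferentiableAt ℝ (deriv κ) (1 / 2) ∧
    ∃ C' : ℝ, ∀ p : ℝ, 0 ≤ p → p ≤ 1 → ∀ N : ℕ, 2 ≤ N →
      |p - 1 / 2| * N * π N * Real.sqrt (Real.log N) ≤ 1 →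
      |Rem κ p| ≤ C' * (Real.log N / (N : ℝ) ^ 2) := by
  exact analysis_aux π hπ0 hπ1 C₁ h1 C₂ a₀ ha₀ h2 Y y D hY hyD C c₀ hc₀ hy hYb hYd G g m hG κ hκ hdual

end Pool.Agent.H29.Kap
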