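import Pool.Agent.H29.Kap.Analysis

/-! # Analysis of the scale decomposition, without logarithms -/

set_option autoImplicit false

namespace Pool.Agent.H29.Kap

/-- the size of the scale `k` -/
noncomputable def analysis3_A (π : ℕ → ℝ) (k : ℕ) : ℝ := 4 ^ k * π (2 ^ k) ^ 2

theorem analysis3_A_pos {π : ℕ → ℝ} (hπ0 : ∀ n, 0 < π n) (k : ℕ) : 0 < analysis3_A π k := by
  unfold analysis3_A
  have := hπ0 (2 ^ k)
  positivity

theorem analysis3_cube {t : ℝ} (ht : 0 ≤ t) : (t ^ (1 / 3 : ℝ)) ^ 3 = t := by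
  rw [← Real.rpow_natCast, ← Real.rpow_mul ht]
  norm_num

theorem analysis3_C1_pos {π : ℕ → ℝ} (hπ0 : ∀ n, 0 < π n) {C₁ : ℝ}
    (h1 : ∀ m n : ℕ, 1 ≤ m → m ≤ n → π m ≤ C₁ * ((n : ℝ) / m) ^ (1 / 3 : ℝ) * π n) : 1 ≤ C₁ := by
  have h := h1 1 1 le_rfl le_rfl
  norm_num at h
  have h0 := hπ0 1
  by_contra hcon
  push Not at hcon
  nlinarith

/-- `π(n) ≥ c / n^{1/3}` in the form used below -/
theorem analysis3_lower {π : ℕ → ℝ} (hπ0 : ∀ n, 0 < π n) {C₁ : ℝ}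
    (h1 : ∀ m n : ℕ, 1 ≤ m → m ≤ n → π m ≤ C₁ * ((n : ℝ) / m) ^ (1 / 3 : ℝ) * π n) {n : ℕ}
    (hn : 1 ≤ n) : (π 1 / C₁) ^ 2 ≤ n * π n ^ 2 := by
  have hC := analysis3_C1_pos hπ0 h1
  have h := h1 1 n le_rfl hn
  rw [Nat.cast_one, div_one] at h
  have hnr : (1 : ℝ) ≤ n := by exact_mod_cast hn
  have h3 : (n : ℝ) ^ (1 / 3 : ℝ) ≤ (n : ℝ) ^ (1 / 2 : ℝ) :=
    Real.rpow_le_rpow_of_exponent_le hnr (by norm_num)
  have hπn := hπ0 n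
  have h4 : π 1 / C₁ ≤ (n : ℝ) ^ (1 / 2 : ℝ) * π n := by
    rw [div_le_iff₀ (by positivity)]
    calc π 1 ≤ C₁ * (n : ℝ) ^ (1 / 3 : ℝ) * π n := h
      _ ≤ C₁ * (n : ℝ) ^ (1 / 2 : ℝ) * π n := by gcongr
      _ = _ := by ring
  have h5 := pow_le_pow_left₀ (by have := hπ0 1; positivity) h4 2
  refine h5.trans (le_of_eq ?_)
  rw [mul_pow, ← Real.rpow_natCast ((n : ℝ) ^ (1 / 2 : ℝ)), ← Real.rpow_mul (by positivity)]
  norm_num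

theorem analysis3_A_ge {π : ℕ → ℝ} (hπ0 : ∀ n, 0 < π n) {C₁ : ℝ}
    (h1 : ∀ m n : ℕ, 1 ≤ m → m ≤ n → π m ≤ C₁ * ((n : ℝ) / m) ^ (1 / 3 : ℝ) * π n) (k : ℕ) :
    (π 1 / C₁) ^ 2 ≤ analysis3_A π k := by
  have h3 := analysis3_lower hπ0 h1 (n := 2 ^ k) Nat.one_le_two_pow
  push_cast at h3
  refine h3.trans ?_
  unfold analysis3_A
  have h4 : (2 : ℝ) ^ k ≤ 4 ^ k := pow_le_pow_left₀ (by norm_num) (by norm_num) k
  exact mul_le_mul_of_nonneg_right h4 (sq_nonneg _)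

theorem analysis3_r {A : ℕ → ℝ} {c : ℝ} (hc0 : 0 < c) (hAc : ∀ k, c ≤ A k) {c₀ : ℝ}
    (hc₀ : 0 < c₀) : ∃ (r : ℕ → ℝ) (C₃ : ℝ), 0 < C₃ ∧ ∀ k, 0 < r k ∧ r k ≤ 1 ∧
      r k ^ 2 * A k ≤ c₀ ∧ 1 / r k ^ 2 ≤ C₃ * A k := by
  refine ⟨fun k => min 1 (Real.sqrt (c₀ / A k)), 1 / c + 1 / c₀, by positivity, ?_⟩
  intro k
  have hA : 0 < A k := lt_of_lt_of_le hc0 (hAc k)
  have hs : 0 < Real.sqrt (c₀ / A k) := Real.sqrt_pos.2 (by positivity)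
  have h3 : 1 / c * A k ≥ 1 := by
    rw [ge_iff_le, div_mul_eq_mul_div, le_div_iff₀ hc0]
    linarith [hAc k]
  have h4 : 0 < 1 / c₀ * A k := by positivity
  beta_reduce
  refine ⟨lt_min one_pos hs, min_le_left _ _, ?_, ?_⟩
  · rcases le_total 1 (Real.sqrt (c₀ / A k)) with h | h
    · rw [min_eq_left h, one_pow, one_mul]
      have h5 : 1 ≤ c₀ / A k := by
        have := pow_le_pow_left₀ (by norm_num : (0 : ℝ) ≤ 1) h 2
        rwa [Real.sq_sqrt (by positivity), one_pow] at this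
      rwa [le_div_iff₀ hA, one_mul] at h5
    · rw [min_eq_right h, Real.sq_sqrt (by positivity), div_mul_cancel₀ _ hA.ne']
  · rcases le_total 1 (Real.sqrt (c₀ / A k)) with h | h
    · rw [min_eq_left h, one_pow, div_one, add_mul]
      linarith
    · rw [min_eq_right h, Real.sq_sqrt (by positivity), add_mul]
      have h6 : 1 / (c₀ / A k) = 1 / c₀ * A k := by
        field_simp
      rw [h6]
      linarith

theorem analysis3_A_le {π : ℕ → ℝ} (k : ℕ) :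
    analysis3_A π k ≤ 1 / Real.log 2 * analysis_A π k := by
  have hl := analysis_log2_pos
  unfold analysis_A
  rw [analysis_log]
  change analysis3_A π k ≤ 1 / Real.log 2 * (analysis3_A π k * (((k : ℝ) + 1) * Real.log 2))
  have h0 : 0 ≤ analysis3_A π k := by
    unfold analysis3_A
    positivity
  have h1 : 1 / Real.log 2 * (analysis3_A π k * (((k : ℝ) + 1) * Real.log 2))
      = analysis3_A π k * ((k : ℝ) + 1) := by
    field_simp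
  rw [h1]
  have : (0 : ℝ) ≤ k := Nat.cast_nonneg k
  nlinarith

/-- `σ = 2^{-2/3}` -/
theorem analysis3_sigma : 0 < (1 / 2 : ℝ) ^ (2 / 3 : ℝ) ∧ (1 / 2 : ℝ) ^ (2 / 3 : ℝ) < 1 :=
  analysis_rho (by norm_num)

/-- a scale below `N` -/
theorem analysis3_small {π : ℕ → ℝ} (hπ0 : ∀ n, 0 < π n) {C₁ : ℝ}
    (h1 : ∀ m n : ℕ, 1 ≤ m → m ≤ n → π m ≤ C₁ * ((n : ℝ) / m) ^ (1 / 3 : ℝ) * π n)
    {k K N : ℕ} (hkK : k ≤ K) (hN : 2 ^ K ≤ N) :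
    analysis3_A π k ^ 2 / 4 ^ k
      ≤ C₁ ^ 4 * ((N : ℝ) ^ 2 * π N ^ 4) * ((1 / 2 : ℝ) ^ (2 / 3 : ℝ)) ^ (K - k) := by
  have hk : 2 ^ k ≤ N := (Nat.pow_le_pow_right (by norm_num) hkK).trans hN
  have hN1 : 1 ≤ N := Nat.one_le_two_pow.trans hk
  have h := h1 (2 ^ k) N Nat.one_le_two_pow hk
  have hC1 := analysis3_C1_pos hπ0 h1
  have hNr : (0 : ℝ) < N := by exact_mod_cast hN1
  push_cast at h
  set t : ℝ := (N : ℝ) / 2 ^ k with ht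
  have ht0 : 0 < t := by positivity
  have hπk := hπ0 (2 ^ k)
  have hπN := hπ0 N
  have h4k : (4 : ℝ) ^ k = 2 ^ k * 2 ^ k := by
    rw [← mul_pow]
    norm_num
  -- `t ≥ 2^{K-k}`
  have htK : (2 : ℝ) ^ (K - k) ≤ t := by
    rw [ht, le_div_iff₀ (by positivity), ← pow_add]
    have : K - k + k = K := by omega
    rw [this]
    exact_mod_cast hN
  have h2 : analysis3_A π k ^ 2 / 4 ^ k = 4 ^ k * π (2 ^ k) ^ 4 := by
    unfold analysis3_A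
    field_simp
  rw [h2]
  have h3 := pow_le_pow_left₀ hπk.le h 4
  have h4 : 4 ^ k * π (2 ^ k) ^ 4 ≤ 4 ^ k * (C₁ * t ^ (1 / 3 : ℝ) * π N) ^ 4 :=
    mul_le_mul_of_nonneg_left h3 (by positivity)
  refine h4.trans ?_
  -- `4^k t^{4/3} = N² t^{-2/3}`
  have h5 : (t ^ (1 / 3 : ℝ)) ^ 4 = t ^ 2 * t ^ (-(2 / 3) : ℝ) := by
    rw [← Real.rpow_natCast (t ^ (1 / 3 : ℝ)), ← Real.rpow_mul ht0.le, ← Real.rpow_natCast t,
      ← Real.rpow_add ht0]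
    norm_num
  have h6 : t ^ (-(2 / 3) : ℝ) ≤ ((1 / 2 : ℝ) ^ (2 / 3 : ℝ)) ^ (K - k) := by
    rw [← analysis_rpow_pow]
    have e1 : ((1 / 2 : ℝ) ^ (K - k)) ^ (2 / 3 : ℝ) = ((2 : ℝ) ^ (K - k)) ^ (-(2 / 3) : ℝ) := by
      rw [one_div_pow, one_div, Real.inv_rpow (by positivity), Real.rpow_neg (by positivity)]
    rw [e1]
    exact Real.rpow_le_rpow_of_nonpos (by positivity) htK (by norm_num)
  have h7 : 4 ^ k * (C₁ * t ^ (1 / 3 : ℝ) * π N) ^ 4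
      = C₁ ^ 4 * ((N : ℝ) ^ 2 * π N ^ 4) * t ^ (-(2 / 3) : ℝ) := by
    have e1 : (C₁ * t ^ (1 / 3 : ℝ) * π N) ^ 4 = C₁ ^ 4 * π N ^ 4 * (t ^ (1 / 3 : ℝ)) ^ 4 := by ring
    rw [e1, h5]
    have e2 : 4 ^ k * t ^ 2 = (N : ℝ) ^ 2 := by
      rw [ht, h4k]
      field_simp
    calc 4 ^ k * (C₁ ^ 4 * π N ^ 4 * (t ^ 2 * t ^ (-(2 / 3) : ℝ)))
        = (4 ^ k * t ^ 2) * (C₁ ^ 4 * π N ^ 4 * t ^ (-(2 / 3) : ℝ)) := by ring
      _ = _ := by rw [e2]; ring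
  rw [h7]
  exact mul_le_mul_of_nonneg_left h6 (by positivity)

/-- a scale above `N` -/
theorem analysis3_large {π : ℕ → ℝ} (hπ0 : ∀ n, 0 < π n) {C₂ a₀ : ℝ} (ha₀ : 0 < a₀)
    (h2 : ∀ m n : ℕ, 1 ≤ m → m ≤ n → π n ≤ C₂ * ((m : ℝ) / n) ^ a₀ * π m)
    {K N i : ℕ} (hN : 1 ≤ N) (hK : N < 2 ^ (K + 1)) :
    analysis3_A π (i + (K + 1)) / 4 ^ (i + (K + 1))
      ≤ C₂ ^ 2 * π N ^ 2 * ((1 / 2 : ℝ) ^ a₀) ^ i := by
  have hC2 := analysis_C2_pos hπ0 h2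
  set k := i + (K + 1) with hk
  have hKk : 2 ^ (K + 1) ≤ 2 ^ k := Nat.pow_le_pow_right (by norm_num) (by omega)
  have hNk : N ≤ 2 ^ k := by omega
  have h := h2 N (2 ^ k) hN hNk
  push_cast at h
  have hπN := hπ0 N
  have hπk := hπ0 (2 ^ k)
  have hti2 : (N : ℝ) / 2 ^ k ≤ (1 / 2) ^ i := by
    rw [div_le_iff₀ (by positivity), hk, pow_add, ← mul_assoc, ← mul_pow]
    norm_num
    have : (N : ℝ) < 2 ^ (K + 1) := by exact_mod_cast hK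
    linarith
  have hinv : ((N : ℝ) / 2 ^ k) ^ a₀ ≤ ((1 / 2 : ℝ) ^ a₀) ^ i := by
    rw [← analysis_rpow_pow]
    exact Real.rpow_le_rpow (by positivity) hti2 ha₀.le
  obtain ⟨hρ0, hρ1⟩ := analysis_rho ha₀
  set ρ := (1 / 2 : ℝ) ^ a₀ with hρ
  have h3 : analysis3_A π k / 4 ^ k = π (2 ^ k) ^ 2 := by
    unfold analysis3_A
    field_simp
  rw [h3]
  have h4 : π (2 ^ k) ≤ C₂ * ρ ^ i * π N := by
    refine h.trans ?_
    gcongr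
  have h5 := pow_le_pow_left₀ hπk.le h4 2
  refine h5.trans ?_
  have h6 : (ρ ^ i) ^ 2 ≤ ρ ^ i := by
    have e1 : ρ ^ i ≤ 1 := pow_le_one₀ hρ0.le hρ1.le
    have e2 : 0 < ρ ^ i := by positivity
    nlinarith
  calc (C₂ * ρ ^ i * π N) ^ 2 = C₂ ^ 2 * π N ^ 2 * (ρ ^ i) ^ 2 := by ring
    _ ≤ C₂ ^ 2 * π N ^ 2 * ρ ^ i := mul_le_mul_of_nonneg_left h6 (by positivity)

/-- the sum over the scales -/
theorem analysis3_T {π : ℕ → ℝ} (hπ0 : ∀ n, 0 < π n)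
    {C₁ : ℝ} (h1 : ∀ m n : ℕ, 1 ≤ m → m ≤ n → π m ≤ C₁ * ((n : ℝ) / m) ^ (1 / 3 : ℝ) * π n)
    {C₂ a₀ : ℝ} (ha₀ : 0 < a₀)
    (h2 : ∀ m n : ℕ, 1 ≤ m → m ≤ n → π n ≤ C₂ * ((m : ℝ) / n) ^ a₀ * π m)
    {C C₃ : ℝ} (hC : 0 ≤ C) (hC₃ : 0 < C₃) {R : ℕ → ℝ} (hR : ∀ k, 0 ≤ R k)
    (hRA : ∀ k, R k ≤ C₃ * analysis3_A π k) (hRs : Summable fun k => R k / 4 ^ (k + 1))
    {E : ℕ → ℝ} {z : ℝ} (hE1 : ∀ k, |E k| ≤ 9 * C * (z ^ 2 * R k))
    (hE2 : ∀ k, |E k| ≤ 36 * C * (z ^ 2 * R k) ^ 2) {N : ℕ} (hN : 1 ≤ N)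
    (hW : z ^ 2 * ((N : ℝ) ^ 2 * π N ^ 2) ≤ 4) :
    |∑' k, E k / 4 ^ (k + 1)| ≤ (144 * C * C₃ ^ 2 * C₁ ^ 4 / (1 - (1 / 2 : ℝ) ^ (2 / 3 : ℝ))
      + 9 * C * C₃ * C₂ ^ 2 / (1 - (1 / 2 : ℝ) ^ a₀)) / (N : ℝ) ^ 2 := by
  have hC1 := analysis3_C1_pos hπ0 h1
  have hC2 := analysis_C2_pos hπ0 h2
  obtain ⟨hρ0, hρ1⟩ := analysis_rho ha₀
  set ρ := (1 / 2 : ℝ) ^ a₀ with hρ
  obtain ⟨hσ0, hσ1⟩ := analysis3_sigma
  set σ := (1 / 2 : ℝ) ^ (2 / 3 : ℝ) with hσ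
  have hNr : (0 : ℝ) < N := by exact_mod_cast hN
  have hπN := hπ0 N
  have hA := analysis3_A_pos hπ0
  have hρ2 : 0 < 1 - ρ := by linarith
  have hσ2 : 0 < 1 - σ := by linarith
  -- absolute summability
  have hEs : Summable fun k => |E k / 4 ^ (k + 1)| := by
    apply Summable.of_nonneg_of_le (fun k => abs_nonneg _) _ (hRs.mul_left (9 * C * z ^ 2))
    intro k
    rw [abs_div, abs_of_pos (by positivity : (0 : ℝ) < 4 ^ (k + 1)), ← mul_div_assoc]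
    apply div_le_div_of_nonneg_right _ (by positivity)
    refine (hE1 k).trans (le_of_eq ?_)
    ring
  have h3 : |∑' k, E k / 4 ^ (k + 1)| ≤ ∑' k, |E k / 4 ^ (k + 1)| := by
    exact norm_tsum_le_tsum_norm (f := fun k => E k / 4 ^ (k + 1)) hEs
  refine h3.trans ?_
  set K := Nat.log 2 N with hK
  have hK1 : 2 ^ K ≤ N := Nat.pow_log_le_self 2 (by omega)
  have hK2 : N < 2 ^ (K + 1) := Nat.lt_pow_succ_log_self (by norm_num) _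
  rw [← hEs.sum_add_tsum_nat_add (K + 1), add_div]
  apply add_le_add
  · -- small scales
    have h4 : ∀ k ∈ Finset.range (K + 1), |E k / 4 ^ (k + 1)|
        ≤ 9 * C * C₃ ^ 2 * C₁ ^ 4 * (z ^ 4 * ((N : ℝ) ^ 2 * π N ^ 4)) * σ ^ (K + 1 - 1 - k) := by
      intro k hk
      have hkK : k ≤ K := by
        rw [Finset.mem_range] at hk
        omega
      have h5 := analysis3_small hπ0 h1 hkK hK1
      rw [← hσ] at h5
      rw [abs_div, abs_of_pos (by positivity : (0 : ℝ) < 4 ^ (k + 1)), Nat.add_sub_cancel]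
      have h6 : |E k| ≤ 36 * C * (z ^ 2 * (C₃ * analysis3_A π k)) ^ 2 := by
        refine (hE2 k).trans ?_
        have := hRA k
        have := hR k
        gcongr
      have h7 : |E k| / 4 ^ (k + 1) ≤ 36 * C * (z ^ 2 * (C₃ * analysis3_A π k)) ^ 2 / 4 ^ (k + 1) :=
        div_le_div_of_nonneg_right h6 (by positivity)
      refine h7.trans ?_
      have h8 : 36 * C * (z ^ 2 * (C₃ * analysis3_A π k)) ^ 2 / 4 ^ (k + 1)
          = 9 * C * C₃ ^ 2 * z ^ 4 * (analysis3_A π k ^ 2 / 4 ^ k) := by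
        rw [pow_succ (4 : ℝ) k]
        field_simp
        ring
      rw [h8]
      have h9 : 0 ≤ 9 * C * C₃ ^ 2 * z ^ 4 := by positivity
      refine (mul_le_mul_of_nonneg_left h5 h9).trans (le_of_eq ?_)
      ring
    refine (Finset.sum_le_sum h4).trans ?_
    rw [Finset.sum_range_reflect (fun j => 9 * C * C₃ ^ 2 * C₁ ^ 4
      * (z ^ 4 * ((N : ℝ) ^ 2 * π N ^ 4)) * σ ^ j) (K + 1), ← Finset.mul_sum]
    have hgeo : ∑ i ∈ Finset.range (K + 1), σ ^ i ≤ 1 / (1 - σ) := by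
      rw [one_div, ← tsum_geometric_of_lt_one hσ0.le hσ1]
      exact (summable_geometric_of_lt_one hσ0.le hσ1).sum_le_tsum _ (fun i _ => by positivity)
    have hW0 : 0 ≤ z ^ 2 * ((N : ℝ) ^ 2 * π N ^ 2) := by positivity
    have h13 : (z ^ 2 * ((N : ℝ) ^ 2 * π N ^ 2)) ^ 2 ≤ 4 ^ 2 := pow_le_pow_left₀ hW0 hW 2
    have h14 : 9 * C * C₃ ^ 2 * C₁ ^ 4 * (z ^ 4 * ((N : ℝ) ^ 2 * π N ^ 4))
        = 9 * C * C₃ ^ 2 * C₁ ^ 4 / (N : ℝ) ^ 2 * (z ^ 2 * ((N : ℝ) ^ 2 * π N ^ 2)) ^ 2 := by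
      field_simp
    rw [h14]
    calc 9 * C * C₃ ^ 2 * C₁ ^ 4 / (N : ℝ) ^ 2 * (z ^ 2 * ((N : ℝ) ^ 2 * π N ^ 2)) ^ 2
          * ∑ i ∈ Finset.range (K + 1), σ ^ i
        ≤ 9 * C * C₃ ^ 2 * C₁ ^ 4 / (N : ℝ) ^ 2 * 4 ^ 2 * (1 / (1 - σ)) := by
          apply mul_le_mul _ hgeo (Finset.sum_nonneg (fun i _ => by positivity)) (by positivity)
          exact mul_le_mul_of_nonneg_left h13 (by positivity)
      _ = _ := by
          field_simp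
          ring
  · -- large scales
    have h4 : ∀ i, |E (i + (K + 1)) / 4 ^ (i + (K + 1) + 1)|
        ≤ 9 / 4 * C * C₃ * C₂ ^ 2 * (z ^ 2 * π N ^ 2) * ρ ^ i := by
      intro i
      have h5 := analysis3_large hπ0 ha₀ h2 (i := i) hN hK2
      rw [← hρ] at h5
      set k := i + (K + 1) with hk
      rw [abs_div, abs_of_pos (by positivity : (0 : ℝ) < 4 ^ (k + 1))]
      have h6 : |E k| ≤ 9 * C * (z ^ 2 * (C₃ * analysis3_A π k)) := by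
        refine (hE1 k).trans ?_
        have := hRA k
        have := hR k
        gcongr
      have h7 : |E k| / 4 ^ (k + 1) ≤ 9 * C * (z ^ 2 * (C₃ * analysis3_A π k)) / 4 ^ (k + 1) :=
        div_le_div_of_nonneg_right h6 (by positivity)
      refine h7.trans ?_
      have h8 : 9 * C * (z ^ 2 * (C₃ * analysis3_A π k)) / 4 ^ (k + 1)
          = 9 / 4 * C * C₃ * z ^ 2 * (analysis3_A π k / 4 ^ k) := by
        rw [pow_succ (4 : ℝ) k]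
        field_simp
      rw [h8]
      have h9 : 0 ≤ 9 / 4 * C * C₃ * z ^ 2 := by positivity
      refine (mul_le_mul_of_nonneg_left h5 h9).trans (le_of_eq ?_)
      ring
    have hgeo : Summable fun i : ℕ => ρ ^ i := summable_geometric_of_lt_one hρ0.le hρ1
    have h5 : ∑' i, |E (i + (K + 1)) / 4 ^ (i + (K + 1) + 1)|
        ≤ ∑' i, 9 / 4 * C * C₃ * C₂ ^ 2 * (z ^ 2 * π N ^ 2) * ρ ^ i :=
      Summable.tsum_le_tsum h4 ((summable_nat_add_iff (K + 1)).2 hEs) (hgeo.mul_left _)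
    refine h5.trans ?_
    rw [tsum_mul_left, tsum_geometric_of_lt_one hρ0.le hρ1]
    have h6 : 9 / 4 * C * C₃ * C₂ ^ 2 * (z ^ 2 * π N ^ 2) * (1 - ρ)⁻¹
        = 9 / 4 * C * C₃ * C₂ ^ 2 / (1 - ρ) / (N : ℝ) ^ 2 * (z ^ 2 * ((N : ℝ) ^ 2 * π N ^ 2)) := by
      field_simp
    rw [h6]
    have h7 : 0 ≤ 9 / 4 * C * C₃ * C₂ ^ 2 / (1 - ρ) / (N : ℝ) ^ 2 := by positivity
    refine (mul_le_mul_of_nonneg_left hW h7).trans (le_of_eq ?_)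
    ring

theorem analysis3_G {π : ℕ → ℝ} (hπ0 : ∀ n, 0 < π n)
    {C₁ : ℝ} (h1 : ∀ m n : ℕ, 1 ≤ m → m ≤ n → π m ≤ C₁ * ((n : ℝ) / m) ^ (1 / 3 : ℝ) * π n)
    {z : ℝ} {N : ℕ} (hN : 1 ≤ N) (hW : z ^ 2 * ((N : ℝ) ^ 2 * π N ^ 2) ≤ 4) :
    z ^ 4 ≤ 16 / (π 1 / C₁) ^ 4 / (N : ℝ) ^ 2 := by
  have hC1 := analysis3_C1_pos hπ0 h1
  have hNr : (0 : ℝ) < N := by exact_mod_cast hN
  have hπN := hπ0 N
  have hπ1 := hπ0 1
  have h3 := analysis3_lower hπ0 h1 hN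
  set c := (π 1 / C₁) ^ 2 with hc
  have hc0 : 0 < c := by positivity
  have h4 : z ^ 2 * (N * c) ≤ 4 := by
    refine le_trans ?_ hW
    apply mul_le_mul_of_nonneg_left _ (sq_nonneg z)
    have : (N : ℝ) ^ 2 * π N ^ 2 = N * (N * π N ^ 2) := by ring
    rw [this]
    exact mul_le_mul_of_nonneg_left h3 (by positivity)
  have h5 : 0 ≤ z ^ 2 * (N * c) := by positivity
  have h6 := pow_le_pow_left₀ h5 h4 2
  have h7 : z ^ 4 * ((N : ℝ) ^ 2 * c ^ 2) ≤ 16 := by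
    have : (z ^ 2 * (N * c)) ^ 2 = z ^ 4 * ((N : ℝ) ^ 2 * c ^ 2) := by ring
    rw [this] at h6
    linarith
  have h8 : (π 1 / C₁) ^ 4 = c ^ 2 := by rw [hc]; ring
  rw [h8, div_div, le_div_iff₀ (by positivity)]
  linarith

theorem analysis3_W {P : ℝ} (hP : 0 < P) {p : ℝ} {N : ℕ}
    (h : |p - 1 / 2| * N * P ≤ 1) :
    (2 * p - 1) ^ 2 * ((N : ℝ) ^ 2 * P ^ 2) ≤ 4 := by
  have h0 : 0 ≤ |p - 1 / 2| * N * P := by positivity
  have h1 := pow_le_pow_left₀ h0 h 2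
  rw [mul_pow, mul_pow, sq_abs, one_pow] at h1
  have h2 : (2 * p - 1) ^ 2 * ((N : ℝ) ^ 2 * P ^ 2)
      = 4 * ((p - 1 / 2) ^ 2 * N ^ 2 * P ^ 2) := by ring
  rw [h2]
  linarith

open Filter Topology in
theorem analysis3_aux (π : ℕ → ℝ) (hπ0 : ∀ n, 0 < π n) (hπ1 : ∀ n, π n ≤ 1)
    (C₁ : ℝ) (h1 : ∀ m n : ℕ, 1 ≤ m → m ≤ n → π m ≤ C₁ * ((n : ℝ) / m) ^ (1 / 3 : ℝ) * π n)
    (C₂ a₀ : ℝ) (ha₀ : 0 < a₀)
    (h2 : ∀ m n : ℕ, 1 ≤ m → m ≤ n → π n ≤ C₂ * ((m : ℝ) / n) ^ a₀ * π m)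
    (Y : ℕ → ℝ → ℝ) (y : ℕ → ℕ → ℝ) (D : ℕ → ℕ)
    (hY : ∀ k p, Y k p = ∑ j ∈ Finset.range (D k), y k j * (2 * p - 1) ^ j)
    (hyD : ∀ k j, D k ≤ j → y k j = 0)
    (C c₀ : ℝ) (hc₀ : 0 < c₀)
    (hy : ∀ (k : ℕ) (r : ℝ), 0 ≤ r → r ≤ 1 →
      r ^ 2 * (4 ^ k * π (2 ^ k) ^ 2) ≤ c₀ → ∀ j, |y k j| * r ^ j ≤ C)
    (hYb : ∀ (k : ℕ) (p : ℝ), 0 ≤ p → p ≤ 1 → |Y k p| ≤ C)
    (hYd : ∀ (k : ℕ) (p : ℝ), 1 / 4 ≤ p → p ≤ 3 / 4 → |deriv (Y k) p| ≤ C * 2 ^ k)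
    (G : ℝ → ℝ) (g : ℕ → ℝ) (m : ℕ)
    (hG : ∀ p, G p = ∑ j ∈ Finset.range m, g j * (2 * p - 1) ^ j)
    (κ : ℝ → ℝ)
    (hκ : ∀ p : ℝ, 0 ≤ p → p ≤ 1 → HasSum (fun k => Y k p / 4 ^ (k + 1)) (κ p - G p))
    (hdual : ∀ p : ℝ, 0 ≤ p → p ≤ 1 → κ p = κ (1 - p) + 1 - 2 * p) :
    (∀ p : ℝ, 1 / 4 < p → p < 3 / 4 → DifferentiableAt ℝ κ p) ∧
    DifferentiableAt ℝ (deriv κ) (1 / 2) ∧
    ∃ C' : ℝ, ∀ p : ℝ, 0 ≤ p → p ≤ 1 → ∀ N : ℕ, 1 ≤ N →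
      |p - 1 / 2| * N * π N ≤ 1 → |Rem κ p| ≤ C' / (N : ℝ) ^ 2 := by
  have hC1 := analysis3_C1_pos hπ0 h1
  have hc1 : 0 < (π 1 / C₁) ^ 2 := by
    have := hπ0 1
    positivity
  obtain ⟨r, C₃, hC₃, hr⟩ := analysis3_r hc1 (analysis3_A_ge hπ0 h1) hc₀
  have hr0 : ∀ k, 0 < r k := fun k => (hr k).1
  have hYk : ∀ k, Y k = analysis_P (y k) (D k) := by
    intro k
    funext p
    exact hY k p
  have hC : ∀ k j, |y k j| * r k ^ j ≤ C := fun k j =>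
    hy k (r k) (hr0 k).le (hr k).2.1 (hr k).2.2.1 j
  have hC0 : 0 ≤ C := le_trans (mul_nonneg (abs_nonneg _) (pow_nonneg (hr0 0).le 0)) (hC 0 0)
  have hd : ∀ (k : ℕ) (p : ℝ), 1 / 4 ≤ p → p ≤ 3 / 4 → |analysis_d (y k) (D k) p| ≤ C * 2 ^ k := by
    intro k p hp1 hp2
    have h3 := hYd k p hp1 hp2
    rwa [hYk k, (analysis_P_hasDeriv (y k) (D k) p).deriv] at h3
  have hl2 := analysis_log2_pos
  obtain ⟨hs1, hs2⟩ := analysis_summables (C₃ := C₃ * (1 / Real.log 2)) hπ0 hπ1 ha₀ h2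
    (by positivity) hr0 (fun k => by
      refine (hr k).2.2.2.trans ?_
      rw [mul_assoc]
      exact mul_le_mul_of_nonneg_left (analysis3_A_le k) hC₃.le)
  have hκ' : ∀ p : ℝ, 0 ≤ p → p ≤ 1 →
      HasSum (fun k => analysis_P (y k) (D k) p / 4 ^ (k + 1)) (κ p - G p) := by
    intro p hp0 hp1
    have h3 := hκ p hp0 hp1
    simp only [hYk] at h3
    exact h3
  have hs : Summable fun k => analysis_P (y k) (D k) (1 / 2) / 4 ^ (k + 1) :=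
    (hκ' (1 / 2) (by norm_num) (by norm_num)).summable
  -- the polynomial `G`
  set g' : ℕ → ℝ := fun j => if j < m then g j else 0 with hg'
  have hg'm : ∀ j, m ≤ j → g' j = 0 := by
    intro j hj
    rw [hg']
    exact if_neg (by omega)
  have hGP : G = analysis_P g' m := by
    funext p
    rw [hG p]
    unfold analysis_P
    apply Finset.sum_congr rfl
    intro j hj
    rw [Finset.mem_range] at hj
    rw [hg']
    simp only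
    rw [if_pos hj]
  -- first derivative
  have hκd : ∀ p : ℝ, 1 / 4 < p → p < 3 / 4 →
      HasDerivAt κ ((∑' k, analysis_d (y k) (D k) p / 4 ^ (k + 1)) + analysis_d g' m p) p := by
    intro p hp1 hp2
    have h3 := (analysis_series_one hd hs hp1 hp2).2.add (analysis_P_hasDeriv g' m p)
    refine h3.congr_of_eventuallyEq ?_
    filter_upwards [Ioo_mem_nhds hp1 hp2] with q hq
    have h4 := (hκ' q (by linarith [hq.1]) (by linarith [hq.2])).tsum_eq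
    simp only [Pi.add_apply]
    rw [h4, hGP]
    ring
  have hone : ∀ p : ℝ, 1 / 4 < p → p < 3 / 4 → DifferentiableAt ℝ κ p :=
    fun p hp1 hp2 => (hκd p hp1 hp2).differentiableAt
  -- second derivative
  have hsum2 : Summable fun k => y k 2 / 4 ^ (k + 1) := by
    apply Summable.of_norm_bounded (hs1.mul_left C)
    intro k
    rw [Real.norm_eq_abs, abs_div, abs_of_pos (by positivity : (0 : ℝ) < 4 ^ (k + 1)), ← mul_div_assoc]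
    apply div_le_div_of_nonneg_right _ (by positivity)
    have := hr0 k
    rw [mul_one_div, le_div_iff₀ (by positivity)]
    exact hC k 2
  set q := ∑' k, y k 2 / 4 ^ (k + 1) with hq
  have hκ2 : HasDerivAt (deriv κ) (8 * (q + g' 2)) (1 / 2) := by
    have h3 := (analysis_series_two hyD hd hr0 hC hs hs1 hs2).add (analysis_hasDeriv2 hg'm)
    have h5 : (∑' k, 8 * y k 2 / 4 ^ (k + 1)) + 8 * g' 2 = 8 * (q + g' 2) := by
      have : (∑' k, 8 * y k 2 / 4 ^ (k + 1)) = 8 * q := by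
        rw [hq, ← tsum_mul_left]
        apply tsum_congr
        intro k
        ring
      rw [this]
      ring
    rw [h5] at h3
    refine h3.congr_of_eventuallyEq ?_
    filter_upwards [Ioo_mem_nhds (by norm_num : (1 / 4 : ℝ) < 1 / 2) (by norm_num : (1 / 2 : ℝ) < 3 / 4)]
      with p hp
    exact (hκd p hp.1 hp.2).deriv
  have hd1 : deriv κ (1 / 2) = -1 := by
    have h3 := (hone (1 / 2) (by norm_num) (by norm_num)).hasDerivAt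
    have h4 : HasDerivAt (fun p : ℝ => κ (1 - p) + 1 - 2 * p) (-deriv κ (1 / 2) - 2) (1 / 2) := by
      have h5 : HasDerivAt (fun p : ℝ => 1 - p) (-1) (1 / 2) := by
        simpa using (hasDerivAt_id (1 / 2 : ℝ)).const_sub 1
      have h6 : HasDerivAt κ (deriv κ (1 / 2)) (1 - 1 / 2) := by
        have : (1 : ℝ) - 1 / 2 = 1 / 2 := by norm_num
        rw [this]
        exact h3
      have h7 := (h6.comp (1 / 2 : ℝ) h5).add_const 1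
      have h8 : HasDerivAt (fun p : ℝ => 2 * p) 2 (1 / 2) := by
        simpa using (hasDerivAt_id (1 / 2 : ℝ)).const_mul 2
      have h9 := h7.sub h8
      have h10 : deriv κ (1 / 2) * -1 - 2 = -deriv κ (1 / 2) - 2 := by ring
      rw [h10] at h9
      exact h9
    have h11 : κ =ᶠ[𝓝 (1 / 2)] fun p => κ (1 - p) + 1 - 2 * p := by
      filter_upwards [Ioo_mem_nhds (by norm_num : (1 / 4 : ℝ) < 1 / 2)
        (by norm_num : (1 / 2 : ℝ) < 3 / 4)] with p hp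
      exact hdual p (by linarith [hp.1]) (by linarith [hp.2])
    have h12 := (h4.congr_of_eventuallyEq h11).unique h3
    linarith
  refine ⟨hone, hκ2.differentiableAt, ?_⟩
  refine ⟨(144 * C * C₃ ^ 2 * C₁ ^ 4 / (1 - (1 / 2 : ℝ) ^ (2 / 3 : ℝ))
      + 9 * C * C₃ * C₂ ^ 2 / (1 - (1 / 2 : ℝ) ^ a₀))
      + (∑ i ∈ Finset.range m, |g' (4 + i)|) * (16 / (π 1 / C₁) ^ 4), ?_⟩
  intro p hp0 hp1 N hN hyp
  have hW := analysis3_W (hπ0 N) hyp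
  set z := 2 * p - 1 with hz
  have hT := analysis3_T (z := z) hπ0 h1 ha₀ h2 hC0 hC₃ (R := fun k => 1 / r k ^ 2)
    (fun k => by have := hr0 k; positivity) (fun k => (hr k).2.2.2) hs1
    (E := fun k => analysis_evR (y k) (D k) z)
    (fun k => (analysis_evR_two (hyD k) (hr0 k) (hC k)
      (by rw [← hYk]; exact hYb k p hp0 hp1)
      (by rw [← hYk]; exact hYb k (1 - p) (by linarith) (by linarith))).1)
    (fun k => (analysis_evR_two (hyD k) (hr0 k) (hC k)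
      (by rw [← hYk]; exact hYb k p hp0 hp1)
      (by rw [← hYk]; exact hYb k (1 - p) (by linarith) (by linarith))).2)
    hN hW
  have hsT : HasSum (fun k => analysis_evR (y k) (D k) z / 4 ^ (k + 1))
      ((κ p - G p + (κ (1 - p) - G (1 - p))) / 2 - (κ (1 / 2) - G (1 / 2)) - q * z ^ 2) := by
    have a1 := hκ' p hp0 hp1
    have a2 := hκ' (1 - p) (by linarith) (by linarith)
    have a3 := hκ' (1 / 2) (by norm_num) (by norm_num)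
    have a4 := hsum2.hasSum.mul_right (z ^ 2)
    have a5 := (((a1.add a2).div_const 2).sub a3).sub a4
    refine a5.congr_fun ?_
    intro k
    have h3 := analysis_P_even (hyD k) p
    rw [← hz] at h3
    have h4 := analysis_P_half (y k) (hyD k)
    have h5 : analysis_evR (y k) (D k) z
        = (analysis_P (y k) (D k) p + analysis_P (y k) (D k) (1 - p)) / 2 - y k 0 - y k 2 * z ^ 2 := by
      rw [h3]
      ring
    rw [h5, h4]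
    ring
  have hGe := analysis_P_even hg'm p
  rw [← hz, ← hGP] at hGe
  have hGh := analysis_P_half g' hg'm
  rw [← hGP] at hGh
  have hRem : Rem κ p = (∑' k, analysis_evR (y k) (D k) z / 4 ^ (k + 1)) + analysis_evR g' m z := by
    rw [hsT.tsum_eq]
    unfold Rem
    rw [hd1, hκ2.deriv, hGh]
    have h3 := hdual p hp0 hp1
    have h4 : analysis_evR g' m z = (G p + G (1 - p)) / 2 - g' 0 - g' 2 * z ^ 2 := by
      rw [hGe]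
      ring
    rw [h4, hz]
    have h5 : κ (1 - p) = κ p - 1 + 2 * p := by linarith
    rw [h5]
    ring
  rw [hRem]
  refine (abs_add_le _ _).trans ?_
  rw [add_div]
  apply add_le_add hT
  have hz1 : |z| ≤ 1 := by
    rw [abs_le]
    constructor <;> linarith
  refine (analysis_evR_abs g' m hz1).trans ?_
  rw [mul_div_assoc]
  apply mul_le_mul_of_nonneg_left _ (Finset.sum_nonneg (fun i _ => abs_nonneg _))
  exact analysis3_G hπ0 h1 hN hW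

theorem analysis3 (π : ℕ → ℝ) (hπ0 : ∀ n, 0 < π n) (hπ1 : ∀ n, π n ≤ 1)
    (C₁ : ℝ) (h1 : ∀ m n : ℕ, 1 ≤ m → m ≤ n → π m ≤ C₁ * ((n : ℝ) / m) ^ (1 / 3 : ℝ) * π n)
    (C₂ a₀ : ℝ) (ha₀ : 0 < a₀)
    (h2 : ∀ m n : ℕ, 1 ≤ m → m ≤ n → π n ≤ C₂ * ((m : ℝ) / n) ^ a₀ * π m)
    (Y : ℕ → ℝ → ℝ) (y : ℕ → ℕ → ℝ) (D : ℕ → ℕ)
    (hY : ∀ k p, Y k p = ∑ j ∈ Finset.range (D k), y k j * (2 * p - 1) ^ j)
    (hyD : ∀ k j, D k ≤ j → y k j = 0)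
    (C c₀ : ℝ) (hc₀ : 0 < c₀)
    (hy : ∀ (k : ℕ) (r : ℝ), 0 ≤ r → r ≤ 1 →
      r ^ 2 * (4 ^ k * π (2 ^ k) ^ 2) ≤ c₀ → ∀ j, |y k j| * r ^ j ≤ C)
    (hYb : ∀ (k : ℕ) (p : ℝ), 0 ≤ p → p ≤ 1 → |Y k p| ≤ C)
    (hYd : ∀ (k : ℕ) (p : ℝ), 1 / 4 ≤ p → p ≤ 3 / 4 → |deriv (Y k) p| ≤ C * 2 ^ k)
    (G : ℝ → ℝ) (g : ℕ → ℝ) (m : ℕ)
    (hG : ∀ p, G p = ∑ j ∈ Finset.range m, g j * (2 * p - 1) ^ j)
    (κ : ℝ → ℝ)
    (hκ : ∀ p : ℝ, 0 ≤ p → p ≤ 1 → HasSum (fun k => Y k p / 4 ^ (k + 1)) (κ p - G p))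
    (hdual : ∀ p : ℝ, 0 ≤ p → p ≤ 1 → κ p = κ (1 - p) + 1 - 2 * p) :
    (∀ p : ℝ, 1 / 4 < p → p < 3 / 4 → DifferentiableAt ℝ κ p) ∧
    DifferentiableAt ℝ (deriv κ) (1 / 2) ∧
    ∃ C' : ℝ, ∀ p : ℝ, 0 ≤ p → p ≤ 1 → ∀ N : ℕ, 1 ≤ N →
      |p - 1 / 2| * N * π N ≤ 1 → |Rem κ p| ≤ C' / (N : ℝ) ^ 2 := by
  exact analysis3_aux π hπ0 hπ1 C₁ h1 C₂ a₀ ha₀ h2 Y y D hY hyD C c₀ hc₀ hy hYb hYd G g m hG κ hκ
    hdual

end Pool.Agent.H29.Kap
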