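import Pool.Agent.H29.Kap.ThreeArms

/-! # Lower bound for annulus crossing probabilities, exponent `1/3` -/

set_option autoImplicit false

open MeasureTheory ProbabilityTheory unitInterval

namespace Pool.Agent.H29.Kap

open Pool.Agent.H89.Perc

/-- Two disjoint annulus crossings. -/
def armbox3_two (v : Vert) (s R : ℕ) : Set Config :=
  {ω | ∃ ω₁ ω₂ : Config, (∀ e, ω₁ e = true → ω e = true) ∧ (∀ e, ω₂ e = true → ω e = true) ∧
    (∀ e, ω₁ e = true → ω₂ e = false) ∧ ω₁ ∈ ArmBox v s R ∧ ω₂ ∈ ArmBox v s R}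

/-- Restriction of a configuration to a finite set of edges. -/
def armbox3_res (F : Finset Edge) (ω : Config) : Config := fun e => ω e && decide (e ∈ F)

theorem armbox3_res_true {F : Finset Edge} {ω : Config} {e : Edge} :
    armbox3_res F ω e = true ↔ ω e = true ∧ e ∈ F := by
  simp [armbox3_res]

theorem armbox3_res_mem {v : Vert} {s R : ℕ} {ω : Config} (h : ω ∈ ArmBox v s R) :
    armbox3_res (eRect (v.1 - R) (v.1 + R) (v.2 - R) (v.2 + R)) ω ∈ ArmBox v s R := by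
  refine localOn_armBox v s R ω _ (fun e he => ?_) h
  simp only [armbox3_res, he, decide_true, Bool.and_true]

theorem armbox3_localOn_two (v : Vert) (s R : ℕ) :
    LocalOn (eRect (v.1 - R) (v.1 + R) (v.2 - R) (v.2 + R)) (armbox3_two v s R) := by
  rintro ω ω' h ⟨ω₁, ω₂, h1, h2, h3, h4, h5⟩
  refine ⟨armbox3_res (eRect (v.1 - R) (v.1 + R) (v.2 - R) (v.2 + R)) ω₁,
    armbox3_res (eRect (v.1 - R) (v.1 + R) (v.2 - R) (v.2 + R)) ω₂, ?_, ?_, ?_,
    armbox3_res_mem h4, armbox3_res_mem h5⟩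
  · intro e he
    rw [armbox3_res_true] at he
    rw [← h e he.2]
    exact h1 e he.1
  · intro e he
    rw [armbox3_res_true] at he
    rw [← h e he.2]
    exact h2 e he.1
  · intro e he
    rw [armbox3_res_true] at he
    rw [armbox3_res, h3 e he.1, Bool.false_and]

theorem armbox3_incr_two (v : Vert) (s R : ℕ) : Incr (armbox3_two v s R) := by
  rintro ω ω' h ⟨ω₁, ω₂, h1, h2, h3, h4, h5⟩
  exact ⟨ω₁, ω₂, fun e he => h e (h1 e he), fun e he => h e (h2 e he), h3, h4, h5⟩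

theorem armbox3_Pr_two (p : I) (v : Vert) (s R : ℕ) :
    Pr p (armbox3_two v s R) ≤ Pr p (ArmBox 0 s R) ^ 2 := by
  classical
  have hup : Pool.Agent.Perc.UpOn (eRect (v.1 - R) (v.1 + R) (v.2 - R) (v.2 + R))
      (fun S => ofS S ∈ ArmBox v s R) :=
    fun S T hST _ h => incr_armBox v s R _ _ (ofS_mono hST) h
  have key := Pool.Agent.Perc.bk (p := (p : ℝ))
    (F := eRect (v.1 - R) (v.1 + R) (v.2 - R) (v.2 + R)) p.2.1 p.2.2 hup hup
  have h0 : Pr p (ArmBox 0 s R) = Pr p (ArmBox v s R) := (Pr_armBox v s R).symm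
  rw [h0, sq, Pr_eq_Ex (armbox3_localOn_two v s R), Pr_eq_Ex (localOn_armBox v s R)]
  refine le_trans ?_ key
  unfold Pool.Agent.Perc.Pr
  refine Pool.Agent.Perc.Ex_mono p.2.1 p.2.2 fun S _ => Pool.Agent.Perc.ind_le_ind ?_
  rintro ⟨ω₁, ω₂, h1, h2, h3, h4, h5⟩
  have hof : ∀ ω' : Config, (∀ e, ω' e = true → ofS S e = true) →
      ofS (S.filter fun e => ω' e = true) = ω' := by
    intro ω' h
    funext e
    rw [Bool.eq_iff_iff, ofS_eq_true, Finset.mem_filter]
    exact ⟨fun h' => h'.2, fun h' => ⟨ofS_eq_true.1 (h e h'), h'⟩⟩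
  refine ⟨S.filter fun e => ω₁ e = true, S.filter fun e => ω₂ e = true,
    Finset.filter_subset _ _, Finset.filter_subset _ _, ?_, ?_, ?_⟩
  · rw [Finset.disjoint_left]
    intro e he he'
    have h6 := h3 e (Finset.mem_filter.1 he).2
    rw [(Finset.mem_filter.1 he').2] at h6
    exact absurd h6 (by decide)
  · rw [hof ω₁ h1]
    exact h4
  · rw [hof ω₂ h2]
    exact h5

/-- The three crossings. -/
theorem armbox3_cross : ∃ c > (0 : ℝ), ∀ R : ℕ, c ≤ Pr half
    ({ω | HCross ω (-(2 * R + 8 : ℤ)) (2 * R + 8) 0 (2 * (2 * R + 8))} ∩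
      {ω | dual ω ∈ {η | HCross η (-(2 * R + 8 : ℤ) - 1) (2 * R + 8) (-(2 * R + 8 : ℤ)) (-2)} ∩
        {η | VCross η (-(2 * R + 8 : ℤ)) (2 * R + 8 - 1) (-3 * (2 * R + 8) - 1) (-2)}}) := by
  obtain ⟨c, hc, hrsw⟩ := rsw
  refine ⟨1 / 2 * (c * c), by positivity, fun R => ?_⟩
  set W : ℤ := 2 * R + 8 with hW
  set E1 : Set Config := {ω | HCross ω (-W) W 0 (2 * W)} with hE1
  set F2 : Set Config := {η | HCross η (-W - 1) W (-W) (-2)} with hF2
  set F3 : Set Config := {η | VCross η (-W) (W - 1) (-3 * W - 1) (-2)} with hF3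
  have hl1 : LocalOn (eRect (-W) W 0 (2 * W)) E1 := localOn_hcross _ _ _ _
  have hl2 : LocalOn (eRect (-W - 1) W (-W) (-2)) F2 := localOn_hcross _ _ _ _
  have hl3 : LocalOn (eRect (-W) (W - 1) (-3 * W - 1) (-2)) F3 := localOn_vcross _ _ _ _
  have hl23 : LocalOn (eRect (-W - 1) W (-W) (-2) ∪ eRect (-W) (W - 1) (-3 * W - 1) (-2))
      (F2 ∩ F3) :=
    (hl2.mono Finset.subset_union_left).inter (hl3.mono Finset.subset_union_right)
  have hdis : Disjoint (eRect (-W) W 0 (2 * W))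
      ((eRect (-W - 1) W (-W) (-2) ∪ eRect (-W) (W - 1) (-3 * W - 1) (-2)).image crossed) := by
    rw [Finset.disjoint_left]
    intro e he he'
    rw [Finset.mem_image] at he'
    obtain ⟨e', he', rfl⟩ := he'
    rw [Finset.mem_union, mem_eRect, mem_eRect] at he'
    rw [mem_eRect] at he
    obtain ⟨x, y, o⟩ := e'
    cases o <;> simp only [src, crossed, rect, Set.mem_ofPred_eq, if_true, if_false,
      Bool.false_eq_true] at he he' <;> omega
  have hp1 : 1 / 2 ≤ Pr half E1 := by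
    have h1 := Pr_hcross_translate (p := half) (a := 0) (b := ((4 * R + 16 : ℕ) : ℤ)) (c := 0)
      (d := ((4 * R + 16 : ℕ) : ℤ)) (-W) 0
    have h2 := half_le_hcross (4 * R + 16)
    rw [← h1] at h2
    have e1 : (0 : ℤ) + -W = -W := by ring
    have e2 : ((4 * R + 16 : ℕ) : ℤ) + -W = W := by rw [hW]; push_cast; ring
    have e3 : (0 : ℤ) + 0 = 0 := rfl
    have e4 : ((4 * R + 16 : ℕ) : ℤ) + 0 = 2 * W := by rw [hW]; push_cast; ring
    rw [e1, e2, e3, e4] at h2
    exact h2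
  have hp2 : c ≤ Pr half F2 := by
    have h1 := Pr_hcross_translate (p := half) (a := 0) (b := 4 * ((2 * R + 6 : ℕ) : ℤ)) (c := 0)
      (d := ((2 * R + 6 : ℕ) : ℤ)) (-W - 1) (-W)
    have h2 := hrsw (2 * R + 6) (by omega)
    rw [← h1] at h2
    refine h2.trans (Pr_mono ?_)
    intro ω hω
    refine HCross.mono (hω : HCross ω _ _ _ _) ?_ ?_ ?_ ?_ ?_ <;> push_cast <;> omega
  have hp3 : c ≤ Pr half F3 := by
    have h1 := Pr_vcross_translate (p := half) (c := 0) (d := 4 * ((4 * R + 15 : ℕ) : ℤ)) (a := 0)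
      (b := ((4 * R + 15 : ℕ) : ℤ)) (-W) (-3 * W - 1)
    have h2 := hrsw (4 * R + 15) (by omega)
    rw [← Pr_vcross_eq_hcross, ← h1] at h2
    refine h2.trans (Pr_mono ?_)
    intro ω hω
    refine VCross.mono (hω : VCross ω _ _ _ _) ?_ ?_ ?_ ?_ ?_ <;> push_cast <;> omega
  have hp23 : c * c ≤ Pr half {ω | dual ω ∈ F2 ∩ F3} := by
    rw [Pr_dual hl23, ArmBoxLower.sigma_half]
    refine le_trans ?_ (fkg hl2 hl3 (incr_hcross _ _ _ _) (incr_vcross _ _ _ _))
    exact mul_le_mul hp2 hp3 hc.le Pr_nonneg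
  rw [Pr_inter_of_disjoint hl1 hl23.dual' hdis]
  exact mul_le_mul hp1 hp23 (by positivity) Pr_nonneg

/-- The annulus crossing probability at `1 / 2` is at least of the order of the cube root of the
ratio of the radii. -/
theorem armBox_lower3 : ∃ c > (0 : ℝ), ∀ s R : ℕ, 1 ≤ R → s ≤ R →
    c * (((s : ℝ) + 1) / R) ^ (1 / 3 : ℝ) ≤ Pr half (ArmBox 0 s R) := by
  obtain ⟨c, hc, hcross⟩ := armbox3_cross
  refine ⟨(c / 48) ^ (1 / 3 : ℝ), by positivity, fun s R hR hs => ?_⟩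
  have hp := hcross R
  set W : ℤ := 2 * R + 8 with hW
  set P := Pr half (ArmBox 0 s R) with hP
  have hP0 : 0 ≤ P := Pr_nonneg
  -- the blocks
  set m : ℤ := 2 * s + 1 with hm
  set N : ℤ := (2 * W + 2 + s) / m with hN
  have hmpos : 0 < m := by omega
  let Ev : ℤ → Set Config := fun i =>
    armbox3_two (0, m * i) s R ∩ {ω | dual ω ∈ ArmBox (-1, m * i - 1) s R}
  have hsub : ({ω | HCross ω (-W) W 0 (2 * W)} ∩
      {ω | dual ω ∈ {η | HCross η (-W - 1) W (-W) (-2)} ∩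
        {η | VCross η (-W) (W - 1) (-3 * W - 1) (-2)}}) ⊆ ⋃ i ∈ Finset.Icc (-N) N, Ev i := by
    rintro ω ⟨hω1, hω2, hω3⟩
    obtain ⟨h, hh1, hh2, ⟨ω₁, ω₂, hle1, hle2, hdj, ⟨a, ha, hca⟩, ⟨b, hb, hcb⟩⟩, ⟨φ, hφ, hcφ⟩⟩ :=
      three_arms (by omega) hω1 hω2 hω3
    -- the index of the block
    set i : ℤ := (h + s) / m with hi
    have hi1 : m * i ≤ h + s := Int.mul_ediv_self_le hmpos.ne'
    have hi2 : h + s < m * i + m := by
      have := Int.lt_mul_ediv_self_add (x := h + s) hmpos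
      exact this
    have hiN : i ∈ Finset.Icc (-N) N := by
      rw [Finset.mem_Icc]
      constructor
      · rw [hi, Int.le_ediv_iff_mul_le hmpos]
        have h3 : 2 * W + 2 + s < m * N + m := Int.lt_mul_ediv_self_add hmpos
        have h4 : -N * m = -(m * N) := by ring
        rw [h4]
        omega
      · rw [hi, hN]
        exact Int.ediv_le_ediv hmpos (by omega)
    refine Set.mem_biUnion hiN ⟨⟨ω₁, ω₂, hle1, hle2, hdj, ?_, ?_⟩, ?_⟩
    · obtain ⟨x, hx, hcx⟩ := hca.to_sphere (v := ((0, m * i) : Vert)) (r := R)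
        (by simp only [mem_ball]; omega)
        (by left; simp only [mem_ball]; omega)
      refine ⟨(0, h), ?_, x, hx, hcx.mono_set Set.inter_subset_right⟩
      simp only [mem_ball]; omega
    · obtain ⟨x, hx, hcx⟩ := hcb.to_sphere (v := ((0, m * i) : Vert)) (r := R)
        (by simp only [mem_ball]; omega)
        (by left; simp only [mem_ball]; omega)
      refine ⟨(0, h), ?_, x, hx, hcx.mono_set Set.inter_subset_right⟩
      simp only [mem_ball]; omega
    · obtain ⟨x, hx, hcx⟩ := hcφ.to_sphere (v := ((-1, m * i - 1) : Vert)) (r := R)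
        (by simp only [mem_ball]; omega)
        (by left; simp only [mem_ball]; omega)
      refine ⟨(-1, h - 1), ?_, x, hx, hcx.mono_set Set.inter_subset_right⟩
      simp only [mem_ball]; omega
  have hEv : ∀ i, Pr half (Ev i) ≤ P ^ 3 := by
    intro i
    have h1 := fkg_mixed (p := half) (armbox3_localOn_two (0, m * i) s R)
      (localOn_armBox (-1, m * i - 1) s R).dual' (armbox3_incr_two (0, m * i) s R)
      (incr_armBox (-1, m * i - 1) s R).dual_compl
    have h2 : Pr half {ω | dual ω ∈ ArmBox (-1, m * i - 1) s R} = P := by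
      rw [Pr_dual (localOn_armBox (-1, m * i - 1) s R), ArmBoxLower.sigma_half, Pr_armBox]
    rw [h2] at h1
    refine h1.trans ?_
    have h3 := armbox3_Pr_two half (0, m * i) s R
    calc Pr half (armbox3_two (0, m * i) s R) * P ≤ P ^ 2 * P :=
          mul_le_mul_of_nonneg_right h3 hP0
      _ = P ^ 3 := by ring
  have hfin : c ≤ (2 * (N : ℝ) + 1) * P ^ 3 := by
    have hN0 : 0 ≤ N := Int.ediv_nonneg (by omega) hmpos.le
    calc c ≤ _ := hp
      _ ≤ Pr half (⋃ i ∈ Finset.Icc (-N) N, Ev i) := Pr_mono hsub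
      _ ≤ ∑ i ∈ Finset.Icc (-N) N, Pr half (Ev i) := Pr_biUnion_le _ _
      _ ≤ ∑ _i ∈ Finset.Icc (-N) N, P ^ 3 := Finset.sum_le_sum (fun i _ => hEv i)
      _ = (2 * (N : ℝ) + 1) * P ^ 3 := by
        rw [Finset.sum_const, Int.card_Icc, nsmul_eq_mul]
        congr 1
        have : ((N + 1 - -N).toNat : ℤ) = 2 * N + 1 := by
          rw [Int.toNat_of_nonneg (by omega)]; ring
        exact_mod_cast this
  have hR' : (1 : ℝ) ≤ R := by exact_mod_cast hR
  have hs' : (s : ℝ) ≤ R := by exact_mod_cast hs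
  have hs0 : (0 : ℝ) ≤ s := Nat.cast_nonneg s
  have hNb : (2 * (N : ℝ) + 1) * (s + 1) ≤ 48 * R := by
    have h5 : m * N ≤ 2 * W + 2 + s := Int.mul_ediv_self_le hmpos.ne'
    have h6 : ((m : ℝ)) * N ≤ 2 * W + 2 + s := by exact_mod_cast h5
    have hN0 : 0 ≤ N := Int.ediv_nonneg (by omega) hmpos.le
    have hN0' : (0 : ℝ) ≤ N := by exact_mod_cast hN0
    have h7 : (m : ℝ) = 2 * s + 1 := by rw [hm]; push_cast; ring
    have h8 : (W : ℝ) = 2 * R + 8 := by rw [hW]; push_cast; ring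
    rw [h7, h8] at h6
    nlinarith
  have hP3 : 0 ≤ P ^ 3 := by positivity
  have hkey : c / 48 * ((s + 1) / (R : ℝ)) ≤ P ^ 3 := by
    have hRpos : (0 : ℝ) < R := by linarith
    have h1 : c * (s + 1) ≤ 48 * R * P ^ 3 := by
      calc c * (s + 1) ≤ (2 * (N : ℝ) + 1) * P ^ 3 * (s + 1) :=
            mul_le_mul_of_nonneg_right hfin (by linarith)
        _ = ((2 * (N : ℝ) + 1) * (s + 1)) * P ^ 3 := by ring
        _ ≤ 48 * R * P ^ 3 := mul_le_mul_of_nonneg_right hNb hP3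
    rw [← mul_div_assoc, div_le_iff₀ hRpos]
    linarith
  have hx : (0 : ℝ) ≤ (s + 1) / (R : ℝ) := by positivity
  calc (c / 48) ^ (1 / 3 : ℝ) * (((s : ℝ) + 1) / R) ^ (1 / 3 : ℝ)
      = (c / 48 * (((s : ℝ) + 1) / R)) ^ (1 / 3 : ℝ) :=
        (Real.mul_rpow (by positivity) hx).symm
    _ ≤ (P ^ 3) ^ (1 / 3 : ℝ) := Real.rpow_le_rpow (by positivity) hkey (by norm_num)
    _ = P := by
        rw [← Real.rpow_natCast P 3, ← Real.rpow_mul hP0]
        norm_num

end Pool.Agent.H29.Kap
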