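import Pool.Agent.H29.Kap.ArmBox3

/-! # Regularity of the one-arm probability, exponent `1/3` -/

set_option autoImplicit false

namespace Pool.Agent.H29.Kap

open Pool.Agent.H89.Perc

private lemma armext3_box_zero (R : ℕ) : ArmBox 0 0 R ⊆ Arm 0 R := by
  rintro ω ⟨w, hw, u, hu, hc⟩
  have hw0 : w = 0 := by
    have h0 : ((0 : Vert).1) = 0 := rfl
    have h1 : ((0 : Vert).2) = 0 := rfl
    simp only [mem_ball, h0, h1] at hw
    ext
    · rw [h0]; omega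
    · rw [h1]; omega
  subst hw0
  exact ⟨u, hu, hc⟩

/-- Regularity of the one-arm probability at `1 / 2`. -/
theorem armext3_lower : ∃ c > (0 : ℝ), ∀ k R : ℕ, 1 ≤ k → k ≤ R →
    c * ((k : ℝ) / R) ^ (1 / 3 : ℝ) * arm half k ≤ arm half R := by
  classical
  obtain ⟨c1, hc1, H1⟩ := circuit
  obtain ⟨c2, hc2, H2⟩ := armBox_lower3
  refine ⟨min c1 1 * c2 / 4, by positivity, ?_⟩
  intro k R hk hkR
  have hm0 : 0 < min c1 1 := lt_min hc1 one_pos
  have hR : (0 : ℝ) < R := by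
    have : 0 < R := by omega
    exact_mod_cast this
  have hk0 : (0 : ℝ) < k := by exact_mod_cast hk
  -- the annulus crossing probability, for every `s` with `k ≤ 16 (s + 1)`
  have hbox : ∀ s : ℕ, s ≤ R → k ≤ 16 * (s + 1) →
      c2 / 4 * ((k : ℝ) / R) ^ (1 / 3 : ℝ) ≤ Pr half (ArmBox 0 s R) := by
    intro s hs hks
    have h1 := H2 s R (by omega) hs
    have h3 : ((k : ℝ) / R) ^ (1 / 3 : ℝ) ≤ 4 * (((s : ℝ) + 1) / R) ^ (1 / 3 : ℝ) := by
      have h4 : (k : ℝ) / R ≤ 64 * (((s : ℝ) + 1) / R) := by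
        rw [← mul_div_assoc]
        apply div_le_div_of_nonneg_right _ hR.le
        have : (k : ℝ) ≤ 16 * ((s : ℝ) + 1) := by exact_mod_cast hks
        have hs0 : (0 : ℝ) ≤ s := Nat.cast_nonneg s
        linarith
      calc ((k : ℝ) / R) ^ (1 / 3 : ℝ) ≤ (64 * (((s : ℝ) + 1) / R)) ^ (1 / 3 : ℝ) :=
            Real.rpow_le_rpow (by positivity) h4 (by norm_num)
        _ = (64 : ℝ) ^ (1 / 3 : ℝ) * (((s : ℝ) + 1) / R) ^ (1 / 3 : ℝ) :=
            Real.mul_rpow (by norm_num) (by positivity)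
        _ = 4 * (((s : ℝ) + 1) / R) ^ (1 / 3 : ℝ) := by
            congr 1
            rw [show (64 : ℝ) = 4 ^ (3 : ℝ) by norm_num, ← Real.rpow_mul (by norm_num)]
            norm_num
    calc c2 / 4 * ((k : ℝ) / R) ^ (1 / 3 : ℝ)
        ≤ c2 / 4 * (4 * (((s : ℝ) + 1) / R) ^ (1 / 3 : ℝ)) :=
          mul_le_mul_of_nonneg_left h3 (by positivity)
      _ = c2 * (((s : ℝ) + 1) / R) ^ (1 / 3 : ℝ) := by ring
      _ ≤ _ := h1
  have ha0 : 0 ≤ arm half k := Pr_nonneg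
  have ha1 : arm half k ≤ 1 := Pr_le_one
  have hs0 : 0 ≤ ((k : ℝ) / R) ^ (1 / 3 : ℝ) := by positivity
  by_cases hk16 : k < 16
  · -- small radius
    have h1 := hbox 0 (Nat.zero_le _) (by omega)
    have h2 : Pr half (ArmBox 0 0 R) ≤ arm half R := Pr_mono (armext3_box_zero R)
    calc min c1 1 * c2 / 4 * ((k : ℝ) / R) ^ (1 / 3 : ℝ) * arm half k
        = (c2 / 4 * ((k : ℝ) / R) ^ (1 / 3 : ℝ)) * (min c1 1 * arm half k) := by ring
      _ ≤ (c2 / 4 * ((k : ℝ) / R) ^ (1 / 3 : ℝ)) * 1 := by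
          apply mul_le_mul_of_nonneg_left _ (by positivity)
          calc min c1 1 * arm half k ≤ 1 * 1 :=
                mul_le_mul (min_le_right _ _) ha1 ha0 zero_le_one
            _ = 1 := one_mul 1
      _ ≤ arm half R := by rw [mul_one]; exact h1.trans h2
  · -- large radius
    push Not at hk16
    have hs1 : 1 ≤ k / 8 := by omega
    have h1 := H1 (k / 8) k hs1 (by omega) half le_rfl
    have h2 := hbox (k / 8) (by omega) (by omega)
    have f1 : Pr half (Arm 0 k) * Pr half (ArmBox 0 (k / 8) R) ≤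
        Pr half (Arm 0 k ∩ ArmBox 0 (k / 8) R) :=
      fkg (localOn_arm 0 k) (localOn_armBox 0 (k / 8) R) (incr_arm 0 k) (incr_armBox 0 (k / 8) R)
    have f2 : Pr half (Arm 0 k ∩ ArmBox 0 (k / 8) R) * Pr half {ω | dual ω ∉ DArm (k / 8) k} ≤
        Pr half ((Arm 0 k ∩ ArmBox 0 (k / 8) R) ∩ {ω | dual ω ∉ DArm (k / 8) k}) :=
      fkg ((localOn_arm 0 k).inter' (localOn_armBox 0 (k / 8) R)) (localOn_dual_DArm (k / 8) k)
        ((incr_arm 0 k).inter (incr_armBox 0 (k / 8) R)) (incr_dual_DArm (k / 8) k)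
    have f3 : Pr half ((Arm 0 k ∩ ArmBox 0 (k / 8) R) ∩ {ω | dual ω ∉ DArm (k / 8) k}) ≤
        arm half R := by
      refine Pr_mono ?_
      rintro ω ⟨⟨g1, g2⟩, g3⟩
      exact glue (by omega) hkR g1 g2 g3
    have g1 : arm half k * (c2 / 4 * ((k : ℝ) / R) ^ (1 / 3 : ℝ)) ≤
        Pr half (Arm 0 k ∩ ArmBox 0 (k / 8) R) :=
      (mul_le_mul_of_nonneg_left h2 ha0).trans f1
    calc min c1 1 * c2 / 4 * ((k : ℝ) / R) ^ (1 / 3 : ℝ) * arm half k
        = (arm half k * (c2 / 4 * ((k : ℝ) / R) ^ (1 / 3 : ℝ))) * min c1 1 := by ring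
      _ ≤ Pr half (Arm 0 k ∩ ArmBox 0 (k / 8) R) * Pr half {ω | dual ω ∉ DArm (k / 8) k} :=
          mul_le_mul g1 ((min_le_left _ _).trans h1) hm0.le Pr_nonneg
      _ ≤ _ := f2.trans f3

theorem arm_ext3 : ∃ C : ℝ, 0 < C ∧ ∀ m n : ℕ, 1 ≤ m → m ≤ n →
    arm half m ≤ C * ((n : ℝ) / m) ^ (1 / 3 : ℝ) * arm half n := by
  obtain ⟨c, hc, h⟩ := armext3_lower
  refine ⟨1 / c, by positivity, fun m n hm hmn => ?_⟩
  have h1 := h m n hm hmn
  have hm0 : (0 : ℝ) < m := by exact_mod_cast hm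
  have hn0 : (0 : ℝ) < n := by exact_mod_cast (hm.trans hmn)
  have h2 : ((n : ℝ) / m) ^ (1 / 3 : ℝ) * ((m : ℝ) / n) ^ (1 / 3 : ℝ) = 1 := by
    rw [← Real.mul_rpow (by positivity) (by positivity)]
    have : (n : ℝ) / m * (m / n) = 1 := by field_simp
    rw [this, Real.one_rpow]
  calc arm half m = 1 / c * ((n : ℝ) / m) ^ (1 / 3 : ℝ) *
        (c * ((m : ℝ) / n) ^ (1 / 3 : ℝ) * arm half m) := by
        have : 1 / c * ((n : ℝ) / m) ^ (1 / 3 : ℝ) * (c * ((m : ℝ) / n) ^ (1 / 3 : ℝ) * arm half m) =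
          (1 / c * c) * (((n : ℝ) / m) ^ (1 / 3 : ℝ) * ((m : ℝ) / n) ^ (1 / 3 : ℝ)) * arm half m := by
          ring
        rw [this, h2]
        field_simp
    _ ≤ 1 / c * ((n : ℝ) / m) ^ (1 / 3 : ℝ) * arm half n :=
        mul_le_mul_of_nonneg_left h1 (by positivity)

end Pool.Agent.H29.Kap
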