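import Pool.Agent.H29.Kap.Defs

/-! # Comparison of one-arm probabilities at different scales -/

set_option autoImplicit false

namespace Pool.Agent.H29.Kap

open Pool.Agent.H89.Perc

/-- The event of an arm to distance `m` and crossings of `n` successive annuli. -/
def armInter (m : ℕ) : ℕ → Set Config
  | 0 => Arm 0 m
  | n + 1 => armInter m n ∩ Ann (m * 16 ^ n) (m * 16 ^ (n + 1))

lemma armratio_localOn (m n : ℕ) : LocalOn (eBall (m * 16 ^ n)) (armInter m n) := by
  classical
  induction n with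
  | zero =>
    have h := localOn_arm (0 : Vert) m
    have h1 : eBall (m * 16 ^ 0) = eRect ((0 : Vert).1 - m) ((0 : Vert).1 + m)
        ((0 : Vert).2 - m) ((0 : Vert).2 + m) := by
      simp [eBall]
    rw [h1]
    exact h
  | succ n ih =>
    have h1 : m * 16 ^ n ≤ m * 16 ^ (n + 1) :=
      Nat.mul_le_mul_left _ (Nat.pow_le_pow_right (by norm_num) (Nat.le_succ n))
    exact (ih.mono (eBall_subset h1)).inter
      ((localOn_ann _ _).mono Finset.sdiff_subset)

lemma armratio_subset {m R : ℕ} (hm : 1 ≤ m) (n : ℕ) (h : m * 16 ^ n ≤ R) :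
    Arm 0 R ⊆ armInter m n := by
  induction n with
  | zero =>
    rintro ω ⟨u, hu, hc⟩
    have hmR : m ≤ R := by simpa using h
    obtain ⟨hb, h2⟩ := hu
    refine hc.mem_arm ?_
    simp only [Prod.fst_zero, Prod.snd_zero, zero_sub, zero_add, sub_zero] at h2 ⊢
    rcases h2 with h2 | h2 | h2 | h2
    · left; rw [h2, abs_neg, Nat.abs_cast]; exact_mod_cast hmR
    · left; rw [h2, Nat.abs_cast]; exact_mod_cast hmR
    · right; rw [h2, abs_neg, Nat.abs_cast]; exact_mod_cast hmR
    · right; rw [h2, Nat.abs_cast]; exact_mod_cast hmR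
  | succ n ih =>
    have h1 : m * 16 ^ n < m * 16 ^ (n + 1) :=
      Nat.mul_lt_mul_of_pos_left (Nat.pow_lt_pow_right (by norm_num) (Nat.lt_succ_self n)) hm
    exact Set.subset_inter (ih (h1.le.trans h)) (arm_subset_ann h1 h)

/-- Power decay of ratios of one-arm probabilities at `1 / 2`. -/
theorem arm_ratio : ∃ C a : ℝ, 0 < C ∧ 0 < a ∧ ∀ m n : ℕ, 1 ≤ m → m ≤ n →
    arm half n ≤ C * ((m : ℝ) / n) ^ a * arm half m := by
  classical
  obtain ⟨c, hc, h⟩ := armBox_le
  have hc1 : c ≤ 1 := by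
    have h1 := h 1 8 le_rfl (by norm_num)
    have h2 : 0 ≤ Pr half (ArmBox 0 1 8) := Pr_nonneg
    linarith
  set q : ℝ := 1 - c / 2 with hq
  have hq0 : 0 < q := by linarith
  have hq1 : q < 1 := by linarith
  have key : ∀ m : ℕ, 1 ≤ m → ∀ n : ℕ, Pr half (armInter m n) ≤ q ^ n * arm half m := by
    intro m hm n
    induction n with
    | zero => rw [pow_zero, one_mul]; exact le_rfl
    | succ n ih =>
      have h1 : Pr half (armInter m (n + 1)) =
          Pr half (armInter m n) * Pr half (Ann (m * 16 ^ n) (m * 16 ^ (n + 1))) :=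
        Pr_inter_of_disjoint (armratio_localOn m n) (localOn_ann _ _) Finset.disjoint_sdiff
      have h2 : Pr half (Ann (m * 16 ^ n) (m * 16 ^ (n + 1))) ≤ q := by
        have h6 : 1 ≤ 16 ^ n := Nat.one_le_pow _ _ (by norm_num)
        have h7 : 1 ≤ m * 16 ^ n := Nat.one_le_iff_ne_zero.2 (by positivity)
        have h3 : 4 * (m * 16 ^ n + 1 + 1) ≤ m * 16 ^ (n + 1) := by
          have : m * 16 ^ (n + 1) = 16 * (m * 16 ^ n) := by ring
          rw [this]
          omega
        have h4 := h (m * 16 ^ n + 1) (m * 16 ^ (n + 1)) (by omega) h3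
        have h5 : Pr half (Ann (m * 16 ^ n) (m * 16 ^ (n + 1))) ≤
            Pr half (ArmBox 0 (m * 16 ^ n + 1) (m * 16 ^ (n + 1))) :=
          Pr_mono (ann_subset_armBox _ _)
        linarith
      rw [h1, pow_succ]
      have h8 : 0 ≤ arm half m := Pr_nonneg
      calc Pr half (armInter m n) * Pr half (Ann (m * 16 ^ n) (m * 16 ^ (n + 1)))
          ≤ (q ^ n * arm half m) * q := mul_le_mul ih h2 Pr_nonneg (by positivity)
        _ = q ^ n * q * arm half m := by ring
  have hlog : Real.log q < 0 := Real.log_neg hq0 hq1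
  have hlog16 : 0 < Real.log 16 := Real.log_pos (by norm_num)
  set a : ℝ := -Real.log q / Real.log 16 with ha
  have ha0 : 0 < a := div_pos (neg_pos.2 hlog) hlog16
  refine ⟨1 / q, a, by positivity, ha0, fun m n hm hmn => ?_⟩
  have hm0 : (0 : ℝ) < m := by exact_mod_cast hm
  have hn0 : (0 : ℝ) < n := by exact_mod_cast (hm.trans hmn)
  set k := Nat.log 16 (n / m) with hk
  have hnm : n / m ≠ 0 := by
    have := Nat.div_pos hmn hm
    omega
  have hk1 : 16 ^ k ≤ n / m := Nat.pow_log_le_self 16 hnm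
  have hk2 : n / m < 16 ^ (k + 1) := Nat.lt_pow_succ_log_self (by norm_num) _
  have hk3 : m * 16 ^ k ≤ n := by
    calc m * 16 ^ k ≤ m * (n / m) := Nat.mul_le_mul_left _ hk1
      _ ≤ n := Nat.mul_div_le n m
  have hk4 : n < m * 16 ^ (k + 1) := by
    have := Nat.lt_mul_of_div_lt hk2 hm
    rw [mul_comm]; exact this
  have h1 : arm half n ≤ q ^ k * arm half m :=
    (Pr_mono (armratio_subset hm k hk3)).trans (key m hm k)
  have h2 : q ^ (k + 1) ≤ ((m : ℝ) / n) ^ a := by
    have h3 : ((16 : ℝ) ^ (k + 1)) ^ (-a) = q ^ (k + 1) := by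
      rw [← Real.rpow_natCast (16 : ℝ) (k + 1), ← Real.rpow_mul (by norm_num), mul_comm,
        Real.rpow_mul (by norm_num), Real.rpow_natCast]
      congr 1
      rw [Real.rpow_def_of_pos (by norm_num)]
      have : Real.log 16 * -a = Real.log q := by
        rw [ha]; field_simp
      rw [this, Real.exp_log hq0]
    have h4 : ((m : ℝ) / n) ^ a = ((n : ℝ) / m) ^ (-a) := by
      rw [Real.rpow_neg (by positivity), ← Real.inv_rpow (by positivity), inv_div]
    rw [← h3, h4]
    refine Real.rpow_le_rpow_of_nonpos (by positivity) ?_ (by linarith)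
    rw [div_le_iff₀ hm0]
    have : (n : ℝ) ≤ (m * 16 ^ (k + 1) : ℕ) := by exact_mod_cast hk4.le
    push_cast at this
    linarith
  have h8 : 0 ≤ arm half m := Pr_nonneg
  calc arm half n ≤ q ^ k * arm half m := h1
    _ = 1 / q * q ^ (k + 1) * arm half m := by rw [pow_succ]; field_simp
    _ ≤ 1 / q * ((m : ℝ) / n) ^ a * arm half m := by gcongr

end Pool.Agent.H29.Kap
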