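import Pool.Agent.H29.Kap.Defs

/-! # Cluster counts: effect of one edge, locality, simple bounds -/

set_option autoImplicit false

namespace Pool.Agent.H29.Kap

open Pool.Agent.H89.Perc

/-- the cluster of a vertex -/
def count_cl (ω : Config) (S : Set Vert) (v : Vert) : Set Vert := {w | Conn ω S v w}

lemma count_clusters_eq (ω : Config) (S : Set Vert) : clusters ω S = count_cl ω S '' S := by
  ext C
  constructor
  · rintro ⟨v, hv, rfl⟩; exact ⟨v, hv, rfl⟩
  · rintro ⟨v, hv, rfl⟩; exact ⟨v, hv, rfl⟩

lemma count_cl_eq {ω : Config} {S : Set Vert} {u v : Vert} (h : Conn ω S u v) :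
    count_cl ω S u = count_cl ω S v := by
  ext w
  exact ⟨fun h' => h.symm.trans h', fun h' => h.trans h'⟩

lemma count_cl_mem {ω : Config} {S : Set Vert} {v : Vert} (hv : v ∈ S) :
    count_cl ω S v ∈ clusters ω S := ⟨v, hv, rfl⟩

lemma count_upd_mono {ω : Config} {e : Edge} : ∀ f, Function.update ω e false f = true →
    Function.update ω e true f = true := by
  intro f hf
  by_cases h : f = e
  · subst h; simp at hf
  · rw [Function.update_of_ne h] at hf ⊢
    exact hf

lemma count_conn_one {ω : Config} {S : Set Vert} {e : Edge} (h1 : src e ∈ S) (h2 : tgt e ∈ S) :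
    Conn (Function.update ω e true) S (src e) (tgt e) :=
  Step.conn ⟨h1, h2, e, joins_src_tgt e, by simp⟩

lemma count_conn_iff {ω : Config} {S : Set Vert} {e : Edge} (h1 : src e ∈ S) (h2 : tgt e ∈ S)
    (u v : Vert) :
    Conn (Function.update ω e true) S u v ↔ Conn (Function.update ω e false) S u v ∨
      (Conn (Function.update ω e false) S u (src e) ∧
        Conn (Function.update ω e false) S (tgt e) v) ∨
      (Conn (Function.update ω e false) S u (tgt e) ∧
        Conn (Function.update ω e false) S (src e) v) := by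
  constructor
  · intro h
    rcases h.split_edge with h | ⟨a, b, hab, h3, h4⟩
    · exact Or.inl h
    · rcases hab with ⟨rfl, rfl⟩ | ⟨rfl, rfl⟩
      · exact Or.inr (Or.inl ⟨h3, h4⟩)
      · exact Or.inr (Or.inr ⟨h3, h4⟩)
  · rintro (h | ⟨h3, h4⟩ | ⟨h3, h4⟩)
    · exact h.mono subset_rfl count_upd_mono
    · exact ((h3.mono subset_rfl count_upd_mono).trans (count_conn_one h1 h2)).trans
        (h4.mono subset_rfl count_upd_mono)
    · exact ((h3.mono subset_rfl count_upd_mono).trans (count_conn_one h1 h2).symm).trans
        (h4.mono subset_rfl count_upd_mono)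

lemma count_cl_conn {ω : Config} {S : Set Vert} {e : Edge} (h1 : src e ∈ S) (h2 : tgt e ∈ S)
    (h : Conn (Function.update ω e false) S (src e) (tgt e)) (v : Vert) :
    count_cl (Function.update ω e true) S v = count_cl (Function.update ω e false) S v := by
  ext w
  show Conn _ _ _ _ ↔ Conn _ _ _ _
  rw [count_conn_iff h1 h2]
  constructor
  · rintro (h' | ⟨h3, h4⟩ | ⟨h3, h4⟩)
    · exact h'
    · exact (h3.trans h).trans h4
    · exact (h3.trans h.symm).trans h4
  · exact Or.inl

lemma count_cl_away {ω : Config} {S : Set Vert} {e : Edge} (h1 : src e ∈ S) (h2 : tgt e ∈ S)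
    {v : Vert} (hx : ¬ Conn (Function.update ω e false) S v (src e))
    (hy : ¬ Conn (Function.update ω e false) S v (tgt e)) :
    count_cl (Function.update ω e true) S v = count_cl (Function.update ω e false) S v := by
  ext w
  show Conn _ _ _ _ ↔ Conn _ _ _ _
  rw [count_conn_iff h1 h2]
  constructor
  · rintro (h' | ⟨h3, h4⟩ | ⟨h3, h4⟩)
    · exact h'
    · exact absurd h3 hx
    · exact absurd h3 hy
  · exact Or.inl

lemma count_cl_src {ω : Config} {S : Set Vert} {e : Edge} (h1 : src e ∈ S) (h2 : tgt e ∈ S) :
    count_cl (Function.update ω e true) S (src e) =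
      count_cl (Function.update ω e false) S (src e) ∪
      count_cl (Function.update ω e false) S (tgt e) := by
  ext w
  show Conn _ _ _ _ ↔ Conn _ _ _ _ ∨ Conn _ _ _ _
  rw [count_conn_iff h1 h2]
  constructor
  · rintro (h' | ⟨h3, h4⟩ | ⟨h3, h4⟩)
    · exact Or.inl h'
    · exact Or.inr h4
    · exact Or.inl h4
  · rintro (h' | h')
    · exact Or.inl h'
    · exact Or.inr (Or.inl ⟨Conn.refl h1, h'⟩)

/-- Effect of opening one edge on the number of clusters which do not meet `B`. -/
theorem J_update {ω : Config} {S B : Set Vert} (hS : S.Finite) {e : Edge} (h1 : src e ∈ S)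
    (h2 : tgt e ∈ S) :
    (WConn (Function.update ω e false) S B (src e) (tgt e) →
      J (Function.update ω e false) S B = J (Function.update ω e true) S B) ∧
    (¬ WConn (Function.update ω e false) S B (src e) (tgt e) →
      J (Function.update ω e false) S B = J (Function.update ω e true) S B + 1) := by
  by_cases hc : Conn (Function.update ω e false) S (src e) (tgt e)
  · have hw : WConn (Function.update ω e false) S B (src e) (tgt e) := Or.inl hc
    refine ⟨fun _ => ?_, fun h => absurd hw h⟩
    have : clusters (Function.update ω e false) S = clusters (Function.update ω e true) S := by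
      rw [count_clusters_eq, count_clusters_eq]
      exact Set.image_congr fun v _ => (count_cl_conn h1 h2 hc v).symm
    unfold J
    rw [this]
  · set w0 := Function.update ω e false with hw0
    set w1 := Function.update ω e true with hw1
    set x := src e
    set y := tgt e
    set D : Set (Set Vert) := {C | (C ∈ clusters w0 S ∧ C ≠ count_cl w0 S x ∧
      C ≠ count_cl w0 S y) ∧ Disjoint C B} with hD
    have hxx : x ∈ count_cl w0 S x := Conn.refl h1
    have hyy : y ∈ count_cl w0 S y := Conn.refl h2
    have hxy : count_cl w0 S x ≠ count_cl w0 S y := fun h => hc (by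
      have : y ∈ count_cl w0 S x := h ▸ hyy
      exact this)
    have hDfin : D.Finite := (clusters_finite w0 hS).subset fun C hC => hC.1.1
    have hxD : count_cl w0 S x ∉ D := fun h => h.1.2.1 rfl
    have hyD : count_cl w0 S y ∉ D := fun h => h.1.2.2 rfl
    have hxyD : count_cl w0 S x ∪ count_cl w0 S y ∉ D := by
      rintro ⟨⟨⟨v, hv, h3⟩, h4, h5⟩, -⟩
      have h6 : x ∈ {w | Conn w0 S v w} := h3 ▸ Or.inl hxx
      have h7 : y ∈ {w | Conn w0 S v w} := h3 ▸ Or.inr hyy
      exact hc (Conn.trans (Conn.symm h6) h7)
    -- clusters of w0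
    have hc0 : ∀ C, (C ∈ clusters w0 S ∧ Disjoint C B) ↔
        ((C = count_cl w0 S x ∧ Disjoint C B) ∨ (C = count_cl w0 S y ∧ Disjoint C B) ∨ C ∈ D) := by
      intro C
      constructor
      · rintro ⟨h3, h4⟩
        by_cases h5 : C = count_cl w0 S x
        · exact Or.inl ⟨h5, h4⟩
        · by_cases h6 : C = count_cl w0 S y
          · exact Or.inr (Or.inl ⟨h6, h4⟩)
          · exact Or.inr (Or.inr ⟨⟨h3, h5, h6⟩, h4⟩)
      · rintro (⟨rfl, h4⟩ | ⟨rfl, h4⟩ | h4)
        · exact ⟨count_cl_mem h1, h4⟩
        · exact ⟨count_cl_mem h2, h4⟩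
        · exact ⟨h4.1.1, h4.2⟩
    have hc1 : ∀ C, (C ∈ clusters w1 S ∧ Disjoint C B) ↔
        ((C = count_cl w0 S x ∪ count_cl w0 S y ∧ Disjoint C B) ∨ C ∈ D) := by
      intro C
      constructor
      · rintro ⟨⟨v, hv, h3⟩, h4⟩
        have h3' : C = count_cl w1 S v := h3
        by_cases h5 : Conn w0 S v x
        · left
          refine ⟨?_, h4⟩
          rw [h3', ← count_cl_src h1 h2]
          exact count_cl_eq (h5.mono subset_rfl count_upd_mono)
        · by_cases h6 : Conn w0 S v y
          · left
            refine ⟨?_, h4⟩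
            rw [h3', ← count_cl_src h1 h2]
            exact count_cl_eq ((h6.mono subset_rfl count_upd_mono).trans (count_conn_one h1 h2).symm)
          · right
            have h7 : C = count_cl w0 S v := by rw [h3', count_cl_away h1 h2 h5 h6]
            have h8 : v ∈ count_cl w0 S v := Conn.refl hv
            refine ⟨⟨h7 ▸ count_cl_mem hv, ?_, ?_⟩, h4⟩
            · rw [h7]
              intro h9
              have : v ∈ count_cl w0 S x := h9 ▸ h8
              exact h5 (Conn.symm this)
            · rw [h7]
              intro h9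
              have : v ∈ count_cl w0 S y := h9 ▸ h8
              exact h6 (Conn.symm this)
      · rintro (⟨h3, h4⟩ | h4)
        · refine ⟨?_, h4⟩
          rw [h3, ← count_cl_src h1 h2]
          exact count_cl_mem h1
        · refine ⟨?_, h4.2⟩
          obtain ⟨⟨⟨v, hv, h3⟩, h5, h6⟩, -⟩ := h4
          have h3' : C = count_cl w0 S v := h3
          have h7 : ¬ Conn w0 S v x := fun h => h5 (by rw [h3']; exact count_cl_eq h)
          have h8 : ¬ Conn w0 S v y := fun h => h6 (by rw [h3']; exact count_cl_eq h)
          rw [h3', ← count_cl_away h1 h2 h7 h8]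
          exact count_cl_mem hv
    by_cases hX : Disjoint (count_cl w0 S x) B
    · by_cases hY : Disjoint (count_cl w0 S y) B
      · have hnw : ¬ WConn w0 S B x y := by
          rintro (h | ⟨⟨z, hz, h⟩, -⟩)
          · exact hc h
          · exact Set.disjoint_left.1 hX h hz
        refine ⟨fun h => absurd h hnw, fun _ => ?_⟩
        have e0 : {C | C ∈ clusters w0 S ∧ Disjoint C B} =
            insert (count_cl w0 S x) (insert (count_cl w0 S y) D) := by
          ext C
          rw [Set.mem_ofPred_eq, hc0, Set.mem_insert_iff, Set.mem_insert_iff]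
          constructor
          · rintro (⟨h, -⟩ | ⟨h, -⟩ | h)
            exacts [Or.inl h, Or.inr (Or.inl h), Or.inr (Or.inr h)]
          · rintro (h | h | h)
            exacts [Or.inl ⟨h, h ▸ hX⟩, Or.inr (Or.inl ⟨h, h ▸ hY⟩), Or.inr (Or.inr h)]
        have e1 : {C | C ∈ clusters w1 S ∧ Disjoint C B} =
            insert (count_cl w0 S x ∪ count_cl w0 S y) D := by
          ext C
          rw [Set.mem_ofPred_eq, hc1, Set.mem_insert_iff]
          constructor
          · rintro (⟨h, -⟩ | h)
            exacts [Or.inl h, Or.inr h]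
          · rintro (h | h)
            · refine Or.inl ⟨h, ?_⟩
              rw [h, Set.disjoint_union_left]
              exact ⟨hX, hY⟩
            · exact Or.inr h
        unfold J
        rw [e0, e1, Set.ncard_insert_of_notMem _ (hDfin.insert _),
          Set.ncard_insert_of_notMem hyD hDfin, Set.ncard_insert_of_notMem hxyD hDfin]
        intro h
        rcases h with h | h
        · exact hxy h
        · exact hxD h
      · -- Y meets B, X does not
        have hnw : ¬ WConn w0 S B x y := by
          rintro (h | ⟨⟨z, hz, h⟩, -⟩)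
          · exact hc h
          · exact Set.disjoint_left.1 hX h hz
        refine ⟨fun h => absurd h hnw, fun _ => ?_⟩
        have e0 : {C | C ∈ clusters w0 S ∧ Disjoint C B} = insert (count_cl w0 S x) D := by
          ext C
          rw [Set.mem_ofPred_eq, hc0, Set.mem_insert_iff]
          constructor
          · rintro (⟨h, -⟩ | ⟨h, h'⟩ | h)
            exacts [Or.inl h, absurd (h ▸ h') hY, Or.inr h]
          · rintro (h | h)
            exacts [Or.inl ⟨h, h ▸ hX⟩, Or.inr (Or.inr h)]
        have e1 : {C | C ∈ clusters w1 S ∧ Disjoint C B} = D := by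
          ext C
          rw [Set.mem_ofPred_eq, hc1]
          constructor
          · rintro (⟨h, h'⟩ | h)
            · rw [h, Set.disjoint_union_left] at h'
              exact absurd h'.2 hY
            · exact h
          · exact Or.inr
        unfold J
        rw [e0, e1, Set.ncard_insert_of_notMem hxD hDfin]
    · by_cases hY : Disjoint (count_cl w0 S y) B
      · have hnw : ¬ WConn w0 S B x y := by
          rintro (h | ⟨-, ⟨z, hz, h⟩⟩)
          · exact hc h
          · exact Set.disjoint_left.1 hY h hz
        refine ⟨fun h => absurd h hnw, fun _ => ?_⟩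
        have e0 : {C | C ∈ clusters w0 S ∧ Disjoint C B} = insert (count_cl w0 S y) D := by
          ext C
          rw [Set.mem_ofPred_eq, hc0, Set.mem_insert_iff]
          constructor
          · rintro (⟨h, h'⟩ | ⟨h, -⟩ | h)
            exacts [absurd (h ▸ h') hX, Or.inl h, Or.inr h]
          · rintro (h | h)
            exacts [Or.inr (Or.inl ⟨h, h ▸ hY⟩), Or.inr (Or.inr h)]
        have e1 : {C | C ∈ clusters w1 S ∧ Disjoint C B} = D := by
          ext C
          rw [Set.mem_ofPred_eq, hc1]
          constructor
          · rintro (⟨h, h'⟩ | h)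
            · rw [h, Set.disjoint_union_left] at h'
              exact absurd h'.1 hX
            · exact h
          · exact Or.inr
        unfold J
        rw [e0, e1, Set.ncard_insert_of_notMem hyD hDfin]
      · have hw : WConn w0 S B x y := by
          rw [Set.not_disjoint_iff] at hX hY
          obtain ⟨z, hz, hzB⟩ := hX
          obtain ⟨z', hz', hzB'⟩ := hY
          exact Or.inr ⟨⟨z, hzB, hz⟩, z', hzB', hz'⟩
        refine ⟨fun _ => ?_, fun h => absurd hw h⟩
        have e0 : {C | C ∈ clusters w0 S ∧ Disjoint C B} = D := by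
          ext C
          rw [Set.mem_ofPred_eq, hc0]
          constructor
          · rintro (⟨h, h'⟩ | ⟨h, h'⟩ | h)
            exacts [absurd (h ▸ h') hX, absurd (h ▸ h') hY, h]
          · exact fun h => Or.inr (Or.inr h)
        have e1 : {C | C ∈ clusters w1 S ∧ Disjoint C B} = D := by
          ext C
          rw [Set.mem_ofPred_eq, hc1]
          constructor
          · rintro (⟨h, h'⟩ | h)
            · rw [h, Set.disjoint_union_left] at h'
              exact absurd h'.1 hX
            · exact h
          · exact Or.inr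
        unfold J
        rw [e0, e1]

/-- Effect of opening one edge on the number of clusters. -/
theorem K_update {ω : Config} {S : Set Vert} (hS : S.Finite) {e : Edge} (h1 : src e ∈ S)
    (h2 : tgt e ∈ S) :
    (Conn (Function.update ω e false) S (src e) (tgt e) →
      K (Function.update ω e false) S = K (Function.update ω e true) S) ∧
    (¬ Conn (Function.update ω e false) S (src e) (tgt e) →
      K (Function.update ω e false) S = K (Function.update ω e true) S + 1) := by
  rw [K_eq_J, K_eq_J]
  obtain ⟨h3, h4⟩ := J_update (ω := ω) (B := ∅) hS h1 h2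
  refine ⟨fun h => h3 (Or.inl h), fun h => h4 ?_⟩
  rintro (h' | ⟨⟨z, hz, -⟩, -⟩)
  · exact h h'
  · exact hz

/-- The counts depend only on the edges with both endpoints in `S`. -/
theorem J_congr {ω ω' : Config} {S : Set Vert} (B : Set Vert)
    (h : ∀ e, src e ∈ S → tgt e ∈ S → ω e = ω' e) : J ω S B = J ω' S B := by
  have : clusters ω S = clusters ω' S := by
    rw [count_clusters_eq, count_clusters_eq]
    refine Set.image_congr fun v _ => ?_
    ext w
    exact ⟨fun h' => Conn.congr h h', fun h' => Conn.congr (fun e h1 h2 => (h e h1 h2).symm) h'⟩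
  unfold J
  rw [this]

theorem K_congr {ω ω' : Config} {S : Set Vert}
    (h : ∀ e, src e ∈ S → tgt e ∈ S → ω e = ω' e) : K ω S = K ω' S := by
  rw [K_eq_J, K_eq_J, J_congr ∅ h]

lemma count_wired_sub {ω ω' : Config} {S B : Set Vert}
    (h : ∀ e, src e ∈ S → tgt e ∈ S → ¬ (src e ∈ B ∧ tgt e ∈ B) → ω e = ω' e) :
    {C | C ∈ clusters ω S ∧ Disjoint C B} ⊆ {C | C ∈ clusters ω' S ∧ Disjoint C B} := by
  rintro C ⟨⟨v, hv, rfl⟩, hd⟩
  refine ⟨⟨v, hv, ?_⟩, hd⟩
  have hstep : ∀ (σ σ' : Config), (∀ e, src e ∈ S → tgt e ∈ S → ¬ (src e ∈ B ∧ tgt e ∈ B) →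
      σ e = σ' e) → ∀ a b, a ∉ B → Step σ S a b → Step σ' S a b := by
    rintro σ σ' hσ a b ha ⟨h1, h2, e, he, ho⟩
    refine ⟨h1, h2, e, he, ?_⟩
    rcases he with ⟨h3, h4⟩ | ⟨h3, h4⟩
    · rw [← hσ e (h3 ▸ h1) (h4 ▸ h2) (fun h5 => ha (h3 ▸ h5.1))]
      exact ho
    · rw [← hσ e (h4 ▸ h2) (h3 ▸ h1) (fun h5 => ha (h3 ▸ h5.2))]
      exact ho
  ext w
  constructor
  · intro hw
    have hw' : Conn ω S v w := hw
    refine hw'.induction_right (P := fun z => Conn ω' S v z) (Conn.refl hv) ?_
    intro a b hva hab hva'
    exact hva'.tail (hstep ω ω' h a b (Set.disjoint_left.1 hd hva) hab)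
  · intro hw
    have hw' : Conn ω' S v w := hw
    refine hw'.induction_right (P := fun z => Conn ω S v z) (Conn.refl hv) ?_
    intro a b _ hab hva'
    exact hva'.tail (hstep ω' ω (fun e h1 h2 h3 => (h e h1 h2 h3).symm) a b
      (Set.disjoint_left.1 hd hva') hab)

/-- Edges with both endpoints in `B` do not matter for `J` (finitely many edges in `S`). -/
theorem J_congr_wired {ω ω' : Config} {S B : Set Vert} (hS : S.Finite)
    (h : ∀ e, src e ∈ S → tgt e ∈ S → ¬ (src e ∈ B ∧ tgt e ∈ B) → ω e = ω' e) :
    J ω S B = J ω' S B := by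
  unfold J
  exact congrArg Set.ncard (Set.Subset.antisymm (count_wired_sub h)
    (count_wired_sub fun e h1 h2 h3 => (h e h1 h2 h3).symm))

/-- All edges closed. -/
theorem J_closed {ω : Config} {S : Set Vert} (B : Set Vert)
    (h : ∀ e, src e ∈ S → tgt e ∈ S → ω e = false) : J ω S B = (S \ B).ncard := by
  have hcl : ∀ v ∈ S, {w | Conn ω S v w} = {v} := by
    intro v hv
    ext w
    constructor
    · intro hw
      have hw' : Conn ω S v w := hw
      refine hw'.induction_right (P := fun z => z ∈ ({v} : Set Vert)) rfl ?_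
      rintro a b _ ⟨h1, h2, e, he, ho⟩ _
      exfalso
      rcases he with ⟨h3, h4⟩ | ⟨h3, h4⟩
      · rw [h e (h3 ▸ h1) (h4 ▸ h2)] at ho
        exact Bool.false_ne_true ho
      · rw [h e (h4 ▸ h2) (h3 ▸ h1)] at ho
        exact Bool.false_ne_true ho
    · rintro rfl
      exact Conn.refl hv
  have : {C | C ∈ clusters ω S ∧ Disjoint C B} = (fun v => ({v} : Set Vert)) '' (S \ B) := by
    ext C
    constructor
    · rintro ⟨⟨v, hv, rfl⟩, hd⟩
      rw [hcl v hv] at hd ⊢
      exact ⟨v, ⟨hv, Set.disjoint_singleton_left.1 hd⟩, rfl⟩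
    · rintro ⟨v, ⟨hv, hvB⟩, rfl⟩
      exact ⟨⟨v, hv, (hcl v hv).symm⟩, Set.disjoint_singleton_left.2 hvB⟩
  unfold J
  rw [this]
  exact Set.ncard_image_of_injective _ Set.singleton_injective

theorem K_closed {ω : Config} {S : Set Vert}
    (h : ∀ e, src e ∈ S → tgt e ∈ S → ω e = false) : K ω S = S.ncard := by
  rw [K_eq_J, J_closed ∅ h, Set.sdiff_empty]

theorem K_le_ncard {ω : Config} {S : Set Vert} (hS : S.Finite) : K ω S ≤ S.ncard := by
  unfold K
  rw [count_clusters_eq]
  exact Set.ncard_image_le hS

theorem J_le_K {ω : Config} {S : Set Vert} (B : Set Vert) (hS : S.Finite) : J ω S B ≤ K ω S :=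
  Set.ncard_le_ncard (fun _ hC => hC.1) (clusters_finite ω hS)

theorem K_le_J_add {ω : Config} {S B : Set Vert} (hS : S.Finite) (hB : B.Finite) :
    K ω S ≤ J ω S B + B.ncard := by
  have hsub : clusters ω S ⊆ {C | C ∈ clusters ω S ∧ Disjoint C B} ∪ count_cl ω S '' B := by
    intro C hC
    by_cases hd : Disjoint C B
    · exact Or.inl ⟨hC, hd⟩
    · rw [Set.not_disjoint_iff] at hd
      obtain ⟨z, hz, hzB⟩ := hd
      exact Or.inr ⟨z, hzB, (mem_cluster_iff hC hz).symm⟩
  have hfin : ({C | C ∈ clusters ω S ∧ Disjoint C B} ∪ count_cl ω S '' B).Finite :=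
    ((clusters_finite ω hS).subset fun _ hC => hC.1).union (hB.image _)
  calc K ω S ≤ ({C | C ∈ clusters ω S ∧ Disjoint C B} ∪ count_cl ω S '' B).ncard :=
        Set.ncard_le_ncard hsub hfin
    _ ≤ {C | C ∈ clusters ω S ∧ Disjoint C B}.ncard + (count_cl ω S '' B).ncard :=
        Set.ncard_union_le _ _
    _ ≤ J ω S B + B.ncard := Nat.add_le_add le_rfl (Set.ncard_image_le hB)

/-- Subadditivity. -/
theorem K_union_le {ω : Config} {S T : Set Vert} (hS : S.Finite) (hT : T.Finite) :
    K ω (S ∪ T) ≤ K ω S + K ω T := by
  set g : Set Vert → Set Vert := fun C => {w | ∃ u ∈ C, Conn ω (S ∪ T) u w} with hg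
  have hgS : ∀ v ∈ S, g (count_cl ω S v) = count_cl ω (S ∪ T) v := by
    intro v hv
    ext w
    constructor
    · rintro ⟨u, hu, huw⟩
      exact Conn.trans (Conn.mono_set Set.subset_union_left hu) huw
    · intro hw
      exact ⟨v, Conn.refl hv, hw⟩
  have hgT : ∀ v ∈ T, g (count_cl ω T v) = count_cl ω (S ∪ T) v := by
    intro v hv
    ext w
    constructor
    · rintro ⟨u, hu, huw⟩
      exact Conn.trans (Conn.mono_set Set.subset_union_right hu) huw
    · intro hw
      exact ⟨v, Conn.refl hv, hw⟩
  have hsub : clusters ω (S ∪ T) ⊆ g '' clusters ω S ∪ g '' clusters ω T := by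
    rintro C ⟨v, hv | hv, rfl⟩
    · exact Or.inl ⟨_, count_cl_mem hv, hgS v hv⟩
    · exact Or.inr ⟨_, count_cl_mem hv, hgT v hv⟩
  have hf1 := clusters_finite ω hS
  have hf2 := clusters_finite ω hT
  calc K ω (S ∪ T) ≤ (g '' clusters ω S ∪ g '' clusters ω T).ncard :=
        Set.ncard_le_ncard hsub ((hf1.image _).union (hf2.image _))
    _ ≤ (g '' clusters ω S).ncard + (g '' clusters ω T).ncard := Set.ncard_union_le _ _
    _ ≤ _ := Nat.add_le_add (Set.ncard_image_le hf1) (Set.ncard_image_le hf2)

/-- close the edges of `F` -/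
def count_close (ω : Config) (F : Finset Edge) : Config := fun e => if e ∈ F then false else ω e

lemma count_close_le {ω : Config} {S : Set Vert} (hS : S.Finite) (F : Finset Edge)
    (hF : ∀ e ∈ F, src e ∈ S ∧ tgt e ∈ S) : K (count_close ω F) S ≤ K ω S + F.card := by
  classical
  induction F using Finset.induction_on with
  | empty =>
    have : count_close ω ∅ = ω := by funext e; simp [count_close]
    rw [this]
    simp
  | insert e F he ih =>
    have ih' := ih fun f hf => hF f (Finset.mem_insert_of_mem hf)
    obtain ⟨h1, h2⟩ := hF e (Finset.mem_insert_self e F)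
    have e1 : count_close ω (insert e F) = Function.update (count_close ω F) e false := by
      funext f
      by_cases hf : f = e
      · subst hf; simp [count_close]
      · rw [Function.update_of_ne hf]
        simp [count_close, Finset.mem_insert, hf]
    have e2 : K (Function.update (count_close ω F) e false) S ≤ K (count_close ω F) S + 1 := by
      rcases hb : count_close ω F e with _ | _
      · have : Function.update (count_close ω F) e false = count_close ω F := by
          rw [← hb]; exact Function.update_eq_self e _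
        rw [this]
        omega
      · have : Function.update (count_close ω F) e true = count_close ω F := by
          rw [← hb]; exact Function.update_eq_self e _
        obtain ⟨h3, h4⟩ := K_update (ω := count_close ω F) hS h1 h2
        rw [this] at h3 h4
        by_cases hc : Conn (Function.update (count_close ω F) e false) S (src e) (tgt e)
        · rw [h3 hc]; omega
        · rw [h4 hc]
    rw [e1, Finset.card_insert_of_notMem he]
    omega

/-- Splitting a rectangle along a vertical line costs at most the number of edges between the two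
parts. -/
theorem K_split_le {ω : Config} {a m b c d : ℤ} (h1 : a ≤ m) (h2 : m < b) (hcd : c ≤ d) :
    ((K ω (rect a m c d) : ℤ) + K ω (rect (m + 1) b c d)) ≤ K ω (rect a b c d) + (d - c + 1) := by
  classical
  set F : Finset Edge := (Finset.Icc c d).image (fun y => (m, y, false)) with hFdef
  set S := rect a b c d with hS
  set L := rect a m c d with hL
  set R := rect (m + 1) b c d with hR
  have hLS : L ⊆ S := by
    rintro ⟨x, y⟩ h
    simp only [hL, hS, rect, Set.mem_ofPred_eq] at h ⊢
    omega
  have hRS : R ⊆ S := by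
    rintro ⟨x, y⟩ h
    simp only [hR, hS, rect, Set.mem_ofPred_eq] at h ⊢
    omega
  have hFS : ∀ e ∈ F, src e ∈ S ∧ tgt e ∈ S := by
    intro e he
    simp only [hFdef, Finset.mem_image, Finset.mem_Icc] at he
    obtain ⟨y, hy, rfl⟩ := he
    simp only [src, tgt, hS, rect, Set.mem_ofPred_eq, Bool.false_eq_true, if_false]
    omega
  have hcard : F.card ≤ (d - c + 1).toNat := by
    refine Finset.card_image_le.trans ?_
    rw [Int.card_Icc]
    omega
  have hfinS : S.Finite := rect_finite a b c d
  have hle := count_close_le (ω := ω) hfinS F hFS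
  -- edges joining L and R are in F
  have hcross : ∀ e u v, Joins e u v → u ∈ S → v ∈ S → count_close ω F e = true →
      (u ∈ L ↔ v ∈ L) := by
    intro e u v he hu hv ho
    have hnF : e ∉ F := by
      intro h
      simp [count_close, h] at ho
    obtain ⟨x, y, t⟩ := e
    obtain ⟨u1, u2⟩ := u
    obtain ⟨v1, v2⟩ := v
    simp only [hS, rect, Set.mem_ofPred_eq] at hu hv
    simp only [hL, rect, Set.mem_ofPred_eq]
    have hnF' : ¬ (c ≤ y ∧ y ≤ d ∧ m = x ∧ t = false) := by
      rintro ⟨h3, h4, h5, h6⟩
      apply hnF
      simp only [hFdef, Finset.mem_image, Finset.mem_Icc]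
      exact ⟨y, ⟨h3, h4⟩, by rw [h5, h6]⟩
    cases t
    · simp only [Joins, src, tgt, Bool.false_eq_true, if_false, Prod.mk.injEq] at he
      simp only [and_true] at hnF'
      omega
    · simp only [Joins, src, tgt, if_true, Prod.mk.injEq] at he
      omega
  have hLR : ∀ v ∈ S, (v ∈ R ↔ v ∉ L) := by
    rintro ⟨x, y⟩ h
    simp only [hR, hL, hS, rect, Set.mem_ofPred_eq] at h ⊢
    omega
  have hopen : ∀ e, count_close ω F e = true → ω e = true := by
    intro e he
    unfold count_close at he
    split_ifs at he
    exact he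
  have hLconn : ∀ v ∈ L, ∀ w, Conn ω L v w ↔ Conn (count_close ω F) S v w := by
    intro v hv w
    constructor
    · intro h
      have h3 : Conn (count_close ω F) L v w := by
        refine h.congr ?_
        intro e he1 he2
        have : e ∉ F := by
          intro hF
          simp only [hFdef, Finset.mem_image, Finset.mem_Icc] at hF
          obtain ⟨y, hy, rfl⟩ := hF
          simp only [tgt, hL, rect, Set.mem_ofPred_eq, Bool.false_eq_true, if_false] at he2
          omega
        simp [count_close, this]
      exact h3.mono_set hLS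
    · intro h
      refine h.induction_right (P := fun z => Conn ω L v z) (Conn.refl hv) ?_
      rintro p q _ ⟨hp, hq, e, he, ho⟩ hvp
      refine hvp.tail ⟨hvp.mem_right, ?_, e, he, hopen e ho⟩
      exact (hcross e p q he hp hq ho).1 hvp.mem_right
  have hRconn : ∀ v ∈ R, ∀ w, Conn ω R v w ↔ Conn (count_close ω F) S v w := by
    intro v hv w
    constructor
    · intro h
      have h3 : Conn (count_close ω F) R v w := by
        refine h.congr ?_
        intro e he1 he2
        have : e ∉ F := by
          intro hF
          simp only [hFdef, Finset.mem_image, Finset.mem_Icc] at hF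
          obtain ⟨y, hy, rfl⟩ := hF
          simp only [src, hR, rect, Set.mem_ofPred_eq] at he1
          omega
        simp [count_close, this]
      exact h3.mono_set hRS
    · intro h
      refine h.induction_right (P := fun z => Conn ω R v z) (Conn.refl hv) ?_
      rintro p q _ ⟨hp, hq, e, he, ho⟩ hvp
      refine hvp.tail ⟨hvp.mem_right, ?_, e, he, hopen e ho⟩
      have h3 := hcross e p q he hp hq ho
      have h4 := (hLR p hp).1 hvp.mem_right
      exact (hLR q hq).2 fun h5 => h4 (h3.2 h5)
  have hunion : clusters ω L ∪ clusters ω R ⊆ clusters (count_close ω F) S := by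
    rintro C (⟨v, hv, rfl⟩ | ⟨v, hv, rfl⟩)
    · exact ⟨v, hLS hv, Set.ext fun w => hLconn v hv w⟩
    · exact ⟨v, hRS hv, Set.ext fun w => hRconn v hv w⟩
  have hfL := clusters_finite ω (rect_finite a m c d)
  have hfR := clusters_finite ω (rect_finite (m + 1) b c d)
  have hdisj : Disjoint (clusters ω L) (clusters ω R) := by
    rw [Set.disjoint_left]
    intro C hC1 hC2
    obtain ⟨z, hz⟩ := cluster_nonempty hC1
    have h3 := cluster_subset hC1 hz
    have h4 := cluster_subset hC2 hz
    exact (hLR z (hLS h3)).1 h4 h3
  have hcount : K ω L + K ω R ≤ K (count_close ω F) S := by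
    unfold K
    rw [← Set.ncard_union_eq hdisj hfL hfR]
    exact Set.ncard_le_ncard hunion (clusters_finite _ hfinS)
  omega

end Pool.Agent.H29.Kap
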