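import Pool.Agent.H29.Kap.Defs
import Pool.Agent.H89.Perc.RSW

/-! # Second moment of the number of crossing clusters for `p ≤ 1/2` -/

set_option autoImplicit false

namespace Pool.Agent.H29.Kap

open Pool.Agent.H89.Perc Pool.Agent.Perc

/-- Gluing of two horizontal crossings with a vertical crossing of the overlap. -/
theorem crossmom_glue {ω : Config} {a a' b b' c d : ℤ} (h1 : a ≤ a') (h2 : a' ≤ b) (h3 : b ≤ b')
    (hA : HCross ω a b c d) (hB : HCross ω a' b' c d) (hV : VCross ω a' b c d) :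
    HCross ω a b' c d := by
  obtain ⟨u, v, hu, hv, hc⟩ := hA
  obtain ⟨x, y, hx, hy, hc'⟩ := hB
  obtain ⟨p, q, hp, hq, hw⟩ := hV
  obtain ⟨u1, v1, hu1, hv1, k1, k2, k3⟩ := hc.cross_x (a := a') (b := b) (by omega) (by omega) h2
  obtain ⟨x1, y1, hx1, hy1, l1, l2, l3⟩ := hc'.cross_x (a := a') (b := b) (by omega) (by omega) h2
  have s1 : rect a b c d ∩ {w | a' ≤ w.1 ∧ w.1 ≤ b} ⊆ rect a' b c d := by
    rintro w ⟨m1, m2⟩
    simp only [rect, Set.mem_ofPred_eq] at m1 m2 ⊢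
    omega
  have s2 : rect a' b' c d ∩ {w | a' ≤ w.1 ∧ w.1 ≤ b} ⊆ rect a' b c d := by
    rintro w ⟨m1, m2⟩
    simp only [rect, Set.mem_ofPred_eq] at m1 m2 ⊢
    omega
  obtain ⟨w1, n1, n2⟩ := cross (k1.mono_set s1) hu1 hv1 hw hp hq
  obtain ⟨w2, n3, n4⟩ := cross (l1.mono_set s2) hx1 hy1 hw hp hq
  have t1 : rect a b c d ⊆ rect a b' c d := by
    intro w m1
    simp only [rect, Set.mem_ofPred_eq] at m1 ⊢
    omega
  have t2 : rect a' b' c d ⊆ rect a b' c d := by
    intro w m1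
    simp only [rect, Set.mem_ofPred_eq] at m1 ⊢
    omega
  have t3 : rect a' b c d ⊆ rect a b' c d := by
    intro w m1
    simp only [rect, Set.mem_ofPred_eq] at m1 ⊢
    omega
  refine ⟨u, y, hu, hy, ?_⟩
  have r1 : Conn ω (rect a b' c d) u w1 := (k2.mono_set t1).trans (n1.mono_set t3)
  have r2 : Conn ω (rect a b' c d) w1 w2 := ((n2.mono_set t3).symm).trans (n4.mono_set t3)
  have r3 : Conn ω (rect a b' c d) w2 x1 := (n3.mono_set t3).symm
  have r4 : Conn ω (rect a b' c d) x1 y := ((l2.mono_set t2).symm).trans (hc'.mono_set t2)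
  exact ((r1.trans r2).trans r3).trans r4

theorem crossmom_long (k : ℕ) : ∃ c > (0 : ℝ), ∀ m : ℕ, 1 ≤ m →
    c ≤ Pool.Agent.H89.Perc.Pr half {ω | HCross ω 0 (3 * m * k + m) 0 m} := by
  classical
  induction k with
  | zero =>
    refine ⟨1 / 2, by norm_num, fun m _ => ?_⟩
    have := half_le_hcross m
    simpa using this
  | succ k ih =>
    obtain ⟨c, hc, ih⟩ := ih
    obtain ⟨c', hc', hr⟩ := rsw
    refine ⟨c * c' * (1 / 2), by positivity, fun m hm => ?_⟩
    have i1 := ih m hm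
    have i2 := hr m hm
    have i3 := half_le_vcross m
    set L : ℤ := 3 * m * k with hL
    have hL0 : 0 ≤ L := by positivity
    have j2 : c' ≤ Pool.Agent.H89.Perc.Pr half {ω | HCross ω L (L + 4 * m) 0 m} := by
      have := Pr_hcross_translate (p := half) (a := 0) (b := 4 * m) (c := 0) (d := m) L 0
      rw [← this] at i2
      simpa [add_comm] using i2
    have j3 : 1 / 2 ≤ Pool.Agent.H89.Perc.Pr half {ω | VCross ω L (L + m) 0 m} := by
      have := Pr_vcross_translate (p := half) (a := 0) (b := m) (c := 0) (d := m) L 0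
      rw [← this] at i3
      simpa [add_comm] using i3
    have f1 := fkg (p := half) (localOn_hcross 0 (L + m) 0 m) (localOn_hcross L (L + 4 * m) 0 m)
      (incr_hcross _ _ _ _) (incr_hcross _ _ _ _)
    have f2 := fkg (p := half) ((localOn_hcross 0 (L + m) 0 m).inter'
      (localOn_hcross L (L + 4 * m) 0 m)) (localOn_vcross L (L + m) 0 m)
      ((incr_hcross _ _ _ _).inter (incr_hcross _ _ _ _)) (incr_vcross _ _ _ _)
    have hsub : ({ω | HCross ω 0 (L + m) 0 m} ∩ {ω | HCross ω L (L + 4 * m) 0 m}) ∩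
        {ω | VCross ω L (L + m) 0 m} ⊆ {ω | HCross ω 0 (3 * m * ((k + 1 : ℕ) : ℤ) + m) 0 m} := by
      rintro ω ⟨⟨h1, h2⟩, h3⟩
      have e : 3 * (m : ℤ) * ((k + 1 : ℕ) : ℤ) + m = L + 4 * m := by
        rw [hL]; push_cast; ring
      rw [Set.mem_ofPred_eq, e]
      exact crossmom_glue hL0 (by omega) (by omega) h1 h2 h3
    have f3 := Pool.Agent.H89.Perc.Pr_mono (p := half) hsub
    have g1 : c * c' ≤ Pool.Agent.H89.Perc.Pr half
        ({ω | HCross ω 0 (L + m) 0 m} ∩ {ω | HCross ω L (L + 4 * m) 0 m}) :=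
      (mul_le_mul i1 j2 hc'.le (hc.le.trans i1)).trans f1
    have g2 : c * c' * (1 / 2) ≤ _ :=
      (mul_le_mul g1 j3 (by norm_num) ((mul_pos hc hc').le.trans g1)).trans f2
    exact g2.trans f3

theorem crossmom_line (k : ℕ) :
    (1 / 2 : ℝ) ^ k ≤ Pool.Agent.H89.Perc.Pr half {ω | VCross ω 0 0 0 k} := by
  classical
  induction k with
  | zero =>
    have : {ω : Config | VCross ω 0 0 0 ((0 : ℕ) : ℤ)} = Set.univ := by
      ext ω
      simp only [Set.mem_ofPred_eq, Set.mem_univ, iff_true]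
      exact ⟨(0, 0), (0, 0), rfl, rfl, Conn.refl ⟨le_rfl, le_rfl, le_rfl, le_rfl⟩⟩
    rw [this, Pr_univ, pow_zero]
  | succ k ih =>
    have hloc : LocalOn {((0, (k : ℤ), true) : Edge)} {ω : Config | ω (0, (k : ℤ), true) = true} := by
      intro ω ω' h hA
      have : ω (0, (k : ℤ), true) = ω' (0, (k : ℤ), true) := h _ (by simp)
      simp only [Set.mem_ofPred_eq] at hA ⊢
      rw [← this]
      exact hA
    have hinc : Incr {ω : Config | ω (0, (k : ℤ), true) = true} := fun ω ω' h hA => h _ hA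
    have f1 := fkg (p := half) (localOn_vcross 0 0 0 (k : ℤ)) hloc (incr_vcross _ _ _ _) hinc
    have hsub : {ω | VCross ω 0 0 0 (k : ℤ)} ∩ {ω : Config | ω (0, (k : ℤ), true) = true} ⊆
        {ω | VCross ω 0 0 0 ((k + 1 : ℕ) : ℤ)} := by
      rintro ω ⟨⟨u, v, hu, hv, hc⟩, h2⟩
      refine ⟨u, (0, (k : ℤ) + 1), hu, by push_cast; rfl, ?_⟩
      have hs : rect 0 0 0 (k : ℤ) ⊆ rect 0 0 0 ((k + 1 : ℕ) : ℤ) := by
        intro w hw
        simp only [rect, Set.mem_ofPred_eq] at hw ⊢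
        push_cast
        omega
      have hvm := hc.mem_right
      have hv' : v = (0, (k : ℤ)) := by
        simp only [rect, Set.mem_ofPred_eq] at hvm
        exact Prod.ext (by simp only; omega) hv
      rw [hv'] at hc
      refine (hc.mono_set hs).tail ⟨hs hc.mem_right, ?_, (0, (k : ℤ), true), Or.inl ⟨rfl, rfl⟩, h2⟩
      refine ⟨le_rfl, le_rfl, ?_, ?_⟩
      · show (0 : ℤ) ≤ (k : ℤ) + 1
        omega
      · show (k : ℤ) + 1 ≤ ((k + 1 : ℕ) : ℤ)
        push_cast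
        exact le_rfl
    have f3 := Pool.Agent.H89.Perc.Pr_mono (p := half) hsub
    have g := rsw_edge (0, (k : ℤ), true)
    calc (1 / 2 : ℝ) ^ (k + 1) = (1 / 2) ^ k * (1 / 2) := pow_succ _ _
      _ ≤ _ := (mul_le_mul ih g (by norm_num) ((by positivity : (0:ℝ) ≤ (1/2)^k).trans ih)).trans f1
      _ ≤ _ := f3

theorem crossmom_vert : ∃ c > (0 : ℝ), ∀ n : ℕ, 1 ≤ n →
    c ≤ Pool.Agent.H89.Perc.Pr half {ω | VCross ω 0 (n - 1) (-1) (8 * n)} := by
  obtain ⟨c, hc, h⟩ := crossmom_long 6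
  refine ⟨min c ((1 / 2) ^ 9), by positivity, fun n hn => ?_⟩
  by_cases h1 : n = 1
  · subst h1
    refine (min_le_right _ _).trans ((crossmom_line 9).trans (le_of_eq ?_))
    have := Pr_vcross_translate (p := half) (a := 0) (b := 0) (c := 0) (d := 9) 0 (-1)
    rw [show ((9 : ℕ) : ℤ) = 9 from rfl, ← this]
    norm_num
  · obtain ⟨m, rfl⟩ : ∃ m, n = m + 1 := ⟨n - 1, by omega⟩
    have hm : 1 ≤ m := by omega
    refine (min_le_left _ _).trans ((h m hm).trans ?_)
    rw [← Pr_vcross_eq_hcross]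
    have := Pr_vcross_translate (p := half) (a := 0) (b := m) (c := 0)
      (d := 3 * m * ((6 : ℕ) : ℤ) + m) 0 (-1)
    rw [← this]
    refine Pool.Agent.H89.Perc.Pr_mono ?_
    intro ω hω
    rw [Set.mem_ofPred_eq] at hω ⊢
    refine VCross.mono hω ?_ ?_ ?_ ?_ ?_ <;> push_cast <;> omega

theorem crossmom_q : ∃ q : ℝ, 0 ≤ q ∧ q < 1 ∧ ∀ n : ℕ, 1 ≤ n → ∀ x1 x2 c d : ℤ,
    n ≤ x2 - x1 → c ≤ d → d - c ≤ 8 * n →
      Pool.Agent.H89.Perc.Pr half {ω | HCross ω x1 x2 c d} ≤ q := by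
  obtain ⟨c0, hc0, h⟩ := crossmom_vert
  refine ⟨max 0 (1 - c0), le_max_left _ _, by rw [max_lt_iff]; constructor <;> linarith, ?_⟩
  intro n hn x1 x2 c d h1 h2 h3
  refine le_trans ?_ (le_max_right _ _)
  have s1 : {ω : Config | HCross ω x1 x2 c d} ⊆ {ω | HCross ω (0 + x1) (n + x1) (0 + c) (8 * n + c)} := by
    intro ω hω
    rw [Set.mem_ofPred_eq] at hω ⊢
    refine HCross.mono hω ?_ ?_ ?_ ?_ ?_ <;> omega
  refine (Pool.Agent.H89.Perc.Pr_mono s1).trans ?_
  rw [Pr_hcross_translate]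
  have s2 : {ω : Config | HCross ω 0 n 0 (8 * n)} ⊆
      {ω | dual ω ∈ {η | VCross η 0 ((n : ℤ) - 1) (-1) (8 * n)}}ᶜ := by
    intro ω hω hd
    exact not_hcross_and_dual_vcross (by omega) hω hd
  refine (Pool.Agent.H89.Perc.Pr_mono s2).trans ?_
  rw [Pr_compl (LocalOn.dual' (localOn_vcross _ _ _ _)), Pr_dual (localOn_vcross _ _ _ _),
    rsw_symm_half]
  linarith [h n hn]

theorem crossmom_disjK {S : Finset Edge} {x1 x2 c d : ℤ} {k : ℕ} (hk : k ≤ NC (ofS S) x1 x2 c d) :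
    DisjK (fun T => HCross (ofS T) x1 x2 c d) k S := by
  classical
  set T : Set (Set Vert) := {C | C ∈ clusters (ofS S) (rect x1 x2 c d) ∧ (∃ u ∈ C, u.1 = x1) ∧
    ∃ v ∈ C, v.1 = x2} with hT
  have hfin : T.Finite := (clusters_finite (ofS S) (rect_finite x1 x2 c d)).subset fun C hC => hC.1
  obtain ⟨T', hT'1, hT'2⟩ := Set.exists_subset_card_eq (s := T) (n := k) hk
  have hfin' : T'.Finite := hfin.subset hT'1
  have hcard : hfin'.toFinset.card = k := by
    rw [← Set.ncard_eq_toFinset_card T' hfin']; exact hT'2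
  set e := hfin'.toFinset.equivFinOfCardEq hcard with he
  -- the clusters
  set Cl : ℕ → Set Vert := fun i => if h : i < k then ((e.symm ⟨i, h⟩ : hfin'.toFinset) : Set Vert)
    else ∅ with hCl
  have hmem : ∀ i < k, Cl i ∈ T := by
    intro i hi
    have : Cl i = ((e.symm ⟨i, hi⟩ : hfin'.toFinset) : Set Vert) := by
      simp only [hCl]; rw [dif_pos hi]
    rw [this]
    exact hT'1 (hfin'.mem_toFinset.1 (e.symm ⟨i, hi⟩).2)
  have hne : ∀ i < k, ∀ j < k, i ≠ j → Cl i ≠ Cl j := by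
    intro i hi j hj hij h
    have e1 : Cl i = ((e.symm ⟨i, hi⟩ : hfin'.toFinset) : Set Vert) := by
      simp only [hCl]; rw [dif_pos hi]
    have e2 : Cl j = ((e.symm ⟨j, hj⟩ : hfin'.toFinset) : Set Vert) := by
      simp only [hCl]; rw [dif_pos hj]
    rw [e1, e2] at h
    have h2 := e.symm.injective (Subtype.ext h)
    exact hij (by simpa using h2)
  refine DisjK_of_family _ k (fun i => S.filter (fun f => src f ∈ Cl i ∧ tgt f ∈ Cl i)) S
    (fun i _ => Finset.filter_subset _ _) ?_ ?_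
  · intro i hi j hj hij
    rw [Finset.disjoint_left]
    intro f hf hf'
    rw [Finset.mem_filter] at hf hf'
    have a1 := mem_cluster_iff (hmem i hi).1 hf.2.1
    have a2 := mem_cluster_iff (hmem j hj).1 hf'.2.1
    exact hne i hi j hj hij (a1.trans a2.symm)
  · intro i hi
    obtain ⟨h1, ⟨u, hu, hu1⟩, ⟨v, hv, hv1⟩⟩ := hmem i hi
    refine ⟨u, v, hu1, hv1, ?_⟩
    have a1 := mem_cluster_iff h1 hu
    have hc : Conn (ofS S) (rect x1 x2 c d) u v := by
      have := hv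
      rw [a1] at this
      exact this
    refine hc.induction_right (P := fun w => Conn _ (rect x1 x2 c d) u w)
      (Conn.refl hc.mem_left) ?_
    intro a b hab hst ih
    obtain ⟨ha, hb, f, hf, ho⟩ := hst
    refine ih.tail ⟨ha, hb, f, hf, ?_⟩
    rw [ofS_eq_true, Finset.mem_filter]
    refine ⟨ofS_eq_true.1 ho, ?_⟩
    have ha' : a ∈ Cl i := by rw [a1]; exact hab
    have hb' : b ∈ Cl i := by rw [a1]; exact hab.tail ⟨ha, hb, f, hf, ho⟩
    rcases hf with ⟨r1, r2⟩ | ⟨r1, r2⟩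
    · rw [← r1, ← r2]; exact ⟨ha', hb'⟩
    · rw [← r1, ← r2]; exact ⟨hb', ha'⟩

theorem crossmom_sq (N : ℕ) : ∀ M : ℕ, N ≤ M →
    (N : ℝ) ^ 2 = ∑ k ∈ Finset.range M, (2 * (k : ℝ) + 1) * (if k + 1 ≤ N then 1 else 0) := by
  intro M hM
  have h1 : ∀ n : ℕ, ∑ k ∈ Finset.range n, (2 * (k : ℝ) + 1) = (n : ℝ) ^ 2 := by
    intro n
    induction n with
    | zero => simp
    | succ n ih => rw [Finset.sum_range_succ, ih]; push_cast; ring
  rw [← h1 N]
  rw [← Finset.sum_subset (Finset.range_mono hM)]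
  · refine Finset.sum_congr rfl fun k hk => ?_
    rw [if_pos (by have := Finset.mem_range.1 hk; omega), mul_one]
  · intro k _ hk
    rw [if_neg (by intro h; exact hk (Finset.mem_range.2 (by omega))), mul_zero]

theorem NC_moment : ∃ C : ℝ, ∀ n : ℕ, 1 ≤ n → ∀ x1 x2 c d : ℤ, n ≤ x2 - x1 → c ≤ d →
    d - c ≤ 8 * n → ∀ p : ℝ, 0 ≤ p → p ≤ 1 / 2 →
      Ex p (redges x1 x2 c d) (fun S => (NC (ofS S) x1 x2 c d : ℝ) ^ 2) ≤ C := by
  obtain ⟨q, hq0, hq1, hq⟩ := crossmom_q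
  have hsum : Summable (fun k : ℕ => (2 * (k : ℝ) + 1) * q ^ (k + 1)) := by
    have s1 : Summable (fun k : ℕ => (k : ℝ) ^ 1 * q ^ k) :=
      summable_pow_mul_geometric_of_norm_lt_one 1 (by rw [Real.norm_eq_abs, abs_of_nonneg hq0]; exact hq1)
    have s2 : Summable (fun k : ℕ => q ^ k) := summable_geometric_of_lt_one hq0 hq1
    have s3 := (s1.mul_left (2 * q)).add (s2.mul_left q)
    refine s3.congr fun k => ?_
    rw [pow_one, pow_succ]
    ring
  refine ⟨∑' k : ℕ, (2 * (k : ℝ) + 1) * q ^ (k + 1), ?_⟩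
  intro n hn x1 x2 c d h1 h2 h3 p hp0 hp1
  classical
  set F := redges x1 x2 c d with hF
  have hp1' : p ≤ 1 := by linarith
  -- the crossing event
  set A : Finset Edge → Prop := fun T => HCross (ofS T) x1 x2 c d with hA
  have hUp : UpOn F A := by
    rintro S T hST _ ⟨u, v, hu, hv, hc⟩
    exact ⟨u, v, hu, hv, hc.mono le_rfl (ofS_mono hST)⟩
  have hloc : LocalOn F {ω | HCross ω x1 x2 c d} := by
    rintro ω ω' h ⟨u, v, hu, hv, hc⟩
    exact ⟨u, v, hu, hv, Conn.congr (fun e he he' => h e (mem_redges.2 ⟨he, he'⟩)) hc⟩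
  have hPA : Pool.Agent.Perc.Pr p F A ≤ q := by
    have m1 : Pool.Agent.Perc.Pr p F A ≤ Pool.Agent.Perc.Pr (1 / 2) F A := by
      refine Ex_mono_p hp0 hp1 (by norm_num) ?_
      intro S T hST hT
      exact ind_le_ind (hUp S T hST hT)
    refine m1.trans ?_
    have m2 := Pr_eq_Ex hloc half
    have m3 := hq n hn x1 x2 c d h1 h2 h3
    rw [m2] at m3
    exact m3
  have hPA0 : 0 ≤ Pool.Agent.Perc.Pr p F A := Pool.Agent.Perc.Pr_nonneg hp0 hp1' A
  -- upper bound for the number of clusters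
  have hb : ∀ S : Finset Edge, NC (ofS S) x1 x2 c d ≤ (rect x1 x2 c d).ncard := by
    intro S
    have e1 : clusters (ofS S) (rect x1 x2 c d) =
        (fun v => {w | Conn (ofS S) (rect x1 x2 c d) v w}) '' rect x1 x2 c d := by
      ext C
      constructor
      · rintro ⟨v, hv, rfl⟩; exact ⟨v, hv, rfl⟩
      · rintro ⟨v, hv, rfl⟩; exact ⟨v, hv, rfl⟩
    refine (Set.ncard_le_ncard (t := clusters (ofS S) (rect x1 x2 c d)) (fun C hC => hC.1)
      (clusters_finite _ (rect_finite _ _ _ _))).trans ?_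
    rw [e1]
    exact Set.ncard_image_le (rect_finite _ _ _ _)
  set M := (rect x1 x2 c d).ncard with hM
  calc Ex p F (fun S => (NC (ofS S) x1 x2 c d : ℝ) ^ 2)
      ≤ Ex p F (fun S => ∑ k ∈ Finset.range M, (2 * (k : ℝ) + 1) * ind (DisjK A (k + 1)) S) := by
        refine Ex_mono hp0 hp1' fun S _ => ?_
        rw [crossmom_sq _ M (hb S)]
        refine Finset.sum_le_sum fun k _ => ?_
        refine mul_le_mul_of_nonneg_left ?_ (by positivity)
        by_cases hk : k + 1 ≤ NC (ofS S) x1 x2 c d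
        · rw [if_pos hk, ind_of (A := DisjK A (k + 1)) (crossmom_disjK hk)]
        · rw [if_neg hk]; exact ind_nonneg _ _
    _ = ∑ k ∈ Finset.range M, (2 * (k : ℝ) + 1) * Pool.Agent.Perc.Pr p F (DisjK A (k + 1)) := by
        rw [Ex_sum]
        refine Finset.sum_congr rfl fun k _ => ?_
        rw [Ex_const_mul]
        rfl
    _ ≤ ∑ k ∈ Finset.range M, (2 * (k : ℝ) + 1) * q ^ (k + 1) := by
        refine Finset.sum_le_sum fun k _ => ?_
        refine mul_le_mul_of_nonneg_left ?_ (by positivity)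
        exact (bk_pow hp0 hp1' hUp (k + 1)).trans (pow_le_pow_left₀ hPA0 hPA _)
    _ ≤ ∑' k : ℕ, (2 * (k : ℝ) + 1) * q ^ (k + 1) :=
        hsum.sum_le_tsum _ fun k _ => by positivity

end Pool.Agent.H29.Kap
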