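import Pool.Agent.Perc.BK

/-! # Derivative of an expectation with respect to the density -/

set_option autoImplicit false

namespace Pool.Agent.H29.Kap

open Pool.Agent.Perc

variable {ι : Type*} [DecidableEq ι]

/-- normalised indicator -/
noncomputable def derivbound_g (p : ℝ) (e : ι) (S : Finset ι) : ℝ :=
  ((if e ∈ S then 1 else 0) - p) / (p * (1 - p))

lemma derivbound_g_in {p : ℝ} (h0 : 0 < p) (h1 : p < 1) {e : ι} {S : Finset ι} (h : e ∈ S) :
    derivbound_g p e S = 1 / p := by
  have h2 : (1 - p) ≠ 0 := by linarith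
  unfold derivbound_g
  rw [if_pos h]
  field_simp

lemma derivbound_g_out {p : ℝ} (h0 : 0 < p) (h1 : p < 1) {e : ι} {S : Finset ι} (h : e ∉ S) :
    derivbound_g p e S = - (1 / (1 - p)) := by
  have h2 : (1 - p) ≠ 0 := by linarith
  unfold derivbound_g
  rw [if_neg h]
  field_simp
  ring

lemma derivbound_DD {F : Finset ι} {e : ι} (he : e ∈ F) (f : Finset ι → ℝ) {p : ℝ} (h0 : 0 < p)
    (h1 : p < 1) :
    Ex p F (DD e f) = Ex p F (fun S => f S * derivbound_g p e S) := by
  have h2 : (1 - p) ≠ 0 := by linarith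
  rw [Ex_DD he, Ex_erase he p (fun S => f S * derivbound_g p e S)]
  have e1 : Ex p (F.erase e) (fun S => f (insert e S) * derivbound_g p e (insert e S)) =
      Ex p (F.erase e) (fun S => f (insert e S)) * (1 / p) := by
    rw [← Ex_mul_const]
    exact Ex_congr fun S _ => by rw [derivbound_g_in h0 h1 (Finset.mem_insert_self e S)]
  have e2 : Ex p (F.erase e) (fun S => f S * derivbound_g p e S) =
      Ex p (F.erase e) f * (- (1 / (1 - p))) := by
    rw [← Ex_mul_const]
    exact Ex_congr fun S hS => by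
      rw [derivbound_g_out h0 h1 (fun h => (Finset.mem_erase.1 (hS h)).1 rfl)]
  rw [e1, e2]
  field_simp
  ring

lemma derivbound_W (F : Finset ι) {p : ℝ} (h0 : 0 < p) (h1 : p < 1) :
    Ex p F (fun S => (∑ e ∈ F, derivbound_g p e S) ^ 2) = F.card / (p * (1 - p)) := by
  have h2 : (1 - p) ≠ 0 := by linarith
  induction F using Finset.induction_on with
  | empty => simp
  | insert a F ha ih =>
    rw [Ex_insert ha, Finset.card_insert_of_notMem ha]
    have hother : ∀ S : Finset ι, ∑ e ∈ F, derivbound_g p e (insert a S) = ∑ e ∈ F, derivbound_g p e S := by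
      intro S
      apply Finset.sum_congr rfl
      intro e he
      have hea : e ≠ a := fun h => ha (h ▸ he)
      unfold derivbound_g
      simp [Finset.mem_insert, hea]
    have e1 : Ex p F (fun S => (∑ e ∈ insert a F, derivbound_g p e (insert a S)) ^ 2) =
        1 / p ^ 2 + 2 / p * Ex p F (fun S => ∑ e ∈ F, derivbound_g p e S) +
          Ex p F (fun S => (∑ e ∈ F, derivbound_g p e S) ^ 2) := by
      rw [← Ex_const_mul, ← Ex_const p F (1 / p ^ 2), ← Ex_add, ← Ex_add]
      refine Ex_congr fun S _ => ?_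
      rw [Finset.sum_insert ha, hother, derivbound_g_in h0 h1 (Finset.mem_insert_self a S)]
      ring
    have e2 : Ex p F (fun S => (∑ e ∈ insert a F, derivbound_g p e S) ^ 2) =
        1 / (1 - p) ^ 2 + (-(2 / (1 - p))) * Ex p F (fun S => ∑ e ∈ F, derivbound_g p e S) +
          Ex p F (fun S => (∑ e ∈ F, derivbound_g p e S) ^ 2) := by
      rw [← Ex_const_mul, ← Ex_const p F (1 / (1 - p) ^ 2), ← Ex_add, ← Ex_add]
      refine Ex_congr fun S hS => ?_
      rw [Finset.sum_insert ha, derivbound_g_out h0 h1 (fun h => ha (hS h)),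
        show (1 : ℝ) / (1 - p) ^ 2 = (1 / (1 - p)) ^ 2 by rw [one_div, one_div, inv_pow],
        show (2 : ℝ) / (1 - p) = 2 * (1 / (1 - p)) by ring]
      ring
    rw [e1, e2, ih]
    push_cast
    field_simp
    ring

theorem deriv_Ex_bound (F : Finset ι) (f : Finset ι → ℝ) {p : ℝ} (h0 : 0 < p) (h1 : p < 1) :
    |deriv (fun q => Ex q F f) p| ≤
      Real.sqrt (F.card / (p * (1 - p))) * Real.sqrt (Ex p F (fun S => f S ^ 2)) := by
  rw [(hasDerivAt_Ex F f p).deriv]
  have e1 : ∑ e ∈ F, Ex p F (DD e f) = Ex p F (fun S => f S * ∑ e ∈ F, derivbound_g p e S) := by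
    rw [Finset.sum_congr rfl (fun e he => derivbound_DD he f h0 h1), ← Ex_sum]
    exact Ex_congr fun S _ => by rw [Finset.mul_sum]
  rw [e1]
  have h2 := Ex_mul_sq_le h0.le h1.le F f (fun S => ∑ e ∈ F, derivbound_g p e S)
  rw [derivbound_W F h0 h1] at h2
  rw [← Real.sqrt_mul (by
    have : 0 < 1 - p := by linarith
    positivity), mul_comm ((F.card : ℝ) / (p * (1 - p)))]
  exact Real.abs_le_sqrt h2

end Pool.Agent.H29.Kap
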