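import Pool.Agent.H29.Kap.Defs

/-! # Duality for a single edge in a rectangle -/

set_option autoImplicit false

namespace Pool.Agent.H29.Kap

open Pool.Agent.H89.Perc

/-- A function which does not change across the edges outside `D` is constant on the faces
outside `D`. -/
theorem edgeduality_ring {α : Type*} {f : Vert → α} {a b c d : ℤ} (hab : a ≤ b) (hcd : c ≤ d)
    (h : ∀ g : Edge, ¬ (src g ∈ rect a b c d ∧ tgt g ∈ rect a b c d) →
      lowFace g ∈ rect (a - 1) b (c - 1) d → src g ∈ rect (a - 1) b (c - 1) d →
      f (lowFace g) = f (src g)) :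
    ∀ v ∈ bd (a - 1) b (c - 1) d, f v = f (a - 1, c - 1) := by
  have hor : ∀ x y : ℤ, a - 1 ≤ x → x < b → (y = c - 1 ∨ y = d) → f (x, y) = f (x + 1, y) := by
    intro x y h1 h2 h3
    have h4 := h (x + 1, y, true) (by
      simp only [src, tgt, rect, Set.mem_ofPred_eq, if_true]
      omega) (by
      simp only [lowFace, rect, Set.mem_ofPred_eq, if_true]
      omega) (by
      simp only [src, rect, Set.mem_ofPred_eq]
      omega)
    simpa [lowFace, src] using h4
  have ver : ∀ x y : ℤ, c - 1 ≤ y → y < d → (x = a - 1 ∨ x = b) → f (x, y) = f (x, y + 1) := by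
    intro x y h1 h2 h3
    have h4 := h (x, y + 1, false) (by
      simp only [src, tgt, rect, Set.mem_ofPred_eq, Bool.false_eq_true, if_false]
      omega) (by
      simp only [lowFace, rect, Set.mem_ofPred_eq, Bool.false_eq_true, if_false]
      omega) (by
      simp only [src, rect, Set.mem_ofPred_eq]
      omega)
    simpa [lowFace, src] using h4
  rintro ⟨x, y⟩ ⟨⟨h1, h2, h3, h4⟩, h5⟩
  simp only at h1 h2 h3 h4 h5
  rcases h5 with h5 | h5 | h5 | h5
  · subst h5
    exact (const_col (f := f) h3 fun y' k1 k2 => ver _ _ k1 (by omega) (Or.inl rfl)).symm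
  · subst h5
    rw [← const_col (f := f) h3 fun y' k1 k2 => ver _ _ k1 (by omega) (Or.inr rfl)]
    exact (const_row (f := f) h1 fun x' k1 k2 => hor _ _ k1 (by omega) (Or.inl rfl)).symm
  · subst h5
    exact (const_row (f := f) h1 fun x' k1 k2 => hor _ _ k1 (by omega) (Or.inl rfl)).symm
  · subst h5
    rw [← const_row (f := f) h1 fun x' k1 k2 => hor _ _ k1 (by omega) (Or.inr rfl)]
    exact (const_col (f := f) h3 fun y' k1 k2 => ver _ _ k1 (by omega) (Or.inl rfl)).symm

/-- Face sums of the indicator of an edge. -/
theorem edgeduality_fsum_one (e : Edge) (G : Vert) :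
    fsum (one e) G = (if G = lowFace e then 1 else 0) + (if G = src e then 1 else 0) := by
  rw [← vsum_crossed]
  have h : (fun e' => one e (crossed e')) = one (uncross e) := by
    funext e'
    unfold one
    have : crossed e' = e ↔ e' = uncross e := by
      constructor
      · intro h; rw [← h, uncross_crossed]
      · intro h; rw [h, crossed_uncross]
    simp only [this]
  rw [h, vsum_one, src_uncross, tgt_uncross]

/-- The sum of all face sums of an edge function with finite support vanishes. -/
theorem edgeduality_total (k : Edge → ZMod 2) (hk : (Function.support k).Finite) :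
    ∑ᶠ G : Vert, fsum k G = 0 := by
  have hsupp : ∀ (m : Vert → Edge), Function.Injective m →
      (Function.support (fun G => k (m G))).Finite := by
    intro m hm
    exact Set.Finite.preimage (f := m) (s := Function.support k) hm.injOn hk
  have i1 : Function.Injective (fun G : Vert => ((G.1, G.2, false) : Edge)) := by
    rintro ⟨x, y⟩ ⟨x', y'⟩ h
    simp only [Prod.mk.injEq, and_true] at h
    simp only [Prod.mk.injEq]
    omega
  have i2 : Function.Injective (fun G : Vert => ((G.1 + 1, G.2, true) : Edge)) := by
    rintro ⟨x, y⟩ ⟨x', y'⟩ h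
    simp only [Prod.mk.injEq, and_true] at h
    simp only [Prod.mk.injEq]
    omega
  have i3 : Function.Injective (fun G : Vert => ((G.1, G.2 + 1, false) : Edge)) := by
    rintro ⟨x, y⟩ ⟨x', y'⟩ h
    simp only [Prod.mk.injEq, and_true] at h
    simp only [Prod.mk.injEq]
    omega
  have i4 : Function.Injective (fun G : Vert => ((G.1, G.2, true) : Edge)) := by
    rintro ⟨x, y⟩ ⟨x', y'⟩ h
    simp only [Prod.mk.injEq, and_true] at h
    simp only [Prod.mk.injEq]
    omega
  have s1 := hsupp _ i1
  have s2 := hsupp _ i2
  have s3 := hsupp _ i3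
  have s4 := hsupp _ i4
  have e1 : ∑ᶠ G : Vert, k (G.1, G.2 + 1, false) = ∑ᶠ G : Vert, k (G.1, G.2, false) := by
    have := finsum_comp_equiv (Equiv.addRight ((0, 1) : Vert))
      (f := fun G : Vert => k (G.1, G.2, false))
    rw [← this]
    refine finsum_congr fun G => ?_
    simp
  have e2 : ∑ᶠ G : Vert, k (G.1 + 1, G.2, true) = ∑ᶠ G : Vert, k (G.1, G.2, true) := by
    have := finsum_comp_equiv (Equiv.addRight ((1, 0) : Vert))
      (f := fun G : Vert => k (G.1, G.2, true))
    rw [← this]
    refine finsum_congr fun G => ?_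
    simp
  have s12 : (Function.support (fun G : Vert => k (G.1, G.2, false) +
      k (G.1 + 1, G.2, true))).Finite :=
    (s1.union s2).subset (Function.support_add _ _)
  have s123 : (Function.support (fun G : Vert => k (G.1, G.2, false) +
      k (G.1 + 1, G.2, true) + k (G.1, G.2 + 1, false))).Finite :=
    (s12.union s3).subset (Function.support_add _ _)
  unfold fsum
  rw [finsum_add_distrib s123 s4, finsum_add_distrib s12 s3, finsum_add_distrib s1 s2, e1, e2]
  linear_combination z2_add_self (∑ᶠ G : Vert, k (G.1, G.2, false)) +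
    z2_add_self (∑ᶠ G : Vert, k (G.1, G.2, true))

/-- The main step of the converse direction. -/
theorem edgeduality_aux {ω : Config} {a b c d : ℤ} {e : Edge} (he : e ∈ redges a b c d)
    (hno : ¬ Conn (Function.update ω e false) (rect a b c d) (src e) (tgt e)) {G₀ G₁ : Vert}
    (hG : (G₀ = lowFace e ∧ G₁ = src e) ∨ (G₀ = src e ∧ G₁ = lowFace e))
    (h01 : ¬ Conn (dual (Function.update ω e true)) (rect (a - 1) b (c - 1) d) G₀ G₁)
    (hbd : ∀ v ∈ bd (a - 1) b (c - 1) d,
      ¬ Conn (dual (Function.update ω e true)) (rect (a - 1) b (c - 1) d) G₀ v) : False := by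
  classical
  obtain ⟨hx, hy⟩ := mem_redges.1 he
  set ω₀ := Function.update ω e false with hω₀
  set ω₁ := Function.update ω e true with hω₁
  set χ : Vert → ZMod 2 := fun v => if Conn ω₀ (rect a b c d) (src e) v then 1 else 0 with hχ
  set z : Edge → ZMod 2 := fun f =>
    if src f ∈ rect a b c d ∧ tgt f ∈ rect a b c d then χ (src f) + χ (tgt f) else 0 with hz
  have hze : z e = 1 := by
    simp only [hz, hχ]
    rw [if_pos ⟨hx, hy⟩, if_pos (Conn.refl hx), if_neg hno, add_zero]
  have hface : ∀ f : Edge, src f ∈ rect a b c d → tgt f ∈ rect a b c d →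
      lowFace f ∈ rect (a - 1) b (c - 1) d ∧ src f ∈ rect (a - 1) b (c - 1) d := by
    rintro ⟨x, y, t⟩ k1 k2
    cases t <;>
    · simp only [src, tgt, lowFace, rect, Set.mem_ofPred_eq, if_true, Bool.false_eq_true,
        if_false] at k1 k2 ⊢
      omega
  have hzclosed : ∀ f, z f ≠ 0 → (src f ∈ rect a b c d ∧ tgt f ∈ rect a b c d) ∧
      ω₀ f = false := by
    intro f hf
    simp only [hz] at hf
    split_ifs at hf with hin
    · refine ⟨hin, ?_⟩
      by_contra ho
      rw [Bool.not_eq_false] at ho
      apply hf
      rw [z2_add_eq_zero]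
      have : Conn ω₀ (rect a b c d) (src e) (src f) ↔ Conn ω₀ (rect a b c d) (src e) (tgt f) :=
        ⟨fun h => h.tail ⟨hin.1, hin.2, f, joins_src_tgt f, ho⟩,
          fun h => h.tail ⟨hin.2, hin.1, f, (joins_src_tgt f).symm, ho⟩⟩
      simp only [hχ, this]
    · exact absurd rfl hf
  set Q : Set Vert := {G | Conn (dual ω₁) (rect (a - 1) b (c - 1) d) G₀ G} with hQ
  have hG₀T : G₀ ∈ rect (a - 1) b (c - 1) d := by
    obtain ⟨k1, k2⟩ := hface e hx hy
    rcases hG with ⟨h, _⟩ | ⟨h, _⟩
    · rw [h]; exact k1
    · rw [h]; exact k2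
  have hG₀Q : G₀ ∈ Q := Conn.refl hG₀T
  have hG₁Q : G₁ ∉ Q := h01
  have hQin : ∀ G ∈ Q, G ∈ rect a (b - 1) c (d - 1) := by
    intro G hGQ
    have k1 : G ∈ rect (a - 1) b (c - 1) d := Conn.mem_right hGQ
    have k2 : ¬ (G.1 = a - 1 ∨ G.1 = b ∨ G.2 = c - 1 ∨ G.2 = d) := fun h => hbd G ⟨k1, h⟩ hGQ
    simp only [rect, Set.mem_ofPred_eq] at k1 ⊢
    omega
  -- closed edges different from `e` have both or no faces in `Q`
  have hstep : ∀ f : Edge, f ≠ e → z f ≠ 0 → (lowFace f ∈ Q ↔ src f ∈ Q) := by
    intro f hfe hf
    obtain ⟨hin, hcl⟩ := hzclosed f hf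
    obtain ⟨k1, k2⟩ := hface f hin.1 hin.2
    have k3 : ω₁ f = false := by
      rw [hω₀, Function.update_of_ne hfe] at hcl
      rw [hω₁, Function.update_of_ne hfe]
      exact hcl
    have k4 := dual_step k3 k1 k2
    exact ⟨fun h => Conn.tail h k4, fun h => Conn.tail h k4.symm⟩
  set k : Edge → ZMod 2 := fun f =>
    if f ≠ e ∧ (lowFace f ∈ Q ∨ src f ∈ Q) then z f else 0 with hk
  have hkfin : (Function.support k).Finite := by
    refine (redges a b c d).finite_toSet.subset ?_
    intro f hf
    rw [Function.mem_support] at hf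
    simp only [hk] at hf
    split_ifs at hf with h
    · exact mem_redges.2 (hzclosed f hf).1
    · exact absurd rfl hf
  -- the value near a face
  have hkin : ∀ f : Edge, (lowFace f ∈ Q ∨ src f ∈ Q) → k f = z f + one e f := by
    intro f hf
    by_cases hfe : f = e
    · have h1 : k e = 0 := by
        simp only [hk]
        rw [if_neg (by tauto)]
      have h2 : one e e = 1 := by simp [one]
      rw [hfe, h1, hze, h2, z2_add_self]
    · simp only [hk, one]
      rw [if_pos ⟨hfe, hf⟩, if_neg hfe, add_zero]
  have hkout : ∀ f : Edge, (lowFace f ∉ Q ∨ src f ∉ Q) → k f = 0 := by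
    intro f hf
    by_contra hne
    simp only [hk] at hne
    split_ifs at hne with h
    · have := hstep f h.1 hne
      tauto
    · exact hne rfl
  have hfs : ∀ G : Vert, fsum k G = if G = G₀ then 1 else 0 := by
    intro G
    have s1 : G = src (G.1, G.2, false) := rfl
    have s2 : G = lowFace (G.1 + 1, G.2, true) := by simp [lowFace]
    have s3 : G = lowFace (G.1, G.2 + 1, false) := by simp [lowFace]
    have s4 : G = src (G.1, G.2, true) := rfl
    by_cases hGQ : G ∈ Q
    · have h1 : fsum k G = fsum z G + fsum (one e) G := by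
        rw [← fsum_add]
        unfold fsum
        rw [hkin _ (Or.inr (s1 ▸ hGQ)), hkin _ (Or.inl (s2 ▸ hGQ)), hkin _ (Or.inl (s3 ▸ hGQ)),
          hkin _ (Or.inr (s4 ▸ hGQ))]
      have h2 : fsum z G = 0 := by
        have h3 := hQin G hGQ
        simp only [rect, Set.mem_ofPred_eq] at h3
        have z1 : z (G.1, G.2, false) = χ (G.1, G.2) + χ (G.1 + 1, G.2) := by
          simp only [hz]
          rw [if_pos]
          · rfl
          · simp only [src, tgt, rect, Set.mem_ofPred_eq, Bool.false_eq_true, if_false]
            omega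
        have z2 : z (G.1 + 1, G.2, true) = χ (G.1 + 1, G.2) + χ (G.1 + 1, G.2 + 1) := by
          simp only [hz]
          rw [if_pos]
          · rfl
          · simp only [src, tgt, rect, Set.mem_ofPred_eq, if_true]
            omega
        have z3 : z (G.1, G.2 + 1, false) = χ (G.1, G.2 + 1) + χ (G.1 + 1, G.2 + 1) := by
          simp only [hz]
          rw [if_pos]
          · rfl
          · simp only [src, tgt, rect, Set.mem_ofPred_eq, Bool.false_eq_true, if_false]
            omega
        have z4 : z (G.1, G.2, true) = χ (G.1, G.2) + χ (G.1, G.2 + 1) := by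
          simp only [hz]
          rw [if_pos]
          · rfl
          · simp only [src, tgt, rect, Set.mem_ofPred_eq, if_true]
            omega
        unfold fsum
        rw [z1, z2, z3, z4]
        linear_combination z2_add_self (χ (G.1, G.2)) + z2_add_self (χ (G.1 + 1, G.2)) +
          z2_add_self (χ (G.1, G.2 + 1)) + z2_add_self (χ (G.1 + 1, G.2 + 1))
      rw [h1, h2, zero_add, edgeduality_fsum_one]
      have h4 : G ≠ G₁ := fun h => hG₁Q (h ▸ hGQ)
      rcases hG with ⟨h5, h6⟩ | ⟨h5, h6⟩
      · rw [← h5, ← h6, if_neg h4, add_zero]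
      · rw [← h5, ← h6, if_neg h4, zero_add]
    · have h1 : fsum k G = 0 := by
        unfold fsum
        rw [hkout _ (Or.inr (s1 ▸ hGQ)), hkout _ (Or.inl (s2 ▸ hGQ)), hkout _ (Or.inl (s3 ▸ hGQ)),
          hkout _ (Or.inr (s4 ▸ hGQ))]
        simp
      have h2 : G ≠ G₀ := by
        intro h
        rw [h] at hGQ
        exact hGQ hG₀Q
      rw [h1, if_neg h2]
  have htot := edgeduality_total k hkfin
  rw [finsum_congr hfs, finsum_eq_single _ G₀ (fun G hG' => if_neg hG'), if_pos rfl] at htot
  exact one_ne_zero htot

/-- For an edge `e` of a rectangle `D`, exactly one of the following holds: the endpoints of `e` are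
joined by an open path in `D` off `e`; the faces next to `e` are joined by a closed dual path off the
dual edge of `e`, where all faces outside `D` are identified. -/
theorem edge_dual {ω : Config} {a b c d : ℤ} {e : Edge} (he : e ∈ redges a b c d) :
    Conn (Function.update ω e false) (rect a b c d) (src e) (tgt e) ↔
      ¬ WConn (dual (Function.update ω e true)) (rect (a - 1) b (c - 1) d)
        (bd (a - 1) b (c - 1) d) (lowFace e) (src e) := by
  constructor
  · intro h
    obtain ⟨hx, hy⟩ := mem_redges.1 he
    have hab : a ≤ b := by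
      simp only [rect, Set.mem_ofPred_eq] at hx
      omega
    have hcd : c ≤ d := by
      simp only [rect, Set.mem_ofPred_eq] at hx
      omega
    obtain ⟨z, hz1, hz2⟩ := h.chain
    have hvs : ∀ V, vsum (fun f => z f + one e f) V = 0 := by
      intro V
      rw [vsum_add, hz2, vsum_one, z2_add_self]
    obtain ⟨W, hW⟩ := integRect (a := a - 1) (b := b) (c := c - 1) (d := d)
      (fun e' => z (crossed e') + one e (crossed e')) (by
        intro F _
        have h1 := hvs (F.1 + 1, F.2 + 1)
        simp only [vsum] at h1
        simp only [fsum, crossed, if_true, Bool.false_eq_true, if_false]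
        rw [show F.1 + 1 - 1 = F.1 by ring, show F.2 + 1 - 1 = F.2 by ring] at h1
        linear_combination h1)
    have hW' : ∀ f : Edge, lowFace f ∈ rect (a - 1) b (c - 1) d →
        src f ∈ rect (a - 1) b (c - 1) d → z f + one e f = W (lowFace f) + W (src f) := by
      intro f k1 k2
      have := hW (uncross f) (by rwa [src_uncross]) (by rwa [tgt_uncross])
      rwa [crossed_uncross, src_uncross, tgt_uncross] at this
    have hring := edgeduality_ring (f := W) hab hcd (by
      intro g hg k1 k2
      have k3 := hW' g k1 k2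
      have k4 : z g = 0 := by
        by_contra hne
        exact hg (hz1 g hne).2
      have k5 : one e g = 0 := by
        unfold one
        rw [if_neg]
        rintro rfl
        exact hg ⟨hx, hy⟩
      rw [k4, k5, add_zero] at k3
      exact z2_add_eq_zero.1 k3.symm)
    have hconn : ∀ u v, Conn (dual (Function.update ω e true)) (rect (a - 1) b (c - 1) d) u v →
        W u = W v := by
      intro u v huv
      refine huv.const fun e' k1 k2 k3 => ?_
      have k4 := hW e' k1 k2
      have k5 : Function.update ω e true (crossed e') = false := by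
        simpa [dual] using k3
      have k6 : crossed e' ≠ e := by
        intro heq
        rw [heq, Function.update_self] at k5
        exact absurd k5 (by simp)
      have k7 : z (crossed e') = 0 := by
        by_contra hne
        have k8 := (hz1 _ hne).1
        rw [Function.update_of_ne k6] at k5 k8
        rw [k5] at k8
        exact absurd k8 (by simp)
      have k8 : one e (crossed e') = 0 := by
        unfold one
        rw [if_neg k6]
      rw [k7, k8, add_zero] at k4
      exact z2_add_eq_zero.1 k4.symm
    have hface : lowFace e ∈ rect (a - 1) b (c - 1) d ∧ src e ∈ rect (a - 1) b (c - 1) d := by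
      obtain ⟨x, y, t⟩ := e
      cases t <;>
      · simp only [src, tgt, lowFace, rect, Set.mem_ofPred_eq, if_true, Bool.false_eq_true,
          if_false] at hx hy ⊢
        omega
    have hne : W (lowFace e) ≠ W (src e) := by
      have k1 := hW' e hface.1 hface.2
      have k2 : z e = 0 := by
        by_contra hne
        have := (hz1 e hne).1
        rw [Function.update_self] at this
        exact absurd this (by simp)
      have k3 : one e e = 1 := by simp [one]
      rw [k2, k3, zero_add] at k1
      exact z2_add_eq_one.1 k1.symm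
    rintro (h1 | ⟨⟨u, hu, h1⟩, ⟨v, hv, h2⟩⟩)
    · exact hne (hconn _ _ h1)
    · exact hne ((hconn _ _ h1).trans ((hring u hu).trans ((hring v hv).symm.trans
        (hconn _ _ h2).symm)))
  · intro h
    by_contra hno
    apply h
    by_contra hW
    unfold WConn at hW
    push Not at hW
    obtain ⟨h1, h2⟩ := hW
    by_cases h3 : ∃ v ∈ bd (a - 1) b (c - 1) d,
        Conn (dual (Function.update ω e true)) (rect (a - 1) b (c - 1) d) (lowFace e) v
    · exact edgeduality_aux he hno (Or.inr ⟨rfl, rfl⟩) (fun h4 => h1 h4.symm) (h2 h3)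
    · push Not at h3
      exact edgeduality_aux he hno (Or.inl ⟨rfl, rfl⟩) h1 h3

end Pool.Agent.H29.Kap
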