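import Pool.Agent.H29.Kap.Count
import Pool.Agent.H29.Kap.EdgeDuality

/-! # Euler's formula for the clusters of a rectangle -/

set_option autoImplicit false

namespace Pool.Agent.H29.Kap

open Pool.Agent.H89.Perc

/-- A dual edge inside `T` which does not have both ends on the ring crosses an edge of `D`. -/
theorem euler_crossed_mem {a b c d : ℤ} {e : Edge} (h1 : src e ∈ rect (a - 1) b (c - 1) d)
    (h2 : tgt e ∈ rect (a - 1) b (c - 1) d)
    (h3 : ¬ (src e ∈ bd (a - 1) b (c - 1) d ∧ tgt e ∈ bd (a - 1) b (c - 1) d)) :
    crossed e ∈ redges a b c d := by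
  rw [mem_redges]
  obtain ⟨x, y, t⟩ := e
  cases t
  · simp only [src, tgt, rect, bd, crossed, Set.mem_ofPred_eq, Bool.false_eq_true, if_false,
      if_true] at h1 h2 h3 ⊢
    omega
  · simp only [src, tgt, rect, bd, crossed, Set.mem_ofPred_eq, Bool.false_eq_true, if_false,
      if_true] at h1 h2 h3 ⊢
    omega

/-- Both faces next to an edge of `D` lie in `T`. -/
theorem euler_faces_mem {a b c d : ℤ} {e : Edge} (he : e ∈ redges a b c d) :
    lowFace e ∈ rect (a - 1) b (c - 1) d ∧ src e ∈ rect (a - 1) b (c - 1) d := by
  rw [mem_redges] at he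
  obtain ⟨x, y, t⟩ := e
  cases t
  · simp only [src, tgt, rect, lowFace, Set.mem_ofPred_eq, Bool.false_eq_true, if_false,
      if_true] at he ⊢
    omega
  · simp only [src, tgt, rect, lowFace, Set.mem_ofPred_eq, Bool.false_eq_true, if_false,
      if_true] at he ⊢
    omega

theorem euler_dual_update (ω : Config) (e : Edge) (b : Bool) :
    dual (Function.update ω e b) = Function.update (dual ω) (uncross e) (!b) := by
  funext f
  simp only [dual]
  by_cases h : f = uncross e
  · subst h; simp [crossed_uncross, Function.update_self]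
  · have h' : crossed f ≠ e := by
      intro hc
      apply h
      rw [← hc, uncross_crossed]
    rw [Function.update_of_ne h', Function.update_of_ne h]
    rfl

/-- If all edges of `D` are closed, every inner face is joined to the ring. -/
theorem euler_base_conn {ω : Config} {a b c d : ℤ} (hω : ∀ e ∈ redges a b c d, ω e = false)
    (n : ℕ) : ∀ x y : ℤ, (x, y) ∈ rect (a - 1) b (c - 1) d → b - x = n →
    ∃ v ∈ bd (a - 1) b (c - 1) d, Conn (dual ω) (rect (a - 1) b (c - 1) d) (x, y) v := by
  induction n with
  | zero =>
    intro x y hxy hn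
    refine ⟨(x, y), ⟨hxy, Or.inr (Or.inl ?_)⟩, Conn.refl hxy⟩
    simp only
    push_cast at hn
    omega
  | succ n ih =>
    intro x y hxy hn
    push_cast at hn
    by_cases hb : (x, y) ∈ bd (a - 1) b (c - 1) d
    · exact ⟨(x, y), hb, Conn.refl hxy⟩
    · have hxy' := hxy
      simp only [rect, Set.mem_ofPred_eq] at hxy'
      have hx1 : ((x + 1, y) : Vert) ∈ rect (a - 1) b (c - 1) d := by
        simp only [rect, Set.mem_ofPred_eq]
        omega
      obtain ⟨v, hv, hc⟩ := ih (x + 1) y hx1 (by omega)
      refine ⟨v, hv, Conn.trans (Step.conn ⟨hxy, hx1, (x, y, false), Or.inl ⟨rfl, ?_⟩, ?_⟩) hc⟩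
      · simp [tgt]
      · have hmem : crossed (x, y, false) ∈ redges a b c d := by
          refine euler_crossed_mem (by simpa [src] using hxy) (by simpa [tgt] using hx1) ?_
          rintro ⟨h, -⟩
          exact hb (by simpa [src] using h)
        simp [dual, hω _ hmem]

theorem euler_base_J {ω : Config} {a b c d : ℤ} (hω : ∀ e ∈ redges a b c d, ω e = false) :
    J (dual ω) (rect (a - 1) b (c - 1) d) (bd (a - 1) b (c - 1) d) = 0 := by
  unfold J
  have : {C | C ∈ clusters (dual ω) (rect (a - 1) b (c - 1) d) ∧
      Disjoint C (bd (a - 1) b (c - 1) d)} = ∅ := by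
    ext C
    simp only [Set.mem_ofPred_eq, Set.mem_empty_iff_false, iff_false, not_and]
    rintro ⟨⟨x, y⟩, hv, rfl⟩ hdis
    have hv' := hv
    simp only [rect, Set.mem_ofPred_eq] at hv'
    obtain ⟨w, hw, hc⟩ := euler_base_conn hω (b - x).toNat x y hv (by omega)
    exact Set.disjoint_left.1 hdis hc hw
  rw [this, Set.ncard_empty]

theorem euler_ncard_rect {a b c d : ℤ} (hab : a ≤ b) (hcd : c ≤ d) :
    ((rect a b c d).ncard : ℤ) = (b - a + 1) * (d - c + 1) := by
  have : rect a b c d = ((Finset.Icc a b ×ˢ Finset.Icc c d : Finset Vert) : Set Vert) := by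
    ext ⟨x, y⟩
    simp only [rect, Set.mem_ofPred_eq, Finset.coe_product, Finset.coe_Icc, Set.mem_prod,
      Set.mem_Icc]
    omega
  rw [this, Set.ncard_coe_finset, Finset.card_product, Int.card_Icc, Int.card_Icc]
  push_cast
  rw [Int.toNat_of_nonneg (by omega), Int.toNat_of_nonneg (by omega)]
  ring

theorem euler_ofS {a b c d : ℤ} (hab : a ≤ b) (hcd : c ≤ d) (A : Finset Edge) :
    A ⊆ redges a b c d → (K (ofS A) (rect a b c d) : ℤ) + A.card =
      (b - a + 1) * (d - c + 1) +
        J (dual (ofS A)) (rect (a - 1) b (c - 1) d) (bd (a - 1) b (c - 1) d) := by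
  classical
  induction A using Finset.induction_on with
  | empty =>
    intro _
    have h0 : ∀ e : Edge, ofS ∅ e = false := fun e => by simp [ofS]
    rw [euler_base_J (fun e _ => h0 e), K_closed (fun e _ _ => h0 e), euler_ncard_rect hab hcd]
    simp
  | insert e A heA ih =>
    intro hsub
    have he : e ∈ redges a b c d := hsub (Finset.mem_insert_self e A)
    have hA := ih (fun f hf => hsub (Finset.mem_insert_of_mem hf))
    have e1 : Function.update (ofS A) e true = ofS (insert e A) := (ofS_update A e).1
    have e2 : Function.update (ofS A) e false = ofS A := by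
      rw [(ofS_update A e).2, Finset.erase_eq_of_notMem heA]
    have hK := K_update (ω := ofS A) (rect_finite a b c d) (mem_redges.1 he).1 (mem_redges.1 he).2
    have hf := euler_faces_mem he
    have hJ := J_update (ω := dual (ofS A)) (B := bd (a - 1) b (c - 1) d)
      (rect_finite (a - 1) b (c - 1) d) (e := uncross e)
      (by rw [src_uncross]; exact hf.1) (by rw [tgt_uncross]; exact hf.2)
    have e3 : Function.update (dual (ofS A)) (uncross e) false = dual (ofS (insert e A)) := by
      rw [← e1, euler_dual_update]; rfl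
    have e4 : Function.update (dual (ofS A)) (uncross e) true = dual (ofS A) := by
      conv_rhs => rw [← e2]
      rw [euler_dual_update]; rfl
    have hD := edge_dual (ω := ofS A) he
    rw [e1, e2] at hK
    rw [e3, e4, src_uncross, tgt_uncross] at hJ
    rw [e1, e2] at hD
    rw [Finset.card_insert_of_notMem heA]
    push_cast
    by_cases hc : Conn (ofS A) (rect a b c d) (src e) (tgt e)
    · have h1 := hK.1 hc
      have h2 := hJ.2 (hD.1 hc)
      rw [← h1, h2]
      push_cast
      linarith
    · have h1 := hK.2 hc
      have h3 : WConn (dual (ofS (insert e A))) (rect (a - 1) b (c - 1) d)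
          (bd (a - 1) b (c - 1) d) (lowFace e) (src e) := by
        by_contra h
        exact hc (hD.2 h)
      have h2 := hJ.1 h3
      rw [h2]
      rw [h1] at hA
      push_cast at hA
      linarith

/-- **Euler's formula.** The number of clusters plus the number of open edges is the number of
vertices plus the number of inner clusters of the dual configuration. -/
theorem euler {ω : Config} {a b c d : ℤ} (hab : a ≤ b) (hcd : c ≤ d) :
    (K ω (rect a b c d) : ℤ) + ((redges a b c d).filter (fun e => ω e = true)).card =
      (b - a + 1) * (d - c + 1) +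
        J (dual ω) (rect (a - 1) b (c - 1) d) (bd (a - 1) b (c - 1) d) := by
  classical
  set A := (redges a b c d).filter (fun e => ω e = true) with hA
  have hag : ∀ e ∈ redges a b c d, ω e = ofS A e := by
    intro e he
    cases h : ω e
    · symm
      simp only [ofS, decide_eq_false_iff_not, hA, Finset.mem_filter, not_and]
      intro _
      simp [h]
    · symm
      rw [ofS_eq_true, hA, Finset.mem_filter]
      exact ⟨he, h⟩
  have hK : K ω (rect a b c d) = K (ofS A) (rect a b c d) :=
    K_congr fun e h1 h2 => hag e (mem_redges.2 ⟨h1, h2⟩)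
  have hJ : J (dual ω) (rect (a - 1) b (c - 1) d) (bd (a - 1) b (c - 1) d) =
      J (dual (ofS A)) (rect (a - 1) b (c - 1) d) (bd (a - 1) b (c - 1) d) := by
    refine J_congr_wired (rect_finite _ _ _ _) fun e h1 h2 h3 => ?_
    simp only [dual]
    rw [hag _ (euler_crossed_mem h1 h2 h3)]
  rw [hK, hJ]
  exact euler_ofS hab hcd A (Finset.filter_subset _ _)

end Pool.Agent.H29.Kap
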