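import Pool.Agent.H29.Kap.Count

/-! # Expected cluster counts: invariance and limit -/

set_option autoImplicit false

namespace Pool.Agent.H29.Kap

open Pool.Agent.H89.Perc Pool.Agent.Perc

theorem invar_ofS_inter {S : Finset Edge} {G : Finset Edge} {e : Edge} (he : e ∈ G) :
    ofS S e = ofS (S ∩ G) e := by
  rw [ofS_apply, ofS_apply, decide_eq_decide, Finset.mem_inter]
  exact ⟨fun x => ⟨x, he⟩, fun x => x.1⟩

/-- The expectation may be computed on any larger finite set of edges. -/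
theorem EK_of_subset {p : ℝ} {a b c d : ℤ} {F : Finset Edge} (h : redges a b c d ⊆ F) :
    Ex p F (fun S => (K (ofS S) (rect a b c d) : ℝ)) = EK p a b c d := by
  refine Ex_restrict h (fun S _ => ?_) p
  rw [K_congr (ω := ofS S) (ω' := ofS (S ∩ redges a b c d))]
  intro e h1 h2
  exact invar_ofS_inter (mem_redges.2 ⟨h1, h2⟩)

theorem EJ_of_subset {p : ℝ} {a b c d : ℤ} {F : Finset Edge} (h : redges a b c d ⊆ F) :
    Ex p F (fun S => (J (ofS S) (rect a b c d) (bd a b c d) : ℝ)) = EJ p a b c d := by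
  refine Ex_restrict h (fun S _ => ?_) p
  rw [J_congr (ω := ofS S) (ω' := ofS (S ∩ redges a b c d))]
  intro e h1 h2
  exact invar_ofS_inter (mem_redges.2 ⟨h1, h2⟩)

/-- Cluster counts under a relabelling. -/
theorem invar_K_map {ω ω' : Config} {S T : Set Vert} (f : Vert → Vert) (hf : Function.Injective f)
    (hT : T = f '' S) (h : ∀ u ∈ S, ∀ v ∈ S, Conn ω S u v ↔ Conn ω' T (f u) (f v)) :
    K ω S = K ω' T := by
  have hc : clusters ω' T = (fun C => f '' C) '' clusters ω S := by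
    ext D
    constructor
    · rintro ⟨v, hv, rfl⟩
      rw [hT] at hv
      obtain ⟨u, hu, rfl⟩ := hv
      refine ⟨{w | Conn ω S u w}, ⟨u, hu, rfl⟩, ?_⟩
      ext w
      constructor
      · rintro ⟨x, hx, rfl⟩
        exact (h u hu x (Conn.mem_right hx)).1 hx
      · intro hw
        have hwT := Conn.mem_right hw
        rw [hT] at hwT
        obtain ⟨x, hx, rfl⟩ := hwT
        exact ⟨x, (h u hu x hx).2 hw, rfl⟩
    · rintro ⟨C, ⟨u, hu, rfl⟩, rfl⟩
      refine ⟨f u, by rw [hT]; exact ⟨u, hu, rfl⟩, ?_⟩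
      ext w
      constructor
      · rintro ⟨x, hx, rfl⟩
        exact (h u hu x (Conn.mem_right hx)).1 hx
      · intro hw
        have hwT := Conn.mem_right hw
        rw [hT] at hwT
        obtain ⟨x, hx, rfl⟩ := hwT
        exact ⟨x, (h u hu x hx).2 hw, rfl⟩
  unfold K
  rw [hc, Set.ncard_image_of_injective _ (Set.image_injective.2 hf)]

theorem invar_ofS_image {S : Finset Edge} {φ : Edge → Edge} (hφ : Function.Injective φ) :
    (fun e => ofS (S.image φ) (φ e)) = ofS S := by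
  funext e
  rw [ofS_apply, ofS_apply, decide_eq_decide, Finset.mem_image]
  constructor
  · rintro ⟨x, hx, hxe⟩
    rwa [← hφ hxe]
  · intro h; exact ⟨e, h, rfl⟩

/-- Translation invariance. -/
theorem EK_shift (p : ℝ) (a b c d x y : ℤ) :
    EK p (a + x) (b + x) (c + y) (d + y) = EK p a b c d := by
  have h1 : redges (a + x) (b + x) (c + y) (d + y) = (redges a b c d).image (shiftE (x, y)) := by
    ext e
    rw [Finset.mem_image]
    constructor
    · intro he
      refine ⟨shiftE (-(x, y)) e, ?_, shiftE_neg _ _⟩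
      rw [mem_redges] at he ⊢
      obtain ⟨u, v, t⟩ := e
      cases t <;> simp [src, tgt, rect, shiftE] at he ⊢ <;> omega
    · rintro ⟨e', he', rfl⟩
      rw [mem_redges] at he' ⊢
      obtain ⟨u, v, t⟩ := e'
      cases t <;> simp [src, tgt, rect, shiftE] at he' ⊢ <;> omega
  unfold EK
  rw [h1, Ex_image _ (shiftE_injective _).injOn]
  refine Ex_congr fun S _ => ?_
  have h2 := invar_K_map (ω := ofS S) (ω' := ofS (S.image (shiftE (x, y)))) (S := rect a b c d)
    (T := rect (a + x) (b + x) (c + y) (d + y)) (fun w => (w.1 + x, w.2 + y)) ?_ ?_ ?_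
  · rw [h2]
  · rintro ⟨u, v⟩ ⟨u', v'⟩ h
    simp only [Prod.mk.injEq] at h ⊢
    omega
  · ext ⟨u, v⟩
    simp only [rect, Set.mem_ofPred_eq, Set.mem_image, Prod.mk.injEq, Prod.exists]
    constructor
    · intro h
      exact ⟨u - x, v - y, by omega, by omega, by omega⟩
    · rintro ⟨u', v', h, h3, h4⟩
      omega
  · intro u _ v _
    have h3 := conn_shift (ω := ofS (S.image (shiftE (x, y)))) (x, y) (rect a b c d) u v
    rw [invar_ofS_image (shiftE_injective _)] at h3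
    rw [h3]
    have h4 : {w : Vert | (w.1 - (x, y).1, w.2 - (x, y).2) ∈ rect a b c d}
        = rect (a + x) (b + x) (c + y) (d + y) := by
      ext w
      simp only [Set.mem_ofPred_eq, rect]
      omega
    rw [h4]

/-- Invariance under reflection in the diagonal. -/
theorem EK_swap (p : ℝ) (a b c d : ℤ) : EK p c d a b = EK p a b c d := by
  have h1 : redges c d a b = (redges a b c d).image swapE := by
    ext e
    rw [Finset.mem_image]
    constructor
    · intro he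
      refine ⟨swapE e, ?_, swapE_swapE _⟩
      rw [mem_redges] at he ⊢
      obtain ⟨u, v, t⟩ := e
      cases t <;> simp [src, tgt, rect, swapE] at he ⊢ <;> omega
    · rintro ⟨e', he', rfl⟩
      rw [mem_redges] at he' ⊢
      obtain ⟨u, v, t⟩ := e'
      cases t <;> simp [src, tgt, rect, swapE] at he' ⊢ <;> omega
  unfold EK
  rw [h1, Ex_image _ swapE_injective.injOn]
  refine Ex_congr fun S _ => ?_
  have h2 := invar_K_map (ω := ofS S) (ω' := ofS (S.image swapE)) (S := rect a b c d)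
    (T := rect c d a b) (fun w => (w.2, w.1)) ?_ ?_ ?_
  · rw [h2]
  · rintro ⟨u, v⟩ ⟨u', v'⟩ h
    simp only [Prod.mk.injEq] at h ⊢
    omega
  · ext ⟨u, v⟩
    simp only [rect, Set.mem_ofPred_eq, Set.mem_image, Prod.mk.injEq, Prod.exists]
    constructor
    · intro h
      exact ⟨v, u, by omega, rfl, rfl⟩
    · rintro ⟨u', v', h, h3, h4⟩
      omega
  · intro u _ v _
    have h3 := conn_swap (ω := ofS (S.image swapE)) (rect a b c d) u v
    rw [invar_ofS_image swapE_injective] at h3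
    rw [h3]
    have h4 : {w : Vert | (w.2, w.1) ∈ rect a b c d} = rect c d a b := by
      ext w
      simp only [Set.mem_ofPred_eq, rect]
      omega
    rw [h4]

/-- Almost additivity in the first coordinate. -/
theorem EK_split {p : ℝ} (h0 : 0 ≤ p) (h1 : p ≤ 1) {a m b c d : ℤ} (ham : a ≤ m) (hmb : m < b)
    (hcd : c ≤ d) :
    |EK p a b c d - EK p a m c d - EK p (m + 1) b c d| ≤ d - c + 1 := by
  have e1 : redges a m c d ⊆ redges a b c d := by
    intro e he
    rw [mem_redges] at he ⊢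
    simp only [rect, Set.mem_ofPred_eq] at he ⊢
    omega
  have e2 : redges (m + 1) b c d ⊆ redges a b c d := by
    intro e he
    rw [mem_redges] at he ⊢
    simp only [rect, Set.mem_ofPred_eq] at he ⊢
    omega
  rw [← EK_of_subset e1, ← EK_of_subset e2]
  unfold EK
  rw [← Ex_sub, ← Ex_sub]
  refine (abs_Ex_le h0 h1 _).trans ?_
  have h3 : Ex p (redges a b c d) (fun _ => ((d : ℝ) - c + 1)) = (d : ℝ) - c + 1 := Ex_const _ _ _
  rw [← h3]
  refine Ex_mono h0 h1 fun S _ => ?_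
  have hu : rect a m c d ∪ rect (m + 1) b c d = rect a b c d := by
    ext w
    simp only [rect, Set.mem_ofPred_eq, Set.mem_union]
    omega
  have k1 : K (ofS S) (rect a b c d) ≤ K (ofS S) (rect a m c d) + K (ofS S) (rect (m + 1) b c d) := by
    rw [← hu]
    exact K_union_le (rect_finite _ _ _ _) (rect_finite _ _ _ _)
  have k2 := K_split_le (ω := ofS S) ham hmb hcd
  have k1' : (K (ofS S) (rect a b c d) : ℝ) ≤ K (ofS S) (rect a m c d)
      + K (ofS S) (rect (m + 1) b c d) := by exact_mod_cast k1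
  have k2' : (K (ofS S) (rect a m c d) : ℝ) + K (ofS S) (rect (m + 1) b c d)
      ≤ K (ofS S) (rect a b c d) + (d - c + 1) := by exact_mod_cast k2
  have hcd' : (c : ℝ) ≤ d := by exact_mod_cast hcd
  rw [abs_le]
  constructor <;> linarith

theorem invar_ncard_rect {a b c d : ℤ} (hab : a ≤ b + 1) (hcd : c ≤ d + 1) :
    ((rect a b c d).ncard : ℝ) = (b - a + 1) * (d - c + 1) := by
  have h : rect a b c d = ((Finset.Icc a b ×ˢ Finset.Icc c d : Finset (ℤ × ℤ)) : Set (ℤ × ℤ)) := by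
    ext ⟨x, y⟩
    simp only [rect, Set.mem_ofPred_eq, Finset.coe_product, Finset.coe_Icc, Set.mem_prod,
      Set.mem_Icc]
    tauto
  rw [h, Set.ncard_coe_finset, Finset.card_product, Int.card_Icc, Int.card_Icc]
  have e1 : (((b + 1 - a).toNat : ℕ) : ℤ) = b + 1 - a := Int.toNat_of_nonneg (by omega)
  have e2 : (((d + 1 - c).toNat : ℕ) : ℤ) = d + 1 - c := Int.toNat_of_nonneg (by omega)
  have e1' : (((b + 1 - a).toNat : ℕ) : ℝ) = b + 1 - a := by exact_mod_cast e1
  have e2' : (((d + 1 - c).toNat : ℕ) : ℝ) = d + 1 - c := by exact_mod_cast e2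
  push_cast
  rw [e1', e2']
  ring

theorem EK_nonneg_le {p : ℝ} (h0 : 0 ≤ p) (h1 : p ≤ 1) {a b c d : ℤ} (hab : a ≤ b)
    (hcd : c ≤ d) : 0 ≤ EK p a b c d ∧ EK p a b c d ≤ (b - a + 1) * (d - c + 1) := by
  constructor
  · exact Ex_nonneg h0 h1 fun S _ => Nat.cast_nonneg _
  · rw [← invar_ncard_rect (a := a) (b := b) (c := c) (d := d) (by omega) (by omega)]
    have h3 : Ex p (redges a b c d) (fun _ => ((rect a b c d).ncard : ℝ))
        = ((rect a b c d).ncard : ℝ) := Ex_const _ _ _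
    rw [← h3]
    unfold EK
    refine Ex_mono h0 h1 fun S _ => ?_
    exact_mod_cast K_le_ncard (rect_finite _ _ _ _)

/-- Expected number of clusters of the box with `n × m` vertices. -/
noncomputable def invarB (p : ℝ) (n m : ℕ) : ℝ := EK p 0 (n - 1) 0 (m - 1)

theorem invarB_comm (p : ℝ) (n m : ℕ) : invarB p n m = invarB p m n := EK_swap p _ _ _ _

theorem invarB_add {p : ℝ} (h0 : 0 ≤ p) (h1 : p ≤ 1) {n n' m : ℕ} (hn : 1 ≤ n) (hn' : 1 ≤ n')
    (hm : 1 ≤ m) : |invarB p (n + n') m - invarB p n m - invarB p n' m| ≤ m := by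
  have h := EK_split h0 h1 (a := 0) (m := (n : ℤ) - 1) (b := ((n + n' : ℕ) : ℤ) - 1) (c := 0)
    (d := (m : ℤ) - 1) (by omega) (by push_cast; omega) (by omega)
  have h2 := EK_shift p 0 ((n' : ℤ) - 1) 0 ((m : ℤ) - 1) n 0
  have e1 : (0 : ℤ) + n = (n : ℤ) - 1 + 1 := by ring
  have e2 : (n' : ℤ) - 1 + n = ((n + n' : ℕ) : ℤ) - 1 := by push_cast; ring
  rw [e1, e2, add_zero, add_zero] at h2
  rw [h2] at h
  unfold invarB
  refine h.trans (le_of_eq ?_)
  push_cast
  ring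

theorem invarB_mul {p : ℝ} (h0 : 0 ≤ p) (h1 : p ≤ 1) {n m : ℕ} (hn : 1 ≤ n) (hm : 1 ≤ m) (q : ℕ) :
    |invarB p ((q + 1) * n) m - (q + 1) * invarB p n m| ≤ q * m := by
  induction q with
  | zero => simp
  | succ q ih =>
    have h := invarB_add h0 h1 (n := (q + 1) * n) (n' := n) (m := m) (Nat.mul_pos (by omega) hn) hn hm
    have e : (q + 1 + 1) * n = (q + 1) * n + n := by ring
    rw [e]
    push_cast
    rw [abs_le] at h ih ⊢
    constructor <;> nlinarith [h.1, h.2, ih.1, ih.2]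

theorem invarB_sq {p : ℝ} (h0 : 0 ≤ p) (h1 : p ≤ 1) {n q : ℕ} (hn : 1 ≤ n) (hq : 1 ≤ q) :
    |invarB p (q * n) (q * n) / ((q * n : ℕ) : ℝ) ^ 2 - invarB p n n / (n : ℝ) ^ 2| ≤ 2 / n := by
  obtain ⟨r, rfl⟩ : ∃ r, q = r + 1 := ⟨q - 1, by omega⟩
  have k1 := invarB_mul h0 h1 hn (m := (r + 1) * n) (Nat.mul_pos (by omega) hn) r
  have k2 := invarB_mul h0 h1 hn hn r
  rw [invarB_comm p n ((r + 1) * n)] at k1
  have hn0 : (1 : ℝ) ≤ n := by exact_mod_cast hn
  have hr0 : (0 : ℝ) ≤ r := Nat.cast_nonneg _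
  set A := invarB p ((r + 1) * n) ((r + 1) * n)
  set B := invarB p ((r + 1) * n) n
  set D := invarB p n n
  push_cast at k1 ⊢
  have hden : (0 : ℝ) < (((r : ℝ) + 1) * n) ^ 2 := by positivity
  have key : A / (((r : ℝ) + 1) * n) ^ 2 - D / (n : ℝ) ^ 2
      = (A - (r + 1) ^ 2 * D) / (((r : ℝ) + 1) * n) ^ 2 := by
    field_simp
  rw [key, abs_div, abs_of_pos hden, div_le_div_iff₀ hden (by linarith)]
  have h3 : |A - ((r : ℝ) + 1) ^ 2 * D| ≤ 2 * ((r : ℝ) + 1) ^ 2 * (n : ℝ) := by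
    rw [abs_le] at k1 k2 ⊢
    constructor <;> nlinarith [k1.1, k1.2, k2.1, k2.2, mul_nonneg hr0 (by linarith : (0:ℝ) ≤ n),
      mul_le_mul_of_nonneg_left k2.1 (by linarith : (0:ℝ) ≤ r + 1),
      mul_le_mul_of_nonneg_left k2.2 (by linarith : (0:ℝ) ≤ r + 1),
      mul_nonneg (mul_nonneg hr0 hr0) (by linarith : (0:ℝ) ≤ n)]
  calc |A - ((r : ℝ) + 1) ^ 2 * D| * (n : ℝ) ≤ 2 * ((r : ℝ) + 1) ^ 2 * (n : ℝ) * (n : ℝ) :=
        mul_le_mul_of_nonneg_right h3 (by linarith)
    _ = 2 * (((r : ℝ) + 1) * n) ^ 2 := by ring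

/-- The cluster density: the limit of `E_p K / n²` exists, with a rate. -/
theorem kappa_exists {p : ℝ} (h0 : 0 ≤ p) (h1 : p ≤ 1) :
    ∃ κ : ℝ, ∀ n : ℕ, 1 ≤ n → |EK p 0 (n - 1) 0 (n - 1) / (n : ℝ) ^ 2 - κ| ≤ 2 / n := by
  set s : ℕ → ℝ := fun n => invarB p n n / (n : ℝ) ^ 2 with hs
  have h2 : ∀ n m : ℕ, 1 ≤ n → 1 ≤ m → |s n - s m| ≤ 2 / n + 2 / m := by
    intro n m hn hm
    have k1 := invarB_sq h0 h1 (n := n) (q := m) hn hm
    have k2 := invarB_sq h0 h1 (n := m) (q := n) hm hn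
    rw [mul_comm n m] at k2
    simp only [hs]
    rw [abs_le] at k1 k2 ⊢
    constructor <;> linarith [k1.1, k1.2, k2.1, k2.2]
  have hc : CauchySeq s := by
    rw [Metric.cauchySeq_iff']
    intro ε hε
    obtain ⟨N, hN⟩ := exists_nat_gt (4 / ε)
    have hN0 : (0 : ℝ) < N := lt_of_le_of_lt (by positivity) hN
    have hN1 : 1 ≤ N := by
      rcases Nat.eq_zero_or_pos N with h | h
      · rw [h] at hN0; simp at hN0
      · exact h
    refine ⟨N, fun n hn => ?_⟩
    rw [Real.dist_eq]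
    have hn1 : 1 ≤ n := hN1.trans hn
    have hnN : (N : ℝ) ≤ n := by exact_mod_cast hn
    refine (h2 n N hn1 hN1).trans_lt ?_
    have : (2 : ℝ) / n ≤ 2 / N := div_le_div_of_nonneg_left (by norm_num) hN0 hnN
    have h4 : (2 : ℝ) / N + 2 / N = 4 / N := by ring
    have h5 : (4 : ℝ) / N < ε := by
      rw [div_lt_iff₀ hε] at hN
      rw [div_lt_iff₀ hN0]
      linarith
    linarith
  obtain ⟨κ, hκ⟩ := cauchySeq_tendsto_of_complete hc
  refine ⟨κ, fun n hn => ?_⟩
  have h3 : Filter.Tendsto (fun m : ℕ => |s n - s m|) Filter.atTop (nhds |s n - κ|) :=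
    (hκ.const_sub (s n)).abs
  have h4 : Filter.Tendsto (fun m : ℕ => (2 : ℝ) / n + 2 / m) Filter.atTop (nhds (2 / n + 0)) :=
    (tendsto_const_div_atTop_nhds_zero_nat (2 : ℝ)).const_add _
  rw [add_zero] at h4
  refine le_of_tendsto_of_tendsto h3 h4 ?_
  filter_upwards [Filter.eventually_ge_atTop 1] with m hm
  exact h2 n m hn hm

theorem invarB_one_le {p : ℝ} (h0 : 0 ≤ p) (h1 : p ≤ 1) {m : ℕ} (hm : 1 ≤ m) :
    0 ≤ invarB p 1 m ∧ invarB p 1 m ≤ m := by
  have := EK_nonneg_le h0 h1 (a := 0) (b := ((1 : ℕ) : ℤ) - 1) (c := 0) (d := (m : ℤ) - 1)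
    (by norm_num) (by omega)
  refine ⟨this.1, this.2.trans (le_of_eq ?_)⟩
  push_cast
  ring

theorem invarB_succ {p : ℝ} (h0 : 0 ≤ p) (h1 : p ≤ 1) {n m : ℕ} (hn : 1 ≤ n) (hm : 1 ≤ m) :
    |invarB p (n + 1) m - invarB p n m| ≤ 2 * m := by
  have k1 := invarB_add h0 h1 hn le_rfl hm
  have k2 := invarB_one_le h0 h1 hm
  rw [abs_le] at k1 ⊢
  constructor <;> linarith [k1.1, k1.2, k2.1, k2.2]

/-- Boxes with side lengths `2n`, `2n × n` and `n` (that is `2n + 1`, ... vertices). -/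
theorem EK_boxes {p κ : ℝ} (h0 : 0 ≤ p) (h1 : p ≤ 1)
    (hκ : ∀ n : ℕ, 1 ≤ n → |EK p 0 (n - 1) 0 (n - 1) / (n : ℝ) ^ 2 - κ| ≤ 2 / n) :
    ∃ C : ℝ, ∀ n : ℕ, 1 ≤ n →
      |EK p 0 (2 * n) 0 (2 * n) - 2 * EK p 0 (2 * n) 0 n + EK p 0 n 0 n - κ * n ^ 2| ≤ C * n := by
  refine ⟨100, fun n hn => ?_⟩
  have hn0 : (1 : ℝ) ≤ n := by exact_mod_cast hn
  have e1 : EK p 0 (2 * n) 0 (2 * n) = invarB p (2 * n + 1) (2 * n + 1) := by
    unfold invarB
    congr 1 <;> push_cast <;> ring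
  have e2 : EK p 0 (2 * n) 0 n = invarB p (2 * n + 1) (n + 1) := by
    unfold invarB
    congr 1 <;> push_cast <;> ring
  have e3 : EK p 0 n 0 n = invarB p (n + 1) (n + 1) := by
    unfold invarB
    congr 1 <;> push_cast <;> ring
  rw [e1, e2, e3]
  have h2n : 1 ≤ 2 * n := by omega
  -- reductions
  have a1 := invarB_succ h0 h1 (n := 2 * n) (m := 2 * n + 1) h2n (by omega)
  have a2 := invarB_succ h0 h1 (n := 2 * n) (m := 2 * n) h2n h2n
  rw [invarB_comm p (2 * n + 1) (2 * n)] at a2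
  have a3 := invarB_add h0 h1 (n := n) (n' := n) (m := 2 * n) hn hn h2n
  have a4 := invarB_add h0 h1 (n := n) (n' := n) (m := n) hn hn hn
  rw [← two_mul] at a3 a4
  rw [invarB_comm p n (2 * n)] at a3
  have b1 := invarB_succ h0 h1 (n := 2 * n) (m := n + 1) h2n (by omega)
  have b2 := invarB_succ h0 h1 (n := n) (m := 2 * n) hn h2n
  rw [invarB_comm p (n + 1) (2 * n), invarB_comm p n (2 * n)] at b2
  have c1 := invarB_succ h0 h1 (n := n) (m := n + 1) hn (by omega)
  have c2 := invarB_succ h0 h1 (n := n) (m := n) hn hn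
  rw [invarB_comm p (n + 1) n] at c2
  have hk : |invarB p n n - κ * n ^ 2| ≤ 2 * n := by
    have := hκ n hn
    have h3 : invarB p n n - κ * n ^ 2 = (EK p 0 (n - 1) 0 (n - 1) / (n : ℝ) ^ 2 - κ) * n ^ 2 := by
      unfold invarB
      field_simp
    rw [h3, abs_mul, abs_of_nonneg (by positivity : (0 : ℝ) ≤ (n : ℝ) ^ 2)]
    calc |EK p 0 (n - 1) 0 (n - 1) / (n : ℝ) ^ 2 - κ| * (n : ℝ) ^ 2 ≤ 2 / n * (n : ℝ) ^ 2 :=
          mul_le_mul_of_nonneg_right this (by positivity)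
      _ = 2 * n := by field_simp
  push_cast at *
  rw [abs_le] at *
  constructor <;> linarith [a1.1, a1.2, a2.1, a2.2, a3.1, a3.2, a4.1, a4.2, b1.1, b1.2, b2.1, b2.2,
    c1.1, c1.2, c2.1, c2.2, hk.1, hk.2]

end Pool.Agent.H29.Kap
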