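import Pool.Agent.H29.Kap.Euler
import Pool.Agent.H29.Kap.Invar

/-! # Euler's formula for the expected number of clusters and duality of the cluster density -/

set_option autoImplicit false

namespace Pool.Agent.H29.Kap

open Pool.Agent.H89.Perc Pool.Agent.Perc

theorem eulerexp_card (p : ℝ) (F : Finset Edge) :
    Ex p F (fun S => (S.card : ℝ)) = p * F.card := by
  induction F using Finset.induction_on with
  | empty => simp
  | insert e F he ih =>
    rw [Ex_insert he, Finset.card_insert_of_notMem he]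
    have h1 : Ex p F (fun S => ((insert e S).card : ℝ)) = Ex p F (fun S => (S.card : ℝ) + 1) := by
      refine Ex_congr fun S hS => ?_
      rw [Finset.card_insert_of_notMem (fun h => he (hS h))]
      push_cast
      ring
    rw [h1, Ex_add, Ex_const, ih]
    push_cast
    ring

theorem eulerexp_card_redges {a b c d : ℤ} (hab : a ≤ b) (hcd : c ≤ d) :
    ((redges a b c d).card : ℝ) = (b - a) * (d - c + 1) + (b - a + 1) * (d - c) := by
  unfold redges
  rw [Finset.card_union_of_disjoint]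
  · simp only [Finset.card_product, Int.card_Icc, Finset.card_singleton, mul_one]
    have h1 : (((b - 1 + 1 - a).toNat : ℕ) : ℝ) = b - a := by
      have : (((b - 1 + 1 - a).toNat : ℕ) : ℤ) = b - a := by omega
      exact_mod_cast this
    have h2 : (((d + 1 - c).toNat : ℕ) : ℝ) = d - c + 1 := by
      have : (((d + 1 - c).toNat : ℕ) : ℤ) = d - c + 1 := by omega
      exact_mod_cast this
    have h3 : (((b + 1 - a).toNat : ℕ) : ℝ) = b - a + 1 := by
      have : (((b + 1 - a).toNat : ℕ) : ℤ) = b - a + 1 := by omega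
      exact_mod_cast this
    have h4 : (((d - 1 + 1 - c).toNat : ℕ) : ℝ) = d - c := by
      have : (((d - 1 + 1 - c).toNat : ℕ) : ℤ) = d - c := by omega
      exact_mod_cast this
    push_cast
    rw [h1, h2, h3, h4]
  · rw [Finset.disjoint_left]
    rintro ⟨x, y, t⟩ h1 h2
    simp only [Finset.mem_product, Finset.mem_singleton] at h1 h2
    rw [h1.2.2] at h2
    exact absurd h2.2.2 (by simp)

theorem eulerexp_uncross {a b c d : ℤ} {e : Edge} (h : e ∈ redges a b c d) :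
    uncross e ∈ redges (a - 1) b (c - 1) d := by
  rw [mem_redges] at h ⊢
  obtain ⟨x, y, t⟩ := e
  cases t
  · simp only [src, tgt, uncross, rect, Set.mem_ofPred_eq, Bool.false_eq_true, if_false,
      if_true] at h ⊢
    omega
  · simp only [src, tgt, uncross, rect, Set.mem_ofPred_eq, Bool.false_eq_true, if_false,
      if_true] at h ⊢
    omega

theorem eulerexp_crossed {a b c d : ℤ} {e : Edge} (h1 : src e ∈ rect (a - 1) b (c - 1) d)
    (h2 : tgt e ∈ rect (a - 1) b (c - 1) d)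
    (h3 : ¬ (src e ∈ bd (a - 1) b (c - 1) d ∧ tgt e ∈ bd (a - 1) b (c - 1) d)) :
    crossed e ∈ redges a b c d := by
  rw [mem_redges]
  obtain ⟨x, y, t⟩ := e
  cases t
  · simp only [src, tgt, crossed, rect, bd, Set.mem_ofPred_eq, Bool.false_eq_true, if_false,
      if_true] at h1 h2 h3 ⊢
    omega
  · simp only [src, tgt, crossed, rect, bd, Set.mem_ofPred_eq, Bool.false_eq_true, if_false,
      if_true] at h1 h2 h3 ⊢
    omega

/-- The expected number of inner clusters of the dual configuration. -/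
theorem eulerexp_dual (p : ℝ) (a b c d : ℤ) :
    Ex p (redges a b c d) (fun S => (J (dual (ofS S)) (rect (a - 1) b (c - 1) d)
      (bd (a - 1) b (c - 1) d) : ℝ)) = EJ (1 - p) (a - 1) b (c - 1) d := by
  have hinj : Function.Injective uncross := fun e e' h => by
    rw [← crossed_uncross e, h, crossed_uncross]
  have hsub : (redges a b c d).image uncross ⊆ redges (a - 1) b (c - 1) d := by
    intro e he
    obtain ⟨e', he', rfl⟩ := Finset.mem_image.1 he
    exact eulerexp_uncross he'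
  have hfin := rect_finite (a - 1) b (c - 1) d
  unfold EJ
  rw [Ex_compl, Ex_restrict (F := redges (a - 1) b (c - 1) d)
    (G := (redges a b c d).image uncross) hsub, Ex_image _ hinj.injOn]
  · refine Ex_congr fun S hS => ?_
    congr 1
    refine J_congr_wired hfin fun e h1 h2 h3 => ?_
    have h4 := eulerexp_crossed h1 h2 h3
    have h5 : (e ∈ S.image uncross) ↔ crossed e ∈ S := by
      rw [Finset.mem_image]
      constructor
      · rintro ⟨e', he', rfl⟩
        rwa [crossed_uncross]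
      · intro h
        exact ⟨crossed e, h, uncross_crossed e⟩
    simp only [dual, ofS, Finset.mem_sdiff, h4, true_and, h5]
    by_cases h6 : crossed e ∈ S <;> simp [h6]
  · intro S hS
    congr 1
    refine J_congr_wired hfin fun e h1 h2 h3 => ?_
    have h4 := eulerexp_crossed h1 h2 h3
    have h5 : e ∈ (redges a b c d).image uncross :=
      Finset.mem_image.2 ⟨crossed e, h4, uncross_crossed e⟩
    simp only [ofS, Finset.mem_inter, h5, and_true]

theorem EK_euler (p : ℝ) {a b c d : ℤ} (hab : a ≤ b) (hcd : c ≤ d) :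
    EK p a b c d = (b - a + 1) * (d - c + 1)
      - p * ((b - a) * (d - c + 1) + (b - a + 1) * (d - c))
      + EJ (1 - p) (a - 1) b (c - 1) d := by
  rw [← eulerexp_dual, ← eulerexp_card_redges hab hcd, ← eulerexp_card]
  unfold EK
  have h : Ex p (redges a b c d) (fun S => (K (ofS S) (rect a b c d) : ℝ)) =
      Ex p (redges a b c d) (fun S => ((((b : ℝ) - a + 1) * (d - c + 1)) + (-(S.card : ℝ))) +
        (J (dual (ofS S)) (rect (a - 1) b (c - 1) d) (bd (a - 1) b (c - 1) d) : ℝ)) := by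
    refine Ex_congr fun S hS => ?_
    have h1 := euler (ω := ofS S) hab hcd
    have h2 : (redges a b c d).filter (fun e => ofS S e = true) = S := by
      ext e
      rw [Finset.mem_filter, ofS_eq_true]
      exact ⟨fun h => h.2, fun h => ⟨hS h, h⟩⟩
    rw [h2] at h1
    have h3 : ((K (ofS S) (rect a b c d) : ℤ) : ℝ) + (S.card : ℝ) =
      ((b : ℝ) - a + 1) * (d - c + 1) +
        (J (dual (ofS S)) (rect (a - 1) b (c - 1) d) (bd (a - 1) b (c - 1) d) : ℝ) := by
      exact_mod_cast h1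
    have h4 : ((K (ofS S) (rect a b c d) : ℤ) : ℝ) = (K (ofS S) (rect a b c d) : ℝ) := by
      norm_cast
    rw [h4] at h3
    linarith
  rw [h, Ex_add, Ex_add, Ex_const, Ex_neg]
  ring

theorem eulerexp_bd_card (n : ℕ) (hn : 1 ≤ n) :
    (bd (0 - 1) ((n : ℤ) - 1) (0 - 1) ((n : ℤ) - 1)).Finite ∧
    (bd (0 - 1) ((n : ℤ) - 1) (0 - 1) ((n : ℤ) - 1)).ncard ≤ 8 * n := by
  set G : Finset Vert := (({-1, (n : ℤ) - 1} : Finset ℤ) ×ˢ Finset.Icc (-1) ((n : ℤ) - 1)) ∪
    (Finset.Icc (-1) ((n : ℤ) - 1) ×ˢ ({-1, (n : ℤ) - 1} : Finset ℤ)) with hG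
  have hsub : bd (0 - 1) ((n : ℤ) - 1) (0 - 1) ((n : ℤ) - 1) ⊆ (G : Set Vert) := by
    rintro ⟨x, y⟩ h
    simp only [bd, rect, Set.mem_ofPred_eq] at h
    rw [hG]
    simp only [Finset.coe_union, Finset.coe_product, Set.mem_union, Set.mem_prod,
      Finset.coe_Icc, Finset.coe_insert, Finset.coe_singleton, Set.mem_insert_iff,
      Set.mem_singleton_iff, Set.mem_Icc]
    omega
  have hcard : G.card ≤ 8 * n := by
    refine (Finset.card_union_le _ _).trans ?_
    rw [Finset.card_product, Finset.card_product, Int.card_Icc]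
    have h1 : ({-1, (n : ℤ) - 1} : Finset ℤ).card ≤ 2 := Finset.card_le_two
    have h2 : ((n : ℤ) - 1 + 1 - (-1)).toNat = n + 1 := by omega
    rw [h2]
    nlinarith
  refine ⟨G.finite_toSet.subset hsub, ?_⟩
  calc _ ≤ (G : Set Vert).ncard := Set.ncard_le_ncard hsub G.finite_toSet
    _ = G.card := Set.ncard_coe_finset G
    _ ≤ 8 * n := hcard

theorem eulerexp_EJ_EK {p : ℝ} (h0 : 0 ≤ p) (h1 : p ≤ 1) (n : ℕ) (hn : 1 ≤ n) :
    |EJ p (0 - 1) ((n : ℤ) - 1) (0 - 1) ((n : ℤ) - 1)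
      - EK p (0 - 1) ((n : ℤ) - 1) (0 - 1) ((n : ℤ) - 1)| ≤ 8 * n := by
  obtain ⟨hB, hBc⟩ := eulerexp_bd_card n hn
  have hS := rect_finite (0 - 1) ((n : ℤ) - 1) (0 - 1) ((n : ℤ) - 1)
  rw [abs_le]
  unfold EJ EK
  constructor
  · have : Ex p (redges (0 - 1) ((n : ℤ) - 1) (0 - 1) ((n : ℤ) - 1)) (fun S =>
        (K (ofS S) (rect (0 - 1) ((n : ℤ) - 1) (0 - 1) ((n : ℤ) - 1)) : ℝ)) ≤
        Ex p (redges (0 - 1) ((n : ℤ) - 1) (0 - 1) ((n : ℤ) - 1)) (fun S =>
        (J (ofS S) (rect (0 - 1) ((n : ℤ) - 1) (0 - 1) ((n : ℤ) - 1))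
          (bd (0 - 1) ((n : ℤ) - 1) (0 - 1) ((n : ℤ) - 1)) : ℝ) + ((8 * n : ℕ) : ℝ)) := by
      refine Ex_mono h0 h1 fun S _ => ?_
      have h2 := K_le_J_add (ω := ofS S) hS hB
      have h3 := h2.trans (Nat.add_le_add_left hBc _)
      exact_mod_cast h3
    rw [Ex_add, Ex_const, Nat.cast_mul, Nat.cast_ofNat] at this
    linarith
  · have : Ex p (redges (0 - 1) ((n : ℤ) - 1) (0 - 1) ((n : ℤ) - 1)) (fun S =>
        (J (ofS S) (rect (0 - 1) ((n : ℤ) - 1) (0 - 1) ((n : ℤ) - 1))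
          (bd (0 - 1) ((n : ℤ) - 1) (0 - 1) ((n : ℤ) - 1)) : ℝ)) ≤
        Ex p (redges (0 - 1) ((n : ℤ) - 1) (0 - 1) ((n : ℤ) - 1)) (fun S =>
        (K (ofS S) (rect (0 - 1) ((n : ℤ) - 1) (0 - 1) ((n : ℤ) - 1)) : ℝ)) := by
      refine Ex_mono h0 h1 fun S _ => ?_
      exact_mod_cast J_le_K (ω := ofS S) _ hS
    have h3 : (0 : ℝ) ≤ 8 * n := by positivity
    linarith

/-- Duality for the cluster density. -/
theorem kappa_dual {p κ κ' : ℝ} (h0 : 0 ≤ p) (h1 : p ≤ 1)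
    (hκ : ∀ n : ℕ, 1 ≤ n → |EK p 0 (n - 1) 0 (n - 1) / (n : ℝ) ^ 2 - κ| ≤ 2 / n)
    (hκ' : ∀ n : ℕ, 1 ≤ n → |EK (1 - p) 0 (n - 1) 0 (n - 1) / (n : ℝ) ^ 2 - κ'| ≤ 2 / n) :
    κ = κ' + 1 - 2 * p := by
  -- it suffices to bound the difference by `C / n`
  have key : ∀ n : ℕ, 1 ≤ n → |κ - (κ' + 1 - 2 * p)| * n ≤ 16 + 3 * |κ'| := by
    intro n hn
    have hn' : (1 : ℝ) ≤ n := by exact_mod_cast hn
    have hn0 : (0 : ℝ) < n := by linarith
    have e1 : |EK p 0 (n - 1) 0 (n - 1) - κ * (n : ℝ) ^ 2| ≤ 2 * n := by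
      have h := hκ n hn
      have h2 : EK p 0 (n - 1) 0 (n - 1) - κ * (n : ℝ) ^ 2
          = (EK p 0 (n - 1) 0 (n - 1) / (n : ℝ) ^ 2 - κ) * (n : ℝ) ^ 2 := by
        field_simp
      rw [h2, abs_mul, abs_of_pos (by positivity : (0 : ℝ) < (n : ℝ) ^ 2)]
      calc _ ≤ 2 / n * (n : ℝ) ^ 2 := mul_le_mul_of_nonneg_right h (by positivity)
        _ = 2 * n := by field_simp
    have e2 : |EK (1 - p) 0 n 0 n - κ' * ((n : ℝ) + 1) ^ 2| ≤ 2 * ((n : ℝ) + 1) := by
      have h := hκ' (n + 1) (by omega)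
      have h3 : (((n + 1 : ℕ) : ℤ) - 1) = n := by push_cast; ring
      rw [h3] at h
      push_cast at h
      have hp : (0 : ℝ) < (n : ℝ) + 1 := by linarith
      have h2 : EK (1 - p) 0 n 0 n - κ' * ((n : ℝ) + 1) ^ 2
          = (EK (1 - p) 0 n 0 n / ((n : ℝ) + 1) ^ 2 - κ') * ((n : ℝ) + 1) ^ 2 := by
        field_simp
      rw [h2, abs_mul, abs_of_pos (by positivity : (0 : ℝ) < ((n : ℝ) + 1) ^ 2)]
      calc _ ≤ 2 / ((n : ℝ) + 1) * ((n : ℝ) + 1) ^ 2 :=
            mul_le_mul_of_nonneg_right h (by positivity)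
        _ = 2 * ((n : ℝ) + 1) := by field_simp
    have e3 := eulerexp_EJ_EK (p := 1 - p) (by linarith) (by linarith) n hn
    have e4 : EK (1 - p) (0 - 1) ((n : ℤ) - 1) (0 - 1) ((n : ℤ) - 1) = EK (1 - p) 0 n 0 n := by
      have := EK_shift (1 - p) 0 n 0 n (-1) (-1)
      simpa [sub_eq_add_neg] using this
    have e5 := EK_euler p (a := 0) (b := (n : ℤ) - 1) (c := 0) (d := (n : ℤ) - 1)
      (by omega) (by omega)
    rw [e4] at e3
    generalize EJ (1 - p) (0 - 1) ((n : ℤ) - 1) (0 - 1) ((n : ℤ) - 1) = E3 at e3 e5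
    push_cast at e5
    rw [abs_le] at e1 e2 e3
    set E1 := EK p 0 (n - 1) 0 (n - 1) with hE1
    set E2 := EK (1 - p) 0 n 0 n with hE2
    have hab : -|κ'| ≤ κ' ∧ κ' ≤ |κ'| := ⟨neg_abs_le κ', le_abs_self κ'⟩
    have h6 : |κ - (κ' + 1 - 2 * p)| * n ^ 2 ≤ (16 + 3 * |κ'|) * n := by
      have hpn : p * n ≤ n := by nlinarith
      have hpn0 : 0 ≤ p * n := by positivity
      have hk1 : -(|κ'| * n) ≤ κ' * n := by nlinarith [hab.1]
      have hk2 : κ' * n ≤ |κ'| * n := by nlinarith [hab.2]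
      have hk3 : |κ'| ≤ |κ'| * n := by nlinarith [abs_nonneg κ']
      have e5' : E1 = (n : ℝ) ^ 2 - 2 * p * n ^ 2 + 2 * (p * n) + E3 := by
        rw [e5]; ring
      rcases abs_cases (κ - (κ' + 1 - 2 * p)) with ⟨h, -⟩ | ⟨h, -⟩ <;> rw [h] <;>
        nlinarith [e1.1, e1.2, e2.1, e2.2, e3.1, e3.2]
    have h7 : (|κ - (κ' + 1 - 2 * p)| * n) * n ≤ (16 + 3 * |κ'|) * n := by
      calc _ = |κ - (κ' + 1 - 2 * p)| * n ^ 2 := by ring
        _ ≤ _ := h6
    exact le_of_mul_le_mul_right h7 hn0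
  by_contra hne
  have hpos : 0 < |κ - (κ' + 1 - 2 * p)| := abs_pos.2 (sub_ne_zero.2 hne)
  obtain ⟨n, hn⟩ := exists_nat_gt ((16 + 3 * |κ'|) / |κ - (κ' + 1 - 2 * p)|)
  rw [div_lt_iff₀ hpos] at hn
  have h3 := key (n + 1) (by omega)
  push_cast at h3
  nlinarith

end Pool.Agent.H29.Kap
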