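import Pool.Agent.H29.Kap.EdgeDuality

/-! # Edges which matter outside `D` but not inside `D` have two arms in `D` -/

set_option autoImplicit false

namespace Pool.Agent.H29.Kap

open Pool.Agent.H89.Perc

/-- A horizontal line of open edges. -/
lemma pivot_line_x {ω : Config} {S : Set Vert} {x₁ x₂ y : ℤ} (hx : x₁ ≤ x₂)
    (hS : ∀ x, x₁ ≤ x → x ≤ x₂ → ((x, y) : Vert) ∈ S)
    (ho : ∀ x, x₁ ≤ x → x < x₂ → ω (x, y, false) = true) :
    Conn ω S (x₁, y) (x₂, y) := by
  have key : ∀ n : ℕ, x₁ + n ≤ x₂ → Conn ω S (x₁, y) (x₁ + n, y) := by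
    intro n
    induction n with
    | zero =>
      intro _
      simpa using Conn.refl (ω := ω) (hS x₁ le_rfl hx)
    | succ n ih =>
      intro hn
      push_cast at hn
      refine (ih (by omega)).tail ⟨hS _ (by omega) (by omega), hS _ (by push_cast; omega)
        (by push_cast; omega), (x₁ + n, y, false), Or.inl ⟨rfl, ?_⟩, ho _ (by omega) (by omega)⟩
      simp only [tgt, Bool.false_eq_true, if_false, Prod.mk.injEq, and_true]
      push_cast
      ring
  have h := key (x₂ - x₁).toNat (by omega)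
  have e : x₁ + ((x₂ - x₁).toNat : ℤ) = x₂ := by omega
  rwa [e] at h

/-- A vertical line of open edges. -/
lemma pivot_line_y {ω : Config} {S : Set Vert} {x y₁ y₂ : ℤ} (hy : y₁ ≤ y₂)
    (hS : ∀ y, y₁ ≤ y → y ≤ y₂ → ((x, y) : Vert) ∈ S)
    (ho : ∀ y, y₁ ≤ y → y < y₂ → ω (x, y, true) = true) :
    Conn ω S (x, y₁) (x, y₂) := by
  have key : ∀ n : ℕ, y₁ + n ≤ y₂ → Conn ω S (x, y₁) (x, y₁ + n) := by
    intro n
    induction n with
    | zero =>
      intro _
      simpa using Conn.refl (ω := ω) (hS y₁ le_rfl hy)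
    | succ n ih =>
      intro hn
      push_cast at hn
      refine (ih (by omega)).tail ⟨hS _ (by omega) (by omega), hS _ (by push_cast; omega)
        (by push_cast; omega), (x, y₁ + n, true), Or.inl ⟨rfl, ?_⟩, ho _ (by omega) (by omega)⟩
      simp only [tgt, if_true, Prod.mk.injEq, true_and]
      push_cast
      ring
  have h := key (y₂ - y₁).toNat (by omega)
  have e : y₁ + ((y₂ - y₁).toNat : ℤ) = y₂ := by omega
  rwa [e] at h

/-- If the ring edges are open then every boundary vertex is joined to the corner `(b, d)`. -/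
lemma pivot_ring {ω : Config} {a b c d : ℤ} (hab : a ≤ b) (hcd : c ≤ d)
    (h1 : ∀ x, a ≤ x → x < b → ω (x, c, false) = true)
    (h2 : ∀ x, a ≤ x → x < b → ω (x, d, false) = true)
    (h3 : ∀ y, c ≤ y → y < d → ω (a, y, true) = true)
    (h4 : ∀ y, c ≤ y → y < d → ω (b, y, true) = true) {u : Vert} (hu : u ∈ bd a b c d) :
    Conn ω (rect a b c d) u (b, d) := by
  obtain ⟨x, y⟩ := u
  obtain ⟨⟨k1, k2, k3, k4⟩, k5⟩ := hu
  simp only at k1 k2 k3 k4 k5
  have right : ∀ y, c ≤ y → y ≤ d → Conn ω (rect a b c d) (b, y) (b, d) := by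
    intro y hy1 hy2
    exact pivot_line_y hy2 (fun z l1 l2 => ⟨hab, le_rfl, by simp only; omega, l2⟩)
      (fun z l1 l2 => h4 z (by omega) l2)
  have top : ∀ x, a ≤ x → x ≤ b → Conn ω (rect a b c d) (x, d) (b, d) := by
    intro x hx1 hx2
    exact pivot_line_x hx2 (fun z l1 l2 => ⟨by simp only; omega, l2, hcd, le_rfl⟩)
      (fun z l1 l2 => h2 z (by omega) l2)
  rcases k5 with k5 | k5 | k5 | k5
  · subst k5
    have l := pivot_line_y (ω := ω) (S := rect x b c d) (x := x) k4
      (fun z l1 l2 => ⟨le_rfl, hab, by simp only; omega, l2⟩)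
      (fun z l1 l2 => h3 z (by omega) l2)
    exact l.trans (top _ le_rfl hab)
  · subst k5
    exact right y k3 k4
  · subst k5
    have l := pivot_line_x (ω := ω) (S := rect a b y d) (y := y) k2
      (fun z l1 l2 => ⟨by simp only; omega, l2, le_rfl, hcd⟩)
      (fun z l1 l2 => h1 z (by omega) l2)
    exact l.trans (right _ le_rfl hcd)
  · subst k5
    exact top x k1 k2

/-- A path which leaves the cluster of `x` in `D` gives an arm of `x` to the boundary of `D`. -/
lemma pivot_arm {ω : Config} {a b c d : ℤ} {U : Set Vert} {x y : Vert}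
    (hx : x ∈ rect a b c d) (h1 : Conn ω U x y) (h2 : ¬ Conn ω (rect a b c d) x y) :
    ∃ w ∈ bd a b c d, Conn ω (rect a b c d) x w := by
  obtain ⟨w, w', h3, h4, h5, -⟩ := h1.exists_exit (T := {v | Conn ω (rect a b c d) x v})
    (Conn.refl hx) h2
  have h6 : Conn ω (rect a b c d) x w := h3.mem_right.2
  have h7 : w' ∉ rect a b c d := fun h => h5 (h6.tail ⟨h6.mem_right, h, h4.2.2⟩)
  refine ⟨w, ⟨h6.mem_right, ?_⟩, h6⟩
  have k1 := h6.mem_right
  have k2 := h4.fst_le
  have k3 := h4.snd_le
  simp only [rect, Set.mem_ofPred_eq] at h7 k1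
  omega

/-- The faces next to an edge of `D`. -/
lemma pivot_faces {a b c d : ℤ} {e : Edge} (he : e ∈ redges a b c d) :
    src e ∈ rect (a - 1) b (c - 1) d ∧ lowFace e ∈ rect (a - 1) b (c - 1) d := by
  rw [mem_redges] at he
  obtain ⟨x, y, t⟩ := e
  cases t <;>
  · simp only [src, tgt, lowFace, rect, Set.mem_ofPred_eq, if_true, Bool.false_eq_true,
      if_false] at he ⊢
    omega

/-- An edge with two adjacent faces in the larger rectangle of faces, one of them inner, is an edge
of `D`. -/
lemma pivot_redges {a b c d : ℤ} {e : Edge} (h1 : src e ∈ rect (a - 1) b (c - 1) d)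
    (h2 : lowFace e ∈ rect (a - 1) b (c - 1) d)
    (h3 : src e ∉ bd (a - 1) b (c - 1) d ∨ lowFace e ∉ bd (a - 1) b (c - 1) d) :
    e ∈ redges a b c d := by
  rw [mem_redges]
  obtain ⟨x, y, t⟩ := e
  cases t <;>
  · simp only [src, tgt, lowFace, rect, bd, Set.mem_ofPred_eq, if_true, Bool.false_eq_true,
      if_false] at h1 h2 h3 ⊢
    omega

/-- If the endpoints of an edge `e` of the rectangle `D` are joined by an open path off `e` in a
larger set `U`, but not in `D`, then `e` has an open arm and a closed dual arm to the outside of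
`D`. -/
theorem inR_of_pivot {ω : Config} {a b c d : ℤ} {U : Set Vert} {e : Edge}
    (he : e ∈ redges a b c d) (hU : rect a b c d ⊆ U)
    (h1 : Conn (Function.update ω e false) U (src e) (tgt e))
    (h2 : ¬ Conn (Function.update ω e false) (rect a b c d) (src e) (tgt e)) :
    InR ω a b c d e := by
  classical
  have hD := mem_redges.1 he
  obtain ⟨w, hw, hxw⟩ := pivot_arm hD.1 h1 h2
  obtain ⟨w', hw', hyw'⟩ := pivot_arm hD.2 h1.symm (fun h => h2 h.symm)
  refine ⟨he, ⟨src e, Or.inl rfl, w, hw, hxw⟩, ?_⟩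
  by_contra hC
  have hCs : ∀ G ∈ bd (a - 1) b (c - 1) d,
      ¬ Conn (dual (Function.update ω e true)) (rect (a - 1) b (c - 1) d) (src e) G :=
    fun G hG h => hC ⟨src e, Or.inl rfl, G, hG, h⟩
  have hCl : ∀ G ∈ bd (a - 1) b (c - 1) d,
      ¬ Conn (dual (Function.update ω e true)) (rect (a - 1) b (c - 1) d) (lowFace e) G :=
    fun G hG h => hC ⟨lowFace e, Or.inr rfl, G, hG, h⟩
  have hdual : Conn (dual (Function.update ω e true)) (rect (a - 1) b (c - 1) d)
      (lowFace e) (src e) := by
    by_contra hcon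
    apply h2
    rw [edge_dual he]
    rintro (h | ⟨⟨G, hG, h⟩, -⟩)
    · exact hcon h
    · exact hCl G hG h
  obtain ⟨hf1, hf2⟩ := pivot_faces he
  have hs : src e ∉ bd (a - 1) b (c - 1) d := fun h => hCs _ h (Conn.refl hf1)
  have hl : lowFace e ∉ bd (a - 1) b (c - 1) d := fun h => hCl _ h (Conn.refl hf2)
  -- open the edges next to the ring
  set ω' : Config := fun f =>
    if src f ∈ bd (a - 1) b (c - 1) d ∨ lowFace f ∈ bd (a - 1) b (c - 1) d then true else ω f
    with hω'
  have hle : ∀ f, Function.update ω e false f = true → Function.update ω' e false f = true := by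
    intro f hf
    by_cases hfe : f = e
    · subst hfe
      simp at hf
    · rw [Function.update_of_ne hfe] at hf ⊢
      simp only [hω']
      split_ifs
      · rfl
      · exact hf
  have hring : ∀ f : Edge, (src f ∈ bd (a - 1) b (c - 1) d ∨ lowFace f ∈ bd (a - 1) b (c - 1) d) →
      Function.update ω' e false f = true := by
    intro f hf
    have hfe : f ≠ e := by
      rintro rfl
      rcases hf with hf | hf
      · exact hs hf
      · exact hl hf
    rw [Function.update_of_ne hfe]
    simp only [hω', if_pos hf]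
  have hab : a ≤ b ∧ c ≤ d := by
    obtain ⟨⟨k1, k2, k3, k4⟩, -⟩ := hD
    exact ⟨k1.trans k2, k3.trans k4⟩
  have hr1 : ∀ x, a ≤ x → x < b → Function.update ω' e false (x, c, false) = true := by
    intro x k1 k2
    refine hring _ (Or.inr ?_)
    simp only [lowFace, Bool.false_eq_true, if_false, bd, rect, Set.mem_ofPred_eq, true_or,
      or_true, and_true]
    omega
  have hr2 : ∀ x, a ≤ x → x < b → Function.update ω' e false (x, d, false) = true := by
    intro x k1 k2
    refine hring _ (Or.inl ?_)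
    simp only [src, bd, rect, Set.mem_ofPred_eq, true_or, or_true, and_true]
    omega
  have hr3 : ∀ y, c ≤ y → y < d → Function.update ω' e false (a, y, true) = true := by
    intro y k1 k2
    refine hring _ (Or.inr ?_)
    simp only [lowFace, if_true, bd, rect, Set.mem_ofPred_eq, true_or, or_true, and_true]
    omega
  have hr4 : ∀ y, c ≤ y → y < d → Function.update ω' e false (b, y, true) = true := by
    intro y k1 k2
    refine hring _ (Or.inl ?_)
    simp only [src, bd, rect, Set.mem_ofPred_eq, true_or, or_true, and_true]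
    omega
  have hc1 := pivot_ring (ω := Function.update ω' e false) hab.1 hab.2 hr1 hr2 hr3 hr4 hw
  have hc2 := pivot_ring (ω := Function.update ω' e false) hab.1 hab.2 hr1 hr2 hr3 hr4 hw'
  have hxy : Conn (Function.update ω' e false) (rect a b c d) (src e) (tgt e) :=
    (((hxw.mono subset_rfl hle).trans hc1).trans hc2.symm).trans (hyw'.mono subset_rfl hle).symm
  rw [edge_dual he] at hxy
  apply hxy
  left
  refine hdual.induction_right
    (P := fun z => Conn (dual (Function.update ω' e true)) (rect (a - 1) b (c - 1) d)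
      (lowFace e) z) (Conn.refl hf2) ?_
  intro z z' hz hs' ih
  have hz' := hz.tail hs'
  have kz : z ∉ bd (a - 1) b (c - 1) d := fun h => hCl z h hz
  have kz' : z' ∉ bd (a - 1) b (c - 1) d := fun h => hCl z' h hz'
  refine ih.tail ?_
  obtain ⟨m1, m2, f, m3, m4⟩ := hs'
  refine ⟨m1, m2, f, m3, ?_⟩
  have m5 : src f ∉ bd (a - 1) b (c - 1) d ∧ tgt f ∉ bd (a - 1) b (c - 1) d := by
    rcases m3 with ⟨l1, l2⟩ | ⟨l1, l2⟩
    · rw [← l1, ← l2]; exact ⟨kz, kz'⟩
    · rw [← l1, ← l2]; exact ⟨kz', kz⟩
  have m6 : Function.update ω' e true (crossed f) = Function.update ω e true (crossed f) := by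
    by_cases hfe : crossed f = e
    · rw [hfe]; simp
    · rw [Function.update_of_ne hfe, Function.update_of_ne hfe]
      simp only [hω']
      rw [if_neg]
      rw [← src_eq_lowFace_crossed, ← tgt_eq_src_crossed]
      tauto
  simp only [dual] at m4 ⊢
  rw [m6]
  exact m4

lemma pivot_congr {ω ω' : Config} {a b c d : ℤ} (h : ∀ e ∈ redges a b c d, ω e = ω' e)
    (e : Edge) (hR : InR ω a b c d e) : InR ω' a b c d e := by
  obtain ⟨he, ⟨u, hu, w, hw, huw⟩, F, hF, G, hG, hFG⟩ := hR
  have hup : ∀ v : Bool, ∀ f ∈ redges a b c d,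
      Function.update ω e v f = Function.update ω' e v f := by
    intro v f hf
    by_cases hfe : f = e
    · subst hfe; simp
    · rw [Function.update_of_ne hfe, Function.update_of_ne hfe, h f hf]
  refine ⟨he, ⟨u, hu, w, hw, huw.congr fun f k1 k2 => hup false f (mem_redges.2 ⟨k1, k2⟩)⟩, ?_⟩
  have hstep : ∀ z z' : Vert, (z ∉ bd (a - 1) b (c - 1) d ∨ z' ∉ bd (a - 1) b (c - 1) d) →
      Step (dual (Function.update ω e true)) (rect (a - 1) b (c - 1) d) z z' →
      Step (dual (Function.update ω' e true)) (rect (a - 1) b (c - 1) d) z z' := by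
    rintro z z' hz ⟨m1, m2, f, m3, m4⟩
    refine ⟨m1, m2, f, m3, ?_⟩
    have m5 : crossed f ∈ redges a b c d := by
      apply pivot_redges
      · rw [← tgt_eq_src_crossed]
        rcases m3 with ⟨l1, l2⟩ | ⟨l1, l2⟩
        · rw [← l2]; exact m2
        · rw [← l1]; exact m1
      · rw [← src_eq_lowFace_crossed]
        rcases m3 with ⟨l1, l2⟩ | ⟨l1, l2⟩
        · rw [← l1]; exact m1
        · rw [← l2]; exact m2
      · rw [← src_eq_lowFace_crossed, ← tgt_eq_src_crossed]
        rcases m3 with ⟨l1, l2⟩ | ⟨l1, l2⟩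
        · rw [← l1, ← l2]; exact hz.symm
        · rw [← l1, ← l2]; exact hz
    simp only [dual] at m4 ⊢
    rw [← hup true _ m5]
    exact m4
  by_cases hFb : F ∈ bd (a - 1) b (c - 1) d
  · exact ⟨F, hF, F, hFb, Conn.refl hFG.mem_left⟩
  · obtain ⟨z, z', k1, k2, k3, -⟩ := hFG.exists_hit hFb hG
    refine ⟨F, hF, z', k3, ?_⟩
    have k4 : Conn (dual (Function.update ω' e true)) (rect (a - 1) b (c - 1) d) F z := by
      refine k1.induction_right
        (P := fun z => Conn (dual (Function.update ω' e true)) (rect (a - 1) b (c - 1) d) F z)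
        (Conn.refl hFG.mem_left) ?_
      intro x y hx hxy ih
      refine ih.tail (hstep x y (Or.inl hxy.1.2) ⟨hxy.1.1, hxy.2.1.1, hxy.2.2⟩)
    exact k4.tail (hstep z z' (Or.inl k1.mem_right.2) k2)

/-- `InR` depends only on the edges of the rectangle. -/
theorem inR_congr {ω ω' : Config} {a b c d : ℤ} (h : ∀ e ∈ redges a b c d, ω e = ω' e)
    (e : Edge) : InR ω a b c d e ↔ InR ω' a b c d e :=
  ⟨pivot_congr h e, pivot_congr (fun f hf => (h f hf).symm) e⟩

/-- `InR` of `e` does not depend on the state of `e`. -/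
theorem inR_update_self {ω : Config} {a b c d : ℤ} (e : Edge) (v : Bool) :
    InR (Function.update ω e v) a b c d e ↔ InR ω a b c d e := by
  unfold InR OArm CArm
  rw [Function.update_idem, Function.update_idem]

end Pool.Agent.H29.Kap
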