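import Pool.Agent.H29.Kap.TupleProb
import Pool.Agent.H29.Kap.ArmExt3

/-! # Probability that a tuple of edges lies in `R`, exponent `2/3` -/

set_option autoImplicit false

namespace Pool.Agent.H29.Kap

open Pool.Agent.H89.Perc

theorem tuple_prob3 : ∃ C : ℝ, 0 < C ∧ ∀ n : ℕ, 1 ≤ n → ∀ a b c d : ℤ, b - a ≤ 4 * n →
    d - c ≤ 4 * n → ∀ (j : ℕ) (e : Fin j → Edge) (ρ : Fin j → ℕ),
      (∀ i, ρ i ≤ dbd a b c d (e i)) → (∀ i k, k ≠ i → ρ i ≤ dist2 (e i) (e k)) →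
      Pr half {ω | ∀ i, InR ω a b c d (e i)} ≤
        ∏ i, (C * arm half n ^ 2 * (((4 * n : ℕ) : ℝ) / max (ρ i : ℝ) 1) ^ (2 / 3 : ℝ)) := by
  classical
  obtain ⟨C3, hC3, H3⟩ := arm_ext3
  obtain ⟨c2, hc2, H2⟩ := tupleprob_arm_lower
  have h1pos : 0 < arm half 1 ^ 2 := by
    have := H2 1 le_rfl
    simp only [Nat.cast_one, mul_one] at this
    linarith
  set c4 : ℝ := arm half 1 ^ 2 / C3 ^ 2 with hc4
  have hc4pos : 0 < c4 := by positivity
  have hsq : ∀ m n : ℕ, 1 ≤ m → m ≤ n →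
      arm half m ^ 2 ≤ C3 ^ 2 * ((n : ℝ) / m) ^ (2 / 3 : ℝ) * arm half n ^ 2 := by
    intro m n hm hmn
    have h := H3 m n hm hmn
    have h0 : (0 : ℝ) ≤ (n : ℝ) / m := by positivity
    have h2 : arm half m ^ 2 ≤ (C3 * ((n : ℝ) / m) ^ (1 / 3 : ℝ) * arm half n) ^ 2 :=
      pow_le_pow_left₀ arm_nonneg h 2
    refine h2.trans (le_of_eq ?_)
    have h5 : (((n : ℝ) / m) ^ (1 / 3 : ℝ)) ^ 2 = ((n : ℝ) / m) ^ (2 / 3 : ℝ) := by
      rw [← Real.rpow_natCast, ← Real.rpow_mul h0]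
      norm_num
    rw [mul_pow, mul_pow, h5]
  refine ⟨max (8 * C3 ^ 2) (2 / c4), lt_max_of_lt_left (by positivity), ?_⟩
  intro n hn a b c d hab hcd j e ρ hρ1 hρ2
  set C := max (8 * C3 ^ 2) (2 / c4) with hC
  have hC0 : 0 < C := lt_max_of_lt_left (by positivity)
  have hn0 : (0 : ℝ) < n := by exact_mod_cast hn
  set r : Fin j → ℕ := fun i => (ρ i - 1) / 2 - 2 with hr
  set B : Fin j → Set Config := fun i =>
    if ρ i < 8 then Set.univ else tupleprob_E (e i) (r i) ∩ tupleprob_F (e i) (r i) with hBdef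
  set L : Fin j → Finset Edge := fun i =>
    if ρ i < 8 then ∅ else tupleprob_box (e i) (r i + 2) with hLdef
  have hB : ∀ i ∈ (Finset.univ : Finset (Fin j)), LocalOn (L i) (B i) := by
    intro i _
    by_cases h : ρ i < 8
    · simp only [hBdef, hLdef, if_pos h]
      intro _ _ _ _
      trivial
    · simp only [hBdef, hLdef, if_neg h]
      exact (tupleprob_local_E _ _).inter (tupleprob_local_F _ _)
  have hL : ∀ i ∈ (Finset.univ : Finset (Fin j)), ∀ k ∈ (Finset.univ : Finset (Fin j)), i ≠ k →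
      Disjoint (L i) (L k) := by
    intro i _ k _ hik
    by_cases hi : ρ i < 8
    · simp only [hLdef, if_pos hi]
      exact Finset.disjoint_empty_left _
    by_cases hk : ρ k < 8
    · simp only [hLdef, if_pos hk]
      exact Finset.disjoint_empty_right _
    simp only [hLdef, if_neg hi, if_neg hk]
    rw [Finset.disjoint_left]
    intro f hf1 hf2
    rw [tupleprob_mem_box] at hf1 hf2
    have h1 := hρ2 i k hik.symm
    have h2 := hρ2 k i hik
    unfold dist2 at h1 h2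
    simp only [hr] at hf1 hf2
    push_cast at hf1 hf2
    omega
  have hsub : {ω | ∀ i, InR ω a b c d (e i)} ⊆ {ω | ∀ i ∈ Finset.univ, ω ∈ B i} := by
    intro ω hω i _
    by_cases h : ρ i < 8
    · simp only [hBdef, if_pos h]
      trivial
    · simp only [hBdef, if_neg h]
      exact tupleprob_sub (by omega) (by simp only [hr]; omega) (hρ1 i) (hω i)
  refine (Pr_mono hsub).trans ?_
  rw [tupleprob_indep Finset.univ B L hB hL]
  refine Finset.prod_le_prod (fun i _ => Pr_nonneg) fun i _ => ?_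
  have ha2 : 0 ≤ arm half n ^ 2 := by positivity
  by_cases h : ρ i < 8
  · have h1 : Pr half (B i) ≤ 1 := Pr_le_one
    refine h1.trans ?_
    have h3 : (2 / c4) ≤ C := le_max_right _ _
    have h4 : (0 : ℝ) < max (ρ i : ℝ) 1 := lt_max_of_lt_right one_pos
    have h5 : max (ρ i : ℝ) 1 ≤ 8 := by
      apply max_le _ (by norm_num)
      exact_mod_cast h.le
    have h6 : (n : ℝ) / 2 ≤ ((4 * n : ℕ) : ℝ) / max (ρ i : ℝ) 1 := by
      have h7 : ((4 * n : ℕ) : ℝ) / (8 : ℝ) ≤ ((4 * n : ℕ) : ℝ) / max (ρ i : ℝ) 1 :=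
        div_le_div_of_nonneg_left (by positivity) h4 h5
      refine le_trans (le_of_eq ?_) h7
      push_cast
      ring
    have h8 : ((n : ℝ) / 2) ^ (2 / 3 : ℝ) ≤
        (((4 * n : ℕ) : ℝ) / max (ρ i : ℝ) 1) ^ (2 / 3 : ℝ) :=
      Real.rpow_le_rpow (by positivity) h6 (by norm_num)
    have h9 : (n : ℝ) ^ (2 / 3 : ℝ) * (1 / 2) ≤ ((n : ℝ) / 2) ^ (2 / 3 : ℝ) := by
      rw [show (n : ℝ) / 2 = n * 2⁻¹ from div_eq_mul_inv _ _,
        Real.mul_rpow hn0.le (by norm_num)]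
      refine mul_le_mul_of_nonneg_left ?_ (by positivity)
      have h10 : ((2 : ℝ)⁻¹) ^ (1 : ℝ) ≤ ((2 : ℝ)⁻¹) ^ (2 / 3 : ℝ) :=
        Real.rpow_le_rpow_of_exponent_ge (by norm_num) (by norm_num) (by norm_num)
      rw [Real.rpow_one] at h10
      rw [one_div]
      exact h10
    have h2 : c4 ≤ arm half n ^ 2 * (n : ℝ) ^ (2 / 3 : ℝ) := by
      have h11 := hsq 1 n le_rfl hn
      rw [Nat.cast_one, div_one] at h11
      rw [hc4, div_le_iff₀ (by positivity)]
      calc arm half 1 ^ 2 ≤ C3 ^ 2 * (n : ℝ) ^ (2 / 3 : ℝ) * arm half n ^ 2 := h11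
        _ = _ := by ring
    calc (1 : ℝ) = (2 / c4) * c4 * (1 / 2) := by field_simp
      _ ≤ C * (arm half n ^ 2 * (n : ℝ) ^ (2 / 3 : ℝ)) * (1 / 2) := by
          apply mul_le_mul_of_nonneg_right _ (by norm_num)
          exact mul_le_mul h3 h2 hc4pos.le hC0.le
      _ = C * arm half n ^ 2 * ((n : ℝ) ^ (2 / 3 : ℝ) * (1 / 2)) := by ring
      _ ≤ _ := mul_le_mul_of_nonneg_left (h9.trans h8) (by positivity)
  · push Not at h
    have hρ0 : (0 : ℝ) < ρ i := by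
      have : 0 < ρ i := by omega
      exact_mod_cast this
    have h1 : max (ρ i : ℝ) 1 = ρ i := by
      apply max_eq_left
      have : 1 ≤ ρ i := by omega
      exact_mod_cast this
    rw [h1]
    have h2 : Pr half (B i) ≤ 4 * arm half (r i) ^ 2 := by
      simp only [hBdef, if_neg (not_lt.2 h)]
      exact tupleprob_Pr _ _
    refine h2.trans ?_
    have hr1 : 1 ≤ r i := by simp only [hr]; omega
    have hrn : r i ≤ n := by
      have h3 := hρ1 i
      unfold dbd at h3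
      simp only [hr]
      omega
    have hr8 : (ρ i : ℝ) ≤ 8 * r i := by
      have : ρ i ≤ 8 * r i := by simp only [hr]; omega
      exact_mod_cast this
    have hr0 : (0 : ℝ) < r i := by exact_mod_cast hr1
    have h3 := hsq (r i) n hr1 hrn
    have h4 : (n : ℝ) / r i ≤ 2 * (((4 * n : ℕ) : ℝ) / (ρ i : ℝ)) := by
      rw [div_le_iff₀ hr0]
      have h5 : 2 * (((4 * n : ℕ) : ℝ) / (ρ i : ℝ)) * r i = (n : ℝ) * (8 * r i) / ρ i := by
        push_cast
        ring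
      rw [h5, le_div_iff₀ hρ0]
      exact mul_le_mul_of_nonneg_left hr8 hn0.le
    have h5 : ((n : ℝ) / r i) ^ (2 / 3 : ℝ) ≤
        2 * (((4 * n : ℕ) : ℝ) / (ρ i : ℝ)) ^ (2 / 3 : ℝ) := by
      refine (Real.rpow_le_rpow (by positivity) h4 (by norm_num)).trans ?_
      rw [Real.mul_rpow (by norm_num) (by positivity)]
      refine mul_le_mul_of_nonneg_right ?_ (by positivity)
      have h10 : (2 : ℝ) ^ (2 / 3 : ℝ) ≤ (2 : ℝ) ^ (1 : ℝ) :=
        Real.rpow_le_rpow_of_exponent_le (by norm_num) (by norm_num)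
      rw [Real.rpow_one] at h10
      exact h10
    have h6 : (8 * C3 ^ 2) ≤ C := le_max_left _ _
    calc 4 * arm half (r i) ^ 2
        ≤ 4 * (C3 ^ 2 * ((n : ℝ) / r i) ^ (2 / 3 : ℝ) * arm half n ^ 2) := by gcongr
      _ ≤ 4 * (C3 ^ 2 * (2 * (((4 * n : ℕ) : ℝ) / (ρ i : ℝ)) ^ (2 / 3 : ℝ)) *
            arm half n ^ 2) := by gcongr
      _ = (8 * C3 ^ 2) * arm half n ^ 2 * (((4 * n : ℕ) : ℝ) / (ρ i : ℝ)) ^ (2 / 3 : ℝ) := by
          ring
      _ ≤ C * arm half n ^ 2 * (((4 * n : ℕ) : ℝ) / (ρ i : ℝ)) ^ (2 / 3 : ℝ) := by gcongr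

end Pool.Agent.H29.Kap
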