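import Pool.Agent.H29.Kap.TupleSum3
import Pool.Agent.H29.Kap.TupleProb3
import Pool.Agent.H29.Kap.ExpMom

/-! # Exponential moments of the size of `R`, without logarithm -/

set_option autoImplicit false

namespace Pool.Agent.H29.Kap

open Pool.Agent.H89.Perc Pool.Agent.Perc

open Classical in
/-- The moments. -/
theorem expmom3_moment {C C' : ℝ} (hC0 : 0 < C)
    (hC : ∀ n : ℕ, 1 ≤ n → ∀ a b c d : ℤ, b - a ≤ 4 * n →
    d - c ≤ 4 * n → ∀ (j : ℕ) (e : Fin j → Edge) (ρ : Fin j → ℕ),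
      (∀ i, ρ i ≤ dbd a b c d (e i)) → (∀ i k, k ≠ i → ρ i ≤ dist2 (e i) (e k)) →
      H89.Perc.Pr half {ω | ∀ i, InR ω a b c d (e i)} ≤
        ∏ i, (C * arm half n ^ 2 * (((4 * n : ℕ) : ℝ) / max (ρ i : ℝ) 1) ^ (2 / 3 : ℝ)))
    (hC' : ∀ M : ℕ, 1 ≤ M → ∀ a b c d : ℤ, b - a ≤ M → d - c ≤ M →
    ∀ (j : ℕ) (ρ : (Fin j → Edge) → Fin j → ℕ),
      (∀ e i, ρ e i = dbd a b c d (e i) ∨ ∃ k, k ≠ i ∧ ρ e i = dist2 (e i) (e k)) →
      ∑ e ∈ Fintype.piFinset (fun _ : Fin j => redges a b c d),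
          ∏ i, ((M : ℝ) / max (ρ e i : ℝ) 1) ^ (2 / 3 : ℝ) ≤
        (j + 1).factorial * (C' * (M : ℝ) ^ 2) ^ j)
    {n : ℕ} (hn : 1 ≤ n) {a b c d : ℤ} (hab : b - a ≤ 4 * n) (hcd : d - c ≤ 4 * n) (j : ℕ) :
    Ex (1 / 2) (redges a b c d)
        (fun S => (((redges a b c d).filter (fun e => InR (ofS S) a b c d e)).card : ℝ) ^ j) ≤
      (C * arm half n ^ 2) ^ j * ((j + 1).factorial *
        (C' * ((4 * n : ℕ) : ℝ) ^ 2) ^ j) := by
  have e1 : ∀ S : Finset Edge,
      (((redges a b c d).filter (fun e => InR (ofS S) a b c d e)).card : ℝ) ^ j =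
      ∑ e ∈ Fintype.piFinset (fun _ : Fin j => redges a b c d),
        ind (fun S => ofS S ∈ {ω | ∀ i, InR ω a b c d (e i)}) S := by
    intro S
    rw [Finset.card_filter]
    push_cast
    have : (∑ x ∈ redges a b c d, if InR (ofS S) a b c d x then (1 : ℝ) else 0) ^ j =
        ∏ _i : Fin j, ∑ x ∈ redges a b c d, if InR (ofS S) a b c d x then (1 : ℝ) else 0 := by
      rw [Finset.prod_const, Finset.card_univ, Fintype.card_fin]
    rw [this, Finset.prod_univ_sum]
    refine Finset.sum_congr rfl fun e _ => ?_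
    by_cases h : ∀ i, InR (ofS S) a b c d (e i)
    · rw [ind_of (A := fun S => ofS S ∈ {ω | ∀ i, InR ω a b c d (e i)}) (a := S) h]
      exact Finset.prod_eq_one fun i _ => if_pos (h i)
    · rw [ind_of_not (A := fun S => ofS S ∈ {ω | ∀ i, InR ω a b c d (e i)}) (a := S) h]
      push Not at h
      obtain ⟨i, hi⟩ := h
      exact Finset.prod_eq_zero (Finset.mem_univ i) (if_neg hi)
  simp only [e1]
  rw [Ex_sum]
  have e2 : ∀ e : Fin j → Edge,
      Ex (1 / 2) (redges a b c d) (ind (fun S => ofS S ∈ {ω | ∀ i, InR ω a b c d (e i)})) =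
        H89.Perc.Pr half {ω | ∀ i, InR ω a b c d (e i)} := by
    intro e
    have hl : LocalOn (redges a b c d) {ω | ∀ i, InR ω a b c d (e i)} := by
      intro ω ω' hω h i
      exact (inR_congr hω (e i)).1 (h i)
    rw [Pr_eq_Ex hl half]
    rfl
  calc ∑ e ∈ Fintype.piFinset (fun _ : Fin j => redges a b c d),
        Ex (1 / 2) (redges a b c d) (ind (fun S => ofS S ∈ {ω | ∀ i, InR ω a b c d (e i)}))
      = ∑ e ∈ Fintype.piFinset (fun _ : Fin j => redges a b c d),
          H89.Perc.Pr half {ω | ∀ i, InR ω a b c d (e i)} :=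
        Finset.sum_congr rfl fun e _ => e2 e
    _ ≤ ∑ e ∈ Fintype.piFinset (fun _ : Fin j => redges a b c d),
          (C * arm half n ^ 2) ^ j *
            ∏ i, (((4 * n : ℕ) : ℝ) / max (expmomRho a b c d e i : ℝ) 1) ^ (2 / 3 : ℝ) := by
        refine Finset.sum_le_sum fun e _ => ?_
        refine (hC n hn a b c d hab hcd j e (expmomRho a b c d e) (expmomRho_le a b c d e)
          (expmomRho_le' a b c d e)).trans (le_of_eq ?_)
        rw [Finset.prod_mul_distrib, Finset.prod_const, Finset.card_univ, Fintype.card_fin]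
    _ = (C * arm half n ^ 2) ^ j * ∑ e ∈ Fintype.piFinset (fun _ : Fin j => redges a b c d),
            ∏ i, (((4 * n : ℕ) : ℝ) / max (expmomRho a b c d e i : ℝ) 1) ^ (2 / 3 : ℝ) := by
        rw [Finset.mul_sum]
    _ ≤ _ := by
        refine mul_le_mul_of_nonneg_left ?_ (by positivity)
        exact hC' (4 * n) (by omega) a b c d (by push_cast; exact hab) (by push_cast; exact hcd) j
          (fun e i => expmomRho a b c d e i) (fun e i => expmomRho_mem a b c d e i)

open Classical in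
theorem exp_moment3 : ∃ c₀ : ℝ, 0 < c₀ ∧ ∀ n : ℕ, 1 ≤ n → ∀ a b c d : ℤ, b - a ≤ 4 * n →
    d - c ≤ 4 * n → ∀ δ : ℝ, 0 ≤ δ →
      δ * ((n : ℝ) ^ 2 * arm half n ^ 2) ≤ c₀ →
      Ex (1 / 2) (redges a b c d)
        (fun S => Real.exp (δ * ((redges a b c d).filter (fun e => InR (ofS S) a b c d e)).card))
        ≤ 2 := by
  obtain ⟨C, hC0, hC⟩ := tuple_prob3
  obtain ⟨C', hC'0, hC'⟩ := tuple_sum3
  refine ⟨1 / (64 * C * C'), by positivity, ?_⟩
  intro n hn a b c d hab hcd δ hδ hsmall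
  set X : Finset Edge → ℝ := fun S =>
    (((redges a b c d).filter (fun e => InR (ofS S) a b c d e)).card : ℝ) with hX
  set M : ℝ := ((4 * n : ℕ) : ℝ) with hM
  have hn' : (1 : ℝ) ≤ n := by exact_mod_cast hn
  have hMn : M = 4 * n := by rw [hM]; push_cast; ring
  set q : ℝ := δ * (C * arm half n ^ 2) * (C' * M ^ 2) with hq
  have hq0 : 0 ≤ q := by positivity
  have hq1 : q ≤ 1 / 4 := by
    have h2 : q = 16 * C * C' * (δ * ((n : ℝ) ^ 2 * arm half n ^ 2)) := by
      rw [hq, hMn]; ring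
    have h3 : 16 * C * C' * (δ * ((n : ℝ) ^ 2 * arm half n ^ 2)) ≤
        16 * C * C' * (1 / (64 * C * C')) :=
      mul_le_mul_of_nonneg_left hsmall (by positivity)
    have h4 : 16 * C * C' * (1 / (64 * C * C')) = 1 / 4 := by
      field_simp; norm_num
    linarith
  -- the exponential series
  have hs1 : ∀ S : Finset Edge, HasSum (fun j : ℕ => (δ * X S) ^ j / (j.factorial : ℝ))
      (Real.exp (δ * X S)) := by
    intro S
    have h := NormedSpace.expSeries_div_hasSum_exp (δ * X S)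
    rwa [← Real.exp_eq_exp_ℝ] at h
  have hs2 : HasSum (fun j : ℕ => Ex (1 / 2) (redges a b c d)
      (fun S => (δ * X S) ^ j / (j.factorial : ℝ)))
      (Ex (1 / 2) (redges a b c d) (fun S => Real.exp (δ * X S))) := by
    unfold Ex
    exact hasSum_sum fun S _ => (hs1 S).mul_left _
  have hq1' : q < 1 := by linarith
  have hnq : ‖q‖ < 1 := by rw [Real.norm_eq_abs, abs_of_nonneg hq0]; exact hq1'
  have hs3 : HasSum (fun j : ℕ => (j : ℝ) * q ^ j + q ^ j) (q / (1 - q) ^ 2 + (1 - q)⁻¹) :=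
    (hasSum_coe_mul_geometric_of_norm_lt_one hnq).add (hasSum_geometric_of_lt_one hq0 hq1')
  have hle : ∀ j : ℕ, Ex (1 / 2) (redges a b c d)
      (fun S => (δ * X S) ^ j / (j.factorial : ℝ)) ≤ (j : ℝ) * q ^ j + q ^ j := by
    intro j
    have h1 := expmom3_moment hC0 hC hC' hn hab hcd j
    have h2 : Ex (1 / 2) (redges a b c d) (fun S => (δ * X S) ^ j / (j.factorial : ℝ)) =
        δ ^ j / (j.factorial : ℝ) * Ex (1 / 2) (redges a b c d) (fun S => X S ^ j) := by
      rw [← Ex_const_mul]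
      refine Ex_congr fun S _ => ?_
      rw [mul_pow]; ring
    rw [h2]
    have hfac : (0 : ℝ) < (j.factorial : ℝ) := by exact_mod_cast j.factorial_pos
    calc δ ^ j / (j.factorial : ℝ) * Ex (1 / 2) (redges a b c d) (fun S => X S ^ j)
        ≤ δ ^ j / (j.factorial : ℝ) * ((C * arm half n ^ 2) ^ j * ((j + 1).factorial *
          (C' * M ^ 2) ^ j)) :=
          mul_le_mul_of_nonneg_left h1 (by positivity)
      _ = (j : ℝ) * q ^ j + q ^ j := by
          have e3 : q ^ j = δ ^ j * (C * arm half n ^ 2) ^ j *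
              (C' * M ^ 2) ^ j := by
            rw [hq, mul_pow (δ * (C * arm half n ^ 2)), mul_pow δ]
          rw [e3, Nat.factorial_succ]
          push_cast
          generalize (C * arm half n ^ 2) ^ j = P
          generalize (C' * M ^ 2) ^ j = Q
          field_simp
  have hfin := hasSum_le hle hs2 hs3
  refine hfin.trans ?_
  have h34 : (3 / 4 : ℝ) ≤ 1 - q := by linarith
  have h5 : q / (1 - q) ^ 2 + (1 - q)⁻¹ = 1 / (1 - q) ^ 2 := by
    have : (1 - q) ≠ 0 := by linarith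
    field_simp
    ring
  rw [h5, div_le_iff₀ (by positivity)]
  nlinarith

end Pool.Agent.H29.Kap
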