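import Pool.Agent.H29.Kap.Defs

/-! # Second differences of cluster counts are bounded by the number of crossing clusters -/

set_option autoImplicit false

namespace Pool.Agent.H29.Kap

open Pool.Agent.H89.Perc

/-- A cluster of a larger set which is contained in a smaller set is a cluster there. -/
theorem seconddiff_cluster_of_subset {ω : Config} {S S' : Set Vert} (hSS : S ⊆ S')
    {C : Set Vert} (hC : C ∈ clusters ω S') (hCS : C ⊆ S) : C ∈ clusters ω S := by
  obtain ⟨v, hv, rfl⟩ := hC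
  have hvC : v ∈ {w | Conn ω S' v w} := Conn.refl hv
  refine ⟨v, hCS hvC, ?_⟩
  ext w
  constructor
  · intro hw
    refine Conn.induction_right (P := fun x => Conn ω S v x) hw (Conn.refl (hCS hvC)) ?_
    intro a b hva hab ha
    exact ha.tail ⟨ha.mem_right, hCS (hva.tail hab), hab.2.2⟩
  · intro hw
    exact Conn.mono_set hSS hw

/-- A cluster of a smaller set which cannot be left inside the larger set is a cluster there. -/
theorem seconddiff_cluster_of_closed {ω : Config} {S S' : Set Vert} (hSS : S ⊆ S')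
    {C : Set Vert} (hC : C ∈ clusters ω S)
    (hcl : ∀ w ∈ C, ∀ w', Step ω S' w w' → w' ∈ S) : C ∈ clusters ω S' := by
  obtain ⟨v, hv, rfl⟩ := hC
  refine ⟨v, hSS hv, ?_⟩
  ext w
  constructor
  · intro hw
    exact Conn.mono_set hSS hw
  · intro hw
    refine Conn.induction_right (P := fun x => Conn ω S v x) hw (Conn.refl hv) ?_
    intro a b hva hab ha
    exact ha.tail ⟨ha.mem_right, hcl a ha b hab, hab.2.2⟩

/-- Counting by touching clusters. -/
theorem seconddiff_ncard_le {ω : Config} {S S' : Set Vert} (hSS : S ⊆ S')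
    {A B : Set (Set Vert)} (hA : A ⊆ clusters ω S') (hB : B ⊆ clusters ω S) (hfin : B.Finite)
    (h : ∀ C ∈ A, ∃ D ∈ B, ∃ v, v ∈ C ∧ v ∈ D) : A.ncard ≤ B.ncard := by
  classical
  choose! f hf v hv1 hv2 using h
  refine Set.ncard_le_ncard_of_injOn f hf ?_ hfin
  intro C hC C' hC' hff
  have h1 : v C' ∈ f C := by
    rw [hff]
    exact hv2 C' hC'
  have h2 := mem_cluster_iff (hB (hf C hC)) (hv2 C hC)
  rw [h2] at h1
  have h3 : Conn ω S' (v C) (v C') := Conn.mono_set hSS h1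
  have h4 := mem_cluster_iff (hA hC) (hv1 C hC)
  have h5 : v C' ∈ C := by
    rw [h4]
    exact h3
  rw [mem_cluster_iff (hA hC) h5]
  exact (mem_cluster_iff (hA hC') (hv1 C' hC')).symm

theorem seconddiff_mem_rect {a b c d : ℤ} {v : Vert} :
    v ∈ rect a b c d ↔ a ≤ v.1 ∧ v.1 ≤ b ∧ c ≤ v.2 ∧ v.2 ≤ d := Iff.rfl

/-- the cluster of `v` in `S` -/
theorem seconddiff_mk {ω : Config} {S : Set Vert} {v : Vert} (hv : v ∈ S) :
    {w | Conn ω S v w} ∈ clusters ω S := ⟨v, hv, rfl⟩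

/-- clusters to the left of `x2` -/
theorem seconddiff_left {ω : Config} {a b c d x : ℤ} (hxb : x ≤ b) :
    {C | C ∈ clusters ω (rect a b c d) ∧ ∀ v ∈ C, v.1 < x} =
      {C | C ∈ clusters ω (rect a x c d) ∧ ∀ v ∈ C, v.1 < x} := by
  have hSS : rect a x c d ⊆ rect a b c d := fun v hv =>
    ⟨hv.1, hv.2.1.trans hxb, hv.2.2⟩
  ext C
  constructor
  · rintro ⟨h1, h2⟩
    refine ⟨seconddiff_cluster_of_subset hSS h1 ?_, h2⟩
    intro v hv
    have h3 := cluster_subset h1 hv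
    exact ⟨h3.1, (h2 v hv).le, h3.2.2⟩
  · rintro ⟨h1, h2⟩
    refine ⟨seconddiff_cluster_of_closed hSS h1 ?_, h2⟩
    intro w hw w' hst
    have h3 := h2 w hw
    have h4 := hst.2.1
    have h5 := hst.fst_le
    rw [seconddiff_mem_rect] at h4 ⊢
    omega

/-- clusters split according to whether they reach `x` -/
theorem seconddiff_split {ω : Config} {a b c d : ℤ} (x : ℤ) :
    K ω (rect a b c d) =
      {C | C ∈ clusters ω (rect a b c d) ∧ ∃ v ∈ C, x ≤ v.1}.ncard +
        {C | C ∈ clusters ω (rect a b c d) ∧ ∀ v ∈ C, v.1 < x}.ncard := by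
  have hfin := clusters_finite ω (rect_finite a b c d)
  have f1 : {C | C ∈ clusters ω (rect a b c d) ∧ ∃ v ∈ C, x ≤ v.1}.Finite :=
    hfin.subset fun C hC => hC.1
  have f2 : {C | C ∈ clusters ω (rect a b c d) ∧ ∀ v ∈ C, v.1 < x}.Finite :=
    hfin.subset fun C hC => hC.1
  unfold K
  rw [← Set.ncard_union_eq ?_ f1 f2]
  · congr 1
    ext C
    constructor
    · intro hC
      by_cases h : ∃ v ∈ C, x ≤ v.1
      · exact Or.inl ⟨hC, h⟩
      · push Not at h
        exact Or.inr ⟨hC, h⟩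
    · rintro (h | h)
      · exact h.1
      · exact h.1
  · rw [Set.disjoint_left]
    rintro C ⟨-, v, hv, hv'⟩ ⟨-, h⟩
    have := h v hv
    omega

theorem second_diff_free {ω : Config} {x0 x1 x2 x3 c d : ℤ} (h01 : x0 ≤ x1) (h12 : x1 ≤ x2)
    (h23 : x2 ≤ x3) :
    |(K ω (rect x0 x3 c d) : ℤ) - K ω (rect x0 x2 c d) - K ω (rect x1 x3 c d)
      + K ω (rect x1 x2 c d)| ≤ NC ω x1 x2 c d := by
  have fI := clusters_finite ω (rect_finite x1 x2 c d)
  have fA := clusters_finite ω (rect_finite x0 x2 c d)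
  have fB := clusters_finite ω (rect_finite x1 x3 c d)
  have fU := clusters_finite ω (rect_finite x0 x3 c d)
  have sIA : rect x1 x2 c d ⊆ rect x0 x2 c d := fun v hv => ⟨h01.trans hv.1, hv.2⟩
  have sBU : rect x1 x3 c d ⊆ rect x0 x3 c d := fun v hv => ⟨h01.trans hv.1, hv.2⟩
  have sIB : rect x1 x2 c d ⊆ rect x1 x3 c d := fun v hv => ⟨hv.1, hv.2.1.trans h23, hv.2.2⟩
  rw [seconddiff_split x2 (a := x0) (b := x3), seconddiff_split x2 (a := x0) (b := x2),
    seconddiff_split x2 (a := x1) (b := x3), seconddiff_split x2 (a := x1) (b := x2),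
    seconddiff_left (a := x0) h23, seconddiff_left (a := x1) h23]
  set U1 := {C | C ∈ clusters ω (rect x0 x3 c d) ∧ ∃ v ∈ C, x2 ≤ v.1} with hU1
  set A1 := {C | C ∈ clusters ω (rect x0 x2 c d) ∧ ∃ v ∈ C, x2 ≤ v.1} with hA1
  set B1 := {C | C ∈ clusters ω (rect x1 x3 c d) ∧ ∃ v ∈ C, x2 ≤ v.1} with hB1
  set I1 := {C | C ∈ clusters ω (rect x1 x2 c d) ∧ ∃ v ∈ C, x2 ≤ v.1} with hI1
  set N1 := {C | C ∈ clusters ω (rect x1 x2 c d) ∧ (∃ u ∈ C, u.1 = x1) ∧ ∃ v ∈ C, v.1 = x2}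
    with hN1
  have hNC : NC ω x1 x2 c d = N1.ncard := rfl
  have fN1 : N1.Finite := fI.subset fun C hC => hC.1
  have fI1 : I1.Finite := fI.subset fun C hC => hC.1
  have fA1 : A1.Finite := fA.subset fun C hC => hC.1
  have fB1 : B1.Finite := fB.subset fun C hC => hC.1
  have fU1 : U1.Finite := fU.subset fun C hC => hC.1
  -- the four inequalities
  have i1 : A1.ncard ≤ I1.ncard := by
    refine seconddiff_ncard_le sIA (fun C hC => hC.1) (fun C hC => hC.1) fI1 ?_
    rintro C ⟨hC, v, hv, hv2⟩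
    have h3 := cluster_subset hC hv
    have h4 : v ∈ rect x1 x2 c d := ⟨h12.trans hv2, h3.2⟩
    exact ⟨_, ⟨seconddiff_mk h4, v, Conn.refl h4, hv2⟩, v, hv, Conn.refl h4⟩
  have i2 : I1.ncard ≤ A1.ncard + N1.ncard := by
    refine (Set.ncard_le_ncard ?_ (fA1.union fN1)).trans (Set.ncard_union_le A1 N1)
    rintro C ⟨hC, v, hv, hv2⟩
    by_cases h : ∃ u ∈ C, u.1 = x1
    · right
      refine ⟨hC, h, v, hv, ?_⟩
      have h3 := cluster_subset hC hv
      exact le_antisymm h3.2.1 hv2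
    · left
      refine ⟨seconddiff_cluster_of_closed sIA hC ?_, v, hv, hv2⟩
      intro w hw w' hst
      have h3 : w.1 ≠ x1 := fun h' => h ⟨w, hw, h'⟩
      have h4 := hst.2.1
      have h5 := hst.fst_le
      have h6 := cluster_subset hC hw
      rw [seconddiff_mem_rect] at h4 h6 ⊢
      omega
  have i3 : U1.ncard ≤ B1.ncard := by
    refine seconddiff_ncard_le sBU (fun C hC => hC.1) (fun C hC => hC.1) fB1 ?_
    rintro C ⟨hC, v, hv, hv2⟩
    have h3 := cluster_subset hC hv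
    have h4 : v ∈ rect x1 x3 c d := ⟨h12.trans hv2, h3.2⟩
    exact ⟨_, ⟨seconddiff_mk h4, v, Conn.refl h4, hv2⟩, v, hv, Conn.refl h4⟩
  have i4 : B1.ncard ≤ U1.ncard + N1.ncard := by
    have h1 : B1 ⊆ U1 ∪ {C | C ∈ B1 ∧ ∃ u ∈ C, u.1 = x1} := by
      rintro C ⟨hC, v, hv, hv2⟩
      by_cases h : ∃ u ∈ C, u.1 = x1
      · exact Or.inr ⟨⟨hC, v, hv, hv2⟩, h⟩
      · left
        refine ⟨seconddiff_cluster_of_closed sBU hC ?_, v, hv, hv2⟩
        intro w hw w' hst
        have h3 : w.1 ≠ x1 := fun h' => h ⟨w, hw, h'⟩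
        have h4 := hst.2.1
        have h5 := hst.fst_le
        have h6 := cluster_subset hC hw
        rw [seconddiff_mem_rect] at h4 h6 ⊢
        omega
    have f2 : {C | C ∈ B1 ∧ ∃ u ∈ C, u.1 = x1}.Finite := fB1.subset fun C hC => hC.1
    refine (Set.ncard_le_ncard h1 (fU1.union f2)).trans ((Set.ncard_union_le _ _).trans ?_)
    gcongr ?_ + ?_
    · exact le_rfl
    · refine seconddiff_ncard_le sIB (fun C hC => hC.1.1) (fun C hC => hC.1) fN1 ?_
      rintro C ⟨⟨hC, v, hv, hv2⟩, u, hu, hu1⟩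
      have h3 : Conn ω (rect x1 x3 c d) u v := by
        rw [mem_cluster_iff hC hu] at hv
        exact hv
      obtain ⟨u', v', h4, h5, h6, h7, -⟩ := h3.cross_x (a := x1) (b := x2) hu1.le hv2 h12
      have h8 : Conn ω (rect x1 x2 c d) u' v' := by
        refine h6.mono_set ?_
        rintro w ⟨hw1, hw2⟩
        exact ⟨hw2.1, hw2.2, hw1.2.2⟩
      refine ⟨_, ⟨seconddiff_mk h8.mem_left, ⟨u', Conn.refl h8.mem_left, h4⟩, v', h8, h5⟩, u', ?_,
        Conn.refl h8.mem_left⟩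
      rw [mem_cluster_iff hC hu]
      exact h7
  rw [hNC, abs_le]
  push_cast
  constructor <;> omega

/-- inner clusters of a smaller rectangle are inner clusters of a larger one -/
theorem seconddiff_inner_mono {ω : Config} {a b a' b' c d : ℤ} (ha : a ≤ a') (hb : b' ≤ b) :
    {C | C ∈ clusters ω (rect a' b' c d) ∧ Disjoint C (bd a' b' c d)} ⊆
      {C | C ∈ clusters ω (rect a b c d) ∧ Disjoint C (bd a b c d)} := by
  have hSS : rect a' b' c d ⊆ rect a b c d := fun v hv =>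
    ⟨ha.trans hv.1, hv.2.1.trans hb, hv.2.2⟩
  rintro C ⟨h1, h2⟩
  rw [Set.disjoint_left] at h2
  refine ⟨seconddiff_cluster_of_closed hSS h1 ?_, ?_⟩
  · intro w hw w' hst
    have h3 := cluster_subset h1 hw
    have h4 : ¬ (w.1 = a' ∨ w.1 = b' ∨ w.2 = c ∨ w.2 = d) := fun h => h2 hw ⟨h3, h⟩
    have h5 := hst.fst_le
    have h6 := hst.snd_le
    rw [seconddiff_mem_rect] at h3 ⊢
    omega
  · rw [Set.disjoint_left]
    rintro v hv ⟨hv1, hv2⟩
    have h3 := cluster_subset h1 hv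
    apply h2 hv
    refine ⟨h3, ?_⟩
    rw [seconddiff_mem_rect] at h3
    omega

theorem second_diff_wired {ω : Config} {x0 x1 x2 x3 c d : ℤ} (h01 : x0 ≤ x1) (h12 : x1 ≤ x2)
    (h23 : x2 ≤ x3) :
    |(J ω (rect x0 x3 c d) (bd x0 x3 c d) : ℤ) - J ω (rect x0 x2 c d) (bd x0 x2 c d)
      - J ω (rect x1 x3 c d) (bd x1 x3 c d) + J ω (rect x1 x2 c d) (bd x1 x2 c d)|
      ≤ NC ω x1 x2 c d := by
  have fI := clusters_finite ω (rect_finite x1 x2 c d)
  have fA := clusters_finite ω (rect_finite x0 x2 c d)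
  have fB := clusters_finite ω (rect_finite x1 x3 c d)
  have fU := clusters_finite ω (rect_finite x0 x3 c d)
  have sAU : rect x0 x2 c d ⊆ rect x0 x3 c d := fun v hv => ⟨hv.1, hv.2.1.trans h23, hv.2.2⟩
  have sBU : rect x1 x3 c d ⊆ rect x0 x3 c d := fun v hv => ⟨h01.trans hv.1, hv.2⟩
  have sIU : rect x1 x2 c d ⊆ rect x0 x3 c d := fun v hv =>
    ⟨h01.trans hv.1, hv.2.1.trans h23, hv.2.2⟩
  have sIA : rect x1 x2 c d ⊆ rect x0 x2 c d := fun v hv => ⟨h01.trans hv.1, hv.2⟩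
  unfold J
  set U1 := {C | C ∈ clusters ω (rect x0 x3 c d) ∧ Disjoint C (bd x0 x3 c d)} with hU1
  set A1 := {C | C ∈ clusters ω (rect x0 x2 c d) ∧ Disjoint C (bd x0 x2 c d)} with hA1
  set B1 := {C | C ∈ clusters ω (rect x1 x3 c d) ∧ Disjoint C (bd x1 x3 c d)} with hB1
  set I1 := {C | C ∈ clusters ω (rect x1 x2 c d) ∧ Disjoint C (bd x1 x2 c d)} with hI1
  set N1 := {C | C ∈ clusters ω (rect x1 x2 c d) ∧ (∃ u ∈ C, u.1 = x1) ∧ ∃ v ∈ C, v.1 = x2}
    with hN1
  have hNC : NC ω x1 x2 c d = N1.ncard := rfl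
  have fN1 : N1.Finite := fI.subset fun C hC => hC.1
  have fA1 : A1.Finite := fA.subset fun C hC => hC.1
  have fB1 : B1.Finite := fB.subset fun C hC => hC.1
  have fU1 : U1.Finite := fU.subset fun C hC => hC.1
  have hAU : A1 ⊆ U1 := seconddiff_inner_mono le_rfl h23
  have hBU : B1 ⊆ U1 := seconddiff_inner_mono h01 le_rfl
  have hIA : I1 ⊆ A1 := seconddiff_inner_mono h01 le_rfl
  have hIB : I1 ⊆ B1 := seconddiff_inner_mono le_rfl h23
  have hAB : A1 ∩ B1 = I1 := by
    apply Set.Subset.antisymm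
    · rintro C ⟨⟨h1, h2⟩, h3, h4⟩
      rw [Set.disjoint_left] at h2 h4
      refine ⟨seconddiff_cluster_of_subset sIA h1 ?_, ?_⟩
      · intro v hv
        exact ⟨(cluster_subset h3 hv).1, (cluster_subset h1 hv).2⟩
      · rw [Set.disjoint_left]
        rintro v hv ⟨hv1, hv2⟩
        have h5 := cluster_subset h1 hv
        have h6 := cluster_subset h3 hv
        rcases hv2 with h | h | h | h
        · exact h4 hv ⟨h6, Or.inl h⟩
        · exact h2 hv ⟨h5, Or.inr (Or.inl h)⟩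
        · exact h2 hv ⟨h5, Or.inr (Or.inr (Or.inl h))⟩
        · exact h2 hv ⟨h5, Or.inr (Or.inr (Or.inr h))⟩
    · exact Set.subset_inter hIA hIB
  have e1 : (A1 ∪ B1).ncard + I1.ncard = A1.ncard + B1.ncard := by
    rw [← hAB]
    exact Set.ncard_union_add_ncard_inter A1 B1 fA1 fB1
  have e2 : (U1 \ (A1 ∪ B1)).ncard + (A1 ∪ B1).ncard = U1.ncard :=
    Set.ncard_sdiff_add_ncard_of_subset (Set.union_subset hAU hBU) fU1
  have e3 : (U1 \ (A1 ∪ B1)).ncard ≤ N1.ncard := by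
    refine seconddiff_ncard_le sIU (fun C hC => hC.1.1) (fun C hC => hC.1) fN1 ?_
    rintro C ⟨⟨h1, h2⟩, h3⟩
    rw [Set.disjoint_left] at h2
    have hu : ∃ u ∈ C, u.1 ≤ x1 := by
      by_contra hcon
      push Not at hcon
      apply h3
      right
      refine ⟨seconddiff_cluster_of_subset sBU h1 ?_, ?_⟩
      · intro v hv
        exact ⟨(hcon v hv).le, (cluster_subset h1 hv).2⟩
      · rw [Set.disjoint_left]
        rintro v hv ⟨hv1, hv2⟩
        have h5 := cluster_subset h1 hv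
        have h6 := hcon v hv
        rcases hv2 with h | h | h | h
        · omega
        · exact h2 hv ⟨h5, Or.inr (Or.inl h)⟩
        · exact h2 hv ⟨h5, Or.inr (Or.inr (Or.inl h))⟩
        · exact h2 hv ⟨h5, Or.inr (Or.inr (Or.inr h))⟩
    have hv : ∃ v ∈ C, x2 ≤ v.1 := by
      by_contra hcon
      push Not at hcon
      apply h3
      left
      refine ⟨seconddiff_cluster_of_subset sAU h1 ?_, ?_⟩
      · intro v hv
        have h5 := cluster_subset h1 hv
        exact ⟨h5.1, (hcon v hv).le, h5.2.2⟩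
      · rw [Set.disjoint_left]
        rintro v hv ⟨hv1, hv2⟩
        have h5 := cluster_subset h1 hv
        have h6 := hcon v hv
        rcases hv2 with h | h | h | h
        · exact h2 hv ⟨h5, Or.inl h⟩
        · omega
        · exact h2 hv ⟨h5, Or.inr (Or.inr (Or.inl h))⟩
        · exact h2 hv ⟨h5, Or.inr (Or.inr (Or.inr h))⟩
    obtain ⟨u, hu, hu1⟩ := hu
    obtain ⟨v, hv, hv1⟩ := hv
    have h4 : Conn ω (rect x0 x3 c d) u v := by
      rw [mem_cluster_iff h1 hu] at hv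
      exact hv
    obtain ⟨u', v', h5, h6, h7, h8, -⟩ := h4.cross_x (a := x1) (b := x2) hu1 hv1 h12
    have h9 : Conn ω (rect x1 x2 c d) u' v' := by
      refine h7.mono_set ?_
      rintro w ⟨hw1, hw2⟩
      exact ⟨hw2.1, hw2.2, hw1.2.2⟩
    refine ⟨_, ⟨seconddiff_mk h9.mem_left, ⟨u', Conn.refl h9.mem_left, h5⟩, v', h9, h6⟩, u', ?_,
      Conn.refl h9.mem_left⟩
    rw [mem_cluster_iff h1 hu]
    exact h8
  rw [hNC, abs_le]
  constructor <;> omega

end Pool.Agent.H29.Kap
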