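import Pool.Agent.H29.Kap.Sens
import Pool.Agent.H29.Kap.SecondDiff
import Pool.Agent.H29.Kap.ExpMom3
import Pool.Agent.H29.Kap.CrossMom
import Pool.Agent.H29.Kap.Invar
import Pool.Agent.H29.Kap.EulerExp
import Pool.Agent.H29.Kap.DerivBound

/-! # Uniform control of the expected second differences -/

set_option autoImplicit false

namespace Pool.Agent.H29.Kap

open Pool.Agent.H89.Perc Pool.Agent.Perc

/-- Uniform control of a polynomial in `p` at scale `n`. -/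
def Good (n : ℕ) (C c₀ : ℝ) (f : ℝ → ℝ) : Prop :=
  (∃ (y : ℕ → ℝ) (D : ℕ), (∀ p, f p = ∑ j ∈ Finset.range D, y j * (2 * p - 1) ^ j) ∧
    (∀ j, D ≤ j → y j = 0) ∧
    ∀ r : ℝ, 0 ≤ r → r ≤ 1 →
      r ^ 2 * ((n : ℝ) ^ 2 * arm half n ^ 2) ≤ c₀ → ∀ j, |y j| * r ^ j ≤ C) ∧
  (∀ p : ℝ, 0 ≤ p → p ≤ 1 → |f p| ≤ C) ∧
  ∀ p : ℝ, 1 / 4 ≤ p → p ≤ 3 / 4 → |deriv f p| ≤ C * n

lemma geo_sum_extend {y : ℕ → ℝ} {D D' : ℕ} (h : D ≤ D') (hy : ∀ j, D ≤ j → y j = 0) (z : ℝ) :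
    ∑ j ∈ Finset.range D, y j * z ^ j = ∑ j ∈ Finset.range D', y j * z ^ j := by
  refine Finset.sum_subset (Finset.range_subset_range.2 h) fun j _ hj => ?_
  rw [hy j (by simpa using hj), zero_mul]

lemma Good.differentiable {n : ℕ} {C c₀ : ℝ} {f : ℝ → ℝ} (h : Good n C c₀ f) :
    Differentiable ℝ f := by
  obtain ⟨⟨y, D, h1, _⟩, _⟩ := h
  have : f = fun p => ∑ j ∈ Finset.range D, y j * (2 * p - 1) ^ j := funext h1
  rw [this]
  fun_prop

lemma Good.add {n : ℕ} {C C' c₀ : ℝ} {f g : ℝ → ℝ} (hf : Good n C c₀ f) (hg : Good n C' c₀ g) :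
    Good n (C + C') c₀ (fun p => f p + g p) := by
  have hdf := hf.differentiable
  have hdg := hg.differentiable
  obtain ⟨⟨y, D, h1, h2, h3⟩, h4, h5⟩ := hf
  obtain ⟨⟨y', D', h1', h2', h3'⟩, h4', h5'⟩ := hg
  refine ⟨⟨fun j => y j + y' j, max D D', fun p => ?_, fun j hj => ?_, fun r hr0 hr1 hr j => ?_⟩,
    fun p hp0 hp1 => ?_, fun p hp0 hp1 => ?_⟩
  · simp only
    rw [h1, h1', geo_sum_extend (le_max_left D D') h2, geo_sum_extend (le_max_right D D') h2',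
      ← Finset.sum_add_distrib]
    exact Finset.sum_congr rfl fun j _ => by ring
  · simp only
    rw [h2 j (le_of_max_le_left hj), h2' j (le_of_max_le_right hj), add_zero]
  · have h6 := h3 r hr0 hr1 hr j
    have h7 := h3' r hr0 hr1 hr j
    have h8 := abs_add_le (y j) (y' j)
    have h9 : 0 ≤ r ^ j := pow_nonneg hr0 j
    nlinarith
  · have h6 := h4 p hp0 hp1
    have h7 := h4' p hp0 hp1
    have h8 := abs_add_le (f p) (g p)
    linarith
  · have h6 := h5 p hp0 hp1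
    have h7 := h5' p hp0 hp1
    have h8 : deriv (fun p => f p + g p) p = deriv f p + deriv g p :=
      deriv_fun_add (hdf p) (hdg p)
    rw [h8]
    have h9 := abs_add_le (deriv f p) (deriv g p)
    linarith

lemma Good.const_mul {n : ℕ} {C c₀ : ℝ} {f : ℝ → ℝ} (a : ℝ) (hf : Good n C c₀ f) :
    Good n (|a| * C) c₀ (fun p => a * f p) := by
  have hdf := hf.differentiable
  obtain ⟨⟨y, D, h1, h2, h3⟩, h4, h5⟩ := hf
  refine ⟨⟨fun j => a * y j, D, fun p => ?_, fun j hj => ?_, fun r hr0 hr1 hr j => ?_⟩,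
    fun p hp0 hp1 => ?_, fun p hp0 hp1 => ?_⟩
  · simp only
    rw [h1, Finset.mul_sum]
    exact Finset.sum_congr rfl fun j _ => by ring
  · simp only
    rw [h2 j hj, mul_zero]
  · rw [abs_mul, mul_assoc]
    exact mul_le_mul_of_nonneg_left (h3 r hr0 hr1 hr j) (abs_nonneg a)
  · rw [abs_mul]
    exact mul_le_mul_of_nonneg_left (h4 p hp0 hp1) (abs_nonneg a)
  · have h8 : deriv (fun p => a * f p) p = a * deriv f p := deriv_const_mul a (hdf p)
    rw [h8, abs_mul, mul_assoc]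
    exact mul_le_mul_of_nonneg_left (h5 p hp0 hp1) (abs_nonneg a)

lemma Good.mono {n : ℕ} {C C' c₀ : ℝ} {f : ℝ → ℝ} (hf : Good n C c₀ f) (h : C ≤ C') :
    Good n C' c₀ f := by
  obtain ⟨⟨y, D, h1, h2, h3⟩, h4, h5⟩ := hf
  refine ⟨⟨y, D, h1, h2, fun r hr0 hr1 hr j => (h3 r hr0 hr1 hr j).trans h⟩,
    fun p hp0 hp1 => (h4 p hp0 hp1).trans h, fun p hp0 hp1 => (h5 p hp0 hp1).trans ?_⟩
  have : (0 : ℝ) ≤ n := Nat.cast_nonneg n
  nlinarith

/-- Locality of `NC`. -/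
lemma NC_congr {ω ω' : Config} {x1 x2 c d : ℤ} (h : ∀ e ∈ redges x1 x2 c d, ω e = ω' e) :
    NC ω x1 x2 c d = NC ω' x1 x2 c d := by
  have h1 : ∀ u v, Conn ω (rect x1 x2 c d) u v ↔ Conn ω' (rect x1 x2 c d) u v := by
    intro u v
    constructor
    · exact Conn.congr fun e he he' => h e (mem_redges.2 ⟨he, he'⟩)
    · exact Conn.congr fun e he he' => (h e (mem_redges.2 ⟨he, he'⟩)).symm
  unfold NC clusters
  simp only [h1]

lemma geo_ofS_inter {F G : Finset Edge} (hGF : G ⊆ F) (S : Finset Edge) :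
    ∀ e ∈ G, ofS S e = ofS (S ∩ G) e := by
  intro e he
  rw [ofS_apply, ofS_apply, decide_eq_decide, Finset.mem_inter]
  exact ⟨fun h => ⟨h, he⟩, fun h => h.1⟩

lemma redges_subset {a b c d a' b' c' d' : ℤ} (h1 : a' ≤ a) (h2 : b ≤ b') (h3 : c' ≤ c)
    (h4 : d ≤ d') : redges a b c d ⊆ redges a' b' c' d' := by
  intro e he
  rw [mem_redges] at he ⊢
  simp only [rect, Set.mem_ofPred_eq] at he ⊢
  omega

/-- `NC²` may be integrated on a larger set of edges. -/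
lemma NC_restrict {p : ℝ} {F : Finset Edge} {x1 x2 c d : ℤ} (h : redges x1 x2 c d ⊆ F) :
    Ex p F (fun S => (NC (ofS S) x1 x2 c d : ℝ) ^ 2) =
      Ex p (redges x1 x2 c d) (fun S => (NC (ofS S) x1 x2 c d : ℝ) ^ 2) := by
  refine Ex_restrict h (fun S _ => ?_) p
  rw [NC_congr (geo_ofS_inter h S)]

/-- The wired second difference. -/
noncomputable def XW (ω : Config) (x0 x1 x2 x3 c d : ℤ) : ℤ :=
  (J ω (rect x0 x3 c d) (bd x0 x3 c d) : ℤ) - J ω (rect x0 x2 c d) (bd x0 x2 c d)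
    - J ω (rect x1 x3 c d) (bd x1 x3 c d) + J ω (rect x1 x2 c d) (bd x1 x2 c d)

lemma Ex_X {p : ℝ} {x0 x1 x2 x3 c d : ℤ} (h01 : x0 ≤ x1) (h12 : x1 ≤ x2) (h23 : x2 ≤ x3) :
    Ex p (redges x0 x3 c d) (fun S => (X (ofS S) x0 x1 x2 x3 c d : ℝ)) =
      EK p x0 x3 c d - EK p x0 x2 c d - EK p x1 x3 c d + EK p x1 x2 c d := by
  have e1 := EK_of_subset (p := p) (redges_subset (a := x0) (b := x3) (c := c) (d := d)
    (a' := x0) (b' := x3) (c' := c) (d' := d) le_rfl le_rfl le_rfl le_rfl)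
  have e2 := EK_of_subset (p := p) (redges_subset (a := x0) (b := x2) (c := c) (d := d)
    (a' := x0) (b' := x3) (c' := c) (d' := d) le_rfl h23 le_rfl le_rfl)
  have e3 := EK_of_subset (p := p) (redges_subset (a := x1) (b := x3) (c := c) (d := d)
    (a' := x0) (b' := x3) (c' := c) (d' := d) h01 le_rfl le_rfl le_rfl)
  have e4 := EK_of_subset (p := p) (redges_subset (a := x1) (b := x2) (c := c) (d := d)
    (a' := x0) (b' := x3) (c' := c) (d' := d) h01 h23 le_rfl le_rfl)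
  rw [← e1, ← e2, ← e3, ← e4, ← Ex_sub, ← Ex_sub, ← Ex_add]
  refine Ex_congr fun S _ => ?_
  unfold X
  push_cast
  ring

lemma Ex_XW {p : ℝ} {x0 x1 x2 x3 c d : ℤ} (h01 : x0 ≤ x1) (h12 : x1 ≤ x2) (h23 : x2 ≤ x3) :
    Ex p (redges x0 x3 c d) (fun S => (XW (ofS S) x0 x1 x2 x3 c d : ℝ)) =
      EJ p x0 x3 c d - EJ p x0 x2 c d - EJ p x1 x3 c d + EJ p x1 x2 c d := by
  have e1 := EJ_of_subset (p := p) (redges_subset (a := x0) (b := x3) (c := c) (d := d)
    (a' := x0) (b' := x3) (c' := c) (d' := d) le_rfl le_rfl le_rfl le_rfl)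
  have e2 := EJ_of_subset (p := p) (redges_subset (a := x0) (b := x2) (c := c) (d := d)
    (a' := x0) (b' := x3) (c' := c) (d' := d) le_rfl h23 le_rfl le_rfl)
  have e3 := EJ_of_subset (p := p) (redges_subset (a := x1) (b := x3) (c := c) (d := d)
    (a' := x0) (b' := x3) (c' := c) (d' := d) h01 le_rfl le_rfl le_rfl)
  have e4 := EJ_of_subset (p := p) (redges_subset (a := x1) (b := x2) (c := c) (d := d)
    (a' := x0) (b' := x3) (c' := c) (d' := d) h01 h23 le_rfl le_rfl)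
  rw [← e1, ← e2, ← e3, ← e4, ← Ex_sub, ← Ex_sub, ← Ex_add]
  refine Ex_congr fun S _ => ?_
  unfold XW
  push_cast
  ring

/-- Duality for the second differences. -/
lemma X_euler (p : ℝ) {x0 x1 x2 x3 c d : ℤ} (h01 : x0 ≤ x1) (h12 : x1 ≤ x2) (h23 : x2 ≤ x3)
    (hcd : c ≤ d) :
    EK p x0 x3 c d - EK p x0 x2 c d - EK p x1 x3 c d + EK p x1 x2 c d =
      EJ (1 - p) (x0 - 1) x3 (c - 1) d - EJ (1 - p) (x0 - 1) x2 (c - 1) d
        - EJ (1 - p) (x1 - 1) x3 (c - 1) d + EJ (1 - p) (x1 - 1) x2 (c - 1) d := by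
  rw [EK_euler p (by omega) hcd, EK_euler p (by omega) hcd, EK_euler p (by omega) hcd,
    EK_euler p h12 hcd]
  ring

lemma card_redges_le {a b c d : ℤ} {M N : ℕ} (h1 : b - a + 1 ≤ M) (h2 : d - c + 1 ≤ N) :
    (redges a b c d).card ≤ 2 * M * N := by
  have h3 : (redges a b c d) ⊆ Finset.Icc a b ×ˢ Finset.Icc c d ×ˢ Finset.univ := by
    intro e he
    rw [mem_redges] at he
    simp only [Finset.mem_product, Finset.mem_Icc, Finset.mem_univ, and_true]
    simp only [src, rect, Set.mem_ofPred_eq] at he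
    omega
  refine (Finset.card_le_card h3).trans ?_
  rw [Finset.card_product, Finset.card_product, Int.card_Icc, Int.card_Icc]
  simp only [Finset.card_univ, Fintype.card_bool]
  have h4 : (b + 1 - a).toNat ≤ M := by omega
  have h5 : (d + 1 - c).toNat ≤ N := by omega
  calc (b + 1 - a).toNat * ((d + 1 - c).toNat * 2) ≤ M * (N * 2) := by gcongr
    _ = 2 * M * N := by ring

end Pool.Agent.H29.Kap
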