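import Pool.Agent.H29.Kap.Geo

/-! # Uniform control of the expected second differences, continued -/

set_option autoImplicit false

namespace Pool.Agent.H29.Kap

open Pool.Agent.H89.Perc Pool.Agent.Perc

lemma goodx_sq_le {p C : ℝ} (h0 : 0 ≤ p) (h1 : p ≤ 1) {F : Finset Edge} {f g : Finset Edge → ℝ}
    (h : ∀ S, S ⊆ F → |f S| ≤ g S) (hg : Ex p F (fun S => g S ^ 2) ≤ C) :
    Ex p F (fun S => f S ^ 2) ≤ C := by
  refine (Ex_mono h0 h1 fun S hS => ?_).trans hg
  have h2 := h S hS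
  have h3 := abs_nonneg (f S)
  have h4 : f S ^ 2 = |f S| ^ 2 := (sq_abs _).symm
  rw [h4]
  exact pow_le_pow_left₀ h3 h2 2

lemma goodx_abs_le {p C : ℝ} (h0 : 0 ≤ p) (h1 : p ≤ 1) {F : Finset Edge} {f : Finset Edge → ℝ}
    (hf : Ex p F (fun S => f S ^ 2) ≤ C) : |Ex p F f| ≤ 1 + C := by
  have h2 : Ex p F (fun S => |f S|) ≤ Ex p F (fun S => 1 + f S ^ 2) := by
    refine Ex_mono h0 h1 fun S _ => ?_
    have h3 := sq_abs (f S)
    have h4 := abs_nonneg (f S)
    nlinarith [sq_nonneg (|f S| - 1)]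
  have h5 : Ex p F (fun S => 1 + f S ^ 2) = 1 + Ex p F (fun S => f S ^ 2) := by
    rw [Ex_add, Ex_const]
  have h6 := abs_Ex_le (F := F) h0 h1 f
  linarith

lemma goodx_deriv {p C : ℝ} (h0 : 1 / 4 ≤ p) (h1 : p ≤ 3 / 4) {F : Finset Edge}
    {f : Finset Edge → ℝ} (hC : 0 ≤ C) (hf : Ex p F (fun S => f S ^ 2) ≤ C) {n : ℕ}
    (hF : F.card ≤ 168 * n ^ 2) : |deriv (fun q => Ex q F f) p| ≤ 30 * (1 + C) * n := by
  have hp : 3 / 16 ≤ p * (1 - p) := by nlinarith
  have h2 := deriv_Ex_bound F f (p := p) (by linarith) (by linarith)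
  have hn : (0 : ℝ) ≤ n := Nat.cast_nonneg n
  have h3 : Real.sqrt (F.card / (p * (1 - p))) ≤ 30 * n := by
    rw [Real.sqrt_le_left (by positivity), div_le_iff₀ (by linarith)]
    have h4 : (F.card : ℝ) ≤ 168 * (n : ℝ) ^ 2 := by exact_mod_cast hF
    have h5 : 0 ≤ (n : ℝ) ^ 2 := sq_nonneg _
    nlinarith
  have h6 : Real.sqrt (Ex p F (fun S => f S ^ 2)) ≤ 1 + C := by
    rw [Real.sqrt_le_left (by linarith)]
    nlinarith
  calc _ ≤ _ := h2
    _ ≤ (30 * n) * (1 + C) := mul_le_mul h3 h6 (Real.sqrt_nonneg _) (by positivity)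
    _ = 30 * (1 + C) * n := by ring

lemma goodx_amgm {x y z : ℝ} (hx : 0 ≤ x) (hy : 0 ≤ y) (hz : 0 ≤ z) :
    x * y * z ≤ 1 / 3 * (x ^ 3 + y ^ 3 + z ^ 3) := by
  nlinarith [mul_nonneg (add_nonneg (add_nonneg hx hy) hz)
    (add_nonneg (add_nonneg (sq_nonneg (x - y)) (sq_nonneg (y - z))) (sq_nonneg (z - x)))]

open Classical in
/-- The size of `R` for one rectangle. -/
noncomputable def rc (a b c d : ℤ) (S : Finset Edge) : ℕ :=
  ((redges a b c d).filter (fun e => InR (ofS S) a b c d e)).card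

lemma RU_card_le {x0 x1 x2 x3 c d : ℤ} (S : Finset Edge) :
    (RU x0 x1 x2 x3 c d S).card ≤ rc x0 x1 c d S + rc x1 x2 c d S + rc x2 x3 c d S := by
  classical
  unfold rc
  refine le_trans (Finset.card_le_card (t :=
    ((redges x0 x1 c d).filter (fun e => InR (ofS S) x0 x1 c d e) ∪
      (redges x1 x2 c d).filter (fun e => InR (ofS S) x1 x2 c d e)) ∪
      (redges x2 x3 c d).filter (fun e => InR (ofS S) x2 x3 c d e)) ?_) ?_
  · intro e he
    unfold RU at he
    rw [Finset.mem_filter] at he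
    simp only [Finset.mem_union, Finset.mem_filter]
    rcases he.2 with h | h | h
    · exact Or.inl (Or.inl ⟨h.1, h⟩)
    · exact Or.inl (Or.inr ⟨h.1, h⟩)
    · exact Or.inr ⟨h.1, h⟩
  · refine (Finset.card_union_le _ _).trans ?_
    have := Finset.card_union_le ((redges x0 x1 c d).filter (fun e => InR (ofS S) x0 x1 c d e))
      ((redges x1 x2 c d).filter (fun e => InR (ofS S) x1 x2 c d e))
    convert Nat.add_le_add_right this _

lemma rc_congr {a b c d : ℤ} {F : Finset Edge} (h : redges a b c d ⊆ F) (S : Finset Edge) :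
    rc a b c d S = rc a b c d (S ∩ redges a b c d) := by
  classical
  unfold rc
  congr 1
  refine Finset.filter_congr fun e _ => ?_
  exact inR_congr (geo_ofS_inter h S) e

theorem RU_moment : ∃ c₀ : ℝ, 0 < c₀ ∧ ∀ n : ℕ, 1 ≤ n → ∀ x0 x1 x2 x3 c d : ℤ, x0 ≤ x1 →
    x1 - x0 ≤ 4 * n → x1 ≤ x2 → x2 - x1 ≤ 4 * n → x2 ≤ x3 → x3 - x2 ≤ 4 * n →
    d - c ≤ 4 * n → ∀ t : ℝ, 0 ≤ t →
      t * ((n : ℝ) ^ 2 * arm half n ^ 2) ≤ c₀ →
      Ex (1 / 2) (redges x0 x3 c d) (fun S => (1 + t) ^ (RU x0 x1 x2 x3 c d S).card) ≤ 2 := by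
  obtain ⟨c₀, hc₀, h⟩ := exp_moment3
  refine ⟨c₀ / 3, by positivity, fun n hn x0 x1 x2 x3 c d h01 h01' h12 h12' h23 h23' hcd t ht0 ht => ?_⟩
  have hh0 : (0 : ℝ) ≤ 1 / 2 := by norm_num
  have hh1 : (1 / 2 : ℝ) ≤ 1 := by norm_num
  -- one rectangle
  have key : ∀ a b : ℤ, b - a ≤ 4 * n → redges a b c d ⊆ redges x0 x3 c d →
      Ex (1 / 2) (redges x0 x3 c d) (fun S => Real.exp (3 * t * rc a b c d S)) ≤ 2 := by
    intro a b hab hsub
    have h1 : Ex (1 / 2) (redges x0 x3 c d) (fun S => Real.exp (3 * t * rc a b c d S)) =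
        Ex (1 / 2) (redges a b c d) (fun S => Real.exp (3 * t * rc a b c d S)) :=
      Ex_restrict hsub (fun S _ => by rw [rc_congr hsub S]) _
    rw [h1]
    exact h n hn a b c d hab hcd (3 * t) (by positivity) (by nlinarith)
  have h1 := key x0 x1 h01' (redges_subset le_rfl (by omega) le_rfl le_rfl)
  have h2 := key x1 x2 h12' (redges_subset (by omega) (by omega) le_rfl le_rfl)
  have h3 := key x2 x3 h23' (redges_subset (by omega) le_rfl le_rfl le_rfl)
  have hmono : Ex (1 / 2) (redges x0 x3 c d)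
      (fun S => (1 + t) ^ (RU x0 x1 x2 x3 c d S).card) ≤
      Ex (1 / 2) (redges x0 x3 c d) (fun S => 1 / 3 * ((Real.exp (3 * t * rc x0 x1 c d S) +
        Real.exp (3 * t * rc x1 x2 c d S)) + Real.exp (3 * t * rc x2 x3 c d S))) := by
    refine Ex_mono hh0 hh1 fun S _ => ?_
    have h4 : (1 + t) ^ (RU x0 x1 x2 x3 c d S).card ≤
        Real.exp (t * (rc x0 x1 c d S + rc x1 x2 c d S + rc x2 x3 c d S)) := by
      have h5 : 1 + t ≤ Real.exp t := by
        have := Real.add_one_le_exp t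
        linarith
      calc (1 + t) ^ (RU x0 x1 x2 x3 c d S).card ≤ (Real.exp t) ^ (RU x0 x1 x2 x3 c d S).card :=
            pow_le_pow_left₀ (by positivity) h5 _
        _ = Real.exp (t * (RU x0 x1 x2 x3 c d S).card) := by
            rw [← Real.exp_nat_mul, mul_comm]
        _ ≤ _ := by
            rw [Real.exp_le_exp]
            refine mul_le_mul_of_nonneg_left ?_ ht0
            exact_mod_cast RU_card_le S
    refine h4.trans ?_
    have h6 := goodx_amgm (Real.exp_pos (t * rc x0 x1 c d S)).le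
      (Real.exp_pos (t * rc x1 x2 c d S)).le (Real.exp_pos (t * rc x2 x3 c d S)).le
    rw [← Real.exp_add, ← Real.exp_add, ← Real.exp_nat_mul, ← Real.exp_nat_mul,
      ← Real.exp_nat_mul] at h6
    have e1 : t * (rc x0 x1 c d S : ℝ) + t * rc x1 x2 c d S + t * rc x2 x3 c d S =
        t * (rc x0 x1 c d S + rc x1 x2 c d S + rc x2 x3 c d S) := by ring
    rw [e1] at h6
    refine h6.trans (le_of_eq ?_)
    push_cast
    ring_nf
  refine hmono.trans ?_
  rw [Ex_const_mul, Ex_add, Ex_add]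
  linarith

theorem good_X : ∃ C c₀ : ℝ, 0 ≤ C ∧ 0 < c₀ ∧ ∀ n : ℕ, 1 ≤ n → ∀ x0 x1 x2 x3 c d : ℤ,
    n ≤ x1 - x0 → x1 - x0 ≤ 4 * n → n ≤ x2 - x1 → x2 - x1 ≤ 4 * n → n ≤ x3 - x2 →
    x3 - x2 ≤ 4 * n → n ≤ d - c → d - c ≤ 4 * n →
    Good n C c₀ (fun p => EK p x0 x3 c d - EK p x0 x2 c d - EK p x1 x3 c d + EK p x1 x2 c d) := by
  obtain ⟨M, hM⟩ := NC_moment
  obtain ⟨c₀, hc₀, hR⟩ := RU_moment
  set M0 := max M 0 with hM0
  have hM0' : 0 ≤ M0 := le_max_right _ _
  refine ⟨30 * (1 + M0), c₀ / 19, by positivity, by positivity, ?_⟩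
  intro n hn x0 x1 x2 x3 c d h01 h01' h12 h12' h23 h23' hcd hcd'
  have hn' : (1 : ℤ) ≤ n := by exact_mod_cast hn
  have l01 : x0 ≤ x1 := by omega
  have l12 : x1 ≤ x2 := by omega
  have l23 : x2 ≤ x3 := by omega
  -- second moments
  have mX : ∀ p : ℝ, 0 ≤ p → p ≤ 1 / 2 →
      Ex p (redges x0 x3 c d) (fun S => (X (ofS S) x0 x1 x2 x3 c d : ℝ) ^ 2) ≤ M0 := by
    intro p hp0 hp1
    refine goodx_sq_le (g := fun S => (NC (ofS S) x1 x2 c d : ℝ)) hp0 (by linarith)
      (fun S _ => ?_) ?_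
    · have h : |X (ofS S) x0 x1 x2 x3 c d| ≤ (NC (ofS S) x1 x2 c d : ℤ) :=
        second_diff_free (ω := ofS S) (c := c) (d := d) l01 l12 l23
      rw [← Int.cast_abs]
      exact_mod_cast h
    · rw [NC_restrict (redges_subset l01 l23 le_rfl le_rfl)]
      exact (hM n hn x1 x2 c d h12 (by omega) (by omega) p hp0 hp1).trans (le_max_left _ _)
  have mW : ∀ p : ℝ, 0 ≤ p → p ≤ 1 / 2 →
      Ex p (redges (x0 - 1) x3 (c - 1) d)
        (fun S => (XW (ofS S) (x0 - 1) (x1 - 1) x2 x3 (c - 1) d : ℝ) ^ 2) ≤ M0 := by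
    intro p hp0 hp1
    refine goodx_sq_le (g := fun S => (NC (ofS S) (x1 - 1) x2 (c - 1) d : ℝ)) hp0 (by linarith)
      (fun S _ => ?_) ?_
    · have h : |XW (ofS S) (x0 - 1) (x1 - 1) x2 x3 (c - 1) d| ≤
          (NC (ofS S) (x1 - 1) x2 (c - 1) d : ℤ) :=
        second_diff_wired (ω := ofS S) (x0 := x0 - 1) (x1 := x1 - 1) (x2 := x2) (x3 := x3)
          (c := c - 1) (d := d) (by omega) (by omega) l23
      rw [← Int.cast_abs]
      exact_mod_cast h
    · rw [NC_restrict (redges_subset (by omega) l23 le_rfl le_rfl)]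
      exact (hM n hn (x1 - 1) x2 (c - 1) d (by omega) (by omega) (by omega) p hp0 hp1).trans
        (le_max_left _ _)
  -- the two representations
  have rX : (fun p => EK p x0 x3 c d - EK p x0 x2 c d - EK p x1 x3 c d + EK p x1 x2 c d) =
      fun p => Ex p (redges x0 x3 c d) (fun S => (X (ofS S) x0 x1 x2 x3 c d : ℝ)) := by
    funext p
    rw [Ex_X l01 l12 l23]
  have rW : (fun p => EK p x0 x3 c d - EK p x0 x2 c d - EK p x1 x3 c d + EK p x1 x2 c d) =
      fun p => (fun q => Ex q (redges (x0 - 1) x3 (c - 1) d)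
        (fun S => (XW (ofS S) (x0 - 1) (x1 - 1) x2 x3 (c - 1) d : ℝ))) (1 - p) := by
    funext p
    simp only
    rw [Ex_XW (by omega) (by omega) l23, X_euler p l01 l12 l23 (by omega)]
  refine ⟨?_, ?_, ?_⟩
  · -- coefficients
    obtain ⟨y, hy1, hy2, hy3⟩ := tilt (redges x0 x3 c d)
      (fun S => (X (ofS S) x0 x1 x2 x3 c d : ℝ)) (RU x0 x1 x2 x3 c d)
      (fun S _ => by classical
                     unfold RU; exact Finset.filter_subset _ _)
      (fun S _ g _ hg => RU_sflip l01 l12 l23 hg)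
      (fun S _ g _ hg => by rw [X_sflip l01 l12 l23 hg])
    refine ⟨y, (redges x0 x3 c d).card + 1, fun p => ?_, fun j hj => hy2 j (by omega),
      fun r hr0 hr1 hr j => ?_⟩
    · exact (congrFun rX p).trans (hy1 p)
    · have h1 := hy3 r hr0 hr1 j
      have h2 := mX (1 / 2) (by norm_num) le_rfl
      have h3 := hR n hn x0 x1 x2 x3 c d l01 h01' l12 h12' l23 h23' hcd' (19 * r ^ 2)
        (by positivity) (by
          have : 19 * r ^ 2 * ((n : ℝ) ^ 2 * arm half n ^ 2) =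
            19 * (r ^ 2 * ((n : ℝ) ^ 2 * arm half n ^ 2)) := by ring
          rw [this]; linarith)
      refine h1.trans ?_
      have h4 : Real.sqrt (Ex (1 / 2) (redges x0 x3 c d)
          (fun S => (X (ofS S) x0 x1 x2 x3 c d : ℝ) ^ 2)) ≤ 1 + M0 := by
        rw [Real.sqrt_le_left (by linarith)]
        nlinarith
      have h5 : (Ex (1 / 2) (redges x0 x3 c d)
          (fun S => (1 + 19 * r ^ 2) ^ (RU x0 x1 x2 x3 c d S).card)) ^ (1 / 4 : ℝ) ≤ 2 := by
        have h6 : 0 ≤ Ex (1 / 2) (redges x0 x3 c d)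
            (fun S => (1 + 19 * r ^ 2) ^ (RU x0 x1 x2 x3 c d S).card) :=
          Ex_nonneg (by norm_num) (by norm_num) fun S _ => by positivity
        calc _ ≤ (2 : ℝ) ^ (1 / 4 : ℝ) := Real.rpow_le_rpow h6 h3 (by norm_num)
          _ ≤ (2 : ℝ) ^ (1 : ℝ) := Real.rpow_le_rpow_of_exponent_le (by norm_num) (by norm_num)
          _ = 2 := Real.rpow_one 2
      calc _ ≤ (1 + M0) * 2 := mul_le_mul h4 h5 (Real.rpow_nonneg (Ex_nonneg (by norm_num)
              (by norm_num) fun S _ => by positivity) _) (by positivity)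
        _ ≤ 30 * (1 + M0) := by linarith
  · intro p hp0 hp1
    rcases le_total p (1 / 2) with hp | hp
    · have h1 := goodx_abs_le hp0 hp1 (mX p hp0 hp)
      have h2 := congrFun rX p
      simp only at h2 ⊢
      rw [h2]
      linarith
    · have h1 := goodx_abs_le (p := 1 - p) (by linarith) (by linarith)
        (mW (1 - p) (by linarith) (by linarith))
      have h2 := congrFun rW p
      simp only at h2 ⊢
      rw [h2]
      linarith
  · intro p hp0 hp1
    rcases le_total p (1 / 2) with hp | hp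
    · rw [rX]
      refine goodx_deriv hp0 hp1 hM0' (mX p (by linarith) hp) ?_
      refine (card_redges_le (M := 13 * n) (N := 5 * n) (by push_cast; omega)
        (by push_cast; omega)).trans ?_
      nlinarith [sq_nonneg (n : ℤ)]
    · rw [rW, deriv_comp_const_sub (f := fun q => Ex q (redges (x0 - 1) x3 (c - 1) d)
        (fun S => (XW (ofS S) (x0 - 1) (x1 - 1) x2 x3 (c - 1) d : ℝ))), abs_neg]
      refine goodx_deriv (by linarith) (by linarith) hM0'
        (mW (1 - p) (by linarith) (by linarith)) ?_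
      refine (card_redges_le (M := 14 * n) (N := 6 * n) (by push_cast; omega)
        (by push_cast; omega)).trans ?_
      nlinarith [sq_nonneg (n : ℤ)]

end Pool.Agent.H29.Kap
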