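import Pool.Agent.H29.Kap.GoodX
import Pool.Agent.H29.Kap.ArmRatio
import Pool.Agent.H29.Kap.Analysis3
import Pool.Agent.H29.Kap.Alpha
import Pool.Agent.H85.Gamma.Bounds

/-! # Main estimate -/

set_option autoImplicit false

open Filter Topology

namespace Pool.Agent.H29.Kap

open Pool.Agent.H89.Perc Pool.Agent.Perc

/-- Mixed first difference at scale `n`. -/
noncomputable def GG (n : ℕ) (p : ℝ) : ℝ :=
  EK p 0 (2 * n) 0 (2 * n) - 2 * EK p 0 (2 * n) 0 n + EK p 0 n 0 n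

/-- Second difference at scale `n`, with middle width `w` and height `b`. -/
noncomputable def DX (n w b : ℕ) (p : ℝ) : ℝ :=
  EK p 0 (n + w + n) 0 b - EK p 0 (n + w) 0 b - EK p n (n + w + n) 0 b + EK p n (n + w) 0 b

lemma DX_eq (n w b : ℕ) (p : ℝ) :
    DX n w b p = EK p 0 (n + w + n) 0 b - 2 * EK p 0 (n + w) 0 b + EK p 0 w 0 b := by
  have h1 := EK_shift p 0 (n + w) 0 b n 0
  have h2 := EK_shift p 0 w 0 b n 0
  simp only [zero_add, add_zero] at h1 h2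
  have e1 : (w : ℤ) + n = n + w := by ring
  rw [e1] at h2
  unfold DX
  rw [h1, h2]
  ring

/-- The scale decomposition. -/
lemma GG_step (n : ℕ) (p : ℝ) :
    GG (2 * n) p - 4 * GG n p =
      DX n (2 * n) (4 * n) p + 2 * DX n n (4 * n) p + DX n (2 * n) (2 * n) p
        + 2 * DX n n (2 * n) p + (-2) * DX n (2 * n) n p + (-4) * DX n n n p := by
  have s1 := EK_swap p 0 (4 * n) 0 (2 * n)
  have s2 := EK_swap p 0 (4 * n) 0 n
  have s3 := EK_swap p 0 (2 * n) 0 n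
  simp only [DX_eq, GG]
  push_cast
  have e1 : (2 : ℤ) * (2 * n) = 4 * n := by ring
  have e2 : (n : ℤ) + 2 * n + n = 4 * n := by ring
  have e3 : (n : ℤ) + 2 * n = 3 * n := by ring
  have e4 : (n : ℤ) + n + n = 3 * n := by ring
  have e5 : (n : ℤ) + n = 2 * n := by ring
  rw [e1, e2, e3, e4, e5]
  rw [s1, s2, s3]
  ring

theorem good_DX : ∃ C c₀ : ℝ, 0 ≤ C ∧ 0 < c₀ ∧ ∀ n : ℕ, 1 ≤ n →
    Good n C c₀ (fun p => GG (2 * n) p - 4 * GG n p) := by
  obtain ⟨C, c₀, hC, hc₀, h⟩ := good_X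
  refine ⟨12 * C, c₀, by positivity, hc₀, fun n hn => ?_⟩
  have key : ∀ w b : ℕ, n ≤ w → w ≤ 4 * n → n ≤ b → b ≤ 4 * n → Good n C c₀ (DX n w b) := by
    intro w b h1 h2 h3 h4
    exact h n hn 0 n (n + w) (n + w + n) 0 b (by omega) (by omega) (by omega) (by omega) (by omega)
      (by omega) (by omega) (by omega)
  have g1 := key (2 * n) (4 * n) (by omega) (by omega) (by omega) (by omega)
  have g2 := key n (4 * n) (by omega) (by omega) (by omega) (by omega)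
  have g3 := key (2 * n) (2 * n) (by omega) (by omega) (by omega) (by omega)
  have g4 := key n (2 * n) (by omega) (by omega) (by omega) (by omega)
  have g5 := key (2 * n) n (by omega) (by omega) (by omega) (by omega)
  have g6 := key n n (by omega) (by omega) (by omega) (by omega)
  have g := ((((g1.add (g2.const_mul 2)).add g3).add (g4.const_mul 2)).add
    (g5.const_mul (-2))).add (g6.const_mul (-4))
  have e : (fun p => GG (2 * n) p - 4 * GG n p) = fun p =>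
      DX n (2 * n) (4 * n) p + 2 * DX n n (4 * n) p + DX n (2 * n) (2 * n) p
        + 2 * DX n n (2 * n) p + (-2) * DX n (2 * n) n p + (-4) * DX n n n p :=
    funext fun p => GG_step n p
  rw [e]
  refine g.mono (le_of_eq ?_)
  have a2 : |(2 : ℝ)| = 2 := abs_of_pos (by norm_num)
  have a3 : |(-2 : ℝ)| = 2 := by rw [abs_neg, a2]
  have a4 : |(-4 : ℝ)| = 4 := by rw [abs_neg]; exact abs_of_pos (by norm_num)
  rw [a2, a3, a4]
  ring

/-- An expectation is a polynomial in `2p - 1`. -/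
lemma EK_poly (a b c d : ℤ) : ∃ (y : ℕ → ℝ) (D : ℕ),
    (∀ p, EK p a b c d = ∑ j ∈ Finset.range D, y j * (2 * p - 1) ^ j) ∧
      ∀ j, D ≤ j → y j = 0 := by
  obtain ⟨y, h1, h2, -⟩ := tilt (redges a b c d)
    (fun S => (K (ofS S) (rect a b c d) : ℝ)) (fun _ => redges a b c d)
    (fun S _ => Finset.Subset.refl _) (fun S _ g _ _ => rfl) (fun S _ g h1 h2 => absurd h1 h2)
  exact ⟨y, (redges a b c d).card + 1, h1, fun j hj => h2 j (by omega)⟩

lemma GG_poly (n : ℕ) : ∃ (y : ℕ → ℝ) (D : ℕ),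
    ∀ p, GG n p = ∑ j ∈ Finset.range D, y j * (2 * p - 1) ^ j := by
  obtain ⟨y1, D1, h1, h1'⟩ := EK_poly 0 (2 * n) 0 (2 * n)
  obtain ⟨y2, D2, h2, h2'⟩ := EK_poly 0 (2 * n) 0 n
  obtain ⟨y3, D3, h3, h3'⟩ := EK_poly 0 n 0 n
  refine ⟨fun j => y1 j - 2 * y2 j + y3 j, max D1 (max D2 D3), fun p => ?_⟩
  unfold GG
  rw [h1, h2, h3, geo_sum_extend (le_max_left D1 (max D2 D3)) h1',
    geo_sum_extend ((le_max_left D2 D3).trans (le_max_right D1 (max D2 D3))) h2',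
    geo_sum_extend ((le_max_right D2 D3).trans (le_max_right D1 (max D2 D3))) h3',
    Finset.mul_sum, ← Finset.sum_sub_distrib, ← Finset.sum_add_distrib]
  exact Finset.sum_congr rfl fun j _ => by ring

/-- The cluster density. -/
noncomputable def kap (p : ℝ) : ℝ := by
  classical
  exact if h : 0 ≤ p ∧ p ≤ 1 then (kappa_exists h.1 h.2).choose else 0

lemma kap_spec {p : ℝ} (h0 : 0 ≤ p) (h1 : p ≤ 1) :
    ∀ n : ℕ, 1 ≤ n → |EK p 0 (n - 1) 0 (n - 1) / (n : ℝ) ^ 2 - kap p| ≤ 2 / n := by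
  unfold kap
  rw [dif_pos ⟨h0, h1⟩]
  exact (kappa_exists h0 h1).choose_spec

lemma kap_tendsto {p : ℝ} (h0 : 0 ≤ p) (h1 : p ≤ 1) :
    Tendsto (fun n : ℕ => EK p 0 (n - 1) 0 (n - 1) / (n : ℝ) ^ 2) atTop (𝓝 (kap p)) := by
  rw [tendsto_iff_norm_sub_tendsto_zero]
  refine squeeze_zero' (Eventually.of_forall fun n => norm_nonneg _)
    ((eventually_ge_atTop 1).mono fun n hn => ?_) (tendsto_const_div_atTop_nhds_zero_nat 2)
  exact kap_spec h0 h1 n hn

lemma kap_mem {p : ℝ} (h0 : 0 ≤ p) (h1 : p ≤ 1) : 0 ≤ kap p ∧ kap p ≤ 1 := by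
  have h2 := kap_tendsto h0 h1
  have hb : ∀ n : ℕ, 1 ≤ n → 0 ≤ EK p 0 (n - 1) 0 (n - 1) / (n : ℝ) ^ 2 ∧
      EK p 0 (n - 1) 0 (n - 1) / (n : ℝ) ^ 2 ≤ 1 := by
    intro n hn
    have hn0 : (0 : ℝ) < n := by exact_mod_cast hn
    have hn' : (1 : ℤ) ≤ n := by exact_mod_cast hn
    obtain ⟨h3, h4⟩ := EK_nonneg_le h0 h1 (a := 0) (b := n - 1) (c := 0) (d := n - 1)
      (by omega) (by omega)
    refine ⟨by positivity, ?_⟩
    rw [div_le_one (by positivity)]
    push_cast at h4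
    nlinarith
  constructor
  · exact ge_of_tendsto h2 ((eventually_ge_atTop 1).mono fun n hn => (hb n hn).1)
  · exact le_of_tendsto h2 ((eventually_ge_atTop 1).mono fun n hn => (hb n hn).2)

lemma kap_dual {p : ℝ} (h0 : 0 ≤ p) (h1 : p ≤ 1) : kap p = kap (1 - p) + 1 - 2 * p :=
  kappa_dual h0 h1 (kap_spec h0 h1) (kap_spec (by linarith) (by linarith))

lemma GG_tendsto {p : ℝ} (h0 : 0 ≤ p) (h1 : p ≤ 1) :
    Tendsto (fun k : ℕ => GG (2 ^ k) p / 4 ^ k) atTop (𝓝 (kap p)) := by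
  obtain ⟨C, hC⟩ := EK_boxes h0 h1 (kap_spec h0 h1)
  have hp : Tendsto (fun k : ℕ => C * (1 / 2 : ℝ) ^ k) atTop (𝓝 0) := by
    have := (tendsto_pow_atTop_nhds_zero_of_lt_one (r := (1 / 2 : ℝ)) (by norm_num)
      (by norm_num)).const_mul C
    rwa [mul_zero] at this
  rw [tendsto_iff_norm_sub_tendsto_zero]
  refine squeeze_zero (fun k => norm_nonneg _) (fun k => ?_) hp
  have h2 := hC (2 ^ k) Nat.one_le_two_pow
  have h3 : GG (2 ^ k) p / 4 ^ k - kap p = (GG (2 ^ k) p - kap p * (2 ^ k : ℕ) ^ 2) / 4 ^ k := by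
    have : ((2 ^ k : ℕ) : ℝ) ^ 2 = 4 ^ k := by
      push_cast
      rw [← pow_mul, mul_comm, pow_mul]
      norm_num
    rw [this]
    field_simp
  rw [h3, norm_div, Real.norm_eq_abs, Real.norm_eq_abs, abs_of_pos (show (0 : ℝ) < 4 ^ k by positivity),
    div_le_iff₀ (by positivity)]
  have h4 : C * (1 / 2 : ℝ) ^ k * 4 ^ k = C * (2 ^ k : ℕ) := by
    push_cast
    rw [mul_assoc, ← mul_pow]
    norm_num
  rw [h4]
  exact h2

/-- The scale `k` term. -/
noncomputable def YY (k : ℕ) (p : ℝ) : ℝ := GG (2 ^ (k + 1)) p - 4 * GG (2 ^ k) p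

lemma YY_partial (p : ℝ) (K : ℕ) :
    ∑ k ∈ Finset.range K, YY k p / 4 ^ (k + 1) = GG (2 ^ K) p / 4 ^ K - GG 1 p := by
  induction K with
  | zero => simp
  | succ K ih =>
    rw [Finset.sum_range_succ, ih]
    unfold YY
    field_simp
    ring

theorem main : (∀ p : ℝ, 0 ≤ p → p ≤ 1 →
      Tendsto (fun n : ℕ => EK p 0 (n - 1) 0 (n - 1) / (n : ℝ) ^ 2) atTop (𝓝 (kap p))) ∧
    (∀ p : ℝ, 1 / 4 < p → p < 3 / 4 → DifferentiableAt ℝ kap p) ∧
    DifferentiableAt ℝ (deriv kap) (1 / 2) ∧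
    ∃ C' : ℝ, ∀ p : ℝ, 0 ≤ p → p ≤ 1 → ∀ N : ℕ, 1 ≤ N →
      |p - 1 / 2| * N * arm half N ≤ 1 → |Rem kap p| ≤ C' / (N : ℝ) ^ 2 := by
  refine ⟨fun p h0 h1 => kap_tendsto h0 h1, ?_⟩
  obtain ⟨C, c₀, hC, hc₀, hg⟩ := good_DX
  obtain ⟨C₁, -, hext⟩ := arm_ext3
  obtain ⟨C₂, a₀, -, ha₀, hratio⟩ := arm_ratio
  obtain ⟨g, m, hgm⟩ := GG_poly 1
  have hY : ∀ k : ℕ, Good (2 ^ k) C c₀ (YY k) := by
    intro k
    have := hg (2 ^ k) Nat.one_le_two_pow
    have e : (fun p => GG (2 * 2 ^ k) p - 4 * GG (2 ^ k) p) = YY k := by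
      funext p
      unfold YY
      rw [pow_succ, mul_comm]
    rwa [e] at this
  choose hYrep hYb hYd using hY
  choose y D hy1 hy2 hy3 using hYrep
  refine analysis3 (fun n => arm half n) (fun n => Pool.Agent.H85.Gamma.arm_half_pos n)
    (fun n => Pr_le_one) C₁ hext C₂ a₀ ha₀ hratio YY y D hy1 hy2 C c₀ hc₀
    ?_ hYb ?_ (GG 1) g m hgm kap ?_ (fun p h0 h1 => kap_dual h0 h1)
  · intro k r hr0 hr1 hr j
    refine hy3 k r hr0 hr1 ?_ j
    refine le_trans (le_of_eq ?_) hr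
    push_cast
    have : ((2 : ℝ) ^ k) ^ 2 = 4 ^ k := by
      rw [← pow_mul, mul_comm, pow_mul]
      norm_num
    rw [this]
  · intro k p h0 h1
    have := hYd k p h0 h1
    push_cast at this
    exact this
  · intro p h0 h1
    have hsum : Summable (fun k => YY k p / 4 ^ (k + 1)) := by
      refine Summable.of_norm_bounded (g := fun k => C / 4 * (1 / 4 : ℝ) ^ k)
        ((summable_geometric_of_lt_one (by norm_num) (by norm_num)).mul_left _) fun k => ?_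
      rw [norm_div, Real.norm_eq_abs, Real.norm_eq_abs, abs_of_pos (show (0 : ℝ) < 4 ^ (k + 1) by positivity),
        div_le_iff₀ (by positivity)]
      have h4 : C / 4 * (1 / 4 : ℝ) ^ k * 4 ^ (k + 1) = C := by
        rw [pow_succ, mul_assoc, ← mul_assoc ((1 / 4 : ℝ) ^ k), ← mul_pow]
        norm_num
      rw [h4]
      exact hYb k p h0 h1
    have h2 := hsum.hasSum.tendsto_sum_nat
    simp only [YY_partial] at h2
    have h3 := (GG_tendsto h0 h1).sub_const (GG 1 p)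
    have h4 := tendsto_nhds_unique h2 h3
    rw [← h4]
    exact hsum.hasSum

end Pool.Agent.H29.Kap
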