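import Mathlib

/-! # The remainder of the second order expansion at `1/2` -/

set_option autoImplicit false

namespace Pool.Agent.H29.Kap

/-- The remainder `R(p)` of the second order expansion of `κ` at `1/2`. -/
noncomputable def Rem (κ : ℝ → ℝ) (p : ℝ) : ℝ :=
  κ p - κ (1 / 2) - deriv κ (1 / 2) * (p - 1 / 2)
    - 1 / 2 * deriv (deriv κ) (1 / 2) * (p - 1 / 2) ^ 2

/-- `|R(p)| = |p - 1/2|^{2 - α₀ + o(1)}` as `p → 1/2`. -/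
def HasAlpha (κ : ℝ → ℝ) (α₀ : ℝ) : Prop :=
  ∀ ε > (0 : ℝ), ∃ δ > (0 : ℝ), ∀ p : ℝ, 0 ≤ p → p ≤ 1 → p ≠ 1 / 2 → |p - 1 / 2| < δ →
    |p - 1 / 2| ^ (2 - α₀ + ε) ≤ |Rem κ p| ∧ |Rem κ p| ≤ |p - 1 / 2| ^ (2 - α₀ - ε)

end Pool.Agent.H29.Kap
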