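import Pool.Agent.H29.Kap.Defs

/-! # Stability of the set `R` under changes of an edge without open arm -/

set_option autoImplicit false

namespace Pool.Agent.H29.Kap

open Pool.Agent.H89.Perc

/-- The boundary ring of a rectangle is connected. -/
theorem stabA_ring {a b c d : ℤ} (hab : a ≤ b) (hcd : c ≤ d) {u : Vert} (hu : u ∈ bd a b c d) :
    Conn allOpen (bd a b c d) (b, d) u := by
  have hmem : ∀ x y : ℤ, a ≤ x → x ≤ b → c ≤ y → y ≤ d →
      (x = a ∨ x = b ∨ y = c ∨ y = d) → ((x, y) : Vert) ∈ bd a b c d := by
    intro x y h1 h2 h3 h4 h5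
    exact ⟨⟨h1, h2, h3, h4⟩, h5⟩
  obtain ⟨x, y⟩ := u
  obtain ⟨⟨h1, h2, h3, h4⟩, h5⟩ := hu
  simp only at h1 h2 h3 h4 h5
  have right : ∀ y : ℤ, c ≤ y → y ≤ d → Conn allOpen (bd a b c d) (b, d) (b, y) := by
    intro y hy1 hy2
    exact (conn_line_y (S := bd a b c d) hy2 fun z k1 k2 =>
      hmem _ _ (by omega) (by omega) (by omega) (by omega) (by omega)).symm
  have top : ∀ x : ℤ, a ≤ x → x ≤ b → Conn allOpen (bd a b c d) (b, d) (x, d) := by
    intro x hx1 hx2
    exact (conn_line_x (S := bd a b c d) hx2 fun z k1 k2 =>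
      hmem _ _ (by omega) (by omega) (by omega) (by omega) (by omega)).symm
  rcases h5 with h5 | h5 | h5 | h5
  · subst h5
    exact (top x (by omega) (by omega)).trans (conn_line_y (S := bd x b c d) h4 fun z k1 k2 =>
      hmem _ _ (by omega) (by omega) (by omega) (by omega) (by omega)).symm
  · subst h5
    exact right y h3 h4
  · subst h5
    exact (right y (by omega) (by omega)).trans (conn_line_x (S := bd a b y d) h2 fun z k1 k2 =>
      hmem _ _ (by omega) (by omega) (by omega) (by omega) (by omega)).symm
  · subst h5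
    exact top x h1 h2

theorem stabA_tgt_faces (e : Edge) {F : Vert} (hF : F = src e ∨ F = lowFace e) :
    (F = src e ∨ F = ((src e).1 - 1, (src e).2) ∨ F = ((src e).1, (src e).2 - 1) ∨
      F = ((src e).1 - 1, (src e).2 - 1)) ∧
    (F = tgt e ∨ F = ((tgt e).1 - 1, (tgt e).2) ∨ F = ((tgt e).1, (tgt e).2 - 1) ∨
      F = ((tgt e).1 - 1, (tgt e).2 - 1)) := by
  obtain ⟨x, y, t⟩ := e
  cases t <;> rcases hF with rfl | rfl <;> simp [src, tgt, lowFace]

/-- The main case of `stabA`. -/
theorem stabA_core {ω : Config} {a b c d : ℤ} {g e : Edge} (hg : g ∈ redges a b c d)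
    (he : e ∈ redges a b c d) (h : ¬ OArm ω a b c d g) (hge : e ≠ g)
    (hO : ∃ u, (u = src e ∨ u = tgt e) ∧ ∃ w ∈ bd a b c d,
      Conn (Function.update (Function.update ω g false) e false) (rect a b c d) u w)
    (hC : CArm (Function.update ω g false) a b c d e) :
    CArm (Function.update ω g true) a b c d e := by
  classical
  by_contra hno
  obtain ⟨hg1, hg2⟩ := mem_redges.1 hg
  obtain ⟨he1, he2⟩ := mem_redges.1 he
  have hab : a ≤ b := le_trans hg1.1 hg1.2.1
  have hcd : c ≤ d := le_trans hg1.2.2.1 hg1.2.2.2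
  set D : Set Vert := rect a b c d with hD
  set T : Set Vert := rect (a - 1) b (c - 1) d with hT
  set ω1 : Config := Function.update (Function.update ω g true) e true with hω1
  set ω0 : Config := Function.update (Function.update ω g false) e false with hω0
  -- faces of an edge of `D`
  have hface : ∀ f : Edge, src f ∈ D → tgt f ∈ D → src f ∈ T ∧ lowFace f ∈ T := by
    rintro ⟨x, y, t⟩ k1 k2
    rw [hD] at k1 k2
    rw [hT]
    cases t <;>
    · simp only [src, tgt, lowFace, rect, Set.mem_ofPred_eq, if_true, Bool.false_eq_true,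
        if_false] at k1 k2 ⊢
      omega
  set FF : Set Vert := {G | ∃ F, (F = src e ∨ F = lowFace e) ∧ Conn (dual ω1) T F G} with hFF
  have hFFbd : ∀ G ∈ FF, G ∉ bd (a - 1) b (c - 1) d := by
    rintro G ⟨F, k1, k2⟩ k3
    exact hno ⟨F, k1, G, k3, k2⟩
  have hFFT : ∀ G ∈ FF, G ∈ T := by
    rintro G ⟨F, k1, k2⟩
    exact k2.mem_right
  have hFF1 : src e ∈ FF := ⟨_, Or.inl rfl, Conn.refl (hface e he1 he2).1⟩
  have hFF2 : lowFace e ∈ FF := ⟨_, Or.inr rfl, Conn.refl (hface e he1 he2).2⟩
  set χ : Vert → ZMod 2 := fun G => if G ∈ FF then 1 else 0 with hχ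
  set z : Edge → ZMod 2 := fun f => χ (src f) + χ (lowFace f) with hz
  have hzv : ∀ V, vsum z V = 0 := by
    intro V
    simp only [vsum, hz, src, lowFace, if_true, Bool.false_eq_true, if_false]
    linear_combination z2_add_self (χ (V.1, V.2)) + z2_add_self (χ (V.1 - 1, V.2)) +
      z2_add_self (χ (V.1, V.2 - 1)) + z2_add_self (χ (V.1 - 1, V.2 - 1))
  have hze : z e = 0 := by
    simp only [hz, hχ]
    rw [if_pos hFF1, if_pos hFF2]
    decide
  -- an edge with `z ≠ 0` is an edge of `D`
  have hzD : ∀ f, z f ≠ 0 → src f ∈ D ∧ tgt f ∈ D := by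
    rintro ⟨x, y, t⟩ k
    have k1 : src (x, y, t) ∈ FF ∨ lowFace (x, y, t) ∈ FF := by
      by_contra k2
      push Not at k2
      apply k
      simp only [hz, hχ]
      rw [if_neg k2.1, if_neg k2.2]
      decide
    have k2 : ∀ G ∈ FF, a ≤ G.1 ∧ G.1 ≤ b - 1 ∧ c ≤ G.2 ∧ G.2 ≤ d - 1 := by
      intro G hG
      have k3 := hFFT G hG
      have k4 := hFFbd G hG
      have k5 : ¬ (G.1 = a - 1 ∨ G.1 = b ∨ G.2 = c - 1 ∨ G.2 = d) := fun k6 => k4 ⟨k3, k6⟩
      rw [hT] at k3
      simp only [rect, Set.mem_ofPred_eq] at k3
      omega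
    rw [hD]
    rcases k1 with k1 | k1 <;> have k3 := k2 _ k1 <;> cases t <;>
    · simp only [src, tgt, lowFace, rect, Set.mem_ofPred_eq, if_true, Bool.false_eq_true,
        if_false] at k3 ⊢
      omega
  have hzopen : ∀ f, z f ≠ 0 → ω1 f = true := by
    intro f k
    by_contra k1
    rw [Bool.not_eq_true] at k1
    obtain ⟨k2, k3⟩ := hzD f k
    obtain ⟨k4, k5⟩ := hface f k2 k3
    have k6 : Step (dual ω1) T (lowFace f) (src f) := dual_step k1 k5 k4
    have k7 : src f ∈ FF ↔ lowFace f ∈ FF := by
      constructor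
      · rintro ⟨F, k8, k9⟩
        exact ⟨F, k8, k9.tail k6.symm⟩
      · rintro ⟨F, k8, k9⟩
        exact ⟨F, k8, k9.tail k6⟩
    apply k
    simp only [hz, hχ, k7]
    exact z2_add_self _
  set O : Set Vert := {v | ∃ w ∈ bd a b c d, Conn ω0 D v w} with hOdef
  have hgO : ∀ v, (v = src g ∨ v = tgt g) → v ∉ O := by
    rintro v k1 ⟨w, k2, k3⟩
    refine h ⟨v, k1, w, k2, k3.mono (le_refl _) ?_⟩
    intro f k4
    rw [hω0] at k4
    by_cases k5 : f = e
    · subst k5
      rw [Function.update_self] at k4
      exact absurd k4 (by decide)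
    · rw [Function.update_of_ne k5] at k4
      exact k4
  have hzO : ∀ f, z f ≠ 0 → (src f ∈ O ↔ tgt f ∈ O) := by
    intro f k
    by_cases k1 : f = g
    · subst k1
      exact ⟨fun k2 => absurd k2 (hgO _ (Or.inl rfl)), fun k2 => absurd k2 (hgO _ (Or.inr rfl))⟩
    · have k2 : f ≠ e := by
        rintro rfl
        exact k hze
      have k3 := hzopen f k
      rw [hω1, Function.update_of_ne k2, Function.update_of_ne k1] at k3
      have k4 : ω0 f = true := by
        rw [hω0, Function.update_of_ne k2, Function.update_of_ne k1]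
        exact k3
      obtain ⟨k5, k6⟩ := hzD f k
      have k7 : Step ω0 D (src f) (tgt f) := ⟨k5, k6, f, joins_src_tgt f, k4⟩
      constructor
      · rintro ⟨w, k8, k9⟩
        exact ⟨w, k8, k7.symm.conn.trans k9⟩
      · rintro ⟨w, k8, k9⟩
        exact ⟨w, k8, k7.conn.trans k9⟩
  set z' : Edge → ZMod 2 := fun f => if src f ∈ O then 0 else z f with hz'
  have hz'0 : ∀ f, z f = 0 → z' f = 0 := by
    intro f k
    simp only [hz']
    split_ifs
    · rfl
    · exact k
  have hz'O : ∀ f, (src f ∈ O ∨ tgt f ∈ O) → z' f = 0 := by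
    intro f k
    by_cases k1 : z f = 0
    · exact hz'0 f k1
    · have k2 : src f ∈ O := by
        rcases k with k | k
        · exact k
        · exact (hzO f k1).2 k
      simp only [hz']
      rw [if_pos k2]
  have hz'n : ∀ f, src f ∉ O → z' f = z f := by
    intro f k
    simp only [hz']
    rw [if_neg k]
  have hz'n2 : ∀ f, tgt f ∉ O → z' f = z f := by
    intro f k
    by_cases k1 : z f = 0
    · rw [hz'0 f k1, k1]
    · exact hz'n f fun k2 => k ((hzO f k1).1 k2)
  have hz'v : ∀ V, vsum z' V = 0 := by
    intro V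
    have s1 : src (V.1, V.2, false) = V := rfl
    have s2 : src (V.1, V.2, true) = V := rfl
    have s3 : tgt (V.1 - 1, V.2, false) = V := by simp [tgt]
    have s4 : tgt (V.1, V.2 - 1, true) = V := by simp [tgt]
    by_cases hV : V ∈ O
    · unfold vsum
      rw [hz'O _ (Or.inl (s1.symm ▸ hV)), hz'O _ (Or.inl (s2.symm ▸ hV)),
        hz'O (V.1 - 1, V.2, false) (Or.inr (by rw [s3]; exact hV)),
        hz'O (V.1, V.2 - 1, true) (Or.inr (by rw [s4]; exact hV))]
      decide
    · rw [← hzv V]
      unfold vsum
      rw [hz'n _ (s1.symm ▸ hV), hz'n _ (s2.symm ▸ hV),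
        hz'n2 (V.1 - 1, V.2, false) (by rw [s3]; exact hV),
        hz'n2 (V.1, V.2 - 1, true) (by rw [s4]; exact hV)]
  obtain ⟨W, hW⟩ := integRect (a := a - 1) (b := b) (c := c - 1) (d := d)
    (fun e' => z' (crossed e')) (by
      intro F _
      have e1 : fsum (fun e' => z' (crossed e')) F = vsum z' (F.1 + 1, F.2 + 1) := by
        simp only [fsum, vsum, crossed, if_true, Bool.false_eq_true, if_false, add_sub_cancel_right]
        ring
      rw [e1, hz'v])
  -- the value of `W` across an edge
  have hWe : ∀ f : Edge, lowFace f ∈ T → src f ∈ T → z' f = W (lowFace f) + W (src f) := by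
    intro f k1 k2
    have k3 := hW (uncross f) (by rw [src_uncross]; exact k1) (by rw [tgt_uncross]; exact k2)
    simp only [crossed_uncross, src_uncross, tgt_uncross] at k3
    exact k3
  -- the ring
  have hWring : ∀ G ∈ bd (a - 1) b (c - 1) d, W (b, d) = W G := by
    intro G hG
    refine (stabA_ring (by omega) (by omega) hG).const fun f k1 k2 _ => ?_
    have k3 := hWe (crossed f) (by rw [← src_eq_lowFace_crossed]; exact k1.1)
      (by rw [← tgt_eq_src_crossed]; exact k2.1)
    have k4 : z (crossed f) = 0 := by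
      simp only [hz, hχ]
      rw [← src_eq_lowFace_crossed, ← tgt_eq_src_crossed,
        if_neg (fun k5 => hFFbd _ k5 k1), if_neg (fun k5 => hFFbd _ k5 k2)]
      decide
    rw [hz'0 _ k4, ← src_eq_lowFace_crossed, ← tgt_eq_src_crossed] at k3
    exact z2_add_eq_zero.1 k3.symm
  -- closed dual paths which avoid `g` and `e`
  have hWdual : ∀ F G : Vert, Conn (dual ω1) T F G → W F = W G := by
    intro F G hFG
    refine hFG.const fun f k1 k2 k3 => ?_
    have k4 := hWe (crossed f) (by rw [← src_eq_lowFace_crossed]; exact k1)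
      (by rw [← tgt_eq_src_crossed]; exact k2)
    have k5 : z (crossed f) = 0 := by
      by_contra k6
      have k7 := hzopen _ k6
      simp only [dual, k7] at k3
      exact absurd k3 (by decide)
    rw [hz'0 _ k5, ← src_eq_lowFace_crossed, ← tgt_eq_src_crossed] at k4
    exact z2_add_eq_zero.1 k4.symm
  -- around a vertex of `O`
  have hfaces : ∀ V ∈ D, V ∈ T ∧ ((V.1 - 1, V.2) : Vert) ∈ T ∧ ((V.1, V.2 - 1) : Vert) ∈ T ∧
      ((V.1 - 1, V.2 - 1) : Vert) ∈ T := by
    intro V hV
    rw [hD] at hV
    rw [hT]
    simp only [rect, Set.mem_ofPred_eq] at hV ⊢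
    omega
  have hO_D : ∀ V ∈ O, V ∈ D := by
    rintro V ⟨w, _, k⟩
    exact k.mem_left
  have hWV : ∀ V ∈ O, W (V.1 - 1, V.2) = W V ∧ W (V.1, V.2 - 1) = W V ∧
      W (V.1 - 1, V.2 - 1) = W V := by
    intro V hV
    obtain ⟨f1, f2, f3, f4⟩ := hfaces V (hO_D V hV)
    have s3 : tgt (V.1 - 1, V.2, false) = V := by simp [tgt]
    have s4 : tgt (V.1, V.2 - 1, true) = V := by simp [tgt]
    have k1 := hWe (V.1, V.2, true) (by simpa [lowFace] using f2) f1
    have k2 := hWe (V.1, V.2, false) (by simpa [lowFace] using f3) f1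
    have k3 := hWe (V.1, V.2 - 1, true) (by simpa [lowFace] using f4) (by simpa [src] using f3)
    rw [hz'O (V.1, V.2, true) (Or.inl hV)] at k1
    rw [hz'O (V.1, V.2, false) (Or.inl hV)] at k2
    rw [hz'O (V.1, V.2 - 1, true) (Or.inr (by rw [s4]; exact hV))] at k3
    simp only [lowFace, src, if_true, Bool.false_eq_true, if_false] at k1 k2 k3
    have k1' := z2_add_eq_zero.1 k1.symm
    have k2' := z2_add_eq_zero.1 k2.symm
    have k3' := z2_add_eq_zero.1 k3.symm
    exact ⟨k1', k2', k3'.trans k2'⟩
  have hWstep : ∀ f : Edge, src f ∈ O → tgt f ∈ O → W (src f) = W (tgt f) := by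
    rintro ⟨x, y, t⟩ k1 k2
    have k3 := hWV _ k2
    cases t
    · have e1 : ((tgt (x, y, false)).1 - 1, (tgt (x, y, false)).2) = src (x, y, false) := by
        simp [src, tgt]
      rw [e1] at k3
      exact k3.1
    · have e1 : ((tgt (x, y, true)).1, (tgt (x, y, true)).2 - 1) = src (x, y, true) := by
        simp [src, tgt]
      rw [e1] at k3
      exact k3.2.1
  have hWO : ∀ V w : Vert, w ∈ bd a b c d → Conn ω0 D V w → W V = W (b, d) := by
    intro V w hw hVw
    have key : Conn ω0 O V w := by
      have hVw' := hVw.symm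
      have k0 : Conn ω0 O w V := by
        refine hVw'.induction_right (P := fun x => Conn ω0 O w x)
          (Conn.refl ⟨w, hw, Conn.refl hVw'.mem_left⟩) ?_
        intro p q k1 k2 k3
        refine k3.tail ⟨k3.mem_right, ⟨w, hw, ?_⟩, k2.2.2⟩
        exact (k1.tail k2).symm
      exact k0.symm
    have k1 : W V = W w := key.const fun f k1 k2 _ => hWstep f k1 k2
    rw [k1]
    have hwO : w ∈ O := key.mem_right
    obtain ⟨hw1, hw2, hw3⟩ := hWV w hwO
    obtain ⟨f1, f2, f3, f4⟩ := hfaces w hw.1
    rcases hw.2 with k2 | k2 | k2 | k2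
    · rw [← hw1]
      exact (hWring _ ⟨f2, Or.inl (by simp only; omega)⟩).symm
    · exact (hWring _ ⟨f1, Or.inr (Or.inl k2)⟩).symm
    · rw [← hw2]
      exact (hWring _ ⟨f3, Or.inr (Or.inr (Or.inl (by simp only; omega)))⟩).symm
    · exact (hWring _ ⟨f1, Or.inr (Or.inr (Or.inr k2))⟩).symm
  -- the dual arm of `e`
  obtain ⟨F, hF, G, hG, hFG⟩ := hC
  have hWF : W F ≠ W (b, d) := by
    have e1 : dual (Function.update (Function.update ω g false) e true) =
        Function.update (dual (Function.update ω e true)) (uncross g) true := by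
      funext f
      by_cases k1 : f = uncross g
      · subst k1
        rw [Function.update_self]
        simp only [dual, crossed_uncross]
        rw [Function.update_of_ne hge.symm, Function.update_self]
        rfl
      · rw [Function.update_of_ne k1]
        have k2 : crossed f ≠ g := by
          rintro rfl
          exact k1 (uncross_crossed f).symm
        simp only [dual]
        by_cases k3 : crossed f = e
        · rw [k3, Function.update_self, Function.update_self]
        · rw [Function.update_of_ne k3, Function.update_of_ne k3, Function.update_of_ne k2]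
    have e2 : dual ω1 =
        Function.update (dual (Function.update ω e true)) (uncross g) false := by
      funext f
      by_cases k1 : f = uncross g
      · subst k1
        rw [Function.update_self, hω1]
        simp only [dual, crossed_uncross]
        rw [Function.update_of_ne hge.symm, Function.update_self]
        rfl
      · rw [Function.update_of_ne k1]
        have k2 : crossed f ≠ g := by
          rintro rfl
          exact k1 (uncross_crossed f).symm
        simp only [dual, hω1]
        by_cases k3 : crossed f = e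
        · rw [k3, Function.update_self, Function.update_self]
        · rw [Function.update_of_ne k3, Function.update_of_ne k3, Function.update_of_ne k2]
    rw [e1] at hFG
    rcases hFG.split_edge with k | ⟨u, v, k1, k2, k3⟩
    · rw [← e2] at k
      exact absurd ⟨F, hF, G, hG, k⟩ hno
    · rw [← e2] at k2 k3
      have k4 : u ∈ FF := ⟨F, hF, k2⟩
      have k5 : v ∉ FF := by
        rintro ⟨F', k6, k7⟩
        exact hno ⟨F', k6, G, hG, k7.trans k3⟩
      have k6 : W u ≠ W v := by
        have k7 : z g = 1 := by
          simp only [hz, hχ]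
          rcases k1 with ⟨k8, k9⟩ | ⟨k8, k9⟩
          · rw [src_uncross] at k8
            rw [tgt_uncross] at k9
            rw [← k8, ← k9, if_pos k4, if_neg k5]
            decide
          · rw [tgt_uncross] at k8
            rw [src_uncross] at k9
            rw [← k8, ← k9, if_pos k4, if_neg k5]
            decide
        obtain ⟨k10, k11⟩ := hface g hg1 hg2
        have k12 := hWe g k11 k10
        rw [hz'n g (hgO _ (Or.inl rfl)), k7] at k12
        have k13 := z2_add_eq_one.1 k12.symm
        rcases k1 with ⟨k8, k9⟩ | ⟨k8, k9⟩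
        · rw [src_uncross] at k8
          rw [tgt_uncross] at k9
          rw [k8, k9]
          exact k13
        · rw [tgt_uncross] at k8
          rw [src_uncross] at k9
          rw [k8, k9]
          exact k13.symm
      rw [hWdual F u k2, hWring G hG, ← hWdual v G k3]
      exact k6
  obtain ⟨u, hu, w, hw, huw⟩ := hO
  have hWu : W u = W (b, d) := hWO u w hw huw
  have huO : u ∈ O := ⟨w, hw, huw⟩
  obtain ⟨m1, m2, m3⟩ := hWV u huO
  obtain ⟨n1, n2⟩ := stabA_tgt_faces e hF
  apply hWF
  rcases hu with rfl | rfl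
  · rcases n1 with k | k | k | k <;> rw [k]
    · exact hWu
    · exact m1.trans hWu
    · exact m2.trans hWu
    · exact m3.trans hWu
  · rcases n2 with k | k | k | k <;> rw [k]
    · exact hWu
    · exact m1.trans hWu
    · exact m2.trans hWu
    · exact m3.trans hWu

theorem stabA {ω : Config} {a b c d : ℤ} {g e : Edge} (hg : g ∈ redges a b c d)
    (h : ¬ OArm ω a b c d g) (hge : e ≠ g) :
    InR (Function.update ω g false) a b c d e ↔ InR (Function.update ω g true) a b c d e := by
  have hle : ∀ s : Bool, ∀ f, Function.update (Function.update ω g false) e s f = true →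
      Function.update (Function.update ω g true) e s f = true := by
    intro s f k
    by_cases k1 : f = e
    · subst k1
      rw [Function.update_self] at k ⊢
      exact k
    · rw [Function.update_of_ne k1] at k ⊢
      by_cases k2 : f = g
      · subst k2
        rw [Function.update_self] at k
        exact absurd k (by decide)
      · rw [Function.update_of_ne k2] at k ⊢
        exact k
  constructor
  · rintro ⟨he, hO, hC⟩
    refine ⟨he, ?_, stabA_core hg he h hge hO hC⟩
    obtain ⟨u, hu, w, hw, huw⟩ := hO
    exact ⟨u, hu, w, hw, huw.mono (le_refl _) (hle false)⟩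
  · rintro ⟨he, hO, hC⟩
    refine ⟨he, ?_, ?_⟩
    · obtain ⟨u, hu, w, hw, huw⟩ := hO
      have e1 : ∀ s : Bool, Function.update (Function.update ω g s) e false =
          Function.update (Function.update ω e false) g s := by
        intro s
        exact Function.update_comm hge.symm _ _ _
      rw [e1] at huw
      rcases huw.split_edge with k | ⟨u', v', k1, k2, k3⟩
      · rw [← e1] at k
        exact ⟨u, hu, w, hw, k⟩
      · exfalso
        refine h ⟨v', ?_, w, hw, k3.mono (le_refl _) ?_⟩
        · rcases k1 with ⟨_, k4⟩ | ⟨_, k4⟩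
          · exact Or.inr k4
          · exact Or.inl k4
        · intro f k4
          by_cases k5 : f = g
          · subst k5
            rw [Function.update_self] at k4
            exact absurd k4 (by decide)
          · rw [Function.update_of_ne k5] at k4 ⊢
            by_cases k6 : f = e
            · subst k6
              rw [Function.update_self] at k4
              exact absurd k4 (by decide)
            · rw [Function.update_of_ne k6] at k4
              exact k4
    · obtain ⟨F, hF, G, hG, hFG⟩ := hC
      refine ⟨F, hF, G, hG, hFG.mono (le_refl _) ?_⟩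
      intro f k
      simp only [dual, Bool.not_eq_true'] at k ⊢
      by_contra k1
      rw [Bool.not_eq_false] at k1
      rw [hle true _ k1] at k
      exact absurd k (by decide)

end Pool.Agent.H29.Kap
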