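import Pool.Agent.H29.Kap.Defs

/-! # Stability of the set `R` under changes of an edge without closed dual arm -/

set_option autoImplicit false

namespace Pool.Agent.H29.Kap

open Pool.Agent.H89.Perc

/-- The boundary ring of a rectangle is connected. -/
theorem stabB_ring {a b c d : ℤ} (hab : a ≤ b) (hcd : c ≤ d) {u : Vert} (hu : u ∈ bd a b c d) :
    Conn allOpen (bd a b c d) (b, d) u := by
  have hmem : ∀ x y : ℤ, a ≤ x → x ≤ b → c ≤ y → y ≤ d →
      (x = a ∨ x = b ∨ y = c ∨ y = d) → ((x, y) : Vert) ∈ bd a b c d := by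
    intro x y h1 h2 h3 h4 h5
    exact ⟨⟨h1, h2, h3, h4⟩, h5⟩
  obtain ⟨x, y⟩ := u
  obtain ⟨⟨h1, h2, h3, h4⟩, h5⟩ := hu
  simp only at h1 h2 h3 h4 h5
  have right : ∀ y : ℤ, c ≤ y → y ≤ d → Conn allOpen (bd a b c d) (b, d) (b, y) := by
    intro y hy1 hy2
    exact (conn_line_y (S := bd a b c d) hy2 fun z k1 k2 =>
      hmem _ _ (by omega) (by omega) (by omega) (by omega) (by omega)).symm
  have top : ∀ x : ℤ, a ≤ x → x ≤ b → Conn allOpen (bd a b c d) (b, d) (x, d) := by
    intro x hx1 hx2
    exact (conn_line_x (S := bd a b c d) hx2 fun z k1 k2 =>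
      hmem _ _ (by omega) (by omega) (by omega) (by omega) (by omega)).symm
  rcases h5 with h5 | h5 | h5 | h5
  · subst h5
    exact (top x (by omega) (by omega)).trans (conn_line_y (S := bd x b c d) h4 fun z k1 k2 =>
      hmem _ _ (by omega) (by omega) (by omega) (by omega) (by omega)).symm
  · subst h5
    exact right y h3 h4
  · subst h5
    exact (right y (by omega) (by omega)).trans (conn_line_x (S := bd a b y d) h2 fun z k1 k2 =>
      hmem _ _ (by omega) (by omega) (by omega) (by omega) (by omega)).symm
  · subst h5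
    exact top x h1 h2

/-- The main case of `stabB`. -/
theorem stabB_core {ω : Config} {a b c d : ℤ} {g e : Edge} (hg : g ∈ redges a b c d)
    (he : e ∈ redges a b c d) (h : ¬ CArm ω a b c d g) (hge : e ≠ g)
    (hO : OArm (Function.update ω g true) a b c d e)
    (hC : CArm (Function.update ω g true) a b c d e) :
    OArm (Function.update ω g false) a b c d e := by
  classical
  by_contra hno
  obtain ⟨hg1, hg2⟩ := mem_redges.1 hg
  obtain ⟨he1, he2⟩ := mem_redges.1 he
  have hab : a ≤ b := le_trans hg1.1 hg1.2.1
  have hcd : c ≤ d := le_trans hg1.2.2.1 hg1.2.2.2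
  set D : Set Vert := rect a b c d with hD
  set T : Set Vert := rect (a - 1) b (c - 1) d with hT
  set ω1 : Config := Function.update (Function.update ω g true) e true with hω1
  set ω0 : Config := Function.update (Function.update ω g false) e false with hω0
  -- faces of an edge of `D`
  have hface : ∀ f : Edge, src f ∈ D → tgt f ∈ D → src f ∈ T ∧ lowFace f ∈ T := by
    rintro ⟨x, y, t⟩ k1 k2
    rw [hD] at k1 k2
    rw [hT]
    cases t <;>
    · simp only [src, tgt, lowFace, rect, Set.mem_ofPred_eq, if_true, Bool.false_eq_true,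
        if_false] at k1 k2 ⊢
      omega
  set C : Set Vert := {v | ∃ u, (u = src e ∨ u = tgt e) ∧ Conn ω0 D u v} with hCdef
  have hCbd : ∀ v ∈ C, v ∉ bd a b c d := by
    rintro v ⟨u, k1, k2⟩ k3
    exact hno ⟨u, k1, v, k3, k2⟩
  have hCD : ∀ v ∈ C, v ∈ D := by
    rintro v ⟨u, k1, k2⟩
    exact k2.mem_right
  have hC1 : src e ∈ C := ⟨_, Or.inl rfl, Conn.refl he1⟩
  have hC2 : tgt e ∈ C := ⟨_, Or.inr rfl, Conn.refl he2⟩
  set χ : Vert → ZMod 2 := fun v => if v ∈ C then 1 else 0 with hχ
  set z : Edge → ZMod 2 := fun f => χ (src f) + χ (tgt f) with hz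
  have hzf : ∀ F, fsum z F = 0 := by
    intro F
    simp only [fsum, hz, src, tgt, if_true, Bool.false_eq_true, if_false]
    linear_combination z2_add_self (χ (F.1, F.2)) + z2_add_self (χ (F.1 + 1, F.2)) +
      z2_add_self (χ (F.1, F.2 + 1)) + z2_add_self (χ (F.1 + 1, F.2 + 1))
  have hze : z e = 0 := by
    simp only [hz, hχ]
    rw [if_pos hC1, if_pos hC2]
    decide
  -- an edge with `z ≠ 0` is an edge of `D`
  have hzD : ∀ f, z f ≠ 0 → src f ∈ D ∧ tgt f ∈ D := by
    rintro ⟨x, y, t⟩ k
    have k1 : src (x, y, t) ∈ C ∨ tgt (x, y, t) ∈ C := by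
      by_contra k2
      push Not at k2
      apply k
      simp only [hz, hχ]
      rw [if_neg k2.1, if_neg k2.2]
      decide
    have k2 : ∀ v ∈ C, a + 1 ≤ v.1 ∧ v.1 ≤ b - 1 ∧ c + 1 ≤ v.2 ∧ v.2 ≤ d - 1 := by
      intro v hv
      have k3 := hCD v hv
      have k4 := hCbd v hv
      have k5 : ¬ (v.1 = a ∨ v.1 = b ∨ v.2 = c ∨ v.2 = d) := fun k6 => k4 ⟨k3, k6⟩
      rw [hD] at k3
      simp only [rect, Set.mem_ofPred_eq] at k3
      omega
    rw [hD]
    rcases k1 with k1 | k1 <;> have k3 := k2 _ k1 <;> cases t <;>
    · simp only [src, tgt, rect, Set.mem_ofPred_eq, if_true, Bool.false_eq_true,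
        if_false] at k3 ⊢
      omega
  have hzclosed : ∀ f, z f ≠ 0 → ω0 f = false := by
    intro f k
    by_contra k1
    rw [Bool.not_eq_false] at k1
    obtain ⟨k2, k3⟩ := hzD f k
    have k6 : Step ω0 D (src f) (tgt f) := ⟨k2, k3, f, joins_src_tgt f, k1⟩
    have k7 : src f ∈ C ↔ tgt f ∈ C := by
      constructor
      · rintro ⟨F, k8, k9⟩
        exact ⟨F, k8, k9.tail k6⟩
      · rintro ⟨F, k8, k9⟩
        exact ⟨F, k8, k9.tail k6.symm⟩
    apply k
    simp only [hz, hχ, k7]
    exact z2_add_self _
  set O : Set Vert := {v | ∃ w ∈ bd (a - 1) b (c - 1) d, Conn (dual ω1) T v w} with hOdef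
  have hgO : ∀ v, (v = src g ∨ v = lowFace g) → v ∉ O := by
    rintro v k1 ⟨w, k2, k3⟩
    refine h ⟨v, k1, w, k2, k3.mono (le_refl _) ?_⟩
    intro f k4
    simp only [dual, hω1] at k4 ⊢
    by_cases k5 : crossed f = e
    · rw [k5, Function.update_self] at k4
      exact absurd k4 (by decide)
    · rw [Function.update_of_ne k5] at k4
      exact k4
  have hzO : ∀ f, z f ≠ 0 → (src f ∈ O ↔ lowFace f ∈ O) := by
    intro f k
    by_cases k1 : f = g
    · subst k1
      exact ⟨fun k2 => absurd k2 (hgO _ (Or.inl rfl)), fun k2 => absurd k2 (hgO _ (Or.inr rfl))⟩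
    · have k2 : f ≠ e := by
        rintro rfl
        exact k hze
      have k3 := hzclosed f k
      rw [hω0, Function.update_of_ne k2, Function.update_of_ne k1] at k3
      have k4 : ω1 f = false := by
        rw [hω1, Function.update_of_ne k2, Function.update_of_ne k1]
        exact k3
      obtain ⟨k5, k6⟩ := hzD f k
      obtain ⟨k5', k6'⟩ := hface f k5 k6
      have k7 : Step (dual ω1) T (lowFace f) (src f) := dual_step k4 k6' k5'
      constructor
      · rintro ⟨w, k8, k9⟩
        exact ⟨w, k8, k7.conn.trans k9⟩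
      · rintro ⟨w, k8, k9⟩
        exact ⟨w, k8, k7.symm.conn.trans k9⟩
  set z' : Edge → ZMod 2 := fun f => if src f ∈ O then 0 else z f with hz'
  have hz'0 : ∀ f, z f = 0 → z' f = 0 := by
    intro f k
    simp only [hz']
    split_ifs
    · rfl
    · exact k
  have hz'O : ∀ f, (src f ∈ O ∨ lowFace f ∈ O) → z' f = 0 := by
    intro f k
    by_cases k1 : z f = 0
    · exact hz'0 f k1
    · have k2 : src f ∈ O := by
        rcases k with k | k
        · exact k
        · exact (hzO f k1).2 k
      simp only [hz']
      rw [if_pos k2]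
  have hz'n : ∀ f, src f ∉ O → z' f = z f := by
    intro f k
    simp only [hz']
    rw [if_neg k]
  have hz'n2 : ∀ f, lowFace f ∉ O → z' f = z f := by
    intro f k
    by_cases k1 : z f = 0
    · rw [hz'0 f k1, k1]
    · exact hz'n f fun k2 => k ((hzO f k1).1 k2)
  have hz'f : ∀ F, fsum z' F = 0 := by
    intro F
    have s1 : src (F.1, F.2, false) = F := rfl
    have s2 : lowFace (F.1 + 1, F.2, true) = F := by simp [lowFace]
    have s3 : lowFace (F.1, F.2 + 1, false) = F := by simp [lowFace]
    have s4 : src (F.1, F.2, true) = F := rfl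
    by_cases hF : F ∈ O
    · unfold fsum
      rw [hz'O (F.1, F.2, false) (Or.inl (by rw [s1]; exact hF)),
        hz'O (F.1 + 1, F.2, true) (Or.inr (by rw [s2]; exact hF)),
        hz'O (F.1, F.2 + 1, false) (Or.inr (by rw [s3]; exact hF)),
        hz'O (F.1, F.2, true) (Or.inl (by rw [s4]; exact hF))]
      decide
    · rw [← hzf F]
      unfold fsum
      rw [hz'n (F.1, F.2, false) (by rw [s1]; exact hF),
        hz'n2 (F.1 + 1, F.2, true) (by rw [s2]; exact hF),
        hz'n2 (F.1, F.2 + 1, false) (by rw [s3]; exact hF),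
        hz'n (F.1, F.2, true) (by rw [s4]; exact hF)]
  obtain ⟨W, hW⟩ := integRect (a := a) (b := b) (c := c) (d := d) z' (fun F _ => hz'f F)
  -- the ring
  have hWring : ∀ v ∈ bd a b c d, W (b, d) = W v := by
    intro v hv
    refine (stabB_ring hab hcd hv).const fun f k1 k2 _ => ?_
    have k3 := hW f k1.1 k2.1
    have k4 : z f = 0 := by
      simp only [hz, hχ]
      rw [if_neg (fun k5 => hCbd _ k5 k1), if_neg (fun k5 => hCbd _ k5 k2)]
      decide
    rw [hz'0 _ k4] at k3
    exact z2_add_eq_zero.1 k3.symm
  -- open paths which avoid `g` and `e`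
  have hWopen : ∀ u v : Vert, Conn ω0 D u v → W u = W v := by
    intro u v huv
    refine huv.const fun f k1 k2 k3 => ?_
    have k4 := hW f k1 k2
    have k5 : z f = 0 := by
      by_contra k6
      have k7 := hzclosed _ k6
      rw [k3] at k7
      exact absurd k7 (by decide)
    rw [hz'0 _ k5] at k4
    exact z2_add_eq_zero.1 k4.symm
  -- corners of faces in `O`
  have hcorner : ∀ F ∈ O, a ≤ F.1 → F.1 ≤ b - 1 → c ≤ F.2 → F.2 ≤ d - 1 →
      W (F.1 + 1, F.2) = W F ∧ W (F.1, F.2 + 1) = W F ∧ W (F.1 + 1, F.2 + 1) = W F := by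
    intro F hF i1 i2 i3 i4
    have s1 : src (F.1, F.2, false) = F := rfl
    have s2 : lowFace (F.1 + 1, F.2, true) = F := by simp [lowFace]
    have s3 : lowFace (F.1, F.2 + 1, false) = F := by simp [lowFace]
    have s4 : src (F.1, F.2, true) = F := rfl
    have k1 := hW (F.1, F.2, false)
      (by simp only [src, rect, Set.mem_ofPred_eq]; omega)
      (by simp only [tgt, rect, Set.mem_ofPred_eq, Bool.false_eq_true, if_false]; omega)
    have k2 := hW (F.1 + 1, F.2, true)
      (by simp only [src, rect, Set.mem_ofPred_eq]; omega)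
      (by simp only [tgt, rect, Set.mem_ofPred_eq, if_true]; omega)
    have k4 := hW (F.1, F.2, true)
      (by simp only [src, rect, Set.mem_ofPred_eq]; omega)
      (by simp only [tgt, rect, Set.mem_ofPred_eq, if_true]; omega)
    rw [hz'O (F.1, F.2, false) (Or.inl (by rw [s1]; exact hF))] at k1
    rw [hz'O (F.1 + 1, F.2, true) (Or.inr (by rw [s2]; exact hF))] at k2
    rw [hz'O (F.1, F.2, true) (Or.inl (by rw [s4]; exact hF))] at k4
    simp only [src, tgt, if_true, Bool.false_eq_true, if_false] at k1 k2 k4
    have k1' := (z2_add_eq_zero.1 k1.symm).symm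
    have k2' := (z2_add_eq_zero.1 k2.symm).symm
    have k4' := (z2_add_eq_zero.1 k4.symm).symm
    exact ⟨k1', k4', k2'.trans k1'⟩
  -- all corners (in `D`) of a face have the value of the ring
  set P : Vert → Prop := fun F =>
    (F ∈ D → W F = W (b, d)) ∧ (((F.1 + 1, F.2) : Vert) ∈ D → W (F.1 + 1, F.2) = W (b, d)) ∧
    (((F.1, F.2 + 1) : Vert) ∈ D → W (F.1, F.2 + 1) = W (b, d)) ∧
    (((F.1 + 1, F.2 + 1) : Vert) ∈ D → W (F.1 + 1, F.2 + 1) = W (b, d)) with hP
  have hPbd : ∀ F ∈ bd (a - 1) b (c - 1) d, P F := by
    rintro ⟨x, y⟩ ⟨k1, k2⟩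
    rw [hP]
    simp only at k2
    refine ⟨fun k3 => ?_, fun k3 => ?_, fun k3 => ?_, fun k3 => ?_⟩ <;>
    · refine (hWring _ ⟨k3, ?_⟩).symm
      rw [hD] at k3
      simp only [rect, Set.mem_ofPred_eq] at k3
      simp only
      omega
  have hPedge : ∀ f F, (F = src f ∨ F = lowFace f) → P F → src f ∈ D → W (src f) = W (b, d) := by
    rintro ⟨x, y, t⟩ F k1 k2 k3
    rw [hP] at k2
    obtain ⟨p1, p2, p3, p4⟩ := k2
    rcases k1 with rfl | rfl
    · exact p1 k3
    · cases t
      · simp only [lowFace, src, Bool.false_eq_true, if_false, sub_add_cancel] at p3 k3 ⊢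
        exact p3 k3
      · simp only [lowFace, src, if_true, sub_add_cancel] at p2 k3 ⊢
        exact p2 k3
  have hPall : ∀ F G : Vert, G ∈ bd (a - 1) b (c - 1) d → Conn (dual ω1) T F G → P F := by
    intro F G hG hFG
    refine hFG.symm.induction_right (P := P) (hPbd G hG) ?_
    intro p q k1 k2 k3
    have hqO : q ∈ O := ⟨G, hG, (k1.tail k2).symm⟩
    by_cases hq : q ∈ bd (a - 1) b (c - 1) d
    · exact hPbd q hq
    have hqT : q ∈ T := k2.2.1
    have k5 : ¬ (q.1 = a - 1 ∨ q.1 = b ∨ q.2 = c - 1 ∨ q.2 = d) := fun k6 => hq ⟨hqT, k6⟩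
    rw [hT] at hqT
    simp only [rect, Set.mem_ofPred_eq] at hqT
    obtain ⟨m1, m2, m3⟩ := hcorner q hqO (by omega) (by omega) (by omega) (by omega)
    obtain ⟨_, _, f, _, hf⟩ := Step.of_dual k2
    have hq4 : W q = W (b, d) := by
      rcases hf with ⟨f1, f2⟩ | ⟨f1, f2⟩
      · have k6 : src f ∈ D := by
          rw [← f2, hD]
          simp only [rect, Set.mem_ofPred_eq]
          omega
        have k7 := hPedge f p (Or.inr f1) k3 k6
        rw [← f2] at k7
        exact k7
      · have k6 : src f ∈ D ∧ W (src f) = W q := by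
          obtain ⟨x, y, t⟩ := f
          cases t
          · simp only [lowFace, Bool.false_eq_true, if_false] at f2
            have e1 : src (x, y, false) = (q.1, q.2 + 1) := by
              rw [f2]; simp [src]
            rw [e1, hD]
            refine ⟨?_, m2⟩
            simp only [rect, Set.mem_ofPred_eq]
            omega
          · simp only [lowFace, if_true] at f2
            have e1 : src (x, y, true) = (q.1 + 1, q.2) := by
              rw [f2]; simp [src]
            rw [e1, hD]
            refine ⟨?_, m1⟩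
            simp only [rect, Set.mem_ofPred_eq]
            omega
        have k7 := hPedge f p (Or.inl f1) k3 k6.1
        rw [← k6.2]
        exact k7
    rw [hP]
    exact ⟨fun _ => hq4, fun _ => m1.trans hq4, fun _ => m2.trans hq4, fun _ => m3.trans hq4⟩
  -- the open arm of `e`
  obtain ⟨u, hu, w, hw, huw⟩ := hO
  have hWu : W u ≠ W (b, d) := by
    have e1 : ∀ s : Bool, Function.update (Function.update ω g s) e false =
        Function.update (Function.update ω e false) g s := by
      intro s
      exact Function.update_comm hge.symm _ _ _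
    rw [e1] at huw
    rcases huw.split_edge with k | ⟨u', v', k1, k2, k3⟩
    · rw [← e1] at k
      exact absurd ⟨u, hu, w, hw, k⟩ hno
    · rw [← e1] at k2 k3
      have k4 : u' ∈ C := ⟨u, hu, k2⟩
      have k5 : v' ∉ C := by
        rintro ⟨u'', k6, k7⟩
        exact hno ⟨u'', k6, w, hw, k7.trans k3⟩
      have k6 : W u' ≠ W v' := by
        have k7 : z g = 1 := by
          simp only [hz, hχ]
          rcases k1 with ⟨k8, k9⟩ | ⟨k8, k9⟩
          · rw [← k8, ← k9, if_pos k4, if_neg k5]
            decide
          · rw [← k8, ← k9, if_pos k4, if_neg k5]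
            decide
        have k12 := hW g hg1 hg2
        rw [hz'n g (hgO _ (Or.inl rfl)), k7] at k12
        have k13 := z2_add_eq_one.1 k12.symm
        rcases k1 with ⟨k8, k9⟩ | ⟨k8, k9⟩
        · rw [k8, k9]
          exact k13
        · rw [k8, k9]
          exact k13.symm
      rw [hWopen u u' k2, hWring w hw, ← hWopen v' w k3]
      exact k6
  obtain ⟨F, hF, G, hG, hFG⟩ := hC
  have hPF := hPall F G hG hFG
  rw [hP] at hPF
  obtain ⟨p1, p2, p3, p4⟩ := hPF
  apply hWu
  obtain ⟨x, y, t⟩ := e
  rcases hu with rfl | rfl <;> rcases hF with rfl | rfl <;> cases t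
  · exact p1 he1
  · exact p1 he1
  · simp only [lowFace, src, Bool.false_eq_true, if_false, sub_add_cancel] at p3 he1 ⊢
    exact p3 he1
  · simp only [lowFace, src, if_true, sub_add_cancel] at p2 he1 ⊢
    exact p2 he1
  · simp only [src, tgt, Bool.false_eq_true, if_false] at p2 he2 ⊢
    exact p2 he2
  · simp only [src, tgt, if_true] at p3 he2 ⊢
    exact p3 he2
  · simp only [lowFace, tgt, Bool.false_eq_true, if_false, sub_add_cancel] at p4 he2 ⊢
    exact p4 he2
  · simp only [lowFace, tgt, if_true, sub_add_cancel] at p4 he2 ⊢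
    exact p4 he2

theorem stabB {ω : Config} {a b c d : ℤ} {g e : Edge} (hg : g ∈ redges a b c d)
    (h : ¬ CArm ω a b c d g) (hge : e ≠ g) :
    InR (Function.update ω g false) a b c d e ↔ InR (Function.update ω g true) a b c d e := by
  have hle : ∀ s : Bool, ∀ f, Function.update (Function.update ω g false) e s f = true →
      Function.update (Function.update ω g true) e s f = true := by
    intro s f k
    by_cases k1 : f = e
    · subst k1
      rw [Function.update_self] at k ⊢
      exact k
    · rw [Function.update_of_ne k1] at k ⊢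
      by_cases k2 : f = g
      · subst k2
        rw [Function.update_self] at k
        exact absurd k (by decide)
      · rw [Function.update_of_ne k2] at k ⊢
        exact k
  constructor
  · rintro ⟨he, hO, hC⟩
    refine ⟨he, ?_, ?_⟩
    · obtain ⟨u, hu, w, hw, huw⟩ := hO
      exact ⟨u, hu, w, hw, huw.mono (le_refl _) (hle false)⟩
    · obtain ⟨F, hF, G, hG, hFG⟩ := hC
      have e0 : ∀ s : Bool, dual (Function.update (Function.update ω g s) e true) =
          Function.update (dual (Function.update ω e true)) (uncross g) (!s) := by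
        intro s
        funext f
        by_cases k1 : f = uncross g
        · subst k1
          rw [Function.update_self]
          simp only [dual, crossed_uncross]
          rw [Function.update_of_ne hge.symm, Function.update_self]
        · rw [Function.update_of_ne k1]
          have k2 : crossed f ≠ g := by
            rintro rfl
            exact k1 (uncross_crossed f).symm
          simp only [dual]
          by_cases k3 : crossed f = e
          · rw [k3, Function.update_self, Function.update_self]
          · rw [Function.update_of_ne k3, Function.update_of_ne k3, Function.update_of_ne k2]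
      rw [e0] at hFG
      rcases hFG.split_edge with k | ⟨u', v', k1, k2, k3⟩
      · have e2 := e0 true
        rw [Bool.not_true] at e2
        rw [← e2] at k
        exact ⟨F, hF, G, hG, k⟩
      · exfalso
        refine h ⟨v', ?_, G, hG, k3.mono (le_refl _) ?_⟩
        · rcases k1 with ⟨_, k4⟩ | ⟨_, k4⟩
          · rw [tgt_uncross] at k4
            exact Or.inl k4
          · rw [src_uncross] at k4
            exact Or.inr k4
        · intro f k4
          by_cases k5 : f = uncross g
          · rw [k5, Function.update_self] at k4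
            exact absurd k4 (by decide)
          · rw [Function.update_of_ne k5] at k4
            have k6 : crossed f ≠ g := by
              rintro rfl
              exact k5 (uncross_crossed f).symm
            simp only [dual] at k4 ⊢
            rw [Function.update_of_ne k6]
            by_cases k7 : crossed f = e
            · rw [k7, Function.update_self] at k4
              exact absurd k4 (by decide)
            · rw [Function.update_of_ne k7] at k4
              exact k4
  · rintro ⟨he, hO, hC⟩
    refine ⟨he, stabB_core hg he h hge hO hC, ?_⟩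
    obtain ⟨F, hF, G, hG, hFG⟩ := hC
    refine ⟨F, hF, G, hG, hFG.mono (le_refl _) ?_⟩
    intro f k
    simp only [dual, Bool.not_eq_true'] at k ⊢
    by_contra k1
    rw [Bool.not_eq_false] at k1
    rw [hle true _ k1] at k
    exact absurd k (by decide)

end Pool.Agent.H29.Kap
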