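import Pool.Agent.Perc.BK

/-! # Tilting on a stable random set -/

set_option autoImplicit false

namespace Pool.Agent.H29.Kap

open Pool.Agent.Perc

variable {ι : Type*} [DecidableEq ι]

/-- Flip the membership of `g`. -/
def sflip (S : Finset ι) (g : ι) : Finset ι := if g ∈ S then S.erase g else insert g S

/-- Sign of an element. -/
def tiltSg (S : Finset ι) (e : ι) : ℝ := if e ∈ S then 1 else -1

theorem tilt_sg_sq (S : Finset ι) (e : ι) : tiltSg S e ^ 2 = 1 := by
  unfold tiltSg; split_ifs <;> norm_num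

theorem tilt_mem_sflip (S : Finset ι) (g e : ι) :
    e ∈ sflip S g ↔ (e ≠ g ∧ e ∈ S) ∨ (e = g ∧ e ∉ S) := by
  unfold sflip
  split_ifs with h
  · rw [Finset.mem_erase]
    constructor
    · rintro ⟨h1, h2⟩; exact Or.inl ⟨h1, h2⟩
    · rintro (⟨h1, h2⟩ | ⟨h1, h2⟩)
      · exact ⟨h1, h2⟩
      · exact absurd (h1 ▸ h) h2
  · rw [Finset.mem_insert]
    constructor
    · rintro (h1 | h1)
      · exact Or.inr ⟨h1, h1 ▸ h⟩
      · exact Or.inl ⟨fun h2 => h (h2 ▸ h1), h1⟩
    · rintro (⟨_, h2⟩ | ⟨h1, _⟩)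
      · exact Or.inr h2
      · exact Or.inl h1

theorem tilt_sflip_sflip (S : Finset ι) (g : ι) : sflip (sflip S g) g = S := by
  ext e
  rw [tilt_mem_sflip, tilt_mem_sflip]
  by_cases h : e = g
  · simp [h]
  · simp [h]

theorem tilt_sflip_subset {F S : Finset ι} {g : ι} (hS : S ⊆ F) (hg : g ∈ F) : sflip S g ⊆ F := by
  intro e he
  rw [tilt_mem_sflip] at he
  rcases he with ⟨_, h⟩ | ⟨h, _⟩
  · exact hS h
  · exact h ▸ hg

theorem tilt_sflip_ne (S : Finset ι) (g : ι) : sflip S g ≠ S := by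
  intro h
  have h1 : g ∈ sflip S g ↔ g ∈ S := by rw [h]
  rw [tilt_mem_sflip] at h1
  by_cases h' : g ∈ S <;> simp [h'] at h1

theorem tilt_sg_sflip_self (S : Finset ι) (g : ι) : tiltSg (sflip S g) g = - tiltSg S g := by
  unfold tiltSg
  by_cases h : g ∈ S
  · rw [if_pos h, if_neg]
    rw [tilt_mem_sflip]; simp [h]
  · rw [if_neg h, if_pos, neg_neg]
    rw [tilt_mem_sflip]; simp [h]

theorem tilt_sg_sflip_of_ne (S : Finset ι) {g e : ι} (he : e ≠ g) :
    tiltSg (sflip S g) e = tiltSg S e := by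
  unfold tiltSg
  have : e ∈ sflip S g ↔ e ∈ S := by rw [tilt_mem_sflip]; simp [he]
  simp only [this]

theorem tilt_prod_sflip (S A : Finset ι) {g : ι} (hg : g ∈ A) :
    ∏ e ∈ A, tiltSg (sflip S g) e = - ∏ e ∈ A, tiltSg S e := by
  rw [← Finset.mul_prod_erase _ _ hg, ← Finset.mul_prod_erase A (fun e => tiltSg S e) hg,
    tilt_sg_sflip_self, neg_mul]
  congr 2
  refine Finset.prod_congr rfl fun e he => ?_
  exact tilt_sg_sflip_of_ne S (Finset.ne_of_mem_erase he)

theorem tilt_Ex_half (F : Finset ι) (f : Finset ι → ℝ) :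
    Ex (1 / 2) F f = (1 / 2) ^ F.card * ∑ S ∈ F.powerset, f S := by
  unfold Ex
  rw [Finset.mul_sum]
  refine Finset.sum_congr rfl fun S hS => ?_
  have hS' := Finset.mem_powerset.1 hS
  have h1 : F.card = S.card + (F \ S).card := by
    rw [Finset.card_sdiff_of_subset hS']
    have := Finset.card_le_card hS'
    omega
  rw [h1, pow_add]
  norm_num

/-- Terms with `A` not inside `R S` cancel. -/
theorem tilt_cancel (F : Finset ι) (f : Finset ι → ℝ) (R : Finset ι → Finset ι)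
    (hstab : ∀ S, S ⊆ F → ∀ g ∈ F, g ∉ R S → R (sflip S g) = R S)
    (hf : ∀ S, S ⊆ F → ∀ g ∈ F, g ∉ R S → f (sflip S g) = f S) {A : Finset ι} (hA : A ⊆ F) :
    ∑ S ∈ F.powerset, f S * ∏ e ∈ A, tiltSg S e =
      ∑ S ∈ F.powerset with A ⊆ R S, f S * ∏ e ∈ A, tiltSg S e := by
  classical
  rw [← Finset.sum_filter_add_sum_filter_not F.powerset (fun S => A ⊆ R S)]
  suffices h : ∑ S ∈ F.powerset with ¬ A ⊆ R S, f S * ∏ e ∈ A, tiltSg S e = 0 by
    rw [h, add_zero]
  have hne : ∀ S ∈ F.powerset.filter (fun S => ¬ A ⊆ R S), (A \ R S).Nonempty := by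
    intro S hS
    have h1 := (Finset.mem_filter.1 hS).2
    rwa [Finset.sdiff_nonempty]
  let ch : Finset ι → ι → ι := fun T d => if h : T.Nonempty then h.choose else d
  have hch : ∀ S ∈ F.powerset.filter (fun S => ¬ A ⊆ R S), ∀ d, ch (A \ R S) d ∈ A \ R S := by
    intro S hS d
    have h1 := hne S hS
    simp only [ch, dif_pos h1]
    exact h1.choose_spec
  refine Finset.sum_involution
    (fun S hS => sflip S (ch (A \ R S) (hne S hS).choose)) ?_ ?_ ?_ ?_
  · intro S hS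
    have h1 := hch S hS (hne S hS).choose
    rw [Finset.mem_sdiff] at h1
    have h2 : S ⊆ F := Finset.mem_powerset.1 (Finset.mem_filter.1 hS).1
    rw [hf S h2 _ (hA h1.1) h1.2, tilt_prod_sflip S A h1.1]
    ring
  · intro S hS _
    exact tilt_sflip_ne _ _
  · intro S hS
    have h1 := hch S hS (hne S hS).choose
    rw [Finset.mem_sdiff] at h1
    have h2 : S ⊆ F := Finset.mem_powerset.1 (Finset.mem_filter.1 hS).1
    rw [Finset.mem_filter, Finset.mem_powerset]
    refine ⟨tilt_sflip_subset h2 (hA h1.1), ?_⟩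
    rw [hstab S h2 _ (hA h1.1) h1.2]
    exact (Finset.mem_filter.1 hS).2
  · intro S hS
    have h1 := hch S hS (hne S hS).choose
    rw [Finset.mem_sdiff] at h1
    have h2 : S ⊆ F := Finset.mem_powerset.1 (Finset.mem_filter.1 hS).1
    have h3 := hstab S h2 _ (hA h1.1) h1.2
    have h4 : ∀ d d', ch (A \ R S) d = ch (A \ R S) d' := by
      intro d d'
      simp only [ch, dif_pos (hne S hS)]
    have h5 : ∀ d, sflip (sflip S (ch (A \ R S) (hne S hS).choose))
        (ch (A \ R (sflip S (ch (A \ R S) (hne S hS).choose))) d) = S := by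
      intro d
      rw [h3, h4 d (hne S hS).choose]
      exact tilt_sflip_sflip _ _
    exact h5 _

/-- The generating polynomial at a complex point. -/
theorem tilt_key (F : Finset ι) (f : Finset ι → ℝ) (R : Finset ι → Finset ι)
    (hR : ∀ S, S ⊆ F → R S ⊆ F)
    (hstab : ∀ S, S ⊆ F → ∀ g ∈ F, g ∉ R S → R (sflip S g) = R S)
    (hf : ∀ S, S ⊆ F → ∀ g ∈ F, g ∉ R S → f (sflip S g) = f S) (z : ℂ) :
    ∑ A ∈ F.powerset, ((Ex (1 / 2) F (fun S => f S * ∏ e ∈ A, tiltSg S e) : ℝ) : ℂ) * z ^ A.card =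
      (1 / 2 : ℂ) ^ F.card * ∑ S ∈ F.powerset, (f S : ℂ) * ∏ e ∈ R S, (1 + z * (tiltSg S e : ℂ)) := by
  classical
  have h1 : ∀ A ∈ F.powerset,
      ((Ex (1 / 2) F (fun S => f S * ∏ e ∈ A, tiltSg S e) : ℝ) : ℂ) * z ^ A.card =
      (1 / 2 : ℂ) ^ F.card * ∑ S ∈ F.powerset, (if A ⊆ R S then
        (f S : ℂ) * ∏ e ∈ A, (z * (tiltSg S e : ℂ)) else 0) := by
    intro A hA
    rw [tilt_Ex_half, tilt_cancel F f R hstab hf (Finset.mem_powerset.1 hA), Finset.sum_filter]
    push_cast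
    rw [mul_assoc, Finset.sum_mul]
    congr 1
    refine Finset.sum_congr rfl fun S _ => ?_
    split_ifs
    · push_cast
      rw [Finset.prod_mul_distrib, Finset.prod_const]
      ring
    · simp
  rw [Finset.sum_congr rfl h1, ← Finset.mul_sum, Finset.sum_comm]
  congr 1
  refine Finset.sum_congr rfl fun S hS => ?_
  have hS' := hR S (Finset.mem_powerset.1 hS)
  rw [Finset.prod_one_add, Finset.mul_sum, ← Finset.sum_filter]
  refine Finset.sum_congr ?_ fun _ _ => rfl
  ext A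
  simp only [Finset.mem_filter, Finset.mem_powerset]
  exact ⟨fun h => h.2, fun h => ⟨h.trans hS', h⟩⟩

theorem tilt_expand (p : ℝ) (F : Finset ι) (f : Finset ι → ℝ) :
    Ex p F f = ∑ A ∈ F.powerset,
      Ex (1 / 2) F (fun S => f S * ∏ e ∈ A, tiltSg S e) * (2 * p - 1) ^ A.card := by
  have h1 : ∀ A ∈ F.powerset, Ex (1 / 2) F (fun S => f S * ∏ e ∈ A, tiltSg S e) *
      (2 * p - 1) ^ A.card = (1 / 2) ^ F.card * ∑ S ∈ F.powerset, f S *
        ∏ e ∈ A, ((2 * p - 1) * tiltSg S e) := by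
    intro A _
    rw [tilt_Ex_half, mul_assoc, Finset.sum_mul]
    congr 1
    refine Finset.sum_congr rfl fun S _ => ?_
    rw [Finset.prod_mul_distrib, Finset.prod_const]
    ring
  rw [Finset.sum_congr rfl h1, ← Finset.mul_sum, Finset.sum_comm]
  unfold Ex
  rw [Finset.mul_sum]
  refine Finset.sum_congr rfl fun S hS => ?_
  have hS' := Finset.mem_powerset.1 hS
  rw [← Finset.mul_sum, ← Finset.prod_one_add, ← Finset.prod_sdiff hS']
  have h2 : ∏ e ∈ F \ S, (1 + (2 * p - 1) * tiltSg S e) = (2 * (1 - p)) ^ (F \ S).card := by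
    rw [← Finset.prod_const]
    refine Finset.prod_congr rfl fun e he => ?_
    rw [tiltSg, if_neg (Finset.mem_sdiff.1 he).2]
    ring
  have h3 : ∏ e ∈ S, (1 + (2 * p - 1) * tiltSg S e) = (2 * p) ^ S.card := by
    rw [← Finset.prod_const]
    refine Finset.prod_congr rfl fun e he => ?_
    rw [tiltSg, if_pos he]
    ring
  have h4 : F.card = S.card + (F \ S).card := by
    rw [Finset.card_sdiff_of_subset hS']
    have := Finset.card_le_card hS'
    omega
  rw [h2, h3, h4, mul_pow, mul_pow, pow_add]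
  have h5 : (1 / 2 : ℝ) ^ S.card * 2 ^ S.card = 1 := by
    rw [← mul_pow]; norm_num
  have h6 : (1 / 2 : ℝ) ^ (F \ S).card * 2 ^ (F \ S).card = 1 := by
    rw [← mul_pow]; norm_num
  calc p ^ S.card * (1 - p) ^ (F \ S).card * f S
      = ((1 / 2 : ℝ) ^ S.card * 2 ^ S.card) * ((1 / 2 : ℝ) ^ (F \ S).card * 2 ^ (F \ S).card) *
        (p ^ S.card * (1 - p) ^ (F \ S).card * f S) := by rw [h5, h6]; ring
    _ = _ := by ring

theorem tilt_iter_deriv (q : Polynomial ℂ) (j : ℕ) :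
    deriv^[j] (fun z : ℂ => q.eval z) = fun z => (Polynomial.derivative^[j] q).eval z := by
  induction j generalizing q with
  | zero => rfl
  | succ j ih =>
    rw [Function.iterate_succ_apply, Function.iterate_succ_apply]
    have h1 : deriv (fun z : ℂ => q.eval z) = fun z => (Polynomial.derivative q).eval z := by
      ext z; exact q.deriv
    rw [h1, ih]

/-- Cauchy's estimate for the coefficients of a polynomial. -/
theorem tilt_cauchy (n : ℕ) (y : ℕ → ℂ) (r C : ℝ) (hr : 0 < r)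
    (h : ∀ z : ℂ, ‖z‖ = r → ‖∑ i ∈ Finset.range n, y i * z ^ i‖ ≤ C) (j : ℕ) (hj : j < n) :
    ‖y j‖ * r ^ j ≤ C := by
  let q : Polynomial ℂ := ∑ i ∈ Finset.range n, Polynomial.C (y i) * Polynomial.X ^ i
  have hq : ∀ z, q.eval z = ∑ i ∈ Finset.range n, y i * z ^ i := by
    intro z
    simp [q, Polynomial.eval_finsetSum]
  have hc : q.coeff j = y j := by
    simp only [q, Polynomial.finsetSum_coeff, Polynomial.coeff_C_mul, Polynomial.coeff_X_pow]
    rw [Finset.sum_eq_single j]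
    · simp
    · intro b _ hb; simp [Ne.symm hb]
    · intro hb; exact absurd (Finset.mem_range.2 hj) hb
  have h1 := Complex.norm_iteratedDeriv_le_of_forall_mem_sphere_norm_le (c := (0 : ℂ)) (R := r)
    (C := C) (f := fun z : ℂ => q.eval z) j hr
    (Differentiable.diffContOnCl (by
      have := q.differentiable
      exact this))
    (by
      intro z hz
      rw [mem_sphere_zero_iff_norm] at hz
      simp only [hq z]
      exact h z hz)
  rw [iteratedDeriv_eq_iterate, tilt_iter_deriv] at h1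
  simp only at h1
  rw [← Polynomial.coeff_zero_eq_eval_zero, Polynomial.coeff_iterate_derivative, zero_add, hc,
    Nat.descFactorial_self, nsmul_eq_mul, norm_mul, Complex.norm_natCast] at h1
  have h2 : (0 : ℝ) < (j.factorial : ℝ) := by exact_mod_cast j.factorial_pos
  have h3 : 0 < r ^ j := pow_pos hr j
  rw [le_div_iff₀ h3, mul_assoc] at h1
  exact le_of_mul_le_mul_left h1 h2

theorem tilt_bound (F : Finset ι) (f : Finset ι → ℝ) (R : Finset ι → Finset ι)
    (hR : ∀ S, S ⊆ F → R S ⊆ F)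
    (hstab : ∀ S, S ⊆ F → ∀ g ∈ F, g ∉ R S → R (sflip S g) = R S)
    (r : ℝ) (hr : 0 ≤ r) (hr1 : r ≤ 1) (z : ℂ) (hz : ‖z‖ = r) :
    ‖(1 / 2 : ℂ) ^ F.card * ∑ S ∈ F.powerset, (f S : ℂ) * ∏ e ∈ R S, (1 + z * (tiltSg S e : ℂ))‖ ≤
      Real.sqrt (Ex (1 / 2) F (fun S => f S ^ 2)) *
          (Ex (1 / 2) F (fun S => (1 + 19 * r ^ 2) ^ (R S).card)) ^ (1 / 4 : ℝ) := by
  classical
  set W : Finset ι → ℝ := fun S => ∏ e ∈ R S, ‖1 + z * (tiltSg S e : ℂ)‖ with hW
  set a : ℝ := 1 + r ^ 2 with ha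
  set u : ℝ := 2 * z.re with hu
  have ha0 : 0 < a := by positivity
  set b : ℝ := a ^ 2 + u ^ 2 with hb
  have hb0 : 0 < b := by positivity
  have hu2 : u ^ 2 ≤ 4 * r ^ 2 := by
    have h1 : z.re ^ 2 ≤ ‖z‖ ^ 2 := by
      rw [← Complex.normSq_eq_norm_sq, Complex.normSq_apply]
      nlinarith [mul_self_nonneg z.im]
    rw [hz] at h1
    rw [hu]; nlinarith
  have hr2 : r ^ 2 ≤ 1 := by nlinarith
  have hb1 : b ≤ 1 + 19 * r ^ 2 := by
    rw [hb, ha]
    nlinarith [sq_nonneg r, mul_nonneg (sq_nonneg r) (sub_nonneg.2 hr2)]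
  -- norm bound
  have h1 : ‖(1 / 2 : ℂ) ^ F.card * ∑ S ∈ F.powerset, (f S : ℂ) *
      ∏ e ∈ R S, (1 + z * (tiltSg S e : ℂ))‖ ≤ Ex (1 / 2) F (fun S => |f S| * W S) := by
    rw [tilt_Ex_half, norm_mul]
    have h2 : ‖(1 / 2 : ℂ) ^ F.card‖ = (1 / 2) ^ F.card := by
      rw [norm_pow]; norm_num
    rw [h2]
    refine mul_le_mul_of_nonneg_left ?_ (by positivity)
    refine (norm_sum_le _ _).trans (Finset.sum_le_sum fun S _ => ?_)
    rw [norm_mul, norm_prod, Complex.norm_real, Real.norm_eq_abs]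
  have hW2 : ∀ S, W S ^ 2 = ∏ e ∈ R S, (a + u * tiltSg S e) := by
    intro S
    rw [hW]
    simp only
    rw [← Finset.prod_pow]
    refine Finset.prod_congr rfl fun e _ => ?_
    rw [← Complex.normSq_eq_norm_sq, Complex.normSq_apply]
    simp only [Complex.add_re, Complex.one_re, Complex.mul_re, Complex.ofReal_re,
      Complex.ofReal_im, mul_zero, sub_zero, Complex.add_im, Complex.one_im, Complex.mul_im,
      zero_add]
    have h2 : z.re ^ 2 + z.im ^ 2 = r ^ 2 := by
      rw [← hz, ← Complex.normSq_eq_norm_sq, Complex.normSq_apply]; ring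
    have h3 := tilt_sg_sq S e
    have h4 : (z.re * tiltSg S e) * (z.re * tiltSg S e) = z.re ^ 2 := by
      calc (z.re * tiltSg S e) * (z.re * tiltSg S e) = z.re ^ 2 * tiltSg S e ^ 2 := by ring
        _ = _ := by rw [h3, mul_one]
    have h5 : (z.im * tiltSg S e) * (z.im * tiltSg S e) = z.im ^ 2 := by
      calc (z.im * tiltSg S e) * (z.im * tiltSg S e) = z.im ^ 2 * tiltSg S e ^ 2 := by ring
        _ = _ := by rw [h3, mul_one]
    rw [ha, hu, ← h2]
    nlinarith [h4, h5]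
  have hone : ∀ t : ℝ, Ex (1 / 2) F (fun S => ∏ e ∈ R S, (1 + t * tiltSg S e)) = 1 := by
    intro t
    have h2 := tilt_key F (fun _ => 1) R hR hstab (fun _ _ _ _ _ => rfl) (t : ℂ)
    have h3 := tilt_expand ((1 + t) / 2) F (fun _ => (1 : ℝ))
    rw [Ex_const] at h3
    have h4 : 2 * ((1 + t) / 2) - 1 = t := by ring
    rw [h4] at h3
    have h5 : ((1 : ℝ) : ℂ) = (1 / 2 : ℂ) ^ F.card * ∑ S ∈ F.powerset, ((1 : ℝ) : ℂ) *
        ∏ e ∈ R S, (1 + (t : ℂ) * (tiltSg S e : ℂ)) := by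
      rw [← h2]
      have h3' := congrArg (fun x : ℝ => (x : ℂ)) h3
      rw [h3']
      push_cast
      rfl
    rw [tilt_Ex_half]
    have h6 : (((1 / 2) ^ F.card * ∑ S ∈ F.powerset, ∏ e ∈ R S, (1 + t * tiltSg S e) : ℝ) : ℂ) =
        ((1 : ℝ) : ℂ) := by
      rw [h5]
      push_cast
      simp
    exact_mod_cast h6
  set sb : ℝ := Real.sqrt b with hsb
  have hsb0 : 0 < sb := Real.sqrt_pos.2 hb0
  have hsb2 : sb ^ 2 = b := Real.sq_sqrt hb0.le
  have h7 := Ex_mul_sq_le (p := 1 / 2) (by norm_num) (by norm_num) F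
    (fun S => sb ^ (R S).card) (fun S => W S ^ 2 * (1 / sb) ^ (R S).card)
  have h8 : (fun S => sb ^ (R S).card * (W S ^ 2 * (1 / sb) ^ (R S).card)) = fun S => W S ^ 2 := by
    funext S
    calc sb ^ (R S).card * (W S ^ 2 * (1 / sb) ^ (R S).card)
        = W S ^ 2 * (sb * (1 / sb)) ^ (R S).card := by rw [mul_pow]; ring
      _ = W S ^ 2 := by rw [mul_one_div_cancel hsb0.ne', one_pow, mul_one]
  have h9 : (fun S => (sb ^ (R S).card) ^ 2) = fun S => b ^ (R S).card := by
    funext S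
    rw [← pow_mul, mul_comm, pow_mul, hsb2]
  have h10 : (fun S => (W S ^ 2 * (1 / sb) ^ (R S).card) ^ 2) =
      fun S => ∏ e ∈ R S, (1 + (2 * a * u / b) * tiltSg S e) := by
    funext S
    rw [mul_pow, hW2 S, ← Finset.prod_pow, ← pow_mul, mul_comm (R S).card 2, pow_mul,
      ← Finset.prod_const, ← Finset.prod_mul_distrib]
    refine Finset.prod_congr rfl fun e _ => ?_
    have h11 := tilt_sg_sq S e
    have h12 : (1 / sb) ^ 2 = 1 / b := by rw [div_pow, hsb2, one_pow]
    rw [h12]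
    field_simp
    rw [hb]
    calc (a + u * tiltSg S e) ^ 2 = a ^ 2 + u ^ 2 * tiltSg S e ^ 2 + 2 * a * u * tiltSg S e := by ring
      _ = _ := by rw [h11]; ring
  rw [h8, h9, h10, hone, mul_one] at h7
  -- E W^2 squared bound
  set E3 : ℝ := Ex (1 / 2) F (fun S => (1 + 19 * r ^ 2) ^ (R S).card) with hE3
  have h13 : Ex (1 / 2) F (fun S => b ^ (R S).card) ≤ E3 := by
    refine Ex_mono (by norm_num) (by norm_num) fun S _ => ?_
    exact pow_le_pow_left₀ hb0.le hb1 _
  have hE30 : 0 ≤ E3 := Ex_nonneg (by norm_num) (by norm_num) fun S _ => by positivity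
  have h14 := Ex_mul_sq_le (p := 1 / 2) (by norm_num) (by norm_num) F (fun S => |f S|) W
  simp only [sq_abs] at h14
  set E1 : ℝ := Ex (1 / 2) F (fun S => f S ^ 2) with hE1
  set E2 : ℝ := Ex (1 / 2) F (fun S => W S ^ 2) with hE2
  have hE10 : 0 ≤ E1 := Ex_nonneg (by norm_num) (by norm_num) fun S _ => by positivity
  have hE20 : 0 ≤ E2 := Ex_nonneg (by norm_num) (by norm_num) fun S _ => by positivity
  have h15 : E2 ^ 2 ≤ E3 := h7.trans h13
  set Q : ℝ := E3 ^ (1 / 4 : ℝ) with hQ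
  have hQ0 : 0 ≤ Q := Real.rpow_nonneg hE30 _
  have hQ4 : Q ^ 4 = E3 := by
    rw [hQ, ← Real.rpow_natCast, ← Real.rpow_mul hE30]
    norm_num
  have h16 : E2 ≤ Q ^ 2 := by
    have : E2 ^ 2 ≤ (Q ^ 2) ^ 2 := by rw [← pow_mul]; rw [hQ4]; exact h15
    exact le_of_sq_le_sq this (by positivity)
  have hX0 : 0 ≤ Ex (1 / 2) F (fun S => |f S| * W S) :=
    Ex_nonneg (by norm_num) (by norm_num) fun S _ =>
      mul_nonneg (abs_nonneg _) (Finset.prod_nonneg fun _ _ => norm_nonneg _)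
  refine h1.trans ?_
  have h17 : (Ex (1 / 2) F (fun S => |f S| * W S)) ^ 2 ≤ (Real.sqrt E1 * Q) ^ 2 := by
    rw [mul_pow, Real.sq_sqrt hE10]
    exact h14.trans (mul_le_mul_of_nonneg_left h16 hE10)
  exact le_of_sq_le_sq h17 (mul_nonneg (Real.sqrt_nonneg _) hQ0)

/-- Let `R` be a random subset which is stable (it does not change when an element outside `R` is
flipped) and let `f` not change when an element outside `R` is flipped. Then the coefficients of the
polynomial `E_p f` in the variable `z = 2p - 1` are controlled by exponential moments of `R` at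
density `1/2`. -/
theorem tilt (F : Finset ι) (f : Finset ι → ℝ) (R : Finset ι → Finset ι)
    (hR : ∀ S, S ⊆ F → R S ⊆ F)
    (hstab : ∀ S, S ⊆ F → ∀ g ∈ F, g ∉ R S → R (sflip S g) = R S)
    (hf : ∀ S, S ⊆ F → ∀ g ∈ F, g ∉ R S → f (sflip S g) = f S) :
    ∃ y : ℕ → ℝ, (∀ p : ℝ, Ex p F f = ∑ j ∈ Finset.range (F.card + 1), y j * (2 * p - 1) ^ j) ∧
      (∀ j, F.card < j → y j = 0) ∧
      ∀ r : ℝ, 0 ≤ r → r ≤ 1 → ∀ j, |y j| * r ^ j ≤
        Real.sqrt (Ex (1 / 2) F (fun S => f S ^ 2)) *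
          (Ex (1 / 2) F (fun S => (1 + 19 * r ^ 2) ^ (R S).card)) ^ (1 / 4 : ℝ) := by
  classical
  set c : Finset ι → ℝ := fun A => Ex (1 / 2) F (fun S => f S * ∏ e ∈ A, tiltSg S e) with hc
  refine ⟨fun j => ∑ A ∈ F.powersetCard j, c A, ?_, ?_, ?_⟩
  · intro p
    rw [tilt_expand, Finset.sum_powerset]
    refine Finset.sum_congr rfl fun j _ => ?_
    rw [Finset.sum_mul]
    refine Finset.sum_congr rfl fun A hA => ?_
    rw [(Finset.mem_powersetCard.1 hA).2]
  · intro j hj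
    simp only
    rw [Finset.powersetCard_eq_empty.2 hj, Finset.sum_empty]
  · intro r hr hr1 j
    set Y : ℕ → ℝ := fun j => ∑ A ∈ F.powersetCard j, c A with hY
    change |Y j| * r ^ j ≤ _
    have hRHS : 0 ≤ Real.sqrt (Ex (1 / 2) F (fun S => f S ^ 2)) *
          (Ex (1 / 2) F (fun S => (1 + 19 * r ^ 2) ^ (R S).card)) ^ (1 / 4 : ℝ) := by
      refine mul_nonneg (Real.sqrt_nonneg _) (Real.rpow_nonneg ?_ _)
      exact Ex_nonneg (by norm_num) (by norm_num) fun S _ => by positivity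
    have hP : ∀ z : ℂ, ‖z‖ = r → ‖∑ i ∈ Finset.range (F.card + 1), (Y i : ℂ) * z ^ i‖ ≤
        Real.sqrt (Ex (1 / 2) F (fun S => f S ^ 2)) *
          (Ex (1 / 2) F (fun S => (1 + 19 * r ^ 2) ^ (R S).card)) ^ (1 / 4 : ℝ) := by
      intro z hz
      have h1 : ∑ i ∈ Finset.range (F.card + 1), (Y i : ℂ) * z ^ i =
          ∑ A ∈ F.powerset, ((c A : ℝ) : ℂ) * z ^ A.card := by
        rw [Finset.sum_powerset]
        refine Finset.sum_congr rfl fun i _ => ?_
        rw [hY]
        push_cast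
        rw [Finset.sum_mul]
        refine Finset.sum_congr rfl fun A hA => ?_
        rw [(Finset.mem_powersetCard.1 hA).2]
      rw [h1, hc]
      simp only
      rw [tilt_key F f R hR hstab hf z]
      exact tilt_bound F f R hR hstab r hr hr1 z hz
    by_cases hj : j < F.card + 1
    · rcases hr.eq_or_lt with h0 | h0
      · rcases Nat.eq_zero_or_pos j with hj0 | hj0
        · have h2 := hP 0 (by rw [norm_zero, h0])
          rw [Finset.sum_range_succ'] at h2
          simp only [pow_succ, mul_zero, Finset.sum_const_zero, pow_zero, mul_one, zero_add,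
            Complex.norm_real, Real.norm_eq_abs] at h2
          rw [hj0, pow_zero, mul_one]
          exact h2
        · have h2 : |Y j| * r ^ j = 0 := by rw [← h0, zero_pow hj0.ne', mul_zero]
          rw [h2]
          exact hRHS
      · have h2 := tilt_cauchy (F.card + 1) (fun i => (Y i : ℂ)) r _ h0 hP j hj
        simpa using h2
    · have h2 : Y j = 0 := by
        rw [hY]; simp only
        rw [Finset.powersetCard_eq_empty.2 (by omega), Finset.sum_empty]
      rw [h2, abs_zero, zero_mul]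
      exact hRHS

end Pool.Agent.H29.Kap
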