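import Pool.Agent.H29.Kap.Count
import Pool.Agent.H29.Kap.Pivot
import Pool.Agent.H29.Kap.StabA
import Pool.Agent.H29.Kap.StabB
import Pool.Agent.H29.Kap.Tilt

/-! # The second difference `X` does not change when an edge outside `R` is flipped -/

set_option autoImplicit false

namespace Pool.Agent.H29.Kap

open Pool.Agent.H89.Perc

theorem sens_update_cases {P : Config → Prop} {ω : Config} {g : Edge}
    (h : P (Function.update ω g false) ↔ P (Function.update ω g true)) :
    P (flip ω g) ↔ P ω := by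
  unfold flip
  have h0 : Function.update ω g (ω g) = ω := Function.update_eq_self g ω
  cases hg : ω g
  · rw [hg] at h0
    rw [Bool.not_false, ← h, h0]
  · rw [hg] at h0
    rw [Bool.not_true, h, h0]

/-- Stability of `R`. -/
theorem inR_flip {ω : Config} {a b c d : ℤ} {g : Edge} (hg : g ∈ redges a b c d)
    (h : ¬ InR ω a b c d g) (e : Edge) : InR (flip ω g) a b c d e ↔ InR ω a b c d e := by
  by_cases hge : e = g
  · subst hge
    exact inR_update_self e _
  · refine sens_update_cases (P := fun ω => InR ω a b c d e) ?_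
    by_cases h1 : OArm ω a b c d g
    · by_cases h2 : CArm ω a b c d g
      · exact absurd ⟨hg, h1, h2⟩ h
      · exact stabB hg h2 hge
    · exact stabA hg h1 hge

theorem sens_finite (a b c d : ℤ) : (rect a b c d).Finite := rect_finite a b c d

/-- The number of clusters does not notice edges that are not inside. -/
theorem sens_K_out {ω : Config} {S : Set Vert} {e : Edge} (h : ¬ (src e ∈ S ∧ tgt e ∈ S)) :
    K (Function.update ω e false) S = K (Function.update ω e true) S := by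
  refine K_congr fun e' h1 h2 => ?_
  have hne : e' ≠ e := by
    rintro rfl
    exact h ⟨h1, h2⟩
  rw [Function.update_of_ne hne, Function.update_of_ne hne]

theorem sens_X_update {ω : Config} {x0 x1 x2 x3 c d : ℤ} (h01 : x0 ≤ x1) (h12 : x1 ≤ x2)
    (h23 : x2 ≤ x3) {e : Edge} (h1 : ¬ InR ω x0 x1 c d e) (h2 : ¬ InR ω x1 x2 c d e)
    (h3 : ¬ InR ω x2 x3 c d e) :
    X (Function.update ω e false) x0 x1 x2 x3 c d
      = X (Function.update ω e true) x0 x1 x2 x3 c d := by
  have sub : ∀ {a b a' b' : ℤ}, a' ≤ a → b ≤ b' → rect a b c d ⊆ rect a' b' c d := by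
    intro a b a' b' ha hb v hv
    exact ⟨ha.trans hv.1, hv.2.1.trans hb, hv.2.2.1, hv.2.2.2⟩
  have fin : ∀ a b : ℤ, (rect a b c d).Finite := fun a b => rect_finite a b c d
  set cc : ℤ → ℤ → Prop := fun a b =>
    Conn (Function.update ω e false) (rect a b c d) (src e) (tgt e) with hcc
  have up0 : ∀ a b : ℤ, src e ∈ rect a b c d → tgt e ∈ rect a b c d → cc a b →
      (K (Function.update ω e false) (rect a b c d) : ℤ)
        = K (Function.update ω e true) (rect a b c d) := by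
    intro a b hs ht hc
    exact_mod_cast (K_update (fin a b) hs ht).1 hc
  have up1 : ∀ a b : ℤ, src e ∈ rect a b c d → tgt e ∈ rect a b c d → ¬ cc a b →
      (K (Function.update ω e false) (rect a b c d) : ℤ)
        = K (Function.update ω e true) (rect a b c d) + 1 := by
    intro a b hs ht hc
    exact_mod_cast (K_update (fin a b) hs ht).2 hc
  have out : ∀ a b : ℤ, ¬ (src e ∈ rect a b c d ∧ tgt e ∈ rect a b c d) →
      (K (Function.update ω e false) (rect a b c d) : ℤ)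
        = K (Function.update ω e true) (rect a b c d) := by
    intro a b h
    exact_mod_cast sens_K_out h
  have mono : ∀ {a b a' b' : ℤ}, a' ≤ a → b ≤ b' → cc a b → cc a' b' := by
    intro a b a' b' ha hb hc
    exact Conn.mono_set (sub ha hb) hc
  have piv : ∀ {a b a' b' : ℤ}, a' ≤ a → b ≤ b' → src e ∈ rect a b c d → tgt e ∈ rect a b c d →
      ¬ InR ω a b c d e → cc a' b' → cc a b := by
    intro a b a' b' ha hb hs ht hn hc
    by_contra hcon
    exact hn (inR_of_pivot (mem_redges.2 ⟨hs, ht⟩) (sub ha hb) hc hcon)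
  unfold X
  by_cases hU : src e ∈ rect x0 x3 c d ∧ tgt e ∈ rect x0 x3 c d
  · obtain ⟨hUs, hUt⟩ := hU
    by_cases hI : src e ∈ rect x1 x2 c d ∧ tgt e ∈ rect x1 x2 c d
    · obtain ⟨hIs, hIt⟩ := hI
      have hAs := sub h01 le_rfl hIs
      have hAt := sub h01 le_rfl hIt
      have hBs := sub le_rfl h23 hIs
      have hBt := sub le_rfl h23 hIt
      by_cases hc : cc x0 x3
      · have hcI : cc x1 x2 := piv h01 h23 hIs hIt h2 hc
        rw [up0 _ _ hUs hUt hc, up0 _ _ hAs hAt (mono h01 le_rfl hcI),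
          up0 _ _ hBs hBt (mono le_rfl h23 hcI), up0 _ _ hIs hIt hcI]
      · have hA : ¬ cc x0 x2 := fun h => hc (mono le_rfl h23 h)
        have hB : ¬ cc x1 x3 := fun h => hc (mono h01 le_rfl h)
        have hI' : ¬ cc x1 x2 := fun h => hc (mono h01 h23 h)
        rw [up1 _ _ hUs hUt hc, up1 _ _ hAs hAt hA, up1 _ _ hBs hBt hB, up1 _ _ hIs hIt hI']
        ring
    · -- geometry of the edge
      have hlen : (src e).1 ≤ (tgt e).1 ∧ (tgt e).1 ≤ (src e).1 + 1 := by
        unfold src tgt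
        split <;> constructor <;> simp
      by_cases hA : src e ∈ rect x0 x2 c d ∧ tgt e ∈ rect x0 x2 c d
      · obtain ⟨hAs, hAt⟩ := hA
        -- `e` is an edge of `[x0, x1]`
        have hlt : (src e).1 < x1 ∨ (tgt e).1 < x1 := by
          by_contra hcon
          push Not at hcon
          exact hI ⟨⟨hcon.1, hAs.2.1, hAs.2.2⟩, ⟨hcon.2, hAt.2.1, hAt.2.2⟩⟩
        have hs1 : src e ∈ rect x0 x1 c d := ⟨hAs.1, by omega, hAs.2.2⟩
        have ht1 : tgt e ∈ rect x0 x1 c d := ⟨hAt.1, by omega, hAt.2.2⟩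
        have hB : ¬ (src e ∈ rect x1 x3 c d ∧ tgt e ∈ rect x1 x3 c d) := by
          rintro ⟨⟨h4, -⟩, ⟨h5, -⟩⟩
          omega
        rw [out _ _ hI, out _ _ hB]
        by_cases hc : cc x0 x3
        · have hc1 : cc x0 x1 := piv le_rfl (h12.trans h23) hs1 ht1 h1 hc
          rw [up0 _ _ hUs hUt hc, up0 _ _ hAs hAt (mono le_rfl h12 hc1)]
        · have hA : ¬ cc x0 x2 := fun h => hc (mono le_rfl h23 h)
          rw [up1 _ _ hUs hUt hc, up1 _ _ hAs hAt hA]
          ring
      · -- `e` is an edge of `[x2, x3]`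
        have hgt : x2 < (src e).1 ∨ x2 < (tgt e).1 := by
          by_contra hcon
          push Not at hcon
          exact hA ⟨⟨hUs.1, hcon.1, hUs.2.2⟩, ⟨hUt.1, hcon.2, hUt.2.2⟩⟩
        have hs3 : src e ∈ rect x2 x3 c d := ⟨by omega, hUs.2.1, hUs.2.2⟩
        have ht3 : tgt e ∈ rect x2 x3 c d := ⟨by omega, hUt.2.1, hUt.2.2⟩
        have hBs := sub h12 le_rfl hs3
        have hBt := sub h12 le_rfl ht3
        rw [out _ _ hI, out _ _ hA]
        by_cases hc : cc x0 x3
        · have hc3 : cc x2 x3 := piv (h01.trans h12) le_rfl hs3 ht3 h3 hc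
          rw [up0 _ _ hUs hUt hc, up0 _ _ hBs hBt (mono h12 le_rfl hc3)]
        · have hB : ¬ cc x1 x3 := fun h => hc (mono h01 le_rfl h)
          rw [up1 _ _ hUs hUt hc, up1 _ _ hBs hBt hB]
          ring
  · have hnot : ∀ {a b : ℤ}, x0 ≤ a → b ≤ x3 →
        ¬ (src e ∈ rect a b c d ∧ tgt e ∈ rect a b c d) := by
      intro a b ha hb h
      exact hU ⟨sub ha hb h.1, sub ha hb h.2⟩
    rw [out _ _ hU, out _ _ (hnot (a := x0) (b := x2) le_rfl h23),
      out _ _ (hnot (a := x1) (b := x3) h01 le_rfl), out _ _ (hnot (a := x1) (b := x2) h01 h23)]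

theorem X_flip {ω : Config} {x0 x1 x2 x3 c d : ℤ} (h01 : x0 ≤ x1) (h12 : x1 ≤ x2)
    (h23 : x2 ≤ x3) {e : Edge} (h1 : ¬ InR ω x0 x1 c d e) (h2 : ¬ InR ω x1 x2 c d e)
    (h3 : ¬ InR ω x2 x3 c d e) : X (flip ω e) x0 x1 x2 x3 c d = X ω x0 x1 x2 x3 c d := by
  have h := sens_X_update h01 h12 h23 h1 h2 h3
  exact (sens_update_cases (P := fun ω' => X ω' x0 x1 x2 x3 c d = X ω x0 x1 x2 x3 c d)
    (by simp only [h])).2 rfl

/-- The union of the three random sets, for configurations given by finite sets of edges. -/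
noncomputable def RU (x0 x1 x2 x3 c d : ℤ) (S : Finset Edge) : Finset Edge := by
  classical
  exact (redges x0 x3 c d).filter (fun e => InR (ofS S) x0 x1 c d e ∨ InR (ofS S) x1 x2 c d e ∨
    InR (ofS S) x2 x3 c d e)

theorem sens_ofS_sflip (S : Finset Edge) (g : Edge) : ofS (sflip S g) = flip (ofS S) g := by
  unfold sflip flip
  by_cases h : g ∈ S
  · have h' : ofS S g = true := ofS_eq_true.2 h
    rw [if_pos h, h', Bool.not_true, (ofS_update S g).2]
  · have h' : ofS S g = false := by simp [ofS, h]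
    rw [if_neg h, h', Bool.not_false, (ofS_update S g).1]

theorem sens_mem_RU {x0 x1 x2 x3 c d : ℤ} {S : Finset Edge} {g : Edge} :
    g ∈ RU x0 x1 x2 x3 c d S ↔ g ∈ redges x0 x3 c d ∧ (InR (ofS S) x0 x1 c d g ∨
      InR (ofS S) x1 x2 c d g ∨ InR (ofS S) x2 x3 c d g) := by
  classical
  unfold RU
  simp only [Finset.mem_filter]

theorem sens_not_inR {x0 x1 x2 x3 c d : ℤ} (h01 : x0 ≤ x1) (h12 : x1 ≤ x2) (h23 : x2 ≤ x3)
    {S : Finset Edge} {g : Edge} (hg : g ∉ RU x0 x1 x2 x3 c d S) :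
    ¬ InR (ofS S) x0 x1 c d g ∧ ¬ InR (ofS S) x1 x2 c d g ∧ ¬ InR (ofS S) x2 x3 c d g := by
  rw [sens_mem_RU] at hg
  have sub : ∀ {a b : ℤ}, x0 ≤ a → b ≤ x3 → g ∈ redges a b c d → g ∈ redges x0 x3 c d := by
    intro a b ha hb h
    rw [mem_redges] at h ⊢
    exact ⟨⟨ha.trans h.1.1, h.1.2.1.trans hb, h.1.2.2⟩, ⟨ha.trans h.2.1, h.2.2.1.trans hb, h.2.2.2⟩⟩
  refine ⟨fun h => hg ⟨?_, Or.inl h⟩, fun h => hg ⟨?_, Or.inr (Or.inl h)⟩,
    fun h => hg ⟨?_, Or.inr (Or.inr h)⟩⟩
  · exact sub le_rfl (h12.trans h23) h.1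
  · exact sub h01 h23 h.1
  · exact sub (h01.trans h12) le_rfl h.1

theorem sens_inR_flip' {ω : Config} {a b c d : ℤ} {g : Edge}
    (h : ¬ InR ω a b c d g) (e : Edge) : InR (flip ω g) a b c d e ↔ InR ω a b c d e := by
  by_cases hg : g ∈ redges a b c d
  · exact inR_flip hg h e
  · refine inR_congr (fun e' he' => ?_) e
    have hne : e' ≠ g := by
      rintro rfl
      exact hg he'
    unfold flip
    rw [Function.update_of_ne hne]

/-- The union of the three sets is stable. -/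
theorem RU_sflip {x0 x1 x2 x3 c d : ℤ} (h01 : x0 ≤ x1) (h12 : x1 ≤ x2) (h23 : x2 ≤ x3)
    {S : Finset Edge} {g : Edge} (hg : g ∉ RU x0 x1 x2 x3 c d S) :
    RU x0 x1 x2 x3 c d (sflip S g) = RU x0 x1 x2 x3 c d S := by
  obtain ⟨h1, h2, h3⟩ := sens_not_inR h01 h12 h23 hg
  ext e
  rw [sens_mem_RU, sens_mem_RU, sens_ofS_sflip, sens_inR_flip' h1 e, sens_inR_flip' h2 e,
    sens_inR_flip' h3 e]

theorem X_sflip {x0 x1 x2 x3 c d : ℤ} (h01 : x0 ≤ x1) (h12 : x1 ≤ x2) (h23 : x2 ≤ x3)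
    {S : Finset Edge} {g : Edge} (hg : g ∉ RU x0 x1 x2 x3 c d S) :
    X (ofS (sflip S g)) x0 x1 x2 x3 c d = X (ofS S) x0 x1 x2 x3 c d := by
  obtain ⟨h1, h2, h3⟩ := sens_not_inR h01 h12 h23 hg
  rw [sens_ofS_sflip]
  exact X_flip h01 h12 h23 h1 h2 h3

end Pool.Agent.H29.Kap
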