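import Pool.Agent.H29.Kap.Defs

/-! # Two disjoint open arms and one closed dual arm on a line -/

set_option autoImplicit false

namespace Pool.Agent.H29.Kap

open Pool.Agent.H89.Perc

/-- The configuration with all edges `(-1, y, false)`, `y > h`, closed. -/
def threearms_w (ω : Config) (h : ℤ) : Config :=
  fun e => if e.1 = -1 ∧ e.2.2 = false ∧ h < e.2.1 then false else ω e

lemma threearms_le {ω : Config} {h : ℤ} {e : Edge} (he : threearms_w ω h e = true) :
    ω e = true := by
  unfold threearms_w at he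
  split_ifs at he
  exact he

lemma threearms_mono {ω : Config} {h h' : ℤ} (hh : h ≤ h') {e : Edge}
    (he : threearms_w ω h e = true) : threearms_w ω h' e = true := by
  unfold threearms_w at he ⊢
  split_ifs at he with h1
  rw [if_neg]
  · exact he
  · rintro ⟨h2, h3, h4⟩
    exact h1 ⟨h2, h3, by omega⟩

/-- Going up a column of open edges. -/
lemma threearms_col {w : Config} {S : Set Vert} {x y₁ y₂ : ℤ} (hy : y₁ ≤ y₂)
    (h : ∀ y, y₁ ≤ y → y ≤ y₂ → (x, y) ∈ S)
    (hw : ∀ y, y₁ ≤ y → y < y₂ → w (x, y, true) = true) : Conn w S (x, y₁) (x, y₂) := by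
  have key : ∀ n : ℕ, y₁ + n ≤ y₂ → Conn w S (x, y₁) (x, y₁ + n) := by
    intro n
    induction n with
    | zero => intro _; simpa using Conn.refl (h y₁ le_rfl hy)
    | succ n ih =>
      intro hn
      push_cast at hn
      refine (ih (by omega)).tail ⟨h _ (by omega) (by omega), h _ (by push_cast; omega)
        (by push_cast; omega), (x, y₁ + n, true), Or.inl ⟨rfl, ?_⟩, hw _ (by omega) (by omega)⟩
      simp only [tgt, if_true, Prod.mk.injEq, true_and]
      push_cast
      ring
  have := key (y₂ - y₁).toNat (by omega)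
  rwa [Int.toNat_of_nonneg (by omega), add_sub_cancel] at this

/-- The column above `(-1, y)`, `y ≥ h`, is open in the dual of `threearms_w ω h`. -/
lemma threearms_up {ω : Config} {h W y : ℤ} (hW : 4 ≤ W) (hy : h ≤ y) (hy1 : -3 * W - 1 ≤ y)
    (hy2 : y ≤ 3 * W) :
    Conn (dual (threearms_w ω h)) (rect (-W) (W - 1) (-3 * W - 1) (3 * W)) (-1, y)
      (-1, 3 * W) := by
  refine threearms_col hy2 (fun z h1 h2 => ?_) (fun z h1 h2 => ?_)
  · simp only [rect, Set.mem_ofPred_eq]
    omega
  · simp only [dual, crossed, threearms_w, if_true]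
    rw [if_pos ⟨trivial, trivial, by omega⟩]
    rfl

/-- Step (1). -/
lemma threearms_one {ω : Config} {W : ℤ} (hW : 4 ≤ W) (h1 : HCross ω (-W) W 0 (2 * W)) :
    HCross (threearms_w ω (2 * W)) (-W) W (-3 * W) (3 * W) := by
  obtain ⟨u, v, hu, hv, hc⟩ := h1
  refine ⟨u, v, hu, hv, ?_⟩
  have h2 : Conn (threearms_w ω (2 * W)) (rect (-W) W 0 (2 * W)) u v := by
    refine hc.congr ?_
    intro e he _
    unfold threearms_w
    rw [if_neg]
    rintro ⟨h3, h4, h5⟩
    simp only [rect, src, Set.mem_ofPred_eq] at he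
    omega
  refine h2.mono_set ?_
  rintro ⟨a, b⟩ hab
  simp only [rect, Set.mem_ofPred_eq] at hab ⊢
  omega

/-- Step (2). -/
lemma threearms_two {ω : Config} {W : ℤ} (hW : 4 ≤ W)
    (h2 : HCross (dual ω) (-W - 1) W (-W) (-2))
    (h3 : VCross (dual ω) (-W) (W - 1) (-3 * W - 1) (-2)) :
    ¬ HCross (threearms_w ω (-W - 1)) (-W) W (-3 * W) (3 * W) := by
  intro hcon
  refine not_hcross_and_dual_vcross (by omega) hcon ?_
  obtain ⟨φ, ψ, hφ, hψ, hc⟩ := h3
  obtain ⟨φ', ψ', hφ', hψ', hc1, hc2, -⟩ := hc.cross_y (a := -W) (b := -2) (by omega) (by omega)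
    (by omega)
  obtain ⟨u, v, hu, hv, hd⟩ := h2
  obtain ⟨u', v', hu', hv', hd1, -, -⟩ := hd.cross_x (a := -W) (b := W - 1) (by omega) (by omega)
    (by omega)
  have e1 : Conn (dual ω) (rect (-W) (W - 1) (-W) (-2)) φ' ψ' := by
    refine hc1.mono_set ?_
    rintro ⟨a, b⟩ ⟨hab, hab'⟩
    simp only [rect, Set.mem_ofPred_eq] at hab hab' ⊢
    omega
  have e2 : Conn (dual ω) (rect (-W) (W - 1) (-W) (-2)) u' v' := by
    refine hd1.mono_set ?_
    rintro ⟨a, b⟩ ⟨hab, hab'⟩
    simp only [rect, Set.mem_ofPred_eq] at hab hab' ⊢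
    omega
  obtain ⟨w0, k1, k2⟩ := cross e2 hu' hv' e1 hφ' hψ'
  obtain ⟨w1, w2, hw1, -, -, k3, -⟩ := e2.cross_x (a := -1) (b := -1) (by omega) (by omega) le_rfl
  have k4 : Conn (dual ω) (rect (-W) (W - 1) (-W) (-2)) φ' w1 :=
    k2.trans (k1.symm.trans k3)
  have hw1m := k4.mem_right
  simp only [rect, Set.mem_ofPred_eq] at hw1m
  have k5 : Conn (dual ω) (rect (-W) (W - 1) (-3 * W - 1) (3 * W)) φ w1 := by
    refine Conn.trans (hc2.mono_set ?_) (k4.mono_set ?_)
    · rintro ⟨a, b⟩ hab
      simp only [rect, Set.mem_ofPred_eq] at hab ⊢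
      omega
    · rintro ⟨a, b⟩ hab
      simp only [rect, Set.mem_ofPred_eq] at hab ⊢
      omega
  have k6 : Conn (dual (threearms_w ω (-W - 1))) (rect (-W) (W - 1) (-3 * W - 1) (3 * W)) φ w1 := by
    refine k5.mono (le_refl _) ?_
    intro e he
    simp only [dual, Bool.not_eq_true'] at he ⊢
    by_contra hne
    rw [Bool.not_eq_false] at hne
    rw [threearms_le hne] at he
    exact absurd he (by decide)
  have hw1' : w1 = (-1, w1.2) := Prod.ext hw1 rfl
  rw [hw1'] at k6
  exact ⟨φ, _, hφ, rfl, k6.trans (threearms_up hW (by omega) (by omega) (by omega))⟩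

/-- The choice of `h`. -/
lemma threearms_min {P : ℤ → Prop} {a b : ℤ} (hab : a ≤ b) (ha : ¬ P a) (hb : P b) :
    ∃ h, a < h ∧ h ≤ b ∧ P h ∧ ¬ P (h - 1) := by
  classical
  by_contra hno
  push Not at hno
  have key : ∀ n : ℕ, a ≤ b - n → P (b - n) := by
    intro n
    induction n with
    | zero => intro _; simpa using hb
    | succ n ih =>
      intro hn
      push_cast at hn ⊢
      have h1 := ih (by omega)
      have h2 := hno (b - n) (by omega) (by omega) h1
      rwa [show b - (n : ℤ) - 1 = b - (n + 1) by ring] at h2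
  have := key (b - a).toNat (by omega)
  rw [Int.toNat_of_nonneg (by omega), sub_sub_cancel] at this
  exact ha this

theorem three_arms {ω : Config} {W : ℤ} (hW : 4 ≤ W) (h1 : HCross ω (-W) W 0 (2 * W))
    (h2 : HCross (dual ω) (-W - 1) W (-W) (-2))
    (h3 : VCross (dual ω) (-W) (W - 1) (-3 * W - 1) (-2)) :
    ∃ h : ℤ, -W ≤ h ∧ h ≤ 2 * W ∧
      (∃ ω₁ ω₂ : Config, (∀ e, ω₁ e = true → ω e = true) ∧ (∀ e, ω₂ e = true → ω e = true) ∧
        (∀ e, ω₁ e = true → ω₂ e = false) ∧
        (∃ a : Vert, (a.1 = -W ∨ a.1 = W) ∧ Conn ω₁ (rect (-W) W (-3 * W) (3 * W)) (0, h) a) ∧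
        (∃ a : Vert, (a.1 = -W ∨ a.1 = W) ∧ Conn ω₂ (rect (-W) W (-3 * W) (3 * W)) (0, h) a)) ∧
      (∃ φ : Vert, φ.2 = -3 * W - 1 ∧
        Conn (dual ω) (rect (-W) (W - 1) (-3 * W - 1) (3 * W)) (-1, h - 1) φ) := by
  classical
  obtain ⟨h, hh1, hh2, hP, hnP⟩ := threearms_min
    (P := fun h => HCross (threearms_w ω h) (-W) W (-3 * W) (3 * W)) (a := -W - 1) (b := 2 * W)
    (by omega) (threearms_two hW h2 h3) (threearms_one hW h1)
  set w := threearms_w ω h with hw
  set w' := threearms_w ω (h - 1) with hw'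
  set B : Set Vert := rect (-W) W (-3 * W) (3 * W) with hB
  set PP : Set Vert := rect (-W) (W - 1) (-3 * W - 1) (3 * W) with hPP
  -- relation between `w` and `w'`
  have hne : ∀ e : Edge, e ≠ (-1, h, false) → w' e = w e := by
    rintro ⟨x, y, t⟩ hne
    simp only [hw, hw', threearms_w]
    by_cases k : x = -1 ∧ t = false ∧ h < y
    · rw [if_pos k, if_pos ⟨k.1, k.2.1, by omega⟩]
    · rw [if_neg k, if_neg]
      rintro ⟨k1, k2, k3⟩
      by_cases k4 : y = h
      · exact hne (by rw [k1, k2, k4])
      · exact k ⟨k1, k2, by omega⟩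
  have hw'e : w' (-1, h, false) = false := by
    simp only [hw', threearms_w]
    rw [if_pos ⟨trivial, trivial, by omega⟩]
  have hwe : w (-1, h, false) = true := by
    by_contra hcon
    rw [Bool.not_eq_true] at hcon
    have : w = w' := by
      funext e
      by_cases k : e = (-1, h, false)
      · rw [k, hcon, hw'e]
      · exact (hne e k).symm
    apply hnP
    show HCross w' _ _ _ _
    rw [← this]
    exact hP
  have hωe : ω (-1, h, false) = true := threearms_le hwe
  have hup : w = Function.update w' (-1, h, false) true := by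
    funext e
    by_cases k : e = (-1, h, false)
    · rw [k, hwe, Function.update_self]
    · rw [Function.update_of_ne k, hne e k]
  have hup' : w' = Function.update w' (-1, h, false) false := by
    funext e
    by_cases k : e = (-1, h, false)
    · rw [k, hw'e, Function.update_self]
    · rw [Function.update_of_ne k]
  have hw'w : ∀ e, w' e = true → w e = true := fun e he => threearms_mono (by omega) he
  -- the two open arms
  obtain ⟨a, b, ha, hb, hab⟩ := hP
  have hsplit : ∃ s₀ s₁ : Vert, (s₀.1 = -W ∨ s₀.1 = W) ∧ (s₁.1 = -W ∨ s₁.1 = W) ∧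
      Conn w' B (0, h) s₀ ∧ Conn w' B (-1, h) s₁ ∧ ¬ Conn w' B (0, h) (-1, h) := by
    have hab' : Conn (Function.update w' (-1, h, false) true) B a b := by
      rw [← hup]; exact hab
    rcases hab'.split_edge with k | ⟨u, v, k1, k2, k3⟩
    · rw [← hup'] at k
      exact absurd ⟨a, b, ha, hb, k⟩ hnP
    · rw [← hup'] at k2 k3
      have hnot : ¬ Conn w' B u v := fun k4 =>
        hnP ⟨a, b, ha, hb, (k2.trans k4).trans k3⟩
      rcases k1 with ⟨k4, k5⟩ | ⟨k4, k5⟩
      · have e1 : u = (-1, h) := by rw [k4]; rfl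
        have e2 : v = (0, h) := by rw [k5]; simp [tgt]
        rw [e1] at k2 hnot
        rw [e2] at k3 hnot
        exact ⟨b, a, Or.inr hb, Or.inl ha, k3, k2.symm, fun k => hnot k.symm⟩
      · have e1 : u = (0, h) := by rw [k4]; simp [tgt]
        have e2 : v = (-1, h) := by rw [k5]; rfl
        rw [e1] at k2 hnot
        rw [e2] at k3 hnot
        exact ⟨a, b, Or.inl ha, Or.inr hb, k2.symm, k3, hnot⟩
  obtain ⟨s₀, s₁, hs₀, hs₁, c0, c1, hnc⟩ := hsplit
  refine ⟨h, by omega, hh2, ⟨fun e => w' e && decide (Conn w' B (0, h) (src e)),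
    fun e => decide (e = (-1, h, false)) || (w' e && decide (Conn w' B (-1, h) (src e))),
    ?_, ?_, ?_, ⟨s₀, hs₀, ?_⟩, ⟨s₁, hs₁, ?_⟩⟩, ?_⟩
  · intro e he
    simp only [Bool.and_eq_true] at he
    exact threearms_le he.1
  · intro e he
    simp only [Bool.or_eq_true, Bool.and_eq_true, decide_eq_true_eq] at he
    rcases he with he | he
    · rw [he]; exact hωe
    · exact threearms_le he.1
  · intro e he
    simp only [Bool.and_eq_true, decide_eq_true_eq] at he
    simp only [Bool.or_eq_false_iff, Bool.and_eq_false_iff, decide_eq_false_iff_not]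
    refine ⟨?_, Or.inr ?_⟩
    · intro k
      rw [k, hw'e] at he
      exact absurd he.1 (by decide)
    · intro k
      exact hnc (he.2.trans k.symm)
  · refine c0.induction_right (P := fun x =>
      Conn (fun e => w' e && decide (Conn w' B (0, h) (src e))) B (0, h) x)
      (Conn.refl c0.mem_left) ?_
    rintro x y hx ⟨hxB, hyB, e, he, heo⟩ ih
    refine ih.tail ⟨hxB, hyB, e, he, ?_⟩
    simp only [Bool.and_eq_true, decide_eq_true_eq]
    refine ⟨heo, ?_⟩
    have hy : Conn w' B (0, h) y := hx.tail ⟨hxB, hyB, e, he, heo⟩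
    rcases he with ⟨k1, _⟩ | ⟨_, k2⟩
    · rw [← k1]; exact hx
    · rw [← k2]; exact hy
  · refine c1.induction_right (P := fun x =>
      Conn (fun e => decide (e = (-1, h, false)) ||
        (w' e && decide (Conn w' B (-1, h) (src e)))) B (0, h) x) ?_ ?_
    · refine (Step.conn ⟨c0.mem_left, c1.mem_left, (-1, h, false), Or.inr ⟨?_, rfl⟩, ?_⟩)
      · simp [tgt]
      · simp
    · rintro x y hx ⟨hxB, hyB, e, he, heo⟩ ih
      refine ih.tail ⟨hxB, hyB, e, he, ?_⟩
      simp only [Bool.or_eq_true, Bool.and_eq_true, decide_eq_true_eq]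
      refine Or.inr ⟨heo, ?_⟩
      have hy : Conn w' B (-1, h) y := hx.tail ⟨hxB, hyB, e, he, heo⟩
      rcases he with ⟨k1, _⟩ | ⟨_, k2⟩
      · rw [← k1]; exact hx
      · rw [← k2]; exact hy
  · -- the dual arm
    rcases hcross_or_dual_vcross (ω := w') (a := -W) (b := W) (c := -3 * W) (d := 3 * W)
      (by omega) (by omega) with k | ⟨φ, ψ, hφ, hψ, hc⟩
    · exact absurd k hnP
    have hg : crossed (-1, h - 1, true) = (-1, h, false) := by
      simp [crossed]
    have hcr : ∀ e : Edge, crossed e = (-1, h, false) → e = (-1, h - 1, true) := by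
      rintro ⟨x, y, t⟩ he
      cases t
      · simp [crossed] at he
      · simp only [crossed, if_true, Prod.mk.injEq, and_true] at he
        obtain ⟨k1, k2⟩ := he
        rw [k1, show y = h - 1 by omega]
    have hd : dual w' = Function.update (dual w) (-1, h - 1, true) true := by
      funext e
      by_cases k : e = (-1, h - 1, true)
      · rw [k, Function.update_self]
        simp only [dual, hg, hw'e, Bool.not_false]
      · rw [Function.update_of_ne k]
        simp only [dual]
        rw [hne _ (fun k' => k (hcr e k'))]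
    have hd' : dual w = Function.update (dual w) (-1, h - 1, true) false := by
      funext e
      by_cases k : e = (-1, h - 1, true)
      · rw [k, Function.update_self]
        simp only [dual, hg, hwe, Bool.not_true]
      · rw [Function.update_of_ne k]
    have hHC : HCross w (-W) W (-3 * W) (3 * W) := ⟨a, b, ha, hb, hab⟩
    have hnv : ¬ VCross (dual w) (-W) (W - 1) (-3 * W - 1) (3 * W) :=
      not_hcross_and_dual_vcross (by omega) hHC
    have hno : ∀ y : ℤ, h ≤ y → y ≤ 3 * W → ¬ Conn (dual w) PP φ (-1, y) := by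
      intro y k1 k2 k3
      have k4 : Conn (dual w) PP (-1, y) (-1, 3 * W) :=
        threearms_up hW k1 (by omega) k2
      exact hnv ⟨φ, (-1, 3 * W), hφ, rfl, k3.trans k4⟩
    have hc' : Conn (Function.update (dual w) (-1, h - 1, true) true) PP φ ψ := by
      rw [← hd]; exact hc
    have hend : Conn (dual w) PP φ (-1, h - 1) := by
      rcases hc'.split_edge with k | ⟨u, v, k1, k2, k3⟩
      · rw [← hd'] at k
        exact absurd ⟨φ, ψ, hφ, hψ, k⟩ hnv
      · rw [← hd'] at k2 k3
        rcases k1 with ⟨k4, k5⟩ | ⟨k4, k5⟩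
        · rw [k4] at k2
          exact k2
        · rw [k4] at k2
          have e1 : tgt ((-1, h - 1, true) : Edge) = (-1, h) := by
            simp [tgt]
          rw [e1] at k2
          exact absurd k2 (hno h le_rfl (by omega))
    refine ⟨φ, hφ, Conn.symm ?_⟩
    refine hend.induction_right (P := fun x => Conn (dual ω) PP φ x) (Conn.refl hend.mem_left) ?_
    rintro x y hx ⟨hxB, hyB, e, he, heo⟩ ih
    refine ih.tail ⟨hxB, hyB, e, he, ?_⟩
    by_cases k : (crossed e).1 = -1 ∧ (crossed e).2.2 = false ∧ h < (crossed e).2.1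
    · exfalso
      obtain ⟨ex, ey, et⟩ := e
      have hy : Conn (dual w) PP φ y := hx.tail ⟨hxB, hyB, _, he, heo⟩
      cases et
      · simp [crossed] at k
      · simp only [crossed, if_true] at k
        obtain ⟨k1, -, k2⟩ := k
        have key : Conn (dual w) PP φ (-1, ey) := by
          rcases he with ⟨k3, _⟩ | ⟨_, k4⟩
          · rw [k3] at hx
            simpa [src, k1] using hx
          · rw [k4] at hy
            simpa [src, k1] using hy
        have hm := key.mem_right
        simp only [hPP, rect, Set.mem_ofPred_eq] at hm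
        exact hno ey (by omega) (by omega) key
    · simp only [dual] at heo ⊢
      rw [hw] at heo
      unfold threearms_w at heo
      rw [if_neg k] at heo
      exact heo

end Pool.Agent.H29.Kap
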