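import Pool.Agent.H29.Kap.TupleSum

/-! # Probability that a tuple of edges lies in `R` -/

set_option autoImplicit false

namespace Pool.Agent.H29.Kap

open Pool.Agent.H89.Perc

/-- The edges near `src e`. -/
noncomputable def tupleprob_box (e : Edge) (m : ℕ) : Finset Edge :=
  eRect ((src e).1 - m) ((src e).1 + m) ((src e).2 - m) ((src e).2 + m)

theorem tupleprob_mem_box {e f : Edge} {m : ℕ} :
    f ∈ tupleprob_box e m ↔ e.1 - m ≤ f.1 ∧ f.1 ≤ e.1 + m ∧ e.2.1 - m ≤ f.2.1 ∧
      f.2.1 ≤ e.2.1 + m := by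
  unfold tupleprob_box
  rw [mem_eRect]
  exact Iff.rfl

/-- The open arm event. -/
def tupleprob_E (e : Edge) (r : ℕ) : Set Config := Arm (src e) r ∪ Arm (tgt e) r

/-- The closed dual arm event. -/
def tupleprob_F (e : Edge) (r : ℕ) : Set Config :=
  {ω | dual ω ∈ Arm (src e) r ∪ Arm (lowFace e) r}

theorem tupleprob_local_E (e : Edge) (r : ℕ) :
    LocalOn (tupleprob_box e (r + 2)) (tupleprob_E e r) := by
  apply LocalOn.union
  · refine (localOn_arm (src e) r).mono ?_
    intro f hf
    rw [tupleprob_mem_box]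
    rw [mem_eRect] at hf
    obtain ⟨h1, h2, h3, h4⟩ := hf
    simp only [src] at h1 h2 h3 h4
    push_cast
    omega
  · refine (localOn_arm (tgt e) r).mono ?_
    intro f hf
    rw [tupleprob_mem_box]
    rw [mem_eRect] at hf
    obtain ⟨h1, h2, h3, h4⟩ := hf
    obtain ⟨x, y, t⟩ := e
    cases t
    · simp only [src, tgt, Bool.false_eq_true, if_false] at h1 h2 h3 h4
      push_cast
      omega
    · simp only [src, tgt, if_true] at h1 h2 h3 h4
      push_cast
      omega

theorem tupleprob_local_F (e : Edge) (r : ℕ) :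
    LocalOn (tupleprob_box e (r + 2)) (tupleprob_F e r) := by
  have key : ∀ v : Vert, (v = src e ∨ v = lowFace e) →
      LocalOn (tupleprob_box e (r + 2)) {ω | dual ω ∈ Arm v r} := by
    intro v hv
    refine (localOn_arm v r).dual'.mono ?_
    intro f hf
    rw [Finset.mem_image] at hf
    obtain ⟨g, hg, rfl⟩ := hf
    rw [mem_eRect] at hg
    obtain ⟨h1, h2, h3, h4⟩ := hg
    rw [tupleprob_mem_box]
    obtain ⟨x, y, t⟩ := e
    obtain ⟨x', y', t'⟩ := g
    rcases hv with rfl | rfl
    · cases t' <;>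
      · simp only [src, crossed, Bool.false_eq_true, if_false, if_true] at h1 h2 h3 h4 ⊢
        push_cast
        omega
    · cases t <;> cases t' <;>
      · simp only [src, crossed, lowFace, Bool.false_eq_true, if_false, if_true] at h1 h2 h3 h4 ⊢
        push_cast
        omega
  have h1 := (key _ (Or.inl rfl)).union (key _ (Or.inr rfl))
  exact h1

theorem tupleprob_incr_E (e : Edge) (r : ℕ) : Incr (tupleprob_E e r) :=
  (incr_arm _ _).union (incr_arm _ _)

theorem tupleprob_incr_F (e : Edge) (r : ℕ) : Incr (tupleprob_F e r)ᶜ :=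
  Incr.dual_compl ((incr_arm _ _).union (incr_arm _ _))

theorem tupleprob_Pr (e : Edge) (r : ℕ) :
    Pr half (tupleprob_E e r ∩ tupleprob_F e r) ≤ 4 * arm half r ^ 2 := by
  have h1 := fkg_mixed (p := half) (tupleprob_local_E e r) (tupleprob_local_F e r)
    (tupleprob_incr_E e r) (tupleprob_incr_F e r)
  have h2 : Pr half (tupleprob_E e r) ≤ 2 * arm half r := by
    refine Pr_union_le.trans ?_
    rw [Pr_arm, Pr_arm]
    linarith
  have h3 : Pr half (tupleprob_F e r) ≤ 2 * arm half r := by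
    have hs : tupleprob_F e r = {ω | dual ω ∈ Arm (src e) r} ∪ {ω | dual ω ∈ Arm (lowFace e) r} :=
      rfl
    rw [hs]
    refine Pr_union_le.trans ?_
    rw [Pr_dual (localOn_arm _ _), Pr_dual (localOn_arm _ _), ArmBoxLower.sigma_half, Pr_arm,
      Pr_arm]
    linarith
  have h4 : (0 : ℝ) ≤ arm half r := arm_nonneg
  calc _ ≤ Pr half (tupleprob_E e r) * Pr half (tupleprob_F e r) := h1
    _ ≤ (2 * arm half r) * (2 * arm half r) :=
        mul_le_mul h2 h3 Pr_nonneg (by positivity)
    _ = _ := by ring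

theorem tupleprob_sub {a b c d : ℤ} {e : Edge} {ρ r : ℕ} (h8 : 8 ≤ ρ) (hr : r + 1 ≤ ρ)
    (hρ : ρ ≤ dbd a b c d e) {ω : Config} (h : InR ω a b c d e) :
    ω ∈ tupleprob_E e r ∩ tupleprob_F e r := by
  have hm : (ρ : ℤ) ≤ e.1 - a ∧ (ρ : ℤ) ≤ b - e.1 ∧ (ρ : ℤ) ≤ e.2.1 - c ∧
      (ρ : ℤ) ≤ d - e.2.1 := by
    unfold dbd at hρ
    omega
  obtain ⟨-, ⟨u, hu, w, hw, hc⟩, F, hF, G, hG, hd⟩ := h
  constructor
  · have hc' : Conn ω (rect a b c d) u w := by
      refine hc.mono le_rfl ?_
      intro f hf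
      by_cases hfe : f = e
      · subst hfe
        simp at hf
      · rwa [Function.update_of_ne hfe] at hf
    have h1 : (r : ℤ) ≤ |w.1 - u.1| ∨ (r : ℤ) ≤ |w.2 - u.2| := by
      obtain ⟨x, y, t⟩ := e
      obtain ⟨-, hw2⟩ := hw
      have hu' : (u.1 = x ∨ u.1 = x + 1) ∧ (u.2 = y ∨ u.2 = y + 1) := by
        cases t <;> rcases hu with rfl | rfl <;> simp [src, tgt]
      simp only at hm
      rcases abs_cases (w.1 - u.1) with h3 | h3 <;> rcases abs_cases (w.2 - u.2) with h4 | h4 <;>
        omega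
    have h2 := hc'.mem_arm h1
    rcases hu with rfl | rfl
    · exact Or.inl h2
    · exact Or.inr h2
  · have hd' : Conn (dual ω) (rect (a - 1) b (c - 1) d) F G := by
      refine hd.mono le_rfl ?_
      intro f hf
      simp only [dual] at hf ⊢
      by_cases hfe : crossed f = e
      · rw [hfe, Function.update_self] at hf
        simp at hf
      · rwa [Function.update_of_ne hfe] at hf
    have h1 : (r : ℤ) ≤ |G.1 - F.1| ∨ (r : ℤ) ≤ |G.2 - F.2| := by
      obtain ⟨x, y, t⟩ := e
      obtain ⟨-, hG2⟩ := hG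
      have hu' : (F.1 = x ∨ F.1 = x - 1) ∧ (F.2 = y ∨ F.2 = y - 1) := by
        cases t <;> rcases hF with rfl | rfl <;> simp [src, lowFace]
      simp only at hm
      rcases abs_cases (G.1 - F.1) with h3 | h3 <;> rcases abs_cases (G.2 - F.2) with h4 | h4 <;>
        omega
    have h2 := hd'.mem_arm h1
    rcases hF with rfl | rfl
    · exact Or.inl h2
    · exact Or.inr h2

/-- Independence of finitely many events which depend on pairwise disjoint sets of edges. -/
theorem tupleprob_indep {ι : Type*} (T : Finset ι) (B : ι → Set Config) (L : ι → Finset Edge)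
    (hB : ∀ i ∈ T, LocalOn (L i) (B i))
    (hL : ∀ i ∈ T, ∀ k ∈ T, i ≠ k → Disjoint (L i) (L k)) :
    Pr half {ω | ∀ i ∈ T, ω ∈ B i} = ∏ i ∈ T, Pr half (B i) := by
  classical
  induction T using Finset.induction_on with
  | empty =>
    simp only [Finset.notMem_empty, IsEmpty.forall_iff, implies_true, Finset.prod_empty]
    exact Pr_univ
  | insert i T hi ih =>
    rw [Finset.prod_insert hi, ← ih (fun k hk => hB k (Finset.mem_insert_of_mem hk))
      (fun k hk l hl => hL k (Finset.mem_insert_of_mem hk) l (Finset.mem_insert_of_mem hl))]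
    have hloc : LocalOn (T.biUnion L) {ω | ∀ k ∈ T, ω ∈ B k} := by
      intro ω ω' h hω k hk
      refine hB k (Finset.mem_insert_of_mem hk) ω ω' (fun f hf => h f ?_) (hω k hk)
      exact Finset.mem_biUnion.2 ⟨k, hk, hf⟩
    rw [← Pr_inter_of_disjoint (hB i (Finset.mem_insert_self i T)) hloc]
    · congr 1
      ext ω
      constructor
      · intro h
        exact ⟨h i (Finset.mem_insert_self i T), fun k hk => h k (Finset.mem_insert_of_mem hk)⟩
      · rintro ⟨h1, h2⟩ k hk
        rcases Finset.mem_insert.1 hk with rfl | hk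
        · exact h1
        · exact h2 k hk
    · rw [Finset.disjoint_biUnion_right]
      intro k hk
      refine hL i (Finset.mem_insert_self i T) k (Finset.mem_insert_of_mem hk) ?_
      rintro rfl
      exact hi hk

theorem tupleprob_arm_lower : ∃ c > (0 : ℝ), ∀ n : ℕ, 1 ≤ n → c ≤ arm half n ^ 2 * n := by
  obtain ⟨c, hc, H⟩ := armBox_lower
  refine ⟨c ^ 2, by positivity, ?_⟩
  intro n hn
  have h1 := H 0 n hn (Nat.zero_le n)
  have h2 : Pr half (ArmBox 0 0 n) ≤ arm half n := by
    refine Pr_mono ?_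
    rintro ω ⟨w, hw, u, hu, hc⟩
    have hw0 : w = 0 := by
      have h0 : ((0 : Vert).1) = 0 := rfl
      have h1 : ((0 : Vert).2) = 0 := rfl
      simp only [mem_ball, h0, h1] at hw
      ext
      · rw [h0]; omega
      · rw [h1]; omega
    subst hw0
    exact ⟨u, hu, hc⟩
  have hn' : (0 : ℝ) < n := by exact_mod_cast hn
  have h3 : c * Real.sqrt (1 / n) ≤ arm half n := by
    have h4 := h1.trans h2
    simpa using h4
  have h5 : (c * Real.sqrt (1 / n)) ^ 2 ≤ arm half n ^ 2 :=
    pow_le_pow_left₀ (by positivity) h3 2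
  rw [mul_pow, Real.sq_sqrt (by positivity)] at h5
  calc c ^ 2 = c ^ 2 * (1 / n) * n := by field_simp
    _ ≤ arm half n ^ 2 * n := mul_le_mul_of_nonneg_right h5 hn'.le

theorem tuple_prob : ∃ C : ℝ, 0 < C ∧ ∀ n : ℕ, 1 ≤ n → ∀ a b c d : ℤ, b - a ≤ 4 * n →
    d - c ≤ 4 * n → ∀ (j : ℕ) (e : Fin j → Edge) (ρ : Fin j → ℕ),
      (∀ i, ρ i ≤ dbd a b c d (e i)) → (∀ i k, k ≠ i → ρ i ≤ dist2 (e i) (e k)) →
      Pr half {ω | ∀ i, InR ω a b c d (e i)} ≤
        ∏ i, (C * arm half n ^ 2 * ((4 * n : ℕ) / max (ρ i : ℝ) 1)) := by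
  classical
  obtain ⟨c1, hc1, H1⟩ := arm_ext
  obtain ⟨c2, hc2, H2⟩ := tupleprob_arm_lower
  refine ⟨max (8 / c1 ^ 2) (2 / c2), lt_max_of_lt_left (by positivity), ?_⟩
  intro n hn a b c d hab hcd j e ρ hρ1 hρ2
  set C := max (8 / c1 ^ 2) (2 / c2) with hC
  have hC0 : 0 < C := lt_max_of_lt_left (by positivity)
  have hn0 : (0 : ℝ) < n := by exact_mod_cast hn
  set r : Fin j → ℕ := fun i => (ρ i - 1) / 2 - 2 with hr
  set B : Fin j → Set Config := fun i =>
    if ρ i < 8 then Set.univ else tupleprob_E (e i) (r i) ∩ tupleprob_F (e i) (r i) with hBdef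
  set L : Fin j → Finset Edge := fun i =>
    if ρ i < 8 then ∅ else tupleprob_box (e i) (r i + 2) with hLdef
  have hB : ∀ i ∈ (Finset.univ : Finset (Fin j)), LocalOn (L i) (B i) := by
    intro i _
    by_cases h : ρ i < 8
    · simp only [hBdef, hLdef, if_pos h]
      intro _ _ _ _
      trivial
    · simp only [hBdef, hLdef, if_neg h]
      exact (tupleprob_local_E _ _).inter (tupleprob_local_F _ _)
  have hL : ∀ i ∈ (Finset.univ : Finset (Fin j)), ∀ k ∈ (Finset.univ : Finset (Fin j)), i ≠ k →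
      Disjoint (L i) (L k) := by
    intro i _ k _ hik
    by_cases hi : ρ i < 8
    · simp only [hLdef, if_pos hi]
      exact Finset.disjoint_empty_left _
    by_cases hk : ρ k < 8
    · simp only [hLdef, if_pos hk]
      exact Finset.disjoint_empty_right _
    simp only [hLdef, if_neg hi, if_neg hk]
    rw [Finset.disjoint_left]
    intro f hf1 hf2
    rw [tupleprob_mem_box] at hf1 hf2
    have h1 := hρ2 i k hik.symm
    have h2 := hρ2 k i hik
    unfold dist2 at h1 h2
    simp only [hr] at hf1 hf2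
    push_cast at hf1 hf2
    omega
  have hsub : {ω | ∀ i, InR ω a b c d (e i)} ⊆ {ω | ∀ i ∈ Finset.univ, ω ∈ B i} := by
    intro ω hω i _
    by_cases h : ρ i < 8
    · simp only [hBdef, if_pos h]
      trivial
    · simp only [hBdef, if_neg h]
      exact tupleprob_sub (by omega) (by simp only [hr]; omega) (hρ1 i) (hω i)
  refine (Pr_mono hsub).trans ?_
  rw [tupleprob_indep Finset.univ B L hB hL]
  refine Finset.prod_le_prod (fun i _ => Pr_nonneg) fun i _ => ?_
  have ha2 : 0 ≤ arm half n ^ 2 := by positivity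
  by_cases h : ρ i < 8
  · have h1 : Pr half (B i) ≤ 1 := Pr_le_one
    refine h1.trans ?_
    have h2 := H2 n hn
    have h3 : (2 / c2) ≤ C := le_max_right _ _
    have h4 : (0 : ℝ) < max (ρ i : ℝ) 1 := lt_max_of_lt_right one_pos
    have h5 : max (ρ i : ℝ) 1 ≤ 8 := by
      apply max_le _ (by norm_num)
      exact_mod_cast h.le
    have h6 : (4 * n : ℕ) / (8 : ℝ) ≤ (4 * n : ℕ) / max (ρ i : ℝ) 1 :=
      div_le_div_of_nonneg_left (by positivity) h4 h5
    calc (1 : ℝ) = (2 / c2) * c2 * (1 / 2) := by field_simp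
      _ ≤ C * (arm half n ^ 2 * n) * (1 / 2) := by
          apply mul_le_mul_of_nonneg_right _ (by norm_num)
          exact mul_le_mul h3 h2 hc2.le hC0.le
      _ = C * arm half n ^ 2 * ((4 * n : ℕ) / (8 : ℝ)) := by
          push_cast
          ring
      _ ≤ _ := mul_le_mul_of_nonneg_left h6 (by positivity)
  · push Not at h
    have hρ0 : (0 : ℝ) < ρ i := by
      have : 0 < ρ i := by omega
      exact_mod_cast this
    have h1 : max (ρ i : ℝ) 1 = ρ i := by
      apply max_eq_left
      have : 1 ≤ ρ i := by omega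
      exact_mod_cast this
    rw [h1]
    have h2 : Pr half (B i) ≤ 4 * arm half (r i) ^ 2 := by
      simp only [hBdef, if_neg (not_lt.2 h)]
      exact tupleprob_Pr _ _
    refine h2.trans ?_
    have hr1 : 1 ≤ r i := by simp only [hr]; omega
    have hrn : r i ≤ n := by
      have h3 := hρ1 i
      unfold dbd at h3
      simp only [hr]
      omega
    have hr8 : (ρ i : ℝ) ≤ 8 * r i := by
      have : ρ i ≤ 8 * r i := by simp only [hr]; omega
      exact_mod_cast this
    have hr0 : (0 : ℝ) < r i := by exact_mod_cast hr1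
    have h3 := H1 half le_rfl (r i) n hr1 hrn
    have h4 : (c1 * Real.sqrt ((r i : ℝ) / n) * arm half (r i)) ^ 2 ≤ arm half n ^ 2 :=
      pow_le_pow_left₀ (mul_nonneg (by positivity) arm_nonneg) h3 2
    rw [mul_pow, mul_pow, Real.sq_sqrt (by positivity)] at h4
    have h5 : arm half (r i) ^ 2 ≤ arm half n ^ 2 * (n / (c1 ^ 2 * r i)) := by
      calc arm half (r i) ^ 2 = (c1 ^ 2 * ((r i : ℝ) / n) * arm half (r i) ^ 2) *
            (n / (c1 ^ 2 * r i)) := by
            field_simp
        _ ≤ _ := mul_le_mul_of_nonneg_right h4 (by positivity)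
    have h6 : (8 / c1 ^ 2) ≤ C := le_max_left _ _
    calc 4 * arm half (r i) ^ 2 ≤ 4 * (arm half n ^ 2 * (n / (c1 ^ 2 * r i))) := by gcongr
      _ = (8 / c1 ^ 2) * arm half n ^ 2 * ((4 * n : ℕ) / (8 * r i)) := by
          push_cast
          field_simp
      _ ≤ C * arm half n ^ 2 * ((4 * n : ℕ) / (ρ i : ℝ)) := by
          have h7 : ((4 * n : ℕ) : ℝ) / (8 * r i) ≤ (4 * n : ℕ) / (ρ i : ℝ) :=
            div_le_div_of_nonneg_left (by positivity) hρ0 hr8
          gcongr

end Pool.Agent.H29.Kap
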