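import Pool.Agent.H29.Kap.Defs

/-! # A sum over tuples of edges -/

set_option autoImplicit false

namespace Pool.Agent.H29.Kap

open Pool.Agent.H89.Perc

/-- Sup distance between the first endpoints. -/
def dist2 (e e' : Edge) : ℕ := max (e.1 - e'.1).natAbs (e.2.1 - e'.2.1).natAbs

/-- Distance of the first endpoint to the boundary of the rectangle. -/
def dbd (a b c d : ℤ) (e : Edge) : ℕ :=
  (min (min (e.1 - a) (b - e.1)) (min (e.2.1 - c) (d - e.2.1))).toNat

/-! ### The abstract inequality -/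

section abstract_part

variable {α : Type*} [DecidableEq α]

/-- the upper factors -/
noncomputable def tupsum_U (s : α → ℝ) (t : α → α → ℝ) {j : ℕ} (e : Fin j → α) (i : Fin j) : ℝ :=
  1 + s (e i) + ∑ k ∈ Finset.univ.filter (fun k => i < k), t (e i) (e k)

/-- the lower factors -/
noncomputable def tupsum_D (s : α → ℝ) (t : α → α → ℝ) {j : ℕ} (e : Fin j → α) (i : Fin j) : ℝ :=
  1 + s (e i) + ∑ k ∈ Finset.univ.filter (fun k => k < i), t (e i) (e k)

lemma tupsum_pi_succ (E : Finset α) (n : ℕ) (f : (Fin (n + 1) → α) → ℝ) :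
    ∑ e ∈ Fintype.piFinset (fun _ : Fin (n + 1) => E), f e =
      ∑ e ∈ Fintype.piFinset (fun _ : Fin n => E), ∑ x ∈ E, f (Fin.cons x e) := by
  rw [← Finset.sum_product']
  refine Finset.sum_bij' (fun e _ => (Fin.tail e, e 0)) (fun p _ => Fin.cons p.2 p.1) ?_ ?_ ?_ ?_ ?_
  · intro e he
    rw [Fintype.mem_piFinset] at he
    simp only [Finset.mem_product, Fintype.mem_piFinset]
    exact ⟨fun i => he _, he 0⟩
  · intro p hp
    simp only [Finset.mem_product, Fintype.mem_piFinset] at hp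
    rw [Fintype.mem_piFinset]
    intro i
    refine Fin.cases ?_ (fun i => ?_) i
    · simpa using hp.2
    · simpa using hp.1 i
  · intro e _
    exact Fin.cons_self_tail e
  · intro p _
    simp
  · intro e _
    rw [Fin.cons_self_tail]

lemma tupsum_pi_rev (E : Finset α) (n : ℕ) (f : (Fin n → α) → ℝ) :
    ∑ e ∈ Fintype.piFinset (fun _ : Fin n => E), f e =
      ∑ e ∈ Fintype.piFinset (fun _ : Fin n => E), f (fun i => e (Fin.rev i)) := by
  refine Finset.sum_bij' (fun e _ => fun i => e (Fin.rev i)) (fun e _ => fun i => e (Fin.rev i))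
    ?_ ?_ ?_ ?_ ?_
  · intro e he
    rw [Fintype.mem_piFinset] at he ⊢
    exact fun i => he _
  · intro e he
    rw [Fintype.mem_piFinset] at he ⊢
    exact fun i => he _
  · intro e _
    funext i
    simp
  · intro e _
    funext i
    simp
  · intro e _
    congr 1
    funext i
    simp

lemma tupsum_U_nonneg {s : α → ℝ} {t : α → α → ℝ} (hs : ∀ x, 0 ≤ s x) (ht : ∀ x y, 0 ≤ t x y)
    {j : ℕ} (e : Fin j → α) (i : Fin j) : 1 ≤ tupsum_U s t e i := by
  unfold tupsum_U
  have := hs (e i)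
  have h2 : 0 ≤ ∑ k ∈ Finset.univ.filter (fun k => i < k), t (e i) (e k) :=
    Finset.sum_nonneg fun k _ => ht _ _
  linarith

lemma tupsum_U_sum {s : α → ℝ} {t : α → α → ℝ} (hs : ∀ x, 0 ≤ s x) (ht : ∀ x y, 0 ≤ t x y)
    (E : Finset α) {B : ℝ} (hB1 : (E.card : ℝ) ≤ B) (hB2 : ∑ x ∈ E, s x ≤ B)
    (hB3 : ∀ y ∈ E, ∑ x ∈ E, t x y ≤ B) (j : ℕ) :
    ∑ e ∈ Fintype.piFinset (fun _ : Fin j => E), ∏ i, tupsum_U s t e i ≤
      (j + 1).factorial * B ^ j := by
  have hB0 : 0 ≤ B := le_trans (by positivity) hB1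
  induction j with
  | zero => simp
  | succ n ih =>
    rw [tupsum_pi_succ]
    have key : ∀ e ∈ Fintype.piFinset (fun _ : Fin n => E),
        ∑ x ∈ E, ∏ i, tupsum_U s t (Fin.cons x e : Fin (n + 1) → α) i ≤
          ((n + 2 : ℕ) : ℝ) * B * ∏ i, tupsum_U s t e i := by
      intro e he
      rw [Fintype.mem_piFinset] at he
      have h1 : ∀ x, ∏ i, tupsum_U s t (Fin.cons x e : Fin (n + 1) → α) i =
          (1 + s x + ∑ k, t x (e k)) * ∏ i, tupsum_U s t e i := by
        intro x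
        rw [Fin.prod_univ_succ]
        congr 1
        · unfold tupsum_U
          rw [Fin.cons_zero]
          congr 1
          rw [Finset.sum_filter, Fin.sum_univ_succ]
          simp
        · refine Finset.prod_congr rfl fun i _ => ?_
          unfold tupsum_U
          rw [Fin.cons_succ]
          congr 1
          rw [Finset.sum_filter, Fin.sum_univ_succ, Finset.sum_filter]
          simp
      simp only [h1]
      rw [← Finset.sum_mul]
      refine mul_le_mul_of_nonneg_right ?_ (Finset.prod_nonneg fun i _ =>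
        le_trans zero_le_one (tupsum_U_nonneg hs ht e i))
      rw [Finset.sum_add_distrib, Finset.sum_add_distrib, Finset.sum_comm]
      have h2 : ∑ k, ∑ x ∈ E, t x (e k) ≤ ∑ _k : Fin n, B :=
        Finset.sum_le_sum fun k _ => hB3 _ (he k)
      simp only [Finset.sum_const, Finset.card_univ, Fintype.card_fin, nsmul_eq_mul, mul_one] at h2 ⊢
      push_cast
      nlinarith
    calc _ ≤ ∑ e ∈ Fintype.piFinset (fun _ : Fin n => E), ((n + 2 : ℕ) : ℝ) * B * ∏ i, tupsum_U s t e i :=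
          Finset.sum_le_sum key
      _ = ((n + 2 : ℕ) : ℝ) * B * ∑ e ∈ Fintype.piFinset (fun _ : Fin n => E), ∏ i, tupsum_U s t e i := by
          rw [Finset.mul_sum]
      _ ≤ ((n + 2 : ℕ) : ℝ) * B * ((n + 1).factorial * B ^ n) :=
          mul_le_mul_of_nonneg_left ih (by positivity)
      _ = _ := by
          rw [Nat.factorial_succ (n + 1)]
          push_cast
          ring

lemma tupsum_D_sum {s : α → ℝ} {t : α → α → ℝ} (hs : ∀ x, 0 ≤ s x) (ht : ∀ x y, 0 ≤ t x y)
    (E : Finset α) {B : ℝ} (hB1 : (E.card : ℝ) ≤ B) (hB2 : ∑ x ∈ E, s x ≤ B)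
    (hB3 : ∀ y ∈ E, ∑ x ∈ E, t x y ≤ B) (j : ℕ) :
    ∑ e ∈ Fintype.piFinset (fun _ : Fin j => E), ∏ i, tupsum_D s t e i ≤
      (j + 1).factorial * B ^ j := by
  rw [tupsum_pi_rev]
  refine le_of_eq_of_le (Finset.sum_congr rfl fun e _ => ?_) (tupsum_U_sum hs ht E hB1 hB2 hB3 j)
  refine Fintype.prod_equiv Fin.revPerm _ _ fun i => ?_
  unfold tupsum_D tupsum_U
  simp only [Fin.revPerm_apply]
  congr 1
  refine Finset.sum_bij' (fun k _ => Fin.rev k) (fun k _ => Fin.rev k) ?_ ?_ ?_ ?_ ?_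
  · intro k hk
    simp only [Finset.mem_filter, Finset.mem_univ, true_and] at hk ⊢
    exact Fin.rev_lt_rev.2 hk
  · intro k hk
    simp only [Finset.mem_filter, Finset.mem_univ, true_and] at hk ⊢
    rw [← Fin.rev_lt_rev, Fin.rev_rev]
    exact hk
  · simp
  · simp
  · simp

lemma tupsum_prod {s : α → ℝ} {t : α → α → ℝ} (hs : ∀ x, 0 ≤ s x) (ht : ∀ x y, 0 ≤ t x y)
    {j : ℕ} (e : Fin j → α) (w : Fin j → ℝ) (hw0 : ∀ i, 0 ≤ w i)
    (hw : ∀ i, w i = s (e i) ∨ ∃ k, k ≠ i ∧ w i ^ 2 = t (e i) (e k)) :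
    ∏ i, w i ≤ (∏ i, tupsum_D s t e i + ∏ i, tupsum_U s t e i) / 2 := by
  have hD : ∀ i, 1 ≤ tupsum_D s t e i := by
    intro i
    unfold tupsum_D
    have := hs (e i)
    have h2 : 0 ≤ ∑ k ∈ Finset.univ.filter (fun k => k < i), t (e i) (e k) :=
      Finset.sum_nonneg fun k _ => ht _ _
    linarith
  have hU : ∀ i, 1 ≤ tupsum_U s t e i := fun i => tupsum_U_nonneg hs ht e i
  have hone : ∀ i, w i ^ 2 ≤ tupsum_D s t e i * tupsum_U s t e i := by
    intro i
    rcases hw i with h | ⟨k, hk, h⟩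
    · have h1 : s (e i) ≤ tupsum_D s t e i := by
        unfold tupsum_D
        have h2 : 0 ≤ ∑ k ∈ Finset.univ.filter (fun k => k < i), t (e i) (e k) :=
          Finset.sum_nonneg fun k _ => ht _ _
        linarith
      have h3 : s (e i) ≤ tupsum_U s t e i := by
        unfold tupsum_U
        have h2 : 0 ≤ ∑ k ∈ Finset.univ.filter (fun k => i < k), t (e i) (e k) :=
          Finset.sum_nonneg fun k _ => ht _ _
        linarith
      rw [h, sq]
      exact mul_le_mul h1 h3 (hs _) (le_trans zero_le_one (hD i))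
    · rw [h]
      rcases lt_or_gt_of_ne hk with hlt | hgt
      · have h1 : t (e i) (e k) ≤ tupsum_D s t e i := by
          unfold tupsum_D
          have h2 : t (e i) (e k) ≤ ∑ k ∈ Finset.univ.filter (fun k => k < i), t (e i) (e k) :=
            Finset.single_le_sum (f := fun k => t (e i) (e k)) (fun k _ => ht _ _) (by simpa using hlt)
          have := hs (e i)
          linarith
        have h3 := hU i
        have h4 := ht (e i) (e k)
        nlinarith
      · have h1 : t (e i) (e k) ≤ tupsum_U s t e i := by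
          unfold tupsum_U
          have h2 : t (e i) (e k) ≤ ∑ k ∈ Finset.univ.filter (fun k => i < k), t (e i) (e k) :=
            Finset.single_le_sum (f := fun k => t (e i) (e k)) (fun k _ => ht _ _) (by simpa using hgt)
          have := hs (e i)
          linarith
        have h3 := hD i
        have h4 := ht (e i) (e k)
        nlinarith
  have h2 : (∏ i, w i) ^ 2 ≤ (∏ i, tupsum_D s t e i) * ∏ i, tupsum_U s t e i := by
    rw [← Finset.prod_pow, ← Finset.prod_mul_distrib]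
    exact Finset.prod_le_prod (fun i _ => sq_nonneg _) fun i _ => hone i
  have hDp : 0 ≤ ∏ i, tupsum_D s t e i :=
    Finset.prod_nonneg fun i _ => le_trans zero_le_one (hD i)
  have hUp : 0 ≤ ∏ i, tupsum_U s t e i :=
    Finset.prod_nonneg fun i _ => le_trans zero_le_one (hU i)
  refine le_of_sq_le_sq ?_ (by positivity)
  refine h2.trans ?_
  nlinarith [sq_nonneg (∏ i, tupsum_D s t e i - ∏ i, tupsum_U s t e i)]

end abstract_part

/-! ### One dimensional sums -/

lemma tupsum_fiber (s : Finset ℤ) (g : ℤ → ℕ) (κ L : ℕ)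
    (hκ : ∀ n, (s.filter (fun x => g x = n)).card ≤ κ) (hL : ∀ x ∈ s, g x ≤ L)
    (f : ℕ → ℝ) (hf : ∀ n, 0 ≤ f n) :
    ∑ x ∈ s, f (g x) ≤ κ * ∑ n ∈ Finset.range (L + 1), f n := by
  rw [Finset.sum_comp, Finset.mul_sum]
  have h1 : ∀ n ∈ s.image g, ((s.filter (fun x => g x = n)).card) • f n ≤ κ * f n := by
    intro n _
    rw [nsmul_eq_mul]
    exact mul_le_mul_of_nonneg_right (by exact_mod_cast hκ n) (hf n)
  refine (Finset.sum_le_sum h1).trans ?_
  refine Finset.sum_le_sum_of_subset_of_nonneg ?_ fun n _ _ => mul_nonneg (by positivity) (hf n)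
  intro n hn
  obtain ⟨x, hx, rfl⟩ := Finset.mem_image.1 hn
  exact Finset.mem_range.2 (Nat.lt_succ_of_le (hL x hx))

/-- a harmonic sum -/
noncomputable def tupsum_h (n : ℕ) : ℝ := 1 / max (n : ℝ) 1

lemma tupsum_h_nonneg (n : ℕ) : 0 ≤ tupsum_h n := by unfold tupsum_h; positivity

lemma tupsum_log {M : ℕ} (hM : 1 ≤ M) : 1 / 2 ≤ Real.log (2 * M) := by
  have h1 : (1 : ℝ) ≤ M := by exact_mod_cast hM
  have h2 : Real.log 2 ≤ Real.log (2 * M) := Real.log_le_log (by norm_num) (by linarith)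
  have := Real.log_two_gt_d9
  linarith

lemma tupsum_harm {M : ℕ} (hM : 1 ≤ M) :
    ∑ n ∈ Finset.range (M + 1), tupsum_h n ≤ 5 * Real.log (2 * M) := by
  have h1 : (1 : ℝ) ≤ M := by exact_mod_cast hM
  rw [Finset.sum_range_succ']
  have h2 : ∑ n ∈ Finset.range M, tupsum_h (n + 1) = (harmonic M : ℝ) := by
    rw [harmonic]
    push_cast
    refine Finset.sum_congr rfl fun i _ => ?_
    unfold tupsum_h
    push_cast
    rw [max_eq_left (by linarith [Nat.cast_nonneg (α := ℝ) i]), one_div]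
  have h3 := harmonic_le_one_add_log M
  have h4 : Real.log M ≤ Real.log (2 * M) := Real.log_le_log (by linarith) (by linarith)
  have h5 := tupsum_log hM
  have h6 : tupsum_h 0 = 1 := by unfold tupsum_h; norm_num
  rw [h2, h6]
  linarith

lemma tupsum_toNat {M : ℕ} (a b : ℤ) (hab : b - a ≤ M) (f : ℕ → ℝ)
    (hf : ∀ n, 0 ≤ f n) :
    ∑ x ∈ Finset.Icc a b, f (x - a).toNat ≤ ∑ n ∈ Finset.range (M + 1), f n := by
  have := tupsum_fiber (Finset.Icc a b) (fun x => (x - a).toNat) 1 M (fun n => by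
    rw [Finset.card_le_one]
    intro x hx y hy
    simp only [Finset.mem_filter, Finset.mem_Icc] at hx hy
    omega) (fun x hx => by
    simp only [Finset.mem_Icc] at hx
    show (x - a).toNat ≤ M
    omega) f hf
  simpa using this

lemma tupsum_toNat' {M : ℕ} (a b : ℤ) (hab : b - a ≤ M) (f : ℕ → ℝ)
    (hf : ∀ n, 0 ≤ f n) :
    ∑ x ∈ Finset.Icc a b, f (b - x).toNat ≤ ∑ n ∈ Finset.range (M + 1), f n := by
  have := tupsum_fiber (Finset.Icc a b) (fun x => (b - x).toNat) 1 M (fun n => by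
    rw [Finset.card_le_one]
    intro x hx y hy
    simp only [Finset.mem_filter, Finset.mem_Icc] at hx hy
    omega) (fun x hx => by
    simp only [Finset.mem_Icc] at hx
    show (b - x).toNat ≤ M
    omega) f hf
  simpa using this

lemma tupsum_natAbs {M : ℕ} (a b : ℤ) (hab : b - a ≤ M) (x' : ℤ) (hx' : x' ∈ Finset.Icc a b)
    (f : ℕ → ℝ) (hf : ∀ n, 0 ≤ f n) :
    ∑ x ∈ Finset.Icc a b, f (x - x').natAbs ≤ 2 * ∑ n ∈ Finset.range (M + 1), f n := by
  rw [Finset.mem_Icc] at hx'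
  have := tupsum_fiber (Finset.Icc a b) (fun x => (x - x').natAbs) 2 M (fun n => by
    refine (Finset.card_le_card (t := {x' + n, x' - n}) ?_).trans Finset.card_le_two
    intro x hx
    simp only [Finset.mem_filter, Finset.mem_Icc] at hx
    simp only [Finset.mem_insert, Finset.mem_singleton]
    omega) (fun x hx => by
    simp only [Finset.mem_Icc] at hx
    show (x - x').natAbs ≤ M
    omega) f hf
  simpa using this

/-- sum of inverse squares -/
lemma tupsum_sq (m L : ℕ) (hm : 1 ≤ m) :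
    ∑ n ∈ Finset.range L, (1 : ℝ) / (max (m : ℝ) (n : ℝ)) ^ 2 ≤ 6 / (m : ℝ) := by
  have hm' : (1 : ℝ) ≤ m := by exact_mod_cast hm
  have h1 : ∀ n ∈ Finset.range L, 1 / (max (m : ℝ) n) ^ 2 ≤
      6 * (1 / ((m : ℝ) + n) - 1 / ((m : ℝ) + (n + 1 : ℕ))) := by
    intro n _
    have hn : (0 : ℝ) ≤ n := Nat.cast_nonneg n
    have e1 : 6 * (1 / ((m : ℝ) + n) - 1 / ((m : ℝ) + (n + 1 : ℕ))) =
        6 / (((m : ℝ) + n) * (m + n + 1)) := by
      push_cast
      field_simp
      ring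
    rw [e1, div_le_div_iff₀ (by positivity) (by positivity)]
    have h2 : (m : ℝ) + n ≤ 2 * max (m : ℝ) n := by
      have := le_max_left (m : ℝ) n
      have := le_max_right (m : ℝ) n
      linarith
    have h3 : (m : ℝ) + n + 1 ≤ 3 * max (m : ℝ) n := by
      have := le_max_left (m : ℝ) n
      have := le_max_right (m : ℝ) n
      linarith
    have h4 : (0 : ℝ) ≤ (m : ℝ) + n := by positivity
    have h5 : (0 : ℝ) ≤ 2 * max (m : ℝ) n := by positivity
    calc 1 * (((m : ℝ) + n) * (m + n + 1)) ≤ (2 * max (m : ℝ) n) * (3 * max (m : ℝ) n) := by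
          rw [one_mul]
          exact mul_le_mul h2 h3 (by positivity) h5
      _ = 6 * max (m : ℝ) n ^ 2 := by ring
  refine (Finset.sum_le_sum h1).trans ?_
  rw [← Finset.mul_sum, Finset.sum_range_sub' (fun n : ℕ => 1 / ((m : ℝ) + (n : ℝ)))]
  have h2 : (0 : ℝ) ≤ 1 / ((m : ℝ) + L) := by positivity
  push_cast
  rw [add_zero, show (6 : ℝ) / m = 6 * (1 / m) by ring]
  linarith

/-! ### Sums over the edges of a rectangle -/

lemma tupsum_redges_le {a b c d : ℤ} (f : ℤ → ℤ → ℝ) (hf : ∀ x y, 0 ≤ f x y) :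
    ∑ e ∈ redges a b c d, f e.1 e.2.1 ≤
      2 * ∑ x ∈ Finset.Icc a b, ∑ y ∈ Finset.Icc c d, f x y := by
  have hsub : redges a b c d ⊆ Finset.Icc a b ×ˢ Finset.Icc c d ×ˢ (Finset.univ : Finset Bool) := by
    intro e he
    obtain ⟨x, y, t⟩ := e
    simp only [redges, Finset.mem_union, Finset.mem_product, Finset.mem_Icc, Finset.mem_singleton,
      Finset.mem_univ, and_true] at he ⊢
    omega
  refine (Finset.sum_le_sum_of_subset_of_nonneg hsub fun e _ _ => hf _ _).trans ?_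
  rw [Finset.sum_product]
  simp only [Finset.sum_product]
  simp only [Finset.sum_const, Finset.card_univ, Fintype.card_bool, nsmul_eq_mul]
  rw [Finset.mul_sum]
  simp only [Finset.mul_sum]
  push_cast
  exact le_rfl

lemma tupsum_card_Icc {M : ℕ} (a b : ℤ) (hM : 1 ≤ M) (hab : b - a ≤ M) :
    ((Finset.Icc a b).card : ℝ) ≤ 2 * M := by
  rw [Int.card_Icc]
  have : (b + 1 - a).toNat ≤ 2 * M := by omega
  exact_mod_cast this

lemma tupsum_one {M : ℕ} (hM : 1 ≤ M) {a b c d : ℤ} (hab : b - a ≤ M) (hcd : d - c ≤ M) :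
    ((redges a b c d).card : ℝ) ≤ 480 * (M : ℝ) ^ 2 * Real.log (2 * M) := by
  have h1 := tupsum_redges_le (a := a) (b := b) (c := c) (d := d) (fun _ _ => 1)
    (fun _ _ => zero_le_one)
  simp only [Finset.sum_const, nsmul_eq_mul, mul_one] at h1
  have h2 := tupsum_card_Icc a b hM hab
  have h3 := tupsum_card_Icc c d hM hcd
  have h4 := tupsum_log hM
  have h5 : ((Finset.Icc a b).card : ℝ) * ((Finset.Icc c d).card : ℝ) ≤ 2 * M * (2 * M) :=
    mul_le_mul h2 h3 (by positivity) (by positivity)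
  have h6 : (0 : ℝ) ≤ (M : ℝ) ^ 2 := by positivity
  nlinarith

lemma tupsum_two {M : ℕ} (hM : 1 ≤ M) {a b c d : ℤ} (hab : b - a ≤ M) (hcd : d - c ≤ M) :
    ∑ e ∈ redges a b c d, (M : ℝ) / max (dbd a b c d e : ℝ) 1 ≤
      480 * (M : ℝ) ^ 2 * Real.log (2 * M) := by
  have hM' : (0 : ℝ) ≤ M := Nat.cast_nonneg M
  set Λ := Real.log (2 * M) with hΛ
  have hΛ0 : 1 / 2 ≤ Λ := tupsum_log hM
  have hH := tupsum_harm hM
  rw [← hΛ] at hH
  -- pointwise
  have h1 : ∀ e ∈ redges a b c d, (M : ℝ) / max (dbd a b c d e : ℝ) 1 ≤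
      (fun x y : ℤ => (M : ℝ) * (tupsum_h (x - a).toNat + tupsum_h (b - x).toNat +
        (tupsum_h (y - c).toNat + tupsum_h (d - y).toNat))) e.1 e.2.1 := by
    intro e _
    show (M : ℝ) / max (dbd a b c d e : ℝ) 1 ≤ (M : ℝ) * (tupsum_h (e.1 - a).toNat +
      tupsum_h (b - e.1).toNat + (tupsum_h (e.2.1 - c).toNat + tupsum_h (d - e.2.1).toNat))
    have e1 : (M : ℝ) / max (dbd a b c d e : ℝ) 1 = M * tupsum_h (dbd a b c d e) := by
      unfold tupsum_h; ring
    rw [e1]
    refine mul_le_mul_of_nonneg_left ?_ hM'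
    have n1 := tupsum_h_nonneg (e.1 - a).toNat
    have n2 := tupsum_h_nonneg (b - e.1).toNat
    have n3 := tupsum_h_nonneg (e.2.1 - c).toNat
    have n4 := tupsum_h_nonneg (d - e.2.1).toNat
    have hor : dbd a b c d e = (e.1 - a).toNat ∨ dbd a b c d e = (b - e.1).toNat ∨
        dbd a b c d e = (e.2.1 - c).toNat ∨ dbd a b c d e = (d - e.2.1).toNat := by
      unfold dbd
      omega
    rcases hor with h | h | h | h <;> rw [h] <;> linarith
  refine (Finset.sum_le_sum h1).trans ?_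
  refine (tupsum_redges_le (fun x y : ℤ => (M : ℝ) * (tupsum_h (x - a).toNat +
    tupsum_h (b - x).toNat + (tupsum_h (y - c).toNat + tupsum_h (d - y).toNat))) ?_).trans ?_
  · intro x y
    have n1 := tupsum_h_nonneg (x - a).toNat
    have n2 := tupsum_h_nonneg (b - x).toNat
    have n3 := tupsum_h_nonneg (y - c).toNat
    have n4 := tupsum_h_nonneg (d - y).toNat
    positivity
  · simp only [← Finset.mul_sum]
    simp only [Finset.sum_add_distrib, Finset.sum_const, nsmul_eq_mul]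
    have c1 := tupsum_card_Icc a b hM hab
    have c2 := tupsum_card_Icc c d hM hcd
    have s1 := (tupsum_toNat a b hab tupsum_h tupsum_h_nonneg).trans hH
    have s2 := (tupsum_toNat' a b hab tupsum_h tupsum_h_nonneg).trans hH
    have s3 := (tupsum_toNat c d hcd tupsum_h tupsum_h_nonneg).trans hH
    have s4 := (tupsum_toNat' c d hcd tupsum_h tupsum_h_nonneg).trans hH
    have m1 := mul_le_mul c2 s1 (Finset.sum_nonneg fun _ _ => tupsum_h_nonneg _) (by positivity)
    have m2 := mul_le_mul c2 s2 (Finset.sum_nonneg fun _ _ => tupsum_h_nonneg _) (by positivity)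
    have m3 := mul_le_mul c1 s3 (Finset.sum_nonneg fun _ _ => tupsum_h_nonneg _) (by positivity)
    have m4 := mul_le_mul c1 s4 (Finset.sum_nonneg fun _ _ => tupsum_h_nonneg _) (by positivity)
    simp only [← Finset.mul_sum]
    have key : ((Finset.Icc c d).card : ℝ) * ∑ x ∈ Finset.Icc a b, tupsum_h (x - a).toNat +
        ((Finset.Icc c d).card : ℝ) * ∑ x ∈ Finset.Icc a b, tupsum_h (b - x).toNat +
        (((Finset.Icc a b).card : ℝ) * ∑ x ∈ Finset.Icc c d, tupsum_h (x - c).toNat +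
        ((Finset.Icc a b).card : ℝ) * ∑ x ∈ Finset.Icc c d, tupsum_h (d - x).toNat) ≤
        4 * (2 * M * (5 * Λ)) := by linarith
    have key2 := mul_le_mul_of_nonneg_left key hM'
    have h6 : (0 : ℝ) ≤ (M : ℝ) ^ 2 * Λ := by positivity
    nlinarith

lemma tupsum_three {M : ℕ} (hM : 1 ≤ M) {a b c d : ℤ} (hab : b - a ≤ M) (hcd : d - c ≤ M)
    (e' : Edge) (he' : e' ∈ redges a b c d) :
    ∑ e ∈ redges a b c d, ((M : ℝ) / max (dist2 e e' : ℝ) 1) ^ 2 ≤
      480 * (M : ℝ) ^ 2 * Real.log (2 * M) := by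
  have hM' : (0 : ℝ) ≤ M := Nat.cast_nonneg M
  set Λ := Real.log (2 * M) with hΛ
  have hΛ0 : 1 / 2 ≤ Λ := tupsum_log hM
  have hH := tupsum_harm hM
  rw [← hΛ] at hH
  have hx' : e'.1 ∈ Finset.Icc a b := by
    obtain ⟨x, y, t⟩ := e'
    simp only [redges, Finset.mem_union, Finset.mem_product, Finset.mem_Icc,
      Finset.mem_singleton] at he' ⊢
    omega
  have hy' : e'.2.1 ∈ Finset.Icc c d := by
    obtain ⟨x, y, t⟩ := e'
    simp only [redges, Finset.mem_union, Finset.mem_product, Finset.mem_Icc,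
      Finset.mem_singleton] at he' ⊢
    omega
  have h1 : ∀ e ∈ redges a b c d, ((M : ℝ) / max (dist2 e e' : ℝ) 1) ^ 2 =
      (fun x y : ℤ => (M : ℝ) ^ 2 * (1 / (max ((max (x - e'.1).natAbs 1 : ℕ) : ℝ)
        ((y - e'.2.1).natAbs : ℕ)) ^ 2)) e.1 e.2.1 := by
    intro e _
    show ((M : ℝ) / max (dist2 e e' : ℝ) 1) ^ 2 = (M : ℝ) ^ 2 * (1 / (max
      ((max (e.1 - e'.1).natAbs 1 : ℕ) : ℝ) ((e.2.1 - e'.2.1).natAbs : ℕ)) ^ 2)
    have : max (dist2 e e' : ℝ) 1 = max ((max (e.1 - e'.1).natAbs 1 : ℕ) : ℝ)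
        ((e.2.1 - e'.2.1).natAbs : ℕ) := by
      unfold dist2
      push_cast
      rw [max_assoc, max_comm ((((e.2.1 - e'.2.1).natAbs : ℕ)) : ℝ) 1, ← max_assoc]
    rw [this, div_pow]
    ring
  rw [Finset.sum_congr rfl h1]
  refine (tupsum_redges_le (fun x y : ℤ => (M : ℝ) ^ 2 * (1 / (max ((max (x - e'.1).natAbs 1 : ℕ) : ℝ)
        ((y - e'.2.1).natAbs : ℕ)) ^ 2)) (fun x y => by positivity)).trans ?_
  simp only [← Finset.mul_sum]
  have h2 : ∀ x ∈ Finset.Icc a b, ∑ y ∈ Finset.Icc c d, (1 / (max ((max (x - e'.1).natAbs 1 : ℕ) : ℝ)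
      ((y - e'.2.1).natAbs : ℕ)) ^ 2) ≤ 12 * tupsum_h (x - e'.1).natAbs := by
    intro x _
    have h3 := tupsum_natAbs c d hcd e'.2.1 hy' (fun n => 1 / (max ((max (x - e'.1).natAbs 1 : ℕ) : ℝ)
      (n : ℝ)) ^ 2) (fun n => by positivity)
    have h4 := tupsum_sq (max (x - e'.1).natAbs 1) (M + 1) (le_max_right _ _)
    have h5 : (6 : ℝ) / ((max (x - e'.1).natAbs 1 : ℕ) : ℝ) = 6 * tupsum_h (x - e'.1).natAbs := by
      unfold tupsum_h
      push_cast
      ring
    rw [h5] at h4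
    linarith
  have h6 := Finset.sum_le_sum h2
  rw [← Finset.mul_sum] at h6
  have h7 := (tupsum_natAbs a b hab e'.1 hx' tupsum_h tupsum_h_nonneg)
  have h8 : ∑ x ∈ Finset.Icc a b, ∑ y ∈ Finset.Icc c d, (1 / (max ((max (x - e'.1).natAbs 1 : ℕ) : ℝ)
      ((y - e'.2.1).natAbs : ℕ)) ^ 2) ≤ 120 * Λ := by linarith
  have h9 : (0 : ℝ) ≤ (M : ℝ) ^ 2 := by positivity
  have h10 := mul_le_mul_of_nonneg_left h8 h9
  nlinarith

/-- Sum over `j`-tuples of edges of a rectangle (side lengths at most `M`) of the product of the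
inverse distances to the nearest other point or to the boundary. -/
theorem tuple_sum : ∃ C : ℝ, 0 < C ∧ ∀ M : ℕ, 1 ≤ M → ∀ a b c d : ℤ, b - a ≤ M → d - c ≤ M →
    ∀ (j : ℕ) (ρ : (Fin j → Edge) → Fin j → ℕ),
      (∀ e i, ρ e i = dbd a b c d (e i) ∨ ∃ k, k ≠ i ∧ ρ e i = dist2 (e i) (e k)) →
      ∑ e ∈ Fintype.piFinset (fun _ : Fin j => redges a b c d),
          ∏ i, (M : ℝ) / max (ρ e i : ℝ) 1 ≤
        (j + 1).factorial * (C * (M : ℝ) ^ 2 * Real.log (2 * M)) ^ j := by
  refine ⟨480, by norm_num, fun M hM a b c d hab hcd j ρ hρ => ?_⟩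
  set s : Edge → ℝ := fun e => (M : ℝ) / max (dbd a b c d e : ℝ) 1 with hs
  set t : Edge → Edge → ℝ := fun e e' => ((M : ℝ) / max (dist2 e e' : ℝ) 1) ^ 2 with ht
  have hs0 : ∀ x, 0 ≤ s x := fun x => by simp only [hs]; positivity
  have ht0 : ∀ x y, 0 ≤ t x y := fun x y => by simp only [ht]; positivity
  have hD := tupsum_D_sum hs0 ht0 (redges a b c d) (tupsum_one hM hab hcd)
    (tupsum_two hM hab hcd) (tupsum_three hM hab hcd) j
  have hU := tupsum_U_sum hs0 ht0 (redges a b c d) (tupsum_one hM hab hcd)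
    (tupsum_two hM hab hcd) (tupsum_three hM hab hcd) j
  have h1 : ∀ e ∈ Fintype.piFinset (fun _ : Fin j => redges a b c d),
      ∏ i, (M : ℝ) / max (ρ e i : ℝ) 1 ≤
        (∏ i, tupsum_D s t e i + ∏ i, tupsum_U s t e i) / 2 := by
    intro e _
    refine tupsum_prod hs0 ht0 e (fun i => (M : ℝ) / max (ρ e i : ℝ) 1)
      (fun i => by positivity) fun i => ?_
    rcases hρ e i with h | ⟨k, hk, h⟩
    · left
      simp only [hs, h]
    · right
      exact ⟨k, hk, by simp only [ht, h]⟩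
  refine (Finset.sum_le_sum h1).trans ?_
  rw [← Finset.sum_div, Finset.sum_add_distrib]
  linarith

end Pool.Agent.H29.Kap
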