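import Pool.Agent.H29.Kap.TupleSum

/-! # A sum over tuples of edges, exponent `2/3` -/

set_option autoImplicit false

namespace Pool.Agent.H29.Kap

open Pool.Agent.H89.Perc

/-- the weight -/
noncomputable def tuplesum3_g (M n : ℕ) : ℝ := ((M : ℝ) / max (n : ℝ) 1) ^ (2 / 3 : ℝ)

lemma tuplesum3_g_nonneg (M n : ℕ) : 0 ≤ tuplesum3_g M n := by
  unfold tuplesum3_g; positivity

lemma tuplesum3_g_anti (M : ℕ) {m n : ℕ} (h : m ≤ n) : tuplesum3_g M n ≤ tuplesum3_g M m := by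
  unfold tuplesum3_g
  refine Real.rpow_le_rpow (by positivity) ?_ (by norm_num)
  refine div_le_div_of_nonneg_left (by positivity) (by positivity) ?_
  exact max_le_max (by exact_mod_cast h) le_rfl

lemma tuplesum3_pow (n : ℕ) :
    ∑ k ∈ Finset.range n, ((k : ℝ) + 1) ^ (-(2 / 3) : ℝ) ≤ 3 * (n : ℝ) ^ (1 / 3 : ℝ) := by
  induction n with
  | zero => simp
  | succ n ih =>
    rw [Finset.sum_range_succ]
    have hn : (0 : ℝ) ≤ n := Nat.cast_nonneg n
    have hn1 : (0 : ℝ) < (n : ℝ) + 1 := by positivity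
    set u : ℝ := ((n : ℝ) + 1) ^ (1 / 3 : ℝ) with hu
    set v : ℝ := (n : ℝ) ^ (1 / 3 : ℝ) with hv
    have hu0 : 0 < u := Real.rpow_pos_of_pos hn1 _
    have hv0 : 0 ≤ v := Real.rpow_nonneg hn _
    have hu3 : u ^ 3 = (n : ℝ) + 1 := by
      rw [hu, ← Real.rpow_natCast, ← Real.rpow_mul hn1.le]
      norm_num
    have hv3 : v ^ 3 = (n : ℝ) := by
      rw [hv, ← Real.rpow_natCast, ← Real.rpow_mul hn]
      norm_num
    have huv : v ≤ u := Real.rpow_le_rpow hn (by linarith) (by norm_num)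
    have hw : ((n : ℝ) + 1) ^ (-(2 / 3) : ℝ) = 1 / u ^ 2 := by
      rw [hu, ← Real.rpow_natCast, ← Real.rpow_mul hn1.le, Real.rpow_neg hn1.le]
      norm_num
    rw [hw]
    push_cast
    have h1 : 1 / u ^ 2 ≤ 3 * (u - v) := by
      rw [div_le_iff₀ (by positivity)]
      have h2 : (u - v) * (u ^ 2 + u * v + v ^ 2) = 1 := by
        have : (u - v) * (u ^ 2 + u * v + v ^ 2) = u ^ 3 - v ^ 3 := by ring
        rw [this, hu3, hv3]; ring
      have h3 : u ^ 2 + u * v + v ^ 2 ≤ 3 * u ^ 2 := by nlinarith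
      have h4 : 0 ≤ u - v := by linarith
      nlinarith [mul_le_mul_of_nonneg_left h3 h4]
    linarith

lemma tuplesum3_sum {M : ℕ} (hM : 1 ≤ M) :
    ∑ n ∈ Finset.range (M + 1), tuplesum3_g M n ≤ 4 * (M : ℝ) := by
  have hM' : (1 : ℝ) ≤ M := by exact_mod_cast hM
  have hM0 : (0 : ℝ) < M := by linarith
  rw [Finset.sum_range_succ']
  have h0 : tuplesum3_g M 0 = (M : ℝ) ^ (2 / 3 : ℝ) := by
    unfold tuplesum3_g; norm_num
  have h1 : ∀ k ∈ Finset.range M, tuplesum3_g M (k + 1) =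
      (M : ℝ) ^ (2 / 3 : ℝ) * ((k : ℝ) + 1) ^ (-(2 / 3) : ℝ) := by
    intro k _
    have hk : (0 : ℝ) ≤ k := Nat.cast_nonneg k
    unfold tuplesum3_g
    push_cast
    rw [max_eq_left (by linarith), Real.div_rpow hM0.le (by linarith), Real.rpow_neg (by linarith),
      div_eq_mul_inv]
  rw [Finset.sum_congr rfl h1, ← Finset.mul_sum, h0]
  have h2 := tuplesum3_pow M
  have hp : (0 : ℝ) < (M : ℝ) ^ (2 / 3 : ℝ) := Real.rpow_pos_of_pos hM0 _
  have h3 : (M : ℝ) ^ (2 / 3 : ℝ) * (M : ℝ) ^ (1 / 3 : ℝ) = M := by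
    rw [← Real.rpow_add hM0]
    norm_num
  have h4 : (M : ℝ) ^ (2 / 3 : ℝ) ≤ M := by
    calc (M : ℝ) ^ (2 / 3 : ℝ) ≤ (M : ℝ) ^ (1 : ℝ) :=
          Real.rpow_le_rpow_of_exponent_le hM' (by norm_num)
      _ = M := Real.rpow_one _
  have h5 := mul_le_mul_of_nonneg_left h2 hp.le
  have h6 : (M : ℝ) ^ (2 / 3 : ℝ) * (3 * (M : ℝ) ^ (1 / 3 : ℝ)) = 3 * M := by
    linarith
  linarith

lemma tuplesum3_one {M : ℕ} (hM : 1 ≤ M) {a b c d : ℤ} (hab : b - a ≤ M) (hcd : d - c ≤ M) :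
    ((redges a b c d).card : ℝ) ≤ 128 * (M : ℝ) ^ 2 := by
  have h1 := tupsum_redges_le (a := a) (b := b) (c := c) (d := d) (fun _ _ => 1)
    (fun _ _ => zero_le_one)
  simp only [Finset.sum_const, nsmul_eq_mul, mul_one] at h1
  have h2 := tupsum_card_Icc a b hM hab
  have h3 := tupsum_card_Icc c d hM hcd
  have h5 : ((Finset.Icc a b).card : ℝ) * ((Finset.Icc c d).card : ℝ) ≤ 2 * M * (2 * M) :=
    mul_le_mul h2 h3 (by positivity) (by positivity)
  have h6 : (0 : ℝ) ≤ (M : ℝ) ^ 2 := by positivity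
  nlinarith

lemma tuplesum3_two {M : ℕ} (hM : 1 ≤ M) {a b c d : ℤ} (hab : b - a ≤ M) (hcd : d - c ≤ M) :
    ∑ e ∈ redges a b c d, tuplesum3_g M (dbd a b c d e) ≤ 128 * (M : ℝ) ^ 2 := by
  have hM' : (0 : ℝ) ≤ M := Nat.cast_nonneg M
  have hH := tuplesum3_sum hM
  have hg0 := tuplesum3_g_nonneg M
  have h1 : ∀ e ∈ redges a b c d, tuplesum3_g M (dbd a b c d e) ≤
      (fun x y : ℤ => (tuplesum3_g M (x - a).toNat + tuplesum3_g M (b - x).toNat +
        (tuplesum3_g M (y - c).toNat + tuplesum3_g M (d - y).toNat))) e.1 e.2.1 := by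
    intro e _
    show tuplesum3_g M (dbd a b c d e) ≤ (tuplesum3_g M (e.1 - a).toNat +
      tuplesum3_g M (b - e.1).toNat +
        (tuplesum3_g M (e.2.1 - c).toNat + tuplesum3_g M (d - e.2.1).toNat))
    have n1 := hg0 (e.1 - a).toNat
    have n2 := hg0 (b - e.1).toNat
    have n3 := hg0 (e.2.1 - c).toNat
    have n4 := hg0 (d - e.2.1).toNat
    have hor : dbd a b c d e = (e.1 - a).toNat ∨ dbd a b c d e = (b - e.1).toNat ∨
        dbd a b c d e = (e.2.1 - c).toNat ∨ dbd a b c d e = (d - e.2.1).toNat := by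
      unfold dbd
      omega
    rcases hor with h | h | h | h <;> rw [h] <;> linarith
  refine (Finset.sum_le_sum h1).trans ?_
  refine (tupsum_redges_le (fun x y : ℤ => (tuplesum3_g M (x - a).toNat +
    tuplesum3_g M (b - x).toNat + (tuplesum3_g M (y - c).toNat +
      tuplesum3_g M (d - y).toNat))) ?_).trans ?_
  · intro x y
    have n1 := hg0 (x - a).toNat
    have n2 := hg0 (b - x).toNat
    have n3 := hg0 (y - c).toNat
    have n4 := hg0 (d - y).toNat
    positivity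
  · simp only [Finset.sum_add_distrib, Finset.sum_const, nsmul_eq_mul]
    have c1 := tupsum_card_Icc a b hM hab
    have c2 := tupsum_card_Icc c d hM hcd
    have s1 := (tupsum_toNat a b hab (tuplesum3_g M) hg0).trans hH
    have s2 := (tupsum_toNat' a b hab (tuplesum3_g M) hg0).trans hH
    have s3 := (tupsum_toNat c d hcd (tuplesum3_g M) hg0).trans hH
    have s4 := (tupsum_toNat' c d hcd (tuplesum3_g M) hg0).trans hH
    have m1 := mul_le_mul c2 s1 (Finset.sum_nonneg fun _ _ => hg0 _) (by positivity)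
    have m2 := mul_le_mul c2 s2 (Finset.sum_nonneg fun _ _ => hg0 _) (by positivity)
    have m3 := mul_le_mul c1 s3 (Finset.sum_nonneg fun _ _ => hg0 _) (by positivity)
    have m4 := mul_le_mul c1 s4 (Finset.sum_nonneg fun _ _ => hg0 _) (by positivity)
    simp only [← Finset.mul_sum]
    nlinarith

lemma tuplesum3_three {M : ℕ} (hM : 1 ≤ M) {a b c d : ℤ} (hab : b - a ≤ M) (hcd : d - c ≤ M)
    (e' : Edge) (he' : e' ∈ redges a b c d) :
    ∑ e ∈ redges a b c d, tuplesum3_g M (dist2 e e') ^ 2 ≤ 128 * (M : ℝ) ^ 2 := by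
  have hM' : (0 : ℝ) ≤ M := Nat.cast_nonneg M
  have hH := tuplesum3_sum hM
  have hg0 := tuplesum3_g_nonneg M
  have hx' : e'.1 ∈ Finset.Icc a b := by
    obtain ⟨x, y, t⟩ := e'
    simp only [redges, Finset.mem_union, Finset.mem_product, Finset.mem_Icc,
      Finset.mem_singleton] at he' ⊢
    omega
  have hy' : e'.2.1 ∈ Finset.Icc c d := by
    obtain ⟨x, y, t⟩ := e'
    simp only [redges, Finset.mem_union, Finset.mem_product, Finset.mem_Icc,
      Finset.mem_singleton] at he' ⊢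
    omega
  have h1 : ∀ e ∈ redges a b c d, tuplesum3_g M (dist2 e e') ^ 2 ≤
      (fun x y : ℤ => tuplesum3_g M (x - e'.1).natAbs * tuplesum3_g M (y - e'.2.1).natAbs)
        e.1 e.2.1 := by
    intro e _
    show tuplesum3_g M (dist2 e e') ^ 2 ≤
      tuplesum3_g M (e.1 - e'.1).natAbs * tuplesum3_g M (e.2.1 - e'.2.1).natAbs
    rw [sq]
    exact mul_le_mul (tuplesum3_g_anti M (le_max_left _ _)) (tuplesum3_g_anti M (le_max_right _ _))
      (hg0 _) (hg0 _)
  refine (Finset.sum_le_sum h1).trans ?_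
  refine (tupsum_redges_le (fun x y : ℤ => tuplesum3_g M (x - e'.1).natAbs *
    tuplesum3_g M (y - e'.2.1).natAbs) (fun x y => mul_nonneg (hg0 _) (hg0 _))).trans ?_
  rw [← Finset.sum_mul_sum]
  have h7 := (tupsum_natAbs a b hab e'.1 hx' (tuplesum3_g M) hg0)
  have h8 := (tupsum_natAbs c d hcd e'.2.1 hy' (tuplesum3_g M) hg0)
  have h9 : ∑ x ∈ Finset.Icc a b, tuplesum3_g M (x - e'.1).natAbs ≤ 8 * M := by linarith
  have h10 : ∑ y ∈ Finset.Icc c d, tuplesum3_g M (y - e'.2.1).natAbs ≤ 8 * M := by linarith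
  have h11 := mul_le_mul h9 h10 (Finset.sum_nonneg fun _ _ => hg0 _) (by positivity)
  nlinarith

theorem tuple_sum3 : ∃ C : ℝ, 0 < C ∧ ∀ M : ℕ, 1 ≤ M → ∀ a b c d : ℤ, b - a ≤ M → d - c ≤ M →
    ∀ (j : ℕ) (ρ : (Fin j → Edge) → Fin j → ℕ),
      (∀ e i, ρ e i = dbd a b c d (e i) ∨ ∃ k, k ≠ i ∧ ρ e i = dist2 (e i) (e k)) →
      ∑ e ∈ Fintype.piFinset (fun _ : Fin j => redges a b c d),
          ∏ i, ((M : ℝ) / max (ρ e i : ℝ) 1) ^ (2 / 3 : ℝ) ≤
        (j + 1).factorial * (C * (M : ℝ) ^ 2) ^ j := by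
  refine ⟨128, by norm_num, fun M hM a b c d hab hcd j ρ hρ => ?_⟩
  set s : Edge → ℝ := fun e => tuplesum3_g M (dbd a b c d e) with hs
  set t : Edge → Edge → ℝ := fun e e' => tuplesum3_g M (dist2 e e') ^ 2 with ht
  have hs0 : ∀ x, 0 ≤ s x := fun x => tuplesum3_g_nonneg M _
  have ht0 : ∀ x y, 0 ≤ t x y := fun x y => sq_nonneg _
  have hD := tupsum_D_sum hs0 ht0 (redges a b c d) (tuplesum3_one hM hab hcd)
    (tuplesum3_two hM hab hcd) (tuplesum3_three hM hab hcd) j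
  have hU := tupsum_U_sum hs0 ht0 (redges a b c d) (tuplesum3_one hM hab hcd)
    (tuplesum3_two hM hab hcd) (tuplesum3_three hM hab hcd) j
  have h1 : ∀ e ∈ Fintype.piFinset (fun _ : Fin j => redges a b c d),
      ∏ i, ((M : ℝ) / max (ρ e i : ℝ) 1) ^ (2 / 3 : ℝ) ≤
        (∏ i, tupsum_D s t e i + ∏ i, tupsum_U s t e i) / 2 := by
    intro e _
    refine tupsum_prod hs0 ht0 e (fun i => ((M : ℝ) / max (ρ e i : ℝ) 1) ^ (2 / 3 : ℝ))
      (fun i => by positivity) fun i => ?_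
    rcases hρ e i with h | ⟨k, hk, h⟩
    · left
      simp only [hs, h, tuplesum3_g]
    · right
      exact ⟨k, hk, by simp only [ht, h, tuplesum3_g]⟩
  refine (Finset.sum_le_sum h1).trans ?_
  rw [← Finset.sum_div, Finset.sum_add_distrib]
  linarith

end Pool.Agent.H29.Kap
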